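import Pool.Agent.Y558.C2.Ex

set_option autoImplicit false
set_option linter.unusedVariables false

/-! Models built from pieces of models. -/

namespace Pool.Agent.Y558.C2

open FirstOrder Set Filter
open Pool.Agent.H565R2.FO2 (pick pick_false pick_true pick_self pick_pick Interp Code toI ofI
  toI_ofI Iso bool_fun_cases)
open Pool.Agent.H565R2.CO (C2 Rl subs mem_subs subs_countable subs_trans Dat lab mkd dat ev ev_dat
  Md dat_map dat_not map_not_not mkd_l mkI Coh mkI_iff mkd_mkI)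

variable {L : FirstOrder.Language.{0, 0}} {Φ : C2 L}

/-- Criterion for a model given by data. -/
theorem crit {W : Type} {δ : W → W → Dat L} (hc : Coh δ)
    (h0 : ∀ u c ψ, ψ ∉ subs Φ → (δ u u).l false c ψ = 0) (hA : ∀ u w, ev Φ (δ u w))
    (hB : ∀ u c, ∀ ψ ∈ subs Φ,
      (δ u u).l false c ψ = Set.encard {w | ev ψ (cond c (δ u w) (δ w u))}) :
    ∀ u w, Rl (mkI δ) Φ u w ∧ D Φ (mkI δ) u w = δ u w := by
  classical
  have hm : ∀ u w, mkd (mkI δ) (fun u => (δ u u).l false) u w = δ u w := mkd_mkI hc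
  have key : ∀ ψ, subs ψ ⊆ subs Φ → ∀ u w, (ev ψ (δ u w) ↔ Rl (mkI δ) ψ u w) := by
    intro ψ
    induction ψ with
    | eq i j =>
      intro _ u w
      rw [← hm u w]
      simp only [ev, Rl, mkd]
      cases i <;> cases j <;> simp [pick, eq_comm]
    | rel R v =>
      intro _ u w
      rw [← hm u w]
      rfl
    | neg φ ih =>
      intro h u w
      simp only [ev, Rl]
      rw [ih ((subset_insert _ _).trans h)]
    | inf f ih =>
      intro h u w
      simp only [ev, Rl]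
      refine forall_congr' fun n => ih n ?_ u w
      exact (subset_iUnion (fun n => subs (f n)) n).trans ((subset_insert _ _).trans h)
    | ex b n φ ih =>
      intro h u w
      have hφ : subs φ ⊆ subs Φ := (subset_insert _ _).trans h
      cases b
      · have h1 : (δ u w).l true false φ = (δ w w).l false false φ := by
          rw [← hm u w]
          rfl
        simp only [ev, Rl]
        rw [h1, hB w false φ (hφ (mem_subs φ))]
        have : {w' | ev φ (cond false (δ w w') (δ w' w))} = {z | Rl (mkI δ) φ z w} := by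
          ext z; exact ih hφ z w
        rw [this]
      · have h1 : (δ u w).l false true φ = (δ u u).l false true φ := by
          rw [← hm u w]
          rfl
        simp only [ev, Rl]
        rw [h1, hB u true φ (hφ (mem_subs φ))]
        have : {w' | ev φ (cond true (δ u w') (δ w' u))} = {z | Rl (mkI δ) φ u z} := by
          ext z; exact ih hφ u z
        rw [this]
  have hlab : lab (mkI δ) (subs Φ) = fun u => (δ u u).l false := by
    funext u c ψ
    by_cases hψ : ψ ∈ subs Φ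
    · have hs : subs ψ ⊆ subs Φ := subs_trans hψ
      rw [hB u c ψ hψ]
      simp only [lab, if_pos hψ]
      cases c
      · simp only [cond_false]
        congr 1
        ext z; exact (key ψ hs z u).symm
      · simp only [cond_true]
        congr 1
        ext z; exact (key ψ hs u z).symm
    · rw [h0 u c ψ hψ]
      simp only [lab, if_neg hψ]
  intro u w
  refine ⟨(key Φ subset_rfl u w).1 (hA u w), ?_⟩
  show mkd (mkI δ) (lab (mkI δ) (subs Φ)) u w = δ u w
  rw [hlab]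
  exact hm u w

/-- the formula `θ(x, x)` -/
def dg0 (θ : C2 L) : C2 L := .ex true 1 (cj (.eq false true) θ)

theorem fo_dg0 {θ : C2 L} (h : θ ∈ fo) : dg0 θ ∈ fo := fo_ex _ _ (fo_cj (fo_eq _ _) h)

theorem Rl_dg0 {M : Type} {I : Interp L M} {θ : C2 L} {x y : M} :
    Rl I (dg0 θ) x y ↔ Rl I θ x x := by
  have h1 : {z | Rl I (cj (.eq false true) θ) x z} = {z | z = x ∧ Rl I θ x x} := by
    ext z
    show Rl I (cj (.eq false true) θ) x z ↔ _
    rw [Rl_cj]
    show x = z ∧ Rl I θ x z ↔ _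
    constructor
    · rintro ⟨rfl, h⟩
      exact ⟨rfl, h⟩
    · rintro ⟨rfl, h⟩
      exact ⟨rfl, h⟩
  show ((1 : ℕ) : ℕ∞) ≤ Set.encard {z | Rl I (cj (.eq false true) θ) x z} ↔ _
  rw [h1]
  constructor
  · intro h
    rw [Nat.cast_one, Set.one_le_encard_iff_nonempty] at h
    obtain ⟨z, -, hz⟩ := h
    exact hz
  · intro h
    rw [Nat.cast_one, Set.one_le_encard_iff_nonempty]
    exact ⟨x, rfl, h⟩

theorem alg_closed {I : Interp L ℕ} {a z : ℕ} {c : Bool} {ψ : C2 L} (ha : Alg I a) (hψ : ψ ∈ fo)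
    (hf : (Sl I c ψ a).Finite) (hz : z ∈ Sl I c ψ a) : Alg I z := by
  obtain ⟨θ, hθ, h1, h2⟩ := ha
  obtain ⟨m, hm⟩ : ∃ m : ℕ, (Sl I c ψ a).encard = m :=
    ⟨hf.toFinset.card, hf.encard_eq_coe_toFinset_card⟩
  have hle : ∀ A : Set ℕ, ¬ ((m + 1 : ℕ) : ℕ∞) ≤ A.encard → A.Finite := by
    intro A hA
    rw [not_le] at hA
    exact Set.encard_lt_top_iff.1 (lt_of_lt_of_le hA le_top)
  have hnm : ¬ ((m + 1 : ℕ) : ℕ∞) ≤ (Sl I c ψ a).encard := by
    rw [hm]
    intro h
    have : m + 1 ≤ m := by exact_mod_cast h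
    omega
  cases c
  · let χ : C2 L := .ex true 1 (cj (dg θ) (cj ψ (.neg (.ex false (m + 1) ψ))))
    have hχ : ∀ x y, Rl I χ x y ↔ ∃ w, Rl I θ w w ∧ Rl I ψ x w ∧
        ¬ ((m + 1 : ℕ) : ℕ∞) ≤ (Sl I false ψ w).encard := by
      intro x y
      show ((1 : ℕ) : ℕ∞) ≤ Set.encard {w | Rl I _ x w} ↔ _
      rw [Nat.cast_one, Set.one_le_encard_iff_nonempty]
      refine exists_congr fun w => ?_
      show Rl I _ x w ↔ _
      rw [Rl_cj, Rl_cj, Rl_dg]
      exact Iff.rfl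
    refine ⟨χ, fo_ex _ _ (fo_cj (fo_dg hθ) (fo_cj hψ (fo_neg (fo_ex _ _ hψ)))),
      (hχ z z).2 ⟨a, h1, hz, hnm⟩, ?_⟩
    have hsub : {z | Rl I χ z z} ⊆ ⋃ w ∈ {w | Rl I θ w w}, {z | z ∈ Sl I false ψ w ∧
        ¬ ((m + 1 : ℕ) : ℕ∞) ≤ (Sl I false ψ w).encard} := by
      intro x hx
      obtain ⟨w, hw1, hw2, hw3⟩ := (hχ x x).1 hx
      exact mem_iUnion₂.2 ⟨w, hw1, hw2, hw3⟩
    refine (h2.biUnion fun w _ => ?_).subset hsub
    by_cases hw : ((m + 1 : ℕ) : ℕ∞) ≤ (Sl I false ψ w).encard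
    · exact Set.Finite.subset Set.finite_empty fun x hx => hx.2 hw
    · exact (hle _ hw).subset fun x hx => hx.1
  · let χ : C2 L := .ex false 1 (cj (dg0 θ) (cj ψ (.neg (.ex true (m + 1) ψ))))
    have hχ : ∀ x y, Rl I χ x y ↔ ∃ w, Rl I θ w w ∧ Rl I ψ w y ∧
        ¬ ((m + 1 : ℕ) : ℕ∞) ≤ (Sl I true ψ w).encard := by
      intro x y
      show ((1 : ℕ) : ℕ∞) ≤ Set.encard {w | Rl I _ w y} ↔ _
      rw [Nat.cast_one, Set.one_le_encard_iff_nonempty]
      refine exists_congr fun w => ?_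
      show Rl I _ w y ↔ _
      rw [Rl_cj, Rl_cj, Rl_dg0]
      exact Iff.rfl
    refine ⟨χ, fo_ex _ _ (fo_cj (fo_dg0 hθ) (fo_cj hψ (fo_neg (fo_ex _ _ hψ)))),
      (hχ z z).2 ⟨a, h1, hz, hnm⟩, ?_⟩
    have hsub : {z | Rl I χ z z} ⊆ ⋃ w ∈ {w | Rl I θ w w}, {z | z ∈ Sl I true ψ w ∧
        ¬ ((m + 1 : ℕ) : ℕ∞) ≤ (Sl I true ψ w).encard} := by
      intro x hx
      obtain ⟨w, hw1, hw2, hw3⟩ := (hχ x x).1 hx
      exact mem_iUnion₂.2 ⟨w, hw1, hw2, hw3⟩
    refine (h2.biUnion fun w _ => ?_).subset hsub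
    by_cases hw : ((m + 1 : ℕ) : ℕ∞) ≤ (Sl I true ψ w).encard
    · exact Set.Finite.subset Set.finite_empty fun x hx => hx.2 hw
    · exact (hle _ hw).subset fun x hx => hx.1

/-- Models whose algebraic elements are enumerated by `A`, with given types, and with a given
theory. -/
structure Ext (Φ : C2 L) (A : Type) (τ : A → Dat L) (t : C2 L → ℕ∞) where
  I : Interp L ℕ
  hI : I ∈ Md Φ
  ι : A → ℕ
  inj : Function.Injective ι
  rng : ∀ x, Alg I x ↔ ∃ a, ι a = x
  ty : ∀ a, D Φ I (ι a) (ι a) = τ a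
  th : ∀ θ ∈ fo, Set.encard {z | Rl I θ z z} = t θ

/-- Blueprints for models. -/
structure Bp (Φ : C2 L) (A : Type) (τ : A → Dat L) (t : C2 L → ℕ∞) (W : Type) where
  B : Ext Φ A τ t
  E : W → Ext Φ A τ t
  x : W → ℕ
  nx : ∀ u, ¬ Alg (E u).I (x u)
  s : W → Equiv.Perm A
  hs : ∀ u a, τ (s u a) = τ a
  δ : W → W → Dat L
  d0 : ∀ u, δ u u = D Φ (E u).I (x u) (x u)
  de : ∀ u w, u ≠ w → ¬ (δ u w).e
  dn : ∀ u w, δ w u = (δ u w).map not
  da : ∀ u w, u ≠ w → (δ u w).map (fun _ => false) = D Φ (E u).I (x u) (x u)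
  dΦ : ∀ u w, ev Φ (δ u w)
  N : W → Set ℕ
  e : W → ℕ → W
  Na : ∀ u, ∀ z ∈ N u, ¬ Alg (E u).I z ∧ z ≠ x u
  ei : ∀ u, Set.InjOn (e u) (N u)
  eu : ∀ u, ∀ z ∈ N u, e u z ≠ u
  ed : ∀ u, ∀ z ∈ N u, δ u (e u z) = D Φ (E u).I (x u) z
  fr : ∀ u z, z ∉ N u → ¬ Alg (E u).I z → z ≠ x u → Fr (D Φ (E u).I (x u) z)
  fr' : ∀ u w, w ≠ u → w ∉ e u '' N u → Fr (δ u w)

namespace Bp

variable {A : Type} {τ : A → Dat L} {t : C2 L → ℕ∞} {W : Type} (P : Bp Φ A τ t W)

/-- the data of the model -/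
noncomputable def Δ : A ⊕ W → A ⊕ W → Dat L
  | .inl a, .inl b => D Φ P.B.I (P.B.ι a) (P.B.ι b)
  | .inl a, .inr u => D Φ (P.E u).I ((P.E u).ι (P.s u a)) (P.x u)
  | .inr u, .inl a => D Φ (P.E u).I (P.x u) ((P.E u).ι (P.s u a))
  | .inr u, .inr w => P.δ u w

/-- infinitely many solutions where there should be -/
structure Rich : Prop where
  w : ∀ u c, ∀ ψ ∈ fo, (P.δ u u).l false c ψ = ⊤ →
    {v : A ⊕ W | ev ψ (cond c (P.Δ (.inr u) v) (P.Δ v (.inr u)))}.Infinite
  a : ∀ a c, ∀ ψ ∈ fo, (τ a).l false c ψ = ⊤ →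
    {v : A ⊕ W | ev ψ (cond c (P.Δ (.inl a) v) (P.Δ v (.inl a)))}.Infinite

theorem coh : Coh P.Δ := by
  have tya : ∀ u a, D Φ (P.E u).I ((P.E u).ι (P.s u a)) ((P.E u).ι (P.s u a)) =
      D Φ P.B.I (P.B.ι a) (P.B.ι a) := fun u a => by
    rw [(P.E u).ty, P.hs, P.B.ty]
  have h0 : ∀ u w, (P.Δ u w).map (fun _ => false) = P.Δ u u := by
    rintro (a | u) (b | w)
    · exact dat_map _ _ _ _ _
    · show (dat _ _ _ _).map _ = _
      rw [dat_map]
      exact tya w a
    · show (dat _ _ _ _).map _ = P.δ u u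
      rw [dat_map, P.d0]
      rfl
    · show (P.δ u w).map _ = P.δ u u
      by_cases h : u = w
      · subst h
        rw [P.d0, dat_map]
        rfl
      · rw [P.da u w h, P.d0]
  have hn : ∀ u w, P.Δ w u = (P.Δ u w).map not := by
    rintro (a | u) (b | w)
    · exact (dat_not _ _ _ _).symm
    · exact (dat_not _ _ _ _).symm
    · exact (dat_not _ _ _ _).symm
    · exact P.dn u w
  have h1 : ∀ u w, (P.Δ u w).map (fun _ => true) = P.Δ w w := by
    intro u w
    rw [← h0 w u, hn u w, Dat.map_map]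
    rfl
  refine ⟨fun u w σ => ?_, ?_⟩
  · rcases bool_fun_cases σ with h2 | h2 | h2 | h2
    · subst h2
      exact (h0 u w).symm
    · subst h2
      exact (h1 u w).symm
    · subst h2
      exact (Dat.map_id _).symm
    · subst h2
      exact hn u w
  · rintro (a | u) (b | w)
    · show P.B.ι a = P.B.ι b ↔ _
      rw [Sum.inl.injEq]
      exact P.B.inj.eq_iff
    · show (P.E w).ι (P.s w a) = P.x w ↔ _
      refine ⟨fun h => ?_, fun h => by simp at h⟩
      exact absurd (((P.E w).rng _).2 ⟨_, h⟩) (P.nx w)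
    · show P.x u = (P.E u).ι (P.s u b) ↔ _
      refine ⟨fun h => ?_, fun h => by simp at h⟩
      exact absurd (((P.E u).rng _).2 ⟨_, h.symm⟩) (P.nx u)
    · show (P.δ u w).e ↔ _
      rw [Sum.inr.injEq]
      constructor
      · intro h
        by_contra hne
        exact P.de u w hne h
      · rintro rfl
        rw [P.d0]
        rfl

theorem finA (hΦ : Gd Φ) (a : A) (c : Bool) {ψ : C2 L} (hψ : ψ ∈ fo)
    (hne : (τ a).l false c ψ ≠ ⊤) : (τ a).l false c ψ =
      Set.encard {v : A ⊕ W | ev ψ (cond c (P.Δ (.inl a) v) (P.Δ v (.inl a)))} := by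
  have hl : ∀ (E : Ext Φ A τ t) (b : A), τ b = τ a →
      (Sl E.I c ψ (E.ι b)).encard = (τ a).l false c ψ := by
    intro E b hb
    rw [← hb, ← E.ty, hΦ.lab hψ]
    rfl
  have hfin : ∀ (E : Ext Φ A τ t) (b : A), τ b = τ a → (Sl E.I c ψ (E.ι b)).Finite := by
    intro E b hb
    rw [← Set.encard_ne_top_iff, hl E b hb]
    exact hne
  rw [← hl P.B a rfl]
  have h1 : Sl P.B.I c ψ (P.B.ι a) = P.B.ι '' {b | P.B.ι b ∈ Sl P.B.I c ψ (P.B.ι a)} := by
    ext z
    constructor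
    · intro hz
      obtain ⟨b, rfl⟩ := (P.B.rng z).1
        (alg_closed ((P.B.rng _).2 ⟨a, rfl⟩) hψ (hfin P.B a rfl) hz)
      exact ⟨b, hz, rfl⟩
    · rintro ⟨b, hb, rfl⟩
      exact hb
  have h2 : {v : A ⊕ W | ev ψ (cond c (P.Δ (.inl a) v) (P.Δ v (.inl a)))} =
      Sum.inl '' {b | P.B.ι b ∈ Sl P.B.I c ψ (P.B.ι a)} := by
    ext v
    constructor
    · rcases v with b | u
      · intro hv
        refine ⟨b, ?_, rfl⟩
        cases c
        · exact (hΦ.ev hψ _ _ _).1 hv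
        · exact (hΦ.ev hψ _ _ _).1 hv
      · intro hv
        exfalso
        have hmem : P.x u ∈ Sl (P.E u).I c ψ ((P.E u).ι (P.s u a)) := by
          cases c
          · exact (hΦ.ev hψ _ _ _).1 hv
          · exact (hΦ.ev hψ _ _ _).1 hv
        exact P.nx u (alg_closed (((P.E u).rng _).2 ⟨_, rfl⟩) hψ (hfin _ _ (P.hs u a)) hmem)
    · rintro ⟨b, hb, rfl⟩
      cases c
      · exact (hΦ.ev hψ _ _ _).2 hb
      · exact (hΦ.ev hψ _ _ _).2 hb
  rw [h1, h2, (P.B.inj.injOn).encard_image, (Sum.inl_injective.injOn).encard_image]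

open Classical in
/-- the copy of an element of the model -/
noncomputable def G (u : W) (z : ℕ) : A ⊕ W :=
  if h : Alg (P.E u).I z then .inl ((P.s u).symm (((P.E u).rng z).1 h).choose)
  else if z = P.x u then .inr u else .inr (P.e u z)

theorem G_alg (u : W) (a : A) : P.G u ((P.E u).ι (P.s u a)) = .inl a := by
  have h : Alg (P.E u).I ((P.E u).ι (P.s u a)) := ((P.E u).rng _).2 ⟨_, rfl⟩
  unfold G
  rw [dif_pos h]
  have h1 := (((P.E u).rng _).1 h).choose_spec
  have h2 := (P.E u).inj h1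
  rw [h2, Equiv.symm_apply_apply]

theorem G_x (u : W) : P.G u (P.x u) = .inr u := by
  unfold G
  rw [dif_neg (P.nx u), if_pos rfl]

theorem G_N (u : W) {z : ℕ} (hz : z ∈ P.N u) : P.G u z = .inr (P.e u z) := by
  unfold G
  rw [dif_neg (P.Na u z hz).1, if_neg (P.Na u z hz).2]

/-- the elements with a copy -/
def Dm (u : W) : Set ℕ := {z | Alg (P.E u).I z ∨ z = P.x u ∨ z ∈ P.N u}

theorem Δ_G (u : W) {z : ℕ} (hz : z ∈ P.Dm u) : P.Δ (.inr u) (P.G u z) =
    D Φ (P.E u).I (P.x u) z := by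
  rcases hz with h | rfl | h
  · obtain ⟨b, rfl⟩ := ((P.E u).rng z).1 h
    obtain ⟨a, rfl⟩ := (P.s u).surjective b
    rw [G_alg]
    rfl
  · rw [G_x]
    exact P.d0 u
  · rw [P.G_N u h]
    exact P.ed u z h

theorem Δ_not (v w : A ⊕ W) : P.Δ w v = (P.Δ v w).map not := P.coh.map v w not

theorem Δ_G' (u : W) {z : ℕ} (hz : z ∈ P.Dm u) : P.Δ (P.G u z) (.inr u) =
    D Φ (P.E u).I z (P.x u) := by
  rw [Δ_not, P.Δ_G u hz]
  exact dat_not _ _ _ _

theorem G_inj (u : W) : Set.InjOn (P.G u) (P.Dm u) := by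
  intro z hz z' hz' h
  have hd : D Φ (P.E u).I (P.x u) z = D Φ (P.E u).I (P.x u) z' := by
    rw [← P.Δ_G u hz, ← P.Δ_G u hz', h]
  rcases hz with h1 | rfl | h1
  · obtain ⟨b, rfl⟩ := ((P.E u).rng z).1 h1
    obtain ⟨a, rfl⟩ := (P.s u).surjective b
    rw [G_alg] at h
    rcases hz' with h2 | rfl | h2
    · obtain ⟨b', rfl⟩ := ((P.E u).rng z').1 h2
      obtain ⟨a', rfl⟩ := (P.s u).surjective b'
      rw [G_alg, Sum.inl.injEq] at h
      rw [h]
    · rw [G_x] at h
      simp at h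
    · rw [P.G_N u h2] at h
      simp at h
  · rcases hz' with h2 | h2 | h2
    · obtain ⟨b', rfl⟩ := ((P.E u).rng z').1 h2
      obtain ⟨a', rfl⟩ := (P.s u).surjective b'
      rw [G_alg, G_x] at h
      simp at h
    · exact h2.symm
    · rw [G_x, P.G_N u h2, Sum.inr.injEq] at h
      exact absurd h.symm (P.eu u z' h2)
  · rcases hz' with h2 | rfl | h2
    · obtain ⟨b', rfl⟩ := ((P.E u).rng z').1 h2
      obtain ⟨a', rfl⟩ := (P.s u).surjective b'
      rw [G_alg, P.G_N u h1] at h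
      simp at h
    · rw [G_x, P.G_N u h1, Sum.inr.injEq] at h
      exact absurd h (P.eu u z h1)
    · rw [P.G_N u h1, P.G_N u h2, Sum.inr.injEq] at h
      exact P.ei u h1 h2 h

theorem fr_top {d : Dat L} (h : Fr d) {c : Bool} {ψ : C2 L} (hψ : ψ ∈ fo)
    (hv : ev ψ (cond c d (d.map not))) : d.l false c ψ = ⊤ := by
  cases c
  · exact (h.b ψ hψ hv).2
  · exact (h.a ψ hψ hv).1

theorem finW (hΦ : Gd Φ) (u : W) (c : Bool) {ψ : C2 L} (hψ : ψ ∈ fo)
    (hne : (P.δ u u).l false c ψ ≠ ⊤) : (P.δ u u).l false c ψ =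
      Set.encard {v : A ⊕ W | ev ψ (cond c (P.Δ (.inr u) v) (P.Δ v (.inr u)))} := by
  have hl : (Sl (P.E u).I c ψ (P.x u)).encard = (P.δ u u).l false c ψ := by
    rw [P.d0, hΦ.lab hψ]
    rfl
  have hll : ∀ z, (D Φ (P.E u).I (P.x u) z).l false c ψ = (P.δ u u).l false c ψ := by
    intro z
    rw [P.d0]
    rfl
  have hdm : Sl (P.E u).I c ψ (P.x u) ⊆ P.Dm u := by
    intro z hz
    by_contra hc
    have h1 : ¬ Alg (P.E u).I z := fun h => hc (Or.inl h)
    have h2 : z ≠ P.x u := fun h => hc (Or.inr (Or.inl h))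
    have h3 : z ∉ P.N u := fun h => hc (Or.inr (Or.inr h))
    have h4 := P.fr u z h3 h1 h2
    refine hne ?_
    rw [← hll z]
    refine fr_top h4 hψ ?_
    cases c
    · show ev ψ ((dat _ _ _ _).map not)
      rw [dat_not]
      exact (hΦ.ev hψ _ _ _).2 hz
    · exact (hΦ.ev hψ _ _ _).2 hz
  rw [← hl]
  have h2 : {v : A ⊕ W | ev ψ (cond c (P.Δ (.inr u) v) (P.Δ v (.inr u)))} =
      P.G u '' Sl (P.E u).I c ψ (P.x u) := by
    ext v
    constructor
    · intro hv
      have hz : ∃ z ∈ P.Dm u, P.G u z = v := by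
        rcases v with a | w
        · exact ⟨_, Or.inl (((P.E u).rng _).2 ⟨_, rfl⟩), P.G_alg u a⟩
        · by_cases h1 : w = u
          · subst h1
            exact ⟨_, Or.inr (Or.inl rfl), P.G_x w⟩
          · by_cases h2 : w ∈ P.e u '' P.N u
            · obtain ⟨z, hz, rfl⟩ := h2
              exact ⟨z, Or.inr (Or.inr hz), P.G_N u hz⟩
            · exfalso
              have h3 := P.fr' u w h1 h2
              refine hne ?_
              have h4 : (P.δ u u).l false c ψ = (P.δ u w).l false c ψ := by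
                have := P.da u w (Ne.symm h1)
                rw [P.d0, ← this]
                rfl
              rw [h4]
              refine fr_top h3 hψ ?_
              cases c
              · show ev ψ ((P.δ u w).map not)
                rw [← P.dn u w]
                exact hv
              · exact hv
      obtain ⟨z, hz, rfl⟩ := hz
      refine ⟨z, ?_, rfl⟩
      cases c
      · have hv' : ev ψ (P.Δ (P.G u z) (.inr u)) := hv
        rw [P.Δ_G' u hz] at hv'
        exact (hΦ.ev hψ _ _ _).1 hv'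
      · have hv' : ev ψ (P.Δ (.inr u) (P.G u z)) := hv
        rw [P.Δ_G u hz] at hv'
        exact (hΦ.ev hψ _ _ _).1 hv'
    · rintro ⟨z, hz, rfl⟩
      cases c
      · show ev ψ (P.Δ (P.G u z) (.inr u))
        rw [P.Δ_G' u (hdm hz)]
        exact (hΦ.ev hψ _ _ _).2 hz
      · show ev ψ (P.Δ (.inr u) (P.G u z))
        rw [P.Δ_G u (hdm hz)]
        exact (hΦ.ev hψ _ _ _).2 hz
  rw [h2, ((P.G_inj u).mono hdm).encard_image]

end Bp

end Pool.Agent.Y558.C2
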