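import Pool.Agent.Y558.C2.Enm

set_option autoImplicit false
set_option linter.unusedVariables false
set_option linter.unusedSectionVars false

/-! Canonical amalgams of copies of a model. -/

namespace Pool.Agent.Y558.C2

open FirstOrder Set Filter MeasureTheory
open Pool.Agent.H565R2.FO2 (pick pick_false pick_true pick_self pick_pick Interp Code toI ofI
  toI_ofI Iso bool_fun_cases perfect_of_uncountable)
open Pool.Agent.H565R2.CO (C2 Rl subs mem_subs subs_countable subs_trans Dat lab mkd dat ev ev_dat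
  Md dat_map dat_not map_not_not mkd_l mkI Coh mkI_iff mkd_mkI Rl_iso dat_f dat_t dat_iso Al al_dat
  KI code code_inj meas_code meas_Rl meas_Md)
open Pool.Agent.H565R2.LO2 (PerfK perfK_of_inv iso_symm)

variable {L : FirstOrder.Language.{0, 0}} {Φ : C2 L}
variable {A : Type} {τ : A → Dat L} {t : C2 L → ℕ∞}

open Classical in
/-- the free datum -/
noncomputable def gn (Φ : C2 L) (p q : Dat L) : Dat L :=
  if h : ∃ d, Gen Φ p q d then h.choose else p

theorem gn_gen [∀ n, Countable (L.Relations n)] (hΦ : Gd Φ) {p q : Dat L} (hp : NT Φ τ t p)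
    (hq : NT Φ τ t q) : Gen Φ p q (gn Φ p q) := by
  have h := nt_gen hΦ hp hq
  unfold gn
  rw [dif_pos h]
  exact h.choose_spec

theorem gn_eq [∀ n, Countable (L.Relations n)] [Countable A] (hΦ : Gd Φ)
    (hP : ¬ PerfK {c : Code L | toI c ∈ Md Φ}) {p q d : Dat L} (hp : NT Φ τ t p)
    (hq : NT Φ τ t q) (h : Gen Φ p q d) : d = gn Φ p q :=
  gen_unique hΦ hP hp hq h (gn_gen hΦ hp hq)

theorem gn_not [∀ n, Countable (L.Relations n)] [Countable A] (hΦ : Gd Φ)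
    (hP : ¬ PerfK {c : Code L | toI c ∈ Md Φ}) {p q : Dat L} (hp : NT Φ τ t p)
    (hq : NT Φ τ t q) : gn Φ q p = (gn Φ p q).map not :=
  (gn_eq hΦ hP hq hp (gn_gen hΦ hp hq).not).symm

/-- free pairs of elements of a model -/
theorem gen_of_fr {I : Interp L ℕ} (hI : I ∈ Md Φ) {x y : ℕ} (hxy : x ≠ y)
    (h : Fr (D Φ I x y)) : Gen Φ (D Φ I x x) (D Φ I y y) (D Φ I x y) := by
  refine ⟨dat_f _ _ _ _, dat_t _ _ _ _, hxy, ev_Φ hI _ _, ?_, h⟩
  show ev Φ ((dat _ _ _ _).map not)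
  rw [dat_not]
  exact ev_Φ hI _ _

open Classical in
/-- the canonical decoration -/
noncomputable def ls (Φ : C2 L) (τ : A → Dat L) (t : C2 L → ℕ∞) (p : Dat L) (a : A) : Dat L :=
  if h : NT Φ τ t p then D Φ h.choose.I h.choose_spec.choose (h.choose.ι a) else p

theorem ls_perm (hΦ : Gd Φ) (E : Ext Φ A τ t) {x : ℕ} (hx : ¬ Alg E.I x) :
    ∃ g : Equiv.Perm A, (∀ a, τ (g a) = τ a) ∧
      ∀ a, D Φ E.I x (E.ι (g a)) = ls Φ τ t (D Φ E.I x x) a := by
  have h : NT Φ τ t (D Φ E.I x x) := ⟨E, x, hx, rfl⟩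
  obtain ⟨g, h1, h2⟩ := deco hΦ E h.choose (x := x) (x' := h.choose_spec.choose)
    h.choose_spec.choose_spec.2
  refine ⟨g, h1, fun a => ?_⟩
  rw [h2]
  unfold ls
  rw [dif_pos h]

/-! ### permutations -/

theorem exists_gk [Countable A] (τ : A → Dat L) : ∃ g : ℕ → Equiv.Perm A,
    (∀ k a, τ (g k a) = τ a) ∧ ∀ a b, τ b = τ a → {k | g k a = b}.Infinite := by
  classical
  rcases isEmpty_or_nonempty A with hA | hA
  · exact ⟨fun _ => 1, fun k a => rfl, fun a => hA.elim a⟩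
  · obtain ⟨f, hf⟩ := exists_surjective_nat (A × A × ℕ)
    refine ⟨fun k => if τ (f k).1 = τ (f k).2.1 then Equiv.swap (f k).1 (f k).2.1 else 1,
      fun k a => ?_, fun a b hab => ?_⟩
    · show τ ((if τ (f k).1 = τ (f k).2.1 then Equiv.swap (f k).1 (f k).2.1 else 1) a) = τ a
      by_cases h : τ (f k).1 = τ (f k).2.1
      · rw [if_pos h]
        by_cases h1 : a = (f k).1
        · rw [h1, Equiv.swap_apply_left, h]
        · by_cases h2 : a = (f k).2.1
          · rw [h2, Equiv.swap_apply_right, h]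
          · rw [Equiv.swap_apply_of_ne_of_ne h1 h2]
      · rw [if_neg h]
        rfl
    · choose s hs using fun n : ℕ => hf (a, b, n)
      have hinj : Function.Injective s := by
        intro n m h
        have h1 := hs n
        rw [h, hs m] at h1
        simp only [Prod.mk.injEq, true_and] at h1
        exact h1.symm
      refine (infinite_range_of_injective hinj).mono ?_
      rintro _ ⟨n, rfl⟩
      show (if τ (f (s n)).1 = τ (f (s n)).2.1 then Equiv.swap (f (s n)).1 (f (s n)).2.1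
        else 1) a = b
      rw [hs n, if_pos hab.symm, Equiv.swap_apply_left]

/-- unions of fibres -/
def Sat (τ : A → Dat L) (S : Set A) : Prop := ∀ a b, τ a = τ b → (a ∈ S ↔ b ∈ S)

open Classical in
/-- identity on a saturated set -/
noncomputable def pwp (S : Set A) (g : Equiv.Perm A) (hS : Sat τ S)
    (hg : ∀ a, τ (g a) = τ a) : Equiv.Perm A where
  toFun a := if a ∈ S then a else g a
  invFun a := if a ∈ S then a else g.symm a
  left_inv a := by
    by_cases h : a ∈ S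
    · simp only [if_pos h]
    · have h1 : g a ∉ S := fun h1 => h ((hS _ _ (hg a)).1 h1)
      simp only [if_neg h, if_neg h1, Equiv.symm_apply_apply]
  right_inv a := by
    by_cases h : a ∈ S
    · simp only [if_pos h]
    · have h1 : g.symm a ∉ S := by
        intro h1
        apply h
        have h2 := hg (g.symm a)
        rw [Equiv.apply_symm_apply] at h2
        exact (hS _ _ h2).2 h1
      simp only [if_neg h, if_neg h1, Equiv.apply_symm_apply]

theorem pwp_mem {S : Set A} {g : Equiv.Perm A} (hS : Sat τ S) (hg : ∀ a, τ (g a) = τ a) {a : A}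
    (h : a ∈ S) : pwp S g hS hg a = a := if_pos h

theorem pwp_not {S : Set A} {g : Equiv.Perm A} (hS : Sat τ S) (hg : ∀ a, τ (g a) = τ a) {a : A}
    (h : a ∉ S) : pwp S g hS hg a = g a := if_neg h

theorem pwp_ty {S : Set A} {g : Equiv.Perm A} (hS : Sat τ S) (hg : ∀ a, τ (g a) = τ a) (a : A) :
    τ (pwp S g hS hg a) = τ a := by
  by_cases h : a ∈ S
  · rw [pwp_mem hS hg h]
  · rw [pwp_not hS hg h, hg]

/-! ### richness when all elements have copies -/

theorem Bp.rich_all {W : Type} (P : Bp Φ A τ t W) (hΦ : Gd Φ)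
    (h1 : ∀ u z, ¬ Alg (P.E u).I z → z ≠ P.x u → z ∈ P.N u) (u : W) (c : Bool) {ψ : C2 L}
    (hψ : ψ ∈ fo) (ht : (P.δ u u).l false c ψ = ⊤) :
    {v : A ⊕ W | ev ψ (cond c (P.Δ (.inr u) v) (P.Δ v (.inr u)))}.Infinite := by
  have h3 : (Sl (P.E u).I c ψ (P.x u)).Infinite := by
    rw [P.d0, hΦ.lab hψ] at ht
    rw [← Set.encard_eq_top_iff]
    exact ht
  have h4 : Sl (P.E u).I c ψ (P.x u) ⊆ P.Dm u := by
    intro z _
    by_cases ha : Alg (P.E u).I z
    · exact Or.inl ha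
    · by_cases hz : z = P.x u
      · exact Or.inr (Or.inl hz)
      · exact Or.inr (Or.inr (h1 u z ha hz))
  have h5 : (P.G u '' Sl (P.E u).I c ψ (P.x u)).Infinite :=
    h3.image ((P.G_inj u).mono h4)
  refine h5.mono ?_
  rintro _ ⟨z, hz, rfl⟩
  cases c
  · show ev ψ (P.Δ (P.G u z) (.inr u))
    rw [P.Δ_G' u (h4 hz)]
    exact (hΦ.ev hψ _ _ _).2 hz
  · show ev ψ (P.Δ (.inr u) (P.G u z))
    rw [P.Δ_G u (h4 hz)]
    exact (hΦ.ev hψ _ _ _).2 hz

/-! ### the canonical amalgams -/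

/-- nonalgebraic elements -/
abbrev NA (E : Ext Φ A τ t) : Type := {x : ℕ // ¬ Alg E.I x}

section
variable [∀ n, Countable (L.Relations n)] [Countable A] (hΦ : Gd Φ)
  (hP : ¬ PerfK {c : Code L | toI c ∈ Md Φ}) (E0 E : Ext Φ A τ t) {S : Set A} (hS : Sat τ S)
  {g : ℕ → Equiv.Perm A} (hg : ∀ k a, τ (g k a) = τ a) (ν : ℕ ≃ ℕ × NA E)

/-- the permutation used for an element -/
noncomputable def hperm (x : NA E) : Equiv.Perm A := (ls_perm hΦ E x.2).choose

theorem hperm_ty (x : NA E) (a : A) : τ (hperm hΦ E x a) = τ a :=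
  (ls_perm hΦ E x.2).choose_spec.1 a

theorem hperm_ls (x : NA E) (a : A) :
    D Φ E.I x.1 (E.ι (hperm hΦ E x a)) = ls Φ τ t (D Φ E.I x.1 x.1) a :=
  (ls_perm hΦ E x.2).choose_spec.2 a

/-- the permutation used for a copy of an element -/
noncomputable def cperm (k : ℕ) (x : NA E) : Equiv.Perm A :=
  pwp S ((g k).trans (hperm hΦ E x)) hS (fun a => (hperm_ty hΦ E _ _).trans (hg _ _))

theorem cperm_ty (k : ℕ) (x : NA E) (a : A) : τ (cperm hΦ E hS hg k x a) = τ a :=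
  pwp_ty hS _ a

theorem cperm_mem (k : ℕ) (x : NA E) {a : A} (h : a ∈ S) : cperm hΦ E hS hg k x a = a :=
  if_pos h

theorem cperm_not (k : ℕ) (x : NA E) {a : A} (h : a ∉ S) :
    cperm hΦ E hS hg k x a = hperm hΦ E x (g k a) :=
  if_neg h

open Classical in
/-- the canonical amalgam -/
noncomputable def can : Bp Φ A τ t (ℕ × ℕ) where
  B := E0
  E _ := E
  x u := (ν u.2).2.1
  nx u := (ν u.2).2.2
  s u := cperm hΦ E hS hg u.1 (ν u.2).2
  hs u a := cperm_ty hΦ E hS hg _ _ a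
  δ u w := if u.1 = w.1 ∧ (ν u.2).1 = (ν w.2).1 then D Φ E.I (ν u.2).2.1 (ν w.2).2.1
    else gn Φ (D Φ E.I (ν u.2).2.1 (ν u.2).2.1) (D Φ E.I (ν w.2).2.1 (ν w.2).2.1)
  d0 u := if_pos ⟨rfl, rfl⟩
  de u w hne := by
    by_cases h : u.1 = w.1 ∧ (ν u.2).1 = (ν w.2).1
    · rw [if_pos h]
      intro hc
      have hc' : (ν u.2).2.1 = (ν w.2).2.1 := hc
      apply hne
      have h1 : ν u.2 = ν w.2 := Prod.ext h.2 (Subtype.ext hc')
      exact Prod.ext h.1 (ν.injective h1)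
    · rw [if_neg h]
      exact (gn_gen hΦ (t := t) (τ := τ) ⟨E, _, (ν u.2).2.2, rfl⟩ ⟨E, _, (ν w.2).2.2, rfl⟩).ne
  dn u w := by
    by_cases h : u.1 = w.1 ∧ (ν u.2).1 = (ν w.2).1
    · rw [if_pos h, if_pos ⟨h.1.symm, h.2.symm⟩]
      exact (dat_not _ _ _ _).symm
    · rw [if_neg h, if_neg (fun h' => h ⟨h'.1.symm, h'.2.symm⟩)]
      exact gn_not hΦ hP (t := t) (τ := τ) ⟨E, _, (ν u.2).2.2, rfl⟩ ⟨E, _, (ν w.2).2.2, rfl⟩
  da u w hne := by
    by_cases h : u.1 = w.1 ∧ (ν u.2).1 = (ν w.2).1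
    · rw [if_pos h]
      exact dat_f _ _ _ _
    · rw [if_neg h]
      exact (gn_gen hΦ (t := t) (τ := τ) ⟨E, _, (ν u.2).2.2, rfl⟩ ⟨E, _, (ν w.2).2.2, rfl⟩).h0
  dΦ u w := by
    by_cases h : u.1 = w.1 ∧ (ν u.2).1 = (ν w.2).1
    · rw [if_pos h]
      exact ev_Φ E.hI _ _
    · rw [if_neg h]
      exact (gn_gen hΦ (t := t) (τ := τ) ⟨E, _, (ν u.2).2.2, rfl⟩ ⟨E, _, (ν w.2).2.2, rfl⟩).e1
  N u := {z | ¬ Alg E.I z ∧ z ≠ (ν u.2).2.1}
  e u z := if h : ¬ Alg E.I z then (u.1, ν.symm ((ν u.2).1, ⟨z, h⟩)) else u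
  Na u z hz := hz
  ei u z hz z' hz' h := by
    simp only [dif_pos hz.1, dif_pos hz'.1, Prod.mk.injEq, true_and] at h
    have h1 := ν.symm.injective h
    exact congrArg (fun p : ℕ × NA E => p.2.1) h1
  eu u z hz h := by
    simp only [dif_pos hz.1] at h
    have h1 : ν.symm ((ν u.2).1, ⟨z, hz.1⟩) = u.2 := congrArg Prod.snd h
    rw [Equiv.symm_apply_eq] at h1
    exact hz.2 (congrArg (fun p : ℕ × NA E => p.2.1) h1)
  ed u z hz := by
    simp only [dif_pos hz.1, Equiv.apply_symm_apply, and_self, if_true]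
  fr u z hz h1 h2 := absurd ⟨h1, h2⟩ hz
  fr' u w hne hw := by
    have h : ¬ (u.1 = w.1 ∧ (ν u.2).1 = (ν w.2).1) := by
      rintro ⟨h1, h2⟩
      refine hw ⟨(ν w.2).2.1, ⟨(ν w.2).2.2, fun h3 => hne ?_⟩, ?_⟩
      · have h4 : ν w.2 = ν u.2 := Prod.ext h2.symm (Subtype.ext h3)
        exact Prod.ext h1.symm (ν.injective h4)
      · simp only [dif_pos (ν w.2).2.2]
        refine Prod.ext h1 ?_
        show ν.symm ((ν u.2).1, ⟨(ν w.2).2.1, _⟩) = w.2
        rw [Equiv.symm_apply_eq, h2]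
    rw [if_neg h]
    exact (gn_gen hΦ (t := t) (τ := τ) ⟨E, _, (ν u.2).2.2, rfl⟩ ⟨E, _, (ν w.2).2.2, rfl⟩).fr

theorem can_same (k n n' : ℕ) (h : (ν n).1 = (ν n').1) :
    (can hΦ hP E0 E hS hg ν).Δ (.inr (k, n)) (.inr (k, n')) = D Φ E.I (ν n).2.1 (ν n').2.1 :=
  if_pos ⟨rfl, h⟩

theorem can_diff (u w : ℕ × ℕ) (h : ¬ (u.1 = w.1 ∧ (ν u.2).1 = (ν w.2).1)) :
    (can hΦ hP E0 E hS hg ν).Δ (.inr u) (.inr w) =
      gn Φ (D Φ E.I (ν u.2).2.1 (ν u.2).2.1) (D Φ E.I (ν w.2).2.1 (ν w.2).2.1) :=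
  if_neg h

theorem can_dec (u : ℕ × ℕ) (a : A) (h : a ∈ S) :
    (can hΦ hP E0 E hS hg ν).Δ (.inr u) (.inl a) = D Φ E.I (ν u.2).2.1 (E.ι a) := by
  show D Φ E.I _ (E.ι (cperm hΦ E hS hg u.1 (ν u.2).2 a)) = _
  rw [cperm_mem hΦ E hS hg _ _ h]
  rfl

theorem can_dec' (u : ℕ × ℕ) (a : A) (h : a ∉ S) :
    (can hΦ hP E0 E hS hg ν).Δ (.inr u) (.inl a) =
      ls Φ τ t (D Φ E.I (ν u.2).2.1 (ν u.2).2.1) (g u.1 a) := by
  show D Φ E.I _ (E.ι (cperm hΦ E hS hg u.1 (ν u.2).2 a)) = _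
  rw [cperm_not hΦ E hS hg _ _ h]
  exact hperm_ls hΦ E _ _

theorem can_rich (hgi : ∀ a b, τ b = τ a → {k | g k a = b}.Infinite) :
    (can hΦ hP E0 E hS hg ν).Rich := by
  refine ⟨fun u c ψ hψ ht => Bp.rich_all (can hΦ hP E0 E hS hg ν) hΦ
    (fun u z h1 h2 => ⟨h1, h2⟩) u c hψ ht,
    fun a c ψ hψ ht => ?_⟩
  by_cases hf : {b | Rl E0.I ψ (cond c (E0.ι a) (E0.ι b)) (cond c (E0.ι b) (E0.ι a))}.Infinite
  · refine (hf.image (Sum.inl_injective (β := ℕ × ℕ)).injOn).mono ?_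
    rintro _ ⟨b, hb, rfl⟩
    cases c
    · exact (hΦ.ev hψ _ _ _).2 hb
    · exact (hΦ.ev hψ _ _ _).2 hb
  · have hf' : ¬ {b | Rl E.I ψ (cond c (E.ι a) (E.ι b)) (cond c (E.ι b) (E.ι a))}.Infinite :=
      fun h => hf (alg_inf hΦ E E0 a c hψ h)
    have h3 : (Sl E.I c ψ (E.ι a)).Infinite := by
      rw [← E.ty a, hΦ.lab hψ] at ht
      rw [← Set.encard_eq_top_iff]
      exact ht
    obtain ⟨z, hz, hzn⟩ : ∃ z ∈ Sl E.I c ψ (E.ι a), ¬ Alg E.I z := by
      by_contra hcon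
      push Not at hcon
      choose f hf using fun z : Sl E.I c ψ (E.ι a) => (E.rng z.1).1 (hcon z.1 z.2)
      have hinj : Function.Injective f := by
        intro z z' h
        apply Subtype.ext
        rw [← hf z, ← hf z', h]
      have := h3.to_subtype
      apply hf'
      refine (infinite_range_of_injective hinj).mono ?_
      rintro _ ⟨z, rfl⟩
      show Rl E.I ψ (cond c (E.ι a) (E.ι (f z))) (cond c (E.ι (f z)) (E.ι a))
      rw [hf z]
      exact z.2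
    -- copies of `z` with the right decoration
    have hk : {k : ℕ | cperm hΦ E hS hg k ⟨z, hzn⟩ a = a}.Infinite := by
      by_cases ha : a ∈ S
      · have : {k : ℕ | cperm hΦ E hS hg k ⟨z, hzn⟩ a = a} = univ :=
          eq_univ_of_forall fun k => cperm_mem hΦ E hS hg _ _ ha
        rw [this]
        exact infinite_univ
      · have hb : τ ((hperm hΦ E ⟨z, hzn⟩).symm a) = τ a := by
          have := hperm_ty hΦ E ⟨z, hzn⟩ ((hperm hΦ E ⟨z, hzn⟩).symm a)
          rw [Equiv.apply_symm_apply] at this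
          exact this.symm
        refine (hgi a _ hb).mono ?_
        intro k hk
        show cperm hΦ E hS hg k ⟨z, hzn⟩ a = a
        rw [cperm_not hΦ E hS hg _ _ ha]
        have hk' : g k a = (hperm hΦ E ⟨z, hzn⟩).symm a := hk
        rw [hk', Equiv.apply_symm_apply]
    have hinj : Function.Injective fun k : ℕ =>
        (Sum.inr (k, ν.symm (0, ⟨z, hzn⟩)) : A ⊕ (ℕ × ℕ)) := by
      intro k k' h
      exact congrArg Prod.fst (Sum.inr_injective h)
    refine (hk.image hinj.injOn).mono ?_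
    rintro _ ⟨k, hk, rfl⟩
    have hνz : (ν (ν.symm (0, (⟨z, hzn⟩ : NA E)))).2 = ⟨z, hzn⟩ := by
      rw [Equiv.apply_symm_apply]
    have h1 : (can hΦ hP E0 E hS hg ν).Δ (.inl a) (.inr (k, ν.symm (0, ⟨z, hzn⟩))) =
        D Φ E.I (E.ι a) z := by
      show D Φ E.I (E.ι (cperm hΦ E hS hg k (ν (ν.symm (0, ⟨z, hzn⟩))).2 a))
        (ν (ν.symm (0, ⟨z, hzn⟩))).2.1 = _
      have hk' : cperm hΦ E hS hg k ⟨z, hzn⟩ a = a := hk
      have e1 : ∀ y : NA E, y = ⟨z, hzn⟩ →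
          D Φ E.I (E.ι (cperm hΦ E hS hg k y a)) y.1 = D Φ E.I (E.ι a) z := by
        rintro y rfl
        rw [hk']
      exact e1 _ hνz
    cases c
    · show ev ψ ((can hΦ hP E0 E hS hg ν).Δ (.inr _) (.inl a))
      rw [Bp.Δ_not _ (.inl a), h1]
      show ev ψ ((dat _ _ _ _).map not)
      rw [dat_not]
      exact (hΦ.ev hψ _ _ _).2 hz
    · show ev ψ ((can hΦ hP E0 E hS hg ν).Δ (.inl a) (.inr _))
      rw [h1]
      exact (hΦ.ev hψ _ _ _).2 hz

end

end Pool.Agent.Y558.C2
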