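import Pool.Agent.Y558.C2.Can
import Pool.Agent.H579R3.VP

set_option autoImplicit false
set_option linter.unusedVariables false
set_option linter.unusedSectionVars false

/-! The class of the structures of nonfree pairs of canonical models. -/

namespace Pool.Agent.Y558.C2

open FirstOrder Set Filter MeasureTheory
open Pool.Agent.H565R2.FO2 (pick pick_false pick_true pick_self pick_pick Interp Code toI ofI
  toI_ofI Iso bool_fun_cases perfect_of_uncountable)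
open Pool.Agent.H565R2.CO (C2 Rl subs mem_subs subs_countable subs_trans Dat lab mkd dat ev ev_dat
  Md dat_map dat_not map_not_not mkd_l mkI Coh mkI_iff mkd_mkI Rl_iso dat_f dat_t dat_iso Al al_dat
  KI code code_inj meas_code meas_Rl meas_Md)
open Pool.Agent.H565R2.LO2 (PerfK perfK_of_inv iso_symm)
open Pool.Agent.H623R2.VE (Adj Conn CIso CEq pull pull_ciso GIso CovE Cov Pw Perf)

variable {L : FirstOrder.Language.{0, 0}} {Φ : C2 L}
variable {A : Type} {τ : A → Dat L} {t : C2 L → ℕ∞}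

/-- relational structures -/
abbrev VI {Idx : Type} (a : Idx → ℕ) (M : Type) : Type := Pool.Agent.H623R2.VE.Interp a M

/-- codes of relational structures -/
abbrev VC {Idx : Type} (a : Idx → ℕ) : Type := Pool.Agent.H623R2.VE.Code a

/-- relation symbols for the data -/
abbrev IX (Φ : C2 L) (A : Type) : Type := ↥(Al Φ) ⊕ (A × ↥(Al Φ)) ⊕ ↥(Al Φ)

/-- arities -/
def ar {Φ : C2 L} {A : Type} : IX Φ A → ℕ
  | .inl _ => 1
  | .inr (.inl _) => 1
  | .inr (.inr _) => 2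

/-- the structure of the nonfree pairs -/
def nst (Φ : C2 L) {V : Type} (real : V → Prop) (δ : V → V → Dat L) (lam : V → A → Dat L)
    (S : Set A) : VI (ar (Φ := Φ) (A := A)) V := fun i =>
  match i with
  | .inl d => fun s => real (s (0 : Fin 1)) ∧ δ (s (0 : Fin 1)) (s (0 : Fin 1)) = d.1
  | .inr (.inl p) => fun s => real (s (0 : Fin 1)) ∧ p.1 ∈ S ∧ lam (s (0 : Fin 1)) p.1 = p.2.1
  | .inr (.inr d) => fun s => real (s (0 : Fin 2)) ∧ real (s (1 : Fin 2)) ∧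
      s (0 : Fin 2) ≠ s (1 : Fin 2) ∧ ¬ Fr d.1 ∧ δ (s (0 : Fin 2)) (s (1 : Fin 2)) = d.1

theorem adj_nst {V : Type} {real : V → Prop} {δ : V → V → Dat L} {lam : V → A → Dat L}
    {S : Set A} {x y : V} (h : Adj (nst Φ real δ lam S) x y) :
    x = y ∨ (real x ∧ real y ∧ x ≠ y ∧ (¬ Fr (δ x y) ∨ ¬ Fr (δ y x))) := by
  obtain ⟨i, s, hs, ⟨k, hk⟩, ⟨l, hl⟩⟩ := h
  rcases i with d | p | d
  · left
    rw [← hk, ← hl]
    exact congrArg s (Subsingleton.elim (α := Fin 1) k l)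
  · left
    rw [← hk, ← hl]
    exact congrArg s (Subsingleton.elim (α := Fin 1) k l)
  · obtain ⟨h1, h2, h3, h4, h5⟩ := hs
    have hk2 : ∀ k : Fin 2, k = 0 ∨ k = 1 := by decide
    rcases hk2 k with rfl | rfl <;> rcases hk2 l with rfl | rfl
    · left; rw [← hk, ← hl]
    · right
      rw [← hk, ← hl]
      exact ⟨h1, h2, h3, Or.inl (by rw [h5]; exact h4)⟩
    · right
      rw [← hk, ← hl]
      exact ⟨h2, h1, Ne.symm h3, Or.inr (by rw [h5]; exact h4)⟩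
    · left; rw [← hk, ← hl]

theorem pull_nst {V V' : Type} {real : V → Prop} {δ : V → V → Dat L} {lam : V → A → Dat L}
    {S : Set A} (f : V' → V) (hf : Function.Injective f) :
    pull (nst Φ real δ lam S) f =
      nst Φ (fun x => real (f x)) (fun x y => δ (f x) (f y)) (fun x => lam (f x)) S := by
  funext i s
  apply propext
  rcases i with d | p | d
  · exact Iff.rfl
  · exact Iff.rfl
  · show (_ ∧ _ ∧ f (s (0 : Fin 2)) ≠ f (s (1 : Fin 2)) ∧ _ ∧ _) ↔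
      (_ ∧ _ ∧ s (0 : Fin 2) ≠ s (1 : Fin 2) ∧ _ ∧ _)
    rw [hf.ne_iff]

/-- the structure of a model -/
def nE (E : Ext Φ A τ t) (S : Set A) : VI (ar (Φ := Φ) (A := A)) ℕ :=
  nst Φ (fun x => ¬ Alg E.I x) (D Φ E.I) (fun x a => D Φ E.I x (E.ι a)) S

/-- the structure of the nonalgebraic elements of a model -/
def nN (E : Ext Φ A τ t) (S : Set A) : VI (ar (Φ := Φ) (A := A)) (NA E) :=
  nst Φ (fun _ => True) (fun x y => D Φ E.I x.1 y.1) (fun x a => D Φ E.I x.1 (E.ι a)) S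

theorem ceq_nN (E : Ext Φ A τ t) (S : Set A) (z : NA E) : CEq (nN E S) z (nE E S) z.1 := by
  have h := pull_ciso (nE E S) (Subtype.val : NA E → ℕ) Subtype.val_injective (fun u x h => by
    rcases adj_nst h with h | h
    · exact ⟨u, h⟩
    · exact ⟨⟨x, h.2.1⟩, rfl⟩) z
  have e : pull (nE E S) (Subtype.val : NA E → ℕ) = nN E S := by
    unfold nE nN
    rw [pull_nst _ Subtype.val_injective]
    funext i s
    apply propext
    rcases i with d | p | d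
    · show (¬ Alg E.I (s (0 : Fin 1)).1 ∧ _) ↔ (True ∧ _)
      simp only [(s (0 : Fin 1)).2, not_false_eq_true]
    · show (¬ Alg E.I (s (0 : Fin 1)).1 ∧ _) ↔ (True ∧ _)
      simp only [(s (0 : Fin 1)).2, not_false_eq_true]
    · show (¬ Alg E.I (s (0 : Fin 2)).1 ∧ ¬ Alg E.I (s (1 : Fin 2)).1 ∧ _) ↔ (True ∧ True ∧ _)
      simp only [(s (0 : Fin 2)).2, (s (1 : Fin 2)).2, not_false_eq_true]
  rw [e] at h
  exact CEq.of_ciso h

/-! ### canonical codes -/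

/-- the data of a code -/
noncomputable def dc (Φ : C2 L) (e : ℕ ≃ A ⊕ (ℕ × ℕ)) (c : Code L) (v w : A ⊕ (ℕ × ℕ)) : Dat L :=
  D Φ (toI c) (e.symm v) (e.symm w)

/-- the structure of the nonfree pairs of a canonical code -/
noncomputable def n0 (Φ : C2 L) (e : ℕ ≃ A ⊕ (ℕ × ℕ)) (S : Set A) (c : Code L) :
    VI (ar (Φ := Φ) (A := A)) ℕ :=
  nst Φ (fun _ => True) (fun n n' => dc Φ e c (.inr (0, n)) (.inr (0, n')))
    (fun n a => dc Φ e c (.inr (0, n)) (.inl a)) S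

/-- canonical codes -/
structure Cn (E0 : Ext Φ A τ t) (S : Set A) (g : ℕ → Equiv.Perm A) (e : ℕ ≃ A ⊕ (ℕ × ℕ))
    (c : Code L) : Prop where
  m : toI c ∈ Md Φ
  th : ∀ θ ∈ fo, Set.encard {z | Rl (toI c) θ z z} = t θ
  c1 : ∀ a b, dc Φ e c (.inl a) (.inl b) = D Φ E0.I (E0.ι a) (E0.ι b)
  na : ∀ n, ¬ AlgT (dc Φ e c (.inr (0, n)) (.inr (0, n)))
  c3 : ∀ k n n', dc Φ e c (.inr (k, n)) (.inr (k, n')) = dc Φ e c (.inr (0, n)) (.inr (0, n'))
  c4 : ∀ k l n n', k ≠ l → Fr (dc Φ e c (.inr (k, n)) (.inr (l, n')))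
  c5 : ∀ a ∈ S, ∀ k n, dc Φ e c (.inr (k, n)) (.inl a) = dc Φ e c (.inr (0, n)) (.inl a)
  c6 : ∀ a, a ∉ S → ∀ k n, dc Φ e c (.inr (k, n)) (.inl a) =
    ls Φ τ t (dc Φ e c (.inr (k, n)) (.inr (k, n))) (g k a)

theorem Bp.dc_code {W : Type} {P : Bp Φ A τ t (ℕ × ℕ)} (hΦ : Gd Φ) (hR : P.Rich)
    (e : ℕ ≃ A ⊕ (ℕ × ℕ)) (v w : A ⊕ (ℕ × ℕ)) : dc Φ e (P.code e) v w = P.Δ v w := by
  unfold dc
  rw [P.code_D hΦ hR, Equiv.apply_symm_apply, Equiv.apply_symm_apply]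

theorem Bp.code_th {W : Type} (P : Bp Φ A τ t W) (hΦ : Gd Φ) (hR : P.Rich) (e : ℕ ≃ A ⊕ W) :
    ∀ θ ∈ fo, Set.encard {z | Rl (toI (P.code e)) θ z z} = t θ := by
  intro θ hθ
  have h1 := lab_dg hΦ hθ (toI (P.code e)) 0 0 false
  rw [← h1, P.code_D hΦ hR]
  rcases e 0 with a | u
  · show (D Φ P.B.I _ _).l false true (dg θ) = _
    rw [lab_dg hΦ hθ, P.B.th θ hθ]
  · show (P.δ u u).l false true (dg θ) = _
    rw [P.d0, lab_dg hΦ hθ, (P.E u).th θ hθ]

section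
variable [∀ n, Countable (L.Relations n)] [Countable A] (hΦ : Gd Φ)
  (hP : ¬ PerfK {c : Code L | toI c ∈ Md Φ}) (E0 : Ext Φ A τ t) {S : Set A} (hS : Sat τ S)
  {g : ℕ → Equiv.Perm A} (hg : ∀ k a, τ (g k a) = τ a)
  (hgi : ∀ a b, τ b = τ a → {k | g k a = b}.Infinite) (e : ℕ ≃ A ⊕ (ℕ × ℕ))

include hgi in
theorem can_cn (E : Ext Φ A τ t) (ν : ℕ ≃ ℕ × NA E) :
    Cn E0 S g e ((can hΦ hP E0 E hS hg ν).code e) := by
  have hR := can_rich hΦ hP E0 E hS hg ν hgi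
  have hd : ∀ v w, dc Φ e ((can hΦ hP E0 E hS hg ν).code e) v w =
      (can hΦ hP E0 E hS hg ν).Δ v w := fun v w => Bp.dc_code (W := ℕ × ℕ) hΦ hR e v w
  have hself : ∀ k n, (can hΦ hP E0 E hS hg ν).Δ (.inr (k, n)) (.inr (k, n)) =
      D Φ E.I (ν n).2.1 (ν n).2.1 := fun k n => can_same hΦ hP E0 E hS hg ν k n n rfl
  refine ⟨Bp.code_mem _ hΦ hR e, Bp.code_th _ hΦ hR e, fun a b => ?_, fun n => ?_,
    fun k n n' => ?_, fun k l n n' hkl => ?_, fun a ha k n => ?_, fun a ha k n => ?_⟩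
  · rw [hd]
    rfl
  · rw [hd, hself, ← alg_iff hΦ]
    exact (ν n).2.2
  · rw [hd, hd]
    by_cases h : (ν n).1 = (ν n').1
    · rw [can_same hΦ hP E0 E hS hg ν k n n' h, can_same hΦ hP E0 E hS hg ν 0 n n' h]
    · rw [can_diff hΦ hP E0 E hS hg ν (k, n) (k, n') (fun h' => h h'.2),
        can_diff hΦ hP E0 E hS hg ν (0, n) (0, n') (fun h' => h h'.2)]
  · rw [hd, can_diff hΦ hP E0 E hS hg ν (k, n) (l, n') (fun h' => hkl h'.1)]
    exact (gn_gen hΦ (t := t) (τ := τ) ⟨E, _, (ν n).2.2, rfl⟩ ⟨E, _, (ν n').2.2, rfl⟩).fr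
  · rw [hd, hd, can_dec hΦ hP E0 E hS hg ν _ a ha, can_dec hΦ hP E0 E hS hg ν _ a ha]
  · rw [hd, hd, can_dec' hΦ hP E0 E hS hg ν _ a ha, hself]

variable {E0 e}

/-- canonical codes are codes of models of the theory -/
noncomputable def extc {c : Code L} (hc : Cn E0 S g e c) : Ext Φ A τ t where
  I := toI c
  hI := hc.m
  ι a := e.symm (.inl a)
  inj a b h := Sum.inl_injective (e.symm.injective h)
  rng x := by
    obtain ⟨v, rfl⟩ := e.symm.surjective x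
    rw [alg_iff hΦ]
    rcases v with a | ⟨k, n⟩
    · refine ⟨fun _ => ⟨a, rfl⟩, fun _ => ?_⟩
      have h1 := hc.c1 a a
      unfold dc at h1
      rw [h1, ← alg_iff hΦ, E0.rng]
      exact ⟨a, rfl⟩
    · constructor
      · intro h
        have h1 := hc.c3 k n n
        have h2 := hc.na n
        unfold dc at h1 h2
        rw [h1] at h
        exact absurd h h2
      · rintro ⟨a, h⟩
        exact absurd (e.symm.injective h) (by simp)
  ty a := by
    rw [← E0.ty a]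
    exact hc.c1 a a
  th := hc.th

include hΦ in
theorem dc_nt {c : Code L} (hc : Cn E0 S g e c) (k n : ℕ) :
    NT Φ τ t (dc Φ e c (.inr (k, n)) (.inr (k, n))) := by
  refine ⟨extc hΦ hc, e.symm (.inr (k, n)), ?_, rfl⟩
  rw [(extc hΦ hc).rng]
  rintro ⟨a, h⟩
  exact absurd (e.symm.injective h) (by simp)

theorem dc_not (c : Code L) (v w : A ⊕ (ℕ × ℕ)) : dc Φ e c w v = (dc Φ e c v w).map not :=
  (dat_not _ _ _ _).symm

include hΦ in
/-- equal data in a model of structures -/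
theorem eq_data_of_free {c c' : Code L} (hc : Cn E0 S g e c)
    (hc' : Cn E0 S g e c') {v w : ℕ × ℕ} (hvw : v ≠ w)
    (h1 : dc Φ e c (.inr v) (.inr v) = dc Φ e c' (.inr v) (.inr v))
    (h2 : dc Φ e c (.inr w) (.inr w) = dc Φ e c' (.inr w) (.inr w))
    (f1 : Fr (dc Φ e c (.inr v) (.inr w))) (f2 : Fr (dc Φ e c' (.inr v) (.inr w)))
    (hPK : ¬ PerfK {c : Code L | toI c ∈ Md Φ}) :
    dc Φ e c (.inr v) (.inr w) = dc Φ e c' (.inr v) (.inr w) := by
  have hne : e.symm (.inr v) ≠ e.symm (.inr w) := fun h =>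
    hvw (Sum.inr_injective (e.symm.injective h))
  have g1 := gen_of_fr hc.m hne f1
  have g2 := gen_of_fr hc'.m hne f2
  have e1 : D Φ (toI c') (e.symm (.inr v)) (e.symm (.inr v)) =
      D Φ (toI c) (e.symm (.inr v)) (e.symm (.inr v)) := h1.symm
  have e2 : D Φ (toI c') (e.symm (.inr w)) (e.symm (.inr w)) =
      D Φ (toI c) (e.symm (.inr w)) (e.symm (.inr w)) := h2.symm
  rw [e1, e2] at g2
  exact gen_unique hΦ hPK (dc_nt hΦ hc v.1 v.2) (dc_nt hΦ hc w.1 w.2) g1 g2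

include hΦ in
theorem dc_eq_of_n0 {c c' : Code L} (hc : Cn E0 S g e c)
    (hc' : Cn E0 S g e c') (h : n0 Φ e S c = n0 Φ e S c')
    (hPK : ¬ PerfK {c : Code L | toI c ∈ Md Φ}) (v w : A ⊕ (ℕ × ℕ)) :
    dc Φ e c v w = dc Φ e c' v w := by
  have hal : ∀ v w, dc Φ e c v w ∈ Al Φ := fun v w => al_dat hc.m _ _
  have hal' : ∀ v w, dc Φ e c' v w ∈ Al Φ := fun v w => al_dat hc'.m _ _
  have hV : ∀ n, dc Φ e c (.inr (0, n)) (.inr (0, n)) = dc Φ e c' (.inr (0, n)) (.inr (0, n)) := by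
    intro n
    have h1 : n0 Φ e S c (.inl ⟨_, hal (.inr (0, n)) (.inr (0, n))⟩) (fun _ => n) :=
      ⟨trivial, rfl⟩
    rw [h] at h1
    exact h1.2.symm
  have hVk : ∀ k n, dc Φ e c (.inr (k, n)) (.inr (k, n)) =
      dc Φ e c' (.inr (k, n)) (.inr (k, n)) := by
    intro k n
    rw [hc.c3, hc'.c3, hV]
  have hR : ∀ n n', n ≠ n' → dc Φ e c (.inr (0, n)) (.inr (0, n')) =
      dc Φ e c' (.inr (0, n)) (.inr (0, n')) := by
    intro n n' hnn
    by_cases hf : Fr (dc Φ e c (.inr (0, n)) (.inr (0, n')))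
    · by_cases hf' : Fr (dc Φ e c' (.inr (0, n)) (.inr (0, n')))
      · exact eq_data_of_free hΦ hc hc' (fun h => hnn (congrArg Prod.snd h)) (hV n) (hV n')
          hf hf' hPK
      · have h1 : n0 Φ e S c' (.inr (.inr ⟨_, hal' (.inr (0, n)) (.inr (0, n'))⟩))
            (![n, n'] : Fin 2 → ℕ) := ⟨trivial, trivial, hnn, hf', rfl⟩
        rw [← h] at h1
        exact h1.2.2.2.2
    · have h1 : n0 Φ e S c (.inr (.inr ⟨_, hal (.inr (0, n)) (.inr (0, n'))⟩))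
          (![n, n'] : Fin 2 → ℕ) := ⟨trivial, trivial, hnn, hf, rfl⟩
      rw [h] at h1
      exact h1.2.2.2.2.symm
  have hU : ∀ k n a, dc Φ e c (.inr (k, n)) (.inl a) = dc Φ e c' (.inr (k, n)) (.inl a) := by
    intro k n a
    by_cases ha : a ∈ S
    · rw [hc.c5 a ha, hc'.c5 a ha]
      have h1 : n0 Φ e S c (.inr (.inl (a, ⟨_, hal (.inr (0, n)) (.inl a)⟩))) (fun _ => n) :=
        ⟨trivial, ha, rfl⟩
      rw [h] at h1
      exact h1.2.2.symm
    · rw [hc.c6 a ha, hc'.c6 a ha, hVk]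
  rcases v with a | ⟨k, n⟩ <;> rcases w with b | ⟨l, n'⟩
  · rw [hc.c1, hc'.c1]
  · rw [dc_not c (.inr (l, n')) (.inl a), dc_not c' (.inr (l, n')) (.inl a), hU]
  · exact hU k n b
  · by_cases hkl : k = l
    · subst hkl
      rw [hc.c3, hc'.c3]
      by_cases hnn : n = n'
      · subst hnn
        exact hV n
      · exact hR n n' hnn
    · exact eq_data_of_free hΦ hc hc' (fun h => hkl (congrArg Prod.fst h)) (hVk k n) (hVk l n')
        (hc.c4 k l n n' hkl) (hc'.c4 k l n n' hkl) hPK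

end

/-- codes with the same data are equal if all relations are at most binary -/
theorem code_ext (h2 : ∀ n, 2 < n → IsEmpty (L.Relations n)) {c c' : Code L}
    (h : ∀ i j, D Φ (toI c) i j = D Φ (toI c') i j) : c = c' := by
  funext k
  obtain ⟨n, R, s⟩ := k
  have hrep : ∃ (x y : ℕ) (v : Fin n → Bool), s = fun k => pick x y (v k) := by
    rcases Nat.lt_or_ge 2 n with hn | hn
    · exact (h2 n hn).elim R
    · interval_cases n
      · exact ⟨0, 0, fun _ => false, Subsingleton.elim _ _⟩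
      · refine ⟨s 0, s 0, fun _ => false, ?_⟩
        funext k
        rw [Subsingleton.elim k 0]; rfl
      · refine ⟨s 0, s 1, ![false, true], ?_⟩
        funext k
        fin_cases k <;> rfl
  obtain ⟨x, y, v, rfl⟩ := hrep
  have h3 : (D Φ (toI c) x y).a n R v ↔ (D Φ (toI c') x y).a n R v := by
    rw [h]
  rw [Bool.eq_iff_iff]
  exact h3

/-- isomorphisms from equality of data -/
theorem iso_of_data (h2 : ∀ n, 2 < n → IsEmpty (L.Relations n)) {c c' : Code L} (f : ℕ ≃ ℕ)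
    (h : ∀ i j, D Φ (toI c) i j = D Φ (toI c') (f i) (f j)) : Iso c c' := by
  refine ⟨f, fun n R s => ?_⟩
  have hrep : ∃ (x y : ℕ) (v : Fin n → Bool), s = fun k => pick x y (v k) := by
    rcases Nat.lt_or_ge 2 n with hn | hn
    · exact (h2 n hn).elim R
    · interval_cases n
      · exact ⟨0, 0, fun _ => false, Subsingleton.elim _ _⟩
      · refine ⟨s 0, s 0, fun _ => false, ?_⟩
        funext k
        rw [Subsingleton.elim k 0]; rfl
      · refine ⟨s 0, s 1, ![false, true], ?_⟩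
        funext k
        fin_cases k <;> rfl
  obtain ⟨x, y, v, rfl⟩ := hrep
  have h3 : (D Φ (toI c) x y).a n R v ↔ (D Φ (toI c') (f x) (f y)).a n R v := by
    rw [h]
  have h4 : (fun k => f (pick x y (v k))) = fun k => pick (f x) (f y) (v k) := by
    funext k; cases v k <;> rfl
  rw [h4, Bool.eq_iff_iff]
  exact h3

/-! ### measurability -/

theorem D_eq_of_ev (hΦ : Gd Φ) {c : Code L} (hc : toI c ∈ Md Φ) {d : Dat L} (hd : d ∈ Al Φ)
    {i j : ℕ} (h : ∀ ψ ∈ fo, (Rl (toI c) ψ i j ↔ ev ψ d)) : D Φ (toI c) i j = d := by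
  obtain ⟨I, hI, x, y, rfl⟩ := hd
  refine D_ext hΦ hc hI fun ψ hψ => ?_
  rw [h ψ hψ]
  exact hΦ.ev hψ _ _ _

theorem meas_Q [∀ n, Countable (L.Relations n)] (hΦ : Gd Φ) (hal : (Al Φ).Countable)
    (Q : Dat L → Dat L → Prop) (i1 j1 i2 j2 : ℕ) :
    MeasurableSet {c : Code L | toI c ∈ Md Φ ∧ Q (D Φ (toI c) i1 j1) (D Φ (toI c) i2 j2)} := by
  have i1' := hal.to_subtype
  have i2' := (fo_countable (L := L)).to_subtype
  have e1 : {c : Code L | toI c ∈ Md Φ ∧ Q (D Φ (toI c) i1 j1) (D Φ (toI c) i2 j2)} =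
      {c : Code L | toI c ∈ Md Φ} ∩ {c | ∀ d1 d2 : ↥(Al Φ),
        (∀ ψ : ↥(fo : Set (C2 L)), (Rl (toI c) ψ.1 i1 j1 ↔ ev ψ.1 d1.1)) →
        (∀ ψ : ↥(fo : Set (C2 L)), (Rl (toI c) ψ.1 i2 j2 ↔ ev ψ.1 d2.1)) → Q d1.1 d2.1} := by
    ext c
    constructor
    · rintro ⟨h1, h2⟩
      refine ⟨h1, fun d1 d2 h3 h4 => ?_⟩
      rw [← D_eq_of_ev hΦ h1 d1.2 (fun ψ hψ => h3 ⟨ψ, hψ⟩),
        ← D_eq_of_ev hΦ h1 d2.2 (fun ψ hψ => h4 ⟨ψ, hψ⟩)]
      exact h2
    · rintro ⟨h1, h2⟩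
      refine ⟨h1, h2 ⟨_, al_dat h1 i1 j1⟩ ⟨_, al_dat h1 i2 j2⟩ (fun ψ => ?_) (fun ψ => ?_)⟩
      · exact (hΦ.ev ψ.2 _ _ _).symm
      · exact (hΦ.ev ψ.2 _ _ _).symm
  rw [e1]
  refine (meas_Md Φ).inter (measurableSet_setOfPred.2 ?_)
  refine Measurable.forall fun d1 => Measurable.forall fun d2 => Measurable.imp ?_
    (Measurable.imp ?_ measurable_const)
  · exact Measurable.forall fun ψ => (meas_Rl ψ.1 i1 j1).iff measurable_const
  · exact Measurable.forall fun ψ => (meas_Rl ψ.1 i2 j2).iff measurable_const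

theorem meas_cn [∀ n, Countable (L.Relations n)] [Countable A] (hΦ : Gd Φ)
    (hal : (Al Φ).Countable) (E0 : Ext Φ A τ t) (S : Set A) (g : ℕ → Equiv.Perm A)
    (e : ℕ ≃ A ⊕ (ℕ × ℕ)) : MeasurableSet {c : Code L | Cn E0 S g e c} := by
  have i2' := (fo_countable (L := L)).to_subtype
  have e1 : {c : Code L | Cn E0 S g e c} =
      ({c : Code L | toI c ∈ Md Φ} ∩
      (⋂ θ : ↥(fo : Set (C2 L)), {c : Code L | toI c ∈ Md Φ ∧
        (fun d _ => d.l false true (dg θ.1) = t θ.1) (D Φ (toI c) 0 0) (D Φ (toI c) 0 0)})) ∩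
      ((⋂ (a : A) (b : A), {c : Code L | toI c ∈ Md Φ ∧
        (fun d _ => d = D Φ E0.I (E0.ι a) (E0.ι b)) (dc Φ e c (.inl a) (.inl b))
          (dc Φ e c (.inl a) (.inl b))}) ∩
      ((⋂ n : ℕ, {c : Code L | toI c ∈ Md Φ ∧ (fun d _ => ¬ AlgT d)
        (dc Φ e c (.inr (0, n)) (.inr (0, n))) (dc Φ e c (.inr (0, n)) (.inr (0, n)))}) ∩
      ((⋂ (k : ℕ) (n : ℕ) (n' : ℕ), {c : Code L | toI c ∈ Md Φ ∧ (fun d d' => d = d')
        (dc Φ e c (.inr (k, n)) (.inr (k, n'))) (dc Φ e c (.inr (0, n)) (.inr (0, n')))}) ∩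
      ((⋂ (k : ℕ) (l : ℕ) (n : ℕ) (n' : ℕ), {c : Code L | toI c ∈ Md Φ ∧
        (fun d _ => k ≠ l → Fr d) (dc Φ e c (.inr (k, n)) (.inr (l, n')))
          (dc Φ e c (.inr (k, n)) (.inr (l, n')))}) ∩
      ((⋂ (a : A) (k : ℕ) (n : ℕ), {c : Code L | toI c ∈ Md Φ ∧ (fun d d' => a ∈ S → d = d')
        (dc Φ e c (.inr (k, n)) (.inl a)) (dc Φ e c (.inr (0, n)) (.inl a))}) ∩
      (⋂ (a : A) (k : ℕ) (n : ℕ), {c : Code L | toI c ∈ Md Φ ∧
        (fun d d' => a ∉ S → d = ls Φ τ t d' (g k a))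
        (dc Φ e c (.inr (k, n)) (.inl a)) (dc Φ e c (.inr (k, n)) (.inr (k, n)))})))))) := by
    ext c
    simp only [mem_inter_iff, mem_iInter, mem_ofPred_eq]
    constructor
    · intro h
      refine ⟨⟨h.m, fun θ => ⟨h.m, ?_⟩⟩, fun a b => ⟨h.m, h.c1 a b⟩, fun n => ⟨h.m, h.na n⟩,
        fun k n n' => ⟨h.m, h.c3 k n n'⟩, fun k l n n' => ⟨h.m, h.c4 k l n n'⟩,
        fun a k n => ⟨h.m, fun ha => h.c5 a ha k n⟩, fun a k n => ⟨h.m, fun ha => h.c6 a ha k n⟩⟩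
      rw [lab_dg hΦ θ.2]
      exact h.th θ.1 θ.2
    · rintro ⟨⟨h1, h2⟩, h3, h4, h5, h6, h7, h8⟩
      refine ⟨h1, fun θ hθ => ?_, fun a b => (h3 a b).2, fun n => (h4 n).2,
        fun k n n' => (h5 k n n').2, fun k l n n' => (h6 k l n n').2,
        fun a ha k n => (h7 a k n).2 ha, fun a ha k n => (h8 a k n).2 ha⟩
      rw [← lab_dg hΦ hθ (toI c) 0 0 false]
      exact (h2 ⟨θ, hθ⟩).2
  rw [e1]
  refine MeasurableSet.inter ((meas_Md Φ).inter ?_) (MeasurableSet.inter ?_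
    (MeasurableSet.inter ?_ (MeasurableSet.inter ?_ (MeasurableSet.inter ?_
    (MeasurableSet.inter ?_ ?_)))))
  · exact MeasurableSet.iInter fun θ =>
      meas_Q hΦ hal (fun d _ => d.l false true (dg θ.1) = t θ.1) 0 0 0 0
  · exact MeasurableSet.iInter fun a => MeasurableSet.iInter fun b =>
      meas_Q hΦ hal (fun d _ => d = D Φ E0.I (E0.ι a) (E0.ι b)) (e.symm (.inl a)) (e.symm (.inl b))
        (e.symm (.inl a)) (e.symm (.inl b))
  · exact MeasurableSet.iInter fun n => meas_Q hΦ hal (fun d _ => ¬ AlgT d)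
      (e.symm (.inr (0, n))) (e.symm (.inr (0, n))) (e.symm (.inr (0, n))) (e.symm (.inr (0, n)))
  · exact MeasurableSet.iInter fun k => MeasurableSet.iInter fun n =>
      MeasurableSet.iInter fun n' => meas_Q hΦ hal (fun d d' => d = d')
      (e.symm (.inr (k, n))) (e.symm (.inr (k, n'))) (e.symm (.inr (0, n))) (e.symm (.inr (0, n')))
  · exact MeasurableSet.iInter fun k => MeasurableSet.iInter fun l => MeasurableSet.iInter fun n =>
      MeasurableSet.iInter fun n' => meas_Q hΦ hal (fun d _ => k ≠ l → Fr d)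
      (e.symm (.inr (k, n))) (e.symm (.inr (l, n'))) (e.symm (.inr (k, n))) (e.symm (.inr (l, n')))
  · exact MeasurableSet.iInter fun a => MeasurableSet.iInter fun k =>
      MeasurableSet.iInter fun n => meas_Q hΦ hal (fun d d' => a ∈ S → d = d')
      (e.symm (.inr (k, n))) (e.symm (.inl a)) (e.symm (.inr (0, n))) (e.symm (.inl a))
  · exact MeasurableSet.iInter fun a => MeasurableSet.iInter fun k =>
      MeasurableSet.iInter fun n => meas_Q hΦ hal (fun d d' => a ∉ S → d = ls Φ τ t d' (g k a))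
      (e.symm (.inr (k, n))) (e.symm (.inl a)) (e.symm (.inr (k, n))) (e.symm (.inr (k, n)))

end Pool.Agent.Y558.C2
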