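import Pool.Agent.Y558.C2.Cls

set_option autoImplicit false
set_option linter.unusedVariables false
set_option linter.unusedSectionVars false

/-! Countably many component types. -/

namespace Pool.Agent.Y558.C2

open FirstOrder Set Filter MeasureTheory
open Pool.Agent.H565R2.FO2 (pick pick_false pick_true pick_self pick_pick Interp Code toI ofI
  toI_ofI Iso bool_fun_cases perfect_of_uncountable)
open Pool.Agent.H565R2.CO (C2 Rl subs mem_subs subs_countable subs_trans Dat lab mkd dat ev ev_dat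
  Md dat_map dat_not map_not_not mkd_l mkI Coh mkI_iff mkd_mkI Rl_iso dat_f dat_t dat_iso Al al_dat
  KI code code_inj meas_code meas_Rl meas_Md)
open Pool.Agent.H565R2.LO2 (PerfK perfK_of_inv iso_symm)
open Pool.Agent.H623R2.VE (Adj Conn CIso CEq pull pull_ciso GIso CovE Cov Pw Perf)

variable {L : FirstOrder.Language.{0, 0}} {Φ : C2 L}
variable {A : Type} {τ : A → Dat L} {t : C2 L → ℕ∞}

section
variable [∀ n, Countable (L.Relations n)] [Countable A] (hΦ : Gd Φ)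
  (hP : ¬ PerfK {c : Code L | toI c ∈ Md Φ}) {E0 : Ext Φ A τ t} {S : Set A} (hS : Sat τ S)
  {g : ℕ → Equiv.Perm A} (hg : ∀ k a, τ (g k a) = τ a)
  (hgi : ∀ a b, τ b = τ a → {k | g k a = b}.Infinite) {e : ℕ ≃ A ⊕ (ℕ × ℕ)}

/-! ### copies -/

/-- the elements of a canonical model -/
def el {c : Code L} (hc : Cn E0 S g e c) (k n : ℕ) : NA (extc hΦ hc) :=
  ⟨e.symm (.inr (k, n)), by
    rw [(extc hΦ hc).rng]
    rintro ⟨a, h⟩
    exact absurd (e.symm.injective h) (by simp)⟩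

theorem el_surj {c : Code L} (hc : Cn E0 S g e c) (z : NA (extc hΦ hc)) :
    ∃ k n, z = el hΦ hc k n := by
  obtain ⟨x, hx⟩ := z
  obtain ⟨v, rfl⟩ := e.symm.surjective x
  rcases v with a | ⟨k, n⟩
  · exact absurd (((extc hΦ hc).rng _).2 ⟨a, rfl⟩) hx
  · exact ⟨k, n, rfl⟩

theorem el_inj {c : Code L} (hc : Cn E0 S g e c) {k n k' n' : ℕ}
    (h : el hΦ hc k n = el hΦ hc k' n') : k = k' ∧ n = n' := by
  have h1 : e.symm (.inr (k, n)) = e.symm (.inr (k', n')) := congrArg Subtype.val h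
  have h2 := Sum.inr_injective (e.symm.injective h1)
  exact ⟨congrArg Prod.fst h2, congrArg Prod.snd h2⟩

theorem nN_el {c : Code L} (hc : Cn E0 S g e c) (k : ℕ) :
    pull (nN (extc hΦ hc) S) (fun n => el hΦ hc k n) = n0 Φ e S c := by
  unfold nN
  rw [pull_nst _ (fun n n' h => (el_inj hΦ hc h).2)]
  unfold n0
  funext i s
  apply propext
  rcases i with d | p | d
  · show (True ∧ dc Φ e c (.inr (k, _)) (.inr (k, _)) = _) ↔ _
    rw [hc.c3]
    exact Iff.rfl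
  · show (True ∧ p.1 ∈ S ∧ dc Φ e c (.inr (k, _)) (.inl p.1) = _) ↔ (True ∧ p.1 ∈ S ∧ _)
    refine and_congr_right fun _ => and_congr_right fun h => ?_
    rw [hc.c5 _ h]
  · show (True ∧ True ∧ _ ∧ _ ∧ dc Φ e c (.inr (k, _)) (.inr (k, _)) = _) ↔ _
    rw [hc.c3]
    exact Iff.rfl

theorem ceq_el {c : Code L} (hc : Cn E0 S g e c) (k n : ℕ) :
    CEq (n0 Φ e S c) n (nN (extc hΦ hc) S) (el hΦ hc k n) := by
  have h := pull_ciso (nN (extc hΦ hc) S) (fun n => el hΦ hc k n)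
    (fun n n' h => (el_inj hΦ hc h).2) (fun u x h => by
      rcases adj_nst h with h | h
      · exact ⟨u, h⟩
      · obtain ⟨k', n', rfl⟩ := el_surj hΦ hc x
        by_cases hk : k = k'
        · subst hk
          exact ⟨n', rfl⟩
        · exfalso
          rcases h.2.2.2 with h1 | h1
          · exact h1 (hc.c4 k k' u n' hk)
          · exact h1 (hc.c4 k' k n' u (Ne.symm hk))) n
  rw [nN_el] at h
  exact CEq.of_ciso h

/-! ### copies in canonical amalgams -/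

include hP hgi in
theorem n0_can (E : Ext Φ A τ t) (ν : ℕ ≃ ℕ × NA E) (m : ℕ) :
    pull (n0 Φ e S ((can hΦ hP E0 E hS hg ν).code e)) (fun z => ν.symm (m, z)) = nN E S := by
  have hR := can_rich hΦ hP E0 E hS hg ν hgi
  have hd : ∀ v w, dc Φ e ((can hΦ hP E0 E hS hg ν).code e) v w =
      (can hΦ hP E0 E hS hg ν).Δ v w := fun v w => Bp.dc_code (W := ℕ × ℕ) hΦ hR e v w
  have hsame : ∀ z z' : NA E, dc Φ e ((can hΦ hP E0 E hS hg ν).code e)
      (.inr (0, ν.symm (m, z))) (.inr (0, ν.symm (m, z'))) = D Φ E.I z.1 z'.1 := by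
    intro z z'
    rw [hd, can_same hΦ hP E0 E hS hg ν 0 _ _ (by simp only [Equiv.apply_symm_apply])]
    simp only [Equiv.apply_symm_apply]
  unfold n0
  rw [pull_nst _ (fun z z' h => by
    have := ν.symm.injective h
    exact congrArg Prod.snd this)]
  unfold nN
  funext i s
  apply propext
  rcases i with d | p | d
  · show (True ∧ dc Φ e _ _ _ = _) ↔ _
    rw [hsame]
    exact Iff.rfl
  · show (True ∧ p.1 ∈ S ∧ dc Φ e _ _ _ = _) ↔ (True ∧ p.1 ∈ S ∧ _)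
    refine and_congr_right fun _ => and_congr_right fun h => ?_
    rw [hd, can_dec hΦ hP E0 E hS hg ν _ _ h]
    simp only [Equiv.apply_symm_apply]
  · show (True ∧ True ∧ _ ∧ _ ∧ dc Φ e _ _ _ = _) ↔ _
    rw [hsame]
    exact Iff.rfl

include hP hgi in
theorem can_free (E : Ext Φ A τ t) (ν : ℕ ≃ ℕ × NA E) {j j' : ℕ} (h : (ν j).1 ≠ (ν j').1) :
    Fr (dc Φ e ((can hΦ hP E0 E hS hg ν).code e) (.inr (0, j)) (.inr (0, j'))) := by
  have hR := can_rich hΦ hP E0 E hS hg ν hgi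
  rw [Bp.dc_code (W := ℕ × ℕ) hΦ hR e, can_diff hΦ hP E0 E hS hg ν (0, j) (0, j')
    (fun h' => h h'.2)]
  exact (gn_gen hΦ (t := t) (τ := τ) ⟨E, _, (ν j).2.2, rfl⟩ ⟨E, _, (ν j').2.2, rfl⟩).fr

include hP hgi in
theorem ceq_can (E : Ext Φ A τ t) (ν : ℕ ≃ ℕ × NA E) (m : ℕ) (z : NA E) :
    CEq (nN E S) z (n0 Φ e S ((can hΦ hP E0 E hS hg ν).code e)) (ν.symm (m, z)) := by
  have h := pull_ciso (n0 Φ e S ((can hΦ hP E0 E hS hg ν).code e))
    (fun z => ν.symm (m, z)) (fun z z' h => by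
      have := ν.symm.injective h
      exact congrArg Prod.snd this) (fun u x h => by
      rcases adj_nst h with h | h
      · exact ⟨u, h⟩
      · by_cases hk : (ν x).1 = m
        · refine ⟨(ν x).2, ?_⟩
          show ν.symm (m, (ν x).2) = x
          rw [Equiv.symm_apply_eq]
          exact Prod.ext hk.symm rfl
        · exfalso
          have e1 : (ν (ν.symm (m, u))).1 = m := by rw [Equiv.apply_symm_apply]
          rcases h.2.2.2 with h1 | h1
          · exact h1 (can_free hΦ hP hS hg hgi E ν (by rw [e1]; exact Ne.symm hk))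
          · exact h1 (can_free hΦ hP hS hg hgi E ν (by rw [e1]; exact hk))) z
  rw [n0_can hΦ hP hS hg hgi E ν m] at h
  exact CEq.of_ciso h

/-! ### the class -/

/-- the map to the structures of nonfree pairs -/
noncomputable def nmap (Φ : C2 L) (E0 : Ext Φ A τ t) (S : Set A) (g : ℕ → Equiv.Perm A)
    (e : ℕ ≃ A ⊕ (ℕ × ℕ)) (c : ↥{c : Code L | Cn E0 S g e c}) : VC (ar (Φ := Φ) (A := A)) :=
  Pool.Agent.H623R2.VE.ofI (n0 Φ e S c.1)

theorem toI_nmap (c : ↥{c : Code L | Cn E0 S g e c}) :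
    Pool.Agent.H623R2.VE.toI (nmap Φ E0 S g e c) = n0 Φ e S c.1 :=
  Pool.Agent.H623R2.VE.toI_ofI _

include hΦ in
theorem meas_nmap (hal : (Al Φ).Countable) : Measurable (nmap Φ E0 S g e) := by
  refine measurable_pi_lambda _ fun i => measurable_pi_lambda _ fun s => measurable_to_bool ?_
  have e1 : (fun c => nmap Φ E0 S g e c i s) ⁻¹' {true} = {c | n0 Φ e S c.1 i s} := by
    ext c
    have h : Pool.Agent.H623R2.VE.toI (nmap Φ E0 S g e c) i s ↔ n0 Φ e S c.1 i s := by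
      rw [toI_nmap]
    exact h
  rw [e1]
  have key : ∀ (Q : Dat L → Dat L → Prop) (v w v' w' : A ⊕ (ℕ × ℕ)),
      MeasurableSet {c : ↥{c : Code L | Cn E0 S g e c} |
        Q (dc Φ e c.1 v w) (dc Φ e c.1 v' w')} := by
    intro Q v w v' w'
    have h := measurable_subtype_coe (p := fun c : Code L => c ∈ {c : Code L | Cn E0 S g e c})
      (meas_Q hΦ hal Q (e.symm v) (e.symm w) (e.symm v') (e.symm w'))
    convert h using 1
    ext c
    exact ⟨fun h => ⟨c.2.m, h⟩, fun h => h.2⟩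
  rcases i with d | p | d
  · exact key (fun d1 _ => True ∧ d1 = d.1) (.inr (0, s (0 : Fin 1))) (.inr (0, s (0 : Fin 1)))
      (.inr (0, s (0 : Fin 1))) (.inr (0, s (0 : Fin 1)))
  · exact key (fun d1 _ => True ∧ p.1 ∈ S ∧ d1 = p.2.1) (.inr (0, s (0 : Fin 1))) (.inl p.1)
      (.inr (0, s (0 : Fin 1))) (.inl p.1)
  · exact key (fun d1 _ => True ∧ True ∧ s (0 : Fin 2) ≠ s (1 : Fin 2) ∧ ¬ Fr d.1 ∧ d1 = d.1)
      (.inr (0, s (0 : Fin 2))) (.inr (0, s (1 : Fin 2)))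
      (.inr (0, s (0 : Fin 2))) (.inr (0, s (1 : Fin 2)))

include hΦ hP in
theorem inj_nmap (h2 : ∀ n, 2 < n → IsEmpty (L.Relations n)) :
    Function.Injective (nmap Φ E0 S g e) := by
  intro c c' h
  apply Subtype.ext
  have h1 : n0 Φ e S c.1 = n0 Φ e S c'.1 := by
    rw [← toI_nmap, ← toI_nmap, h]
  refine code_ext (Φ := Φ) h2 fun i j => ?_
  have h3 := dc_eq_of_n0 hΦ c.2 c'.2 h1 hP (e i) (e j)
  unfold dc at h3
  rwa [Equiv.symm_apply_apply, Equiv.symm_apply_apply] at h3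

include hΦ hP in
theorem emb_nmap (hal : (Al Φ).Countable) (h2 : ∀ n, 2 < n → IsEmpty (L.Relations n)) :
    MeasurableEmbedding (nmap Φ E0 S g e) := by
  have := hal.to_subtype
  have : StandardBorelSpace ↥{c : Code L | Cn E0 S g e c} :=
    (meas_cn hΦ hal E0 S g e).standardBorel
  exact (meas_nmap hΦ hal).measurableEmbedding (inj_nmap hΦ hP h2)

include hΦ in
/-- relabelling -/
theorem nmap_inv {c : Code L} (hc : Cn E0 S g e c) (N : VC (ar (Φ := Φ) (A := A))) (σ : ℕ ≃ ℕ)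
    (hσ : ∀ i (s : Fin (ar i) → ℕ), n0 Φ e S c i s ↔
      Pool.Agent.H623R2.VE.toI N i (fun k => σ (s k))) :
    ∃ c' : Code L, Cn E0 S g e c' ∧ n0 Φ e S c' = Pool.Agent.H623R2.VE.toI N := by
  let sh : A ⊕ (ℕ × ℕ) ≃ A ⊕ (ℕ × ℕ) :=
    Equiv.sumCongr (Equiv.refl A) (Equiv.prodCongr (Equiv.refl ℕ) σ)
  let f : ℕ ≃ ℕ := (e.trans sh).trans e.symm
  let c' : Code L := fun k => c ⟨k.1, k.2.1, fun j => f.symm (k.2.2 j)⟩
  have hgi : ∀ n (R : L.Relations n) (s : Fin n → ℕ),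
      c ⟨n, R, s⟩ = c' ⟨n, R, fun k => f (s k)⟩ := by
    intro n R s
    show c ⟨n, R, s⟩ = c ⟨n, R, fun j => f.symm (f (s j))⟩
    simp only [Equiv.symm_apply_apply]
  have hD : ∀ x y, D Φ (toI c) x y = D Φ (toI c') (f x) (f y) := fun x y =>
    dat_iso f hgi (subs Φ) x y
  have hdc : ∀ v w, dc Φ e c' (sh v) (sh w) = dc Φ e c v w := by
    intro v w
    unfold dc
    rw [hD (e.symm v) (e.symm w)]
    simp only [f, Equiv.trans_apply, Equiv.apply_symm_apply]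
  have ha : ∀ a, sh (.inl a) = .inl a := fun a => rfl
  have hr : ∀ k n, sh (.inr (k, n)) = .inr (k, σ n) := fun k n => rfl
  have hr' : ∀ k n, (.inr (k, n) : A ⊕ (ℕ × ℕ)) = sh (.inr (k, σ.symm n)) := fun k n => by
    rw [hr, Equiv.apply_symm_apply]
  have hC : Cn E0 S g e c' := by
    refine ⟨fun x y => ?_, fun θ hθ => ?_, fun a b => ?_, fun n => ?_, fun k n n' => ?_,
      fun k l n n' hkl => ?_, fun a haS k n => ?_, fun a haS k n => ?_⟩
    · obtain ⟨x, rfl⟩ := f.surjective x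
      obtain ⟨y, rfl⟩ := f.surjective y
      exact (Rl_iso f hgi Φ x y).1 (hc.m x y)
    · rw [← lab_dg hΦ hθ (toI c') (f 0) (f 0) false, ← hD, lab_dg hΦ hθ]
      exact hc.th θ hθ
    · rw [← ha a, ← ha b, hdc]
      exact hc.c1 a b
    · rw [hr' 0 n, hdc]
      exact hc.na _
    · rw [hr' k n, hr' k n', hr' 0 n, hr' 0 n', hdc, hdc]
      exact hc.c3 _ _ _
    · rw [hr' k n, hr' l n', hdc]
      exact hc.c4 _ _ _ _ hkl
    · rw [hr' k n, hr' 0 n, ← ha a, hdc, hdc]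
      exact hc.c5 a haS _ _
    · rw [hr' k n, ← ha a, hdc, hdc]
      exact hc.c6 a haS _ _
  refine ⟨c', hC, ?_⟩
  funext i s
  apply propext
  have h1 := hσ i (fun k => σ.symm (s k))
  simp only [Equiv.apply_symm_apply] at h1
  rw [← h1]
  have hdc0 : ∀ n n', dc Φ e c' (.inr (0, n)) (.inr (0, n')) =
      dc Φ e c (.inr (0, σ.symm n)) (.inr (0, σ.symm n')) := by
    intro n n'
    rw [hr' 0 n, hr' 0 n', hdc]
  have hdc1 : ∀ n a, dc Φ e c' (.inr (0, n)) (.inl a) =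
      dc Φ e c (.inr (0, σ.symm n)) (.inl a) := by
    intro n a
    rw [hr' 0 n]
    exact hdc (.inr (0, σ.symm n)) (.inl a)
  rcases i with d | p | d
  · show (True ∧ dc Φ e c' _ _ = _) ↔ (True ∧ dc Φ e c _ _ = _)
    rw [hdc0]
  · show (True ∧ _ ∧ dc Φ e c' _ _ = _) ↔ (True ∧ _ ∧ dc Φ e c _ _ = _)
    rw [hdc1]
  · show (True ∧ True ∧ s (0 : Fin 2) ≠ s (1 : Fin 2) ∧ _ ∧ dc Φ e c' _ _ = _) ↔
      (True ∧ True ∧ σ.symm (s (0 : Fin 2)) ≠ σ.symm (s (1 : Fin 2)) ∧ _ ∧ dc Φ e c _ _ = _)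
    rw [hdc0, σ.symm.injective.ne_iff]

include hΦ hP hS hg hgi in
/-- powers -/
theorem nmap_pw {c : Code L} (hc : Cn E0 S g e c) :
    ∃ c' : Code L, Cn E0 S g e c' ∧ n0 Φ e S c' = Pw (n0 Φ e S c) := by
  let ρ : ℕ × ℕ ≃ NA (extc hΦ hc) := Equiv.ofBijective (fun p => el hΦ hc p.1 p.2)
    ⟨fun p q h => Prod.ext (el_inj hΦ hc h).1 (el_inj hΦ hc h).2, fun z => by
      obtain ⟨k, n, rfl⟩ := el_surj hΦ hc z
      exact ⟨(k, n), rfl⟩⟩
  let ν : ℕ ≃ ℕ × NA (extc hΦ hc) :=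
    ((Nat.pairEquiv.symm.trans (Equiv.prodCongr Nat.pairEquiv.symm (Equiv.refl ℕ))).trans
      (Equiv.prodAssoc ℕ ℕ ℕ)).trans (Equiv.prodCongr (Equiv.refl ℕ) ρ)
  have hν : ∀ j, ν j = ((Nat.unpair (Nat.unpair j).1).1,
      el hΦ hc (Nat.unpair (Nat.unpair j).1).2 (Nat.unpair j).2) := fun j => rfl
  have hR := can_rich hΦ hP E0 (extc hΦ hc) hS hg ν hgi
  have hd : ∀ v w, dc Φ e ((can hΦ hP E0 (extc hΦ hc) hS hg ν).code e) v w =
      (can hΦ hP E0 (extc hΦ hc) hS hg ν).Δ v w := fun v w =>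
    Bp.dc_code (W := ℕ × ℕ) hΦ hR e v w
  refine ⟨_, can_cn hΦ hP E0 hS hg hgi e (extc hΦ hc) ν, ?_⟩
  have hsame : ∀ j j', (Nat.unpair (Nat.unpair j).1).1 = (Nat.unpair (Nat.unpair j').1).1 →
      dc Φ e ((can hΦ hP E0 (extc hΦ hc) hS hg ν).code e) (.inr (0, j)) (.inr (0, j')) =
      dc Φ e c (.inr ((Nat.unpair (Nat.unpair j).1).2, (Nat.unpair j).2))
        (.inr ((Nat.unpair (Nat.unpair j').1).2, (Nat.unpair j').2)) := by
    intro j j' h
    rw [hd, can_same hΦ hP E0 _ hS hg ν 0 j j' (by rw [hν, hν]; exact h), hν, hν]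
    rfl
  have hpair : ∀ j j' : ℕ, (Nat.unpair (Nat.unpair j).1).1 = (Nat.unpair (Nat.unpair j').1).1 →
      (Nat.unpair (Nat.unpair j).1).2 = (Nat.unpair (Nat.unpair j').1).2 →
      (Nat.unpair j).1 = (Nat.unpair j').1 := by
    intro j j' h1 h2
    rw [← Nat.pair_unpair (Nat.unpair j).1, ← Nat.pair_unpair (Nat.unpair j').1, h1, h2]
  funext i s
  apply propext
  rcases i with d | p | d
  · show (True ∧ dc Φ e _ (.inr (0, s (0 : Fin 1))) (.inr (0, s (0 : Fin 1))) = _) ↔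
      ((∀ k l, _) ∧ (True ∧ dc Φ e c (.inr (0, (Nat.unpair (s (0 : Fin 1))).2))
        (.inr (0, (Nat.unpair (s (0 : Fin 1))).2)) = _))
    rw [hsame _ _ rfl, hc.c3]
    refine ⟨fun h => ⟨fun k l => ?_, h⟩, fun h => h.2⟩
    rw [Subsingleton.elim (α := Fin 1) k l]
  · show (True ∧ _ ∧ dc Φ e _ (.inr (0, s (0 : Fin 1))) (.inl p.1) = _) ↔
      ((∀ k l, _) ∧ (True ∧ _ ∧ dc Φ e c (.inr (0, (Nat.unpair (s (0 : Fin 1))).2))
        (.inl p.1) = _))
    have h1 : p.1 ∈ S → dc Φ e ((can hΦ hP E0 (extc hΦ hc) hS hg ν).code e)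
        (.inr (0, s (0 : Fin 1))) (.inl p.1) =
        dc Φ e c (.inr (0, (Nat.unpair (s (0 : Fin 1))).2)) (.inl p.1) := by
      intro hp
      rw [hd, can_dec hΦ hP E0 _ hS hg ν _ _ hp, hν]
      exact hc.c5 _ hp _ _
    constructor
    · rintro ⟨-, hp, h⟩
      refine ⟨fun k l => ?_, trivial, hp, ?_⟩
      · rw [Subsingleton.elim (α := Fin 1) k l]
      · rw [← h1 hp]
        exact h
    · rintro ⟨-, -, hp, h⟩
      refine ⟨trivial, hp, ?_⟩
      rw [h1 hp]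
      exact h
  · show (True ∧ True ∧ s (0 : Fin 2) ≠ s (1 : Fin 2) ∧ ¬ Fr d.1 ∧
        dc Φ e _ (.inr (0, s (0 : Fin 2))) (.inr (0, s (1 : Fin 2))) = d.1) ↔
      ((∀ k l : Fin 2, (Nat.unpair (s k)).1 = (Nat.unpair (s l)).1) ∧ (True ∧ True ∧
        (Nat.unpair (s (0 : Fin 2))).2 ≠ (Nat.unpair (s (1 : Fin 2))).2 ∧ ¬ Fr d.1 ∧
        dc Φ e c (.inr (0, (Nat.unpair (s (0 : Fin 2))).2))
          (.inr (0, (Nat.unpair (s (1 : Fin 2))).2)) = d.1))
    constructor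
    · rintro ⟨-, -, h1, h2, h3⟩
      have hm : (Nat.unpair (Nat.unpair (s (0 : Fin 2))).1).1 =
          (Nat.unpair (Nat.unpair (s (1 : Fin 2))).1).1 := by
        by_contra hcon
        apply h2
        rw [← h3]
        exact can_free hΦ hP hS hg hgi _ ν (by rw [hν, hν]; exact hcon)
      rw [hsame _ _ hm] at h3
      have hk : (Nat.unpair (Nat.unpair (s (0 : Fin 2))).1).2 =
          (Nat.unpair (Nat.unpair (s (1 : Fin 2))).1).2 := by
        by_contra hcon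
        apply h2
        rw [← h3]
        exact hc.c4 _ _ _ _ hcon
      have hq := hpair _ _ hm hk
      refine ⟨fun k l => ?_, trivial, trivial, fun h => h1 ?_, h2, ?_⟩
      · have hk2 : ∀ k : Fin 2, k = 0 ∨ k = 1 := by decide
        rcases hk2 k with rfl | rfl <;> rcases hk2 l with rfl | rfl
        · rfl
        · exact hq
        · exact hq.symm
        · rfl
      · rw [← Nat.pair_unpair (s (0 : Fin 2)), ← Nat.pair_unpair (s (1 : Fin 2)), hq, h]
      · rw [hk, hc.c3] at h3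
        exact h3
    · rintro ⟨h1, -, -, h2, h3, h4⟩
      have hq := h1 0 1
      refine ⟨trivial, trivial, fun h => h2 (by rw [h]), h3, ?_⟩
      rw [hsame _ _ (by rw [hq]), hq, hc.c3]
      exact h4

end

end Pool.Agent.Y558.C2
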