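import Pool.Agent.Y558.C2.Inv

set_option autoImplicit false
set_option linter.unusedVariables false
set_option linter.unusedSectionVars false

/-! The dichotomy for the models of one theory. -/

namespace Pool.Agent.Y558.C2

open FirstOrder Set Filter MeasureTheory
open Pool.Agent.H565R2.FO2 (pick pick_false pick_true pick_self pick_pick Interp Code toI ofI
  toI_ofI Iso bool_fun_cases perfect_of_uncountable)
open Pool.Agent.H565R2.CO (C2 Rl subs mem_subs subs_countable subs_trans Dat lab mkd dat ev ev_dat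
  Md dat_map dat_not map_not_not mkd_l mkI Coh mkI_iff mkd_mkI Rl_iso dat_f dat_t dat_iso Al al_dat
  KI code code_inj meas_code meas_Rl meas_Md)
open Pool.Agent.H565R2.LO2 (PerfK perfK_of_inv iso_symm)
open Pool.Agent.H623R2.VE (Adj Conn CIso CEq pull pull_ciso GIso CovE Cov Pw Perf)
open Pool.Agent.H579R3.VP (Many glue_of_profile many_iso YY YY_meas)
open Relation (ReflTransGen)

variable {L : FirstOrder.Language.{0, 0}} {Φ : C2 L}
variable {A : Type} {τ : A → Dat L} {t : C2 L → ℕ∞}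

section
variable [∀ n, Countable (L.Relations n)] [Countable A]
  {f : ℕ → VC (ar (Φ := Φ) (A := A)) × ℕ} {Sf : ℕ → Set A}

/-- enumerated models with witnesses for the types of the components -/
def YE (Φ : C2 L) (τ : A → Dat L) (t : C2 L → ℕ∞) (f : ℕ → VC (ar (Φ := Φ) (A := A)) × ℕ) :
    Set (↥{p : Code L × (A → ℕ) | Ev Φ τ t p} × (ℕ → ℕ × (ℕ → ℕ))) :=
  (fun q => (Nm q.1, q.2)) ⁻¹' YY univ f

theorem meas_YE (hΦ : Gd Φ) (hal : (Al Φ).Countable) : MeasurableSet (YE Φ τ t f) := by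
  have := hal.to_subtype
  exact (((meas_Nm hΦ hal).comp measurable_fst).prodMk measurable_snd)
    (YY_meas MeasurableSet.univ f)

theorem YE_ceq (y : ↥(YE Φ τ t f)) (x : ℕ) : CEq (nE y.1.1.2.ext univ) x
    (Pool.Agent.H623R2.VE.toI (f (y.1.2 x).1).1) (f (y.1.2 x).1).2 := by
  have h := y.2.2 x
  have e : Pool.Agent.H623R2.VE.toI (Nm y.1.1) = nE y.1.1.2.ext univ := toI_Nm _
  rw [← e]
  exact ⟨_, h⟩

theorem exists_YE (hf : ∀ (E : Ext Φ A τ t) (x : ℕ), ∃ n, CEq (nE E univ) x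
      (Pool.Agent.H623R2.VE.toI (f n).1) (f n).2) {c : Code L} {E : Ext Φ A τ t}
    (hE : E.I = toI c) : ∃ y : ↥(YE Φ τ t f), y.1.1.1.1 = c := by
  let p : ↥{p : Code L × (A → ℕ) | Ev Φ τ t p} := ⟨(c, E.ι), ev_of_ext hE⟩
  have hw : ∀ b, ∃ w : ℕ × (ℕ → ℕ), CIso (Pool.Agent.H623R2.VE.toI (Nm p))
      (Pool.Agent.H623R2.VE.toI (f w.1).1) w.2 b ∧
      Conn (Pool.Agent.H623R2.VE.toI (f w.1).1) (w.2 b) (f w.1).2 := by
    intro b
    obtain ⟨n, g, hg⟩ := hf p.2.ext b
    rw [toI_Nm]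
    exact ⟨(n, g), hg⟩
  choose w hw using hw
  exact ⟨⟨(p, w), mem_univ _, hw⟩, rfl⟩

/-- the relation of the types of components under relabelling -/
def Rh (f : ℕ → VC (ar (Φ := Φ) (A := A)) × ℕ) (h : Equiv.Perm A) (k n : ℕ) : Prop :=
  CEq (Pool.Agent.H623R2.VE.toI (f k).1) (f k).2
    (rl h.symm (Pool.Agent.H623R2.VE.toI (f n).1)) (f n).2

theorem Rh_iff (y : ↥(YE Φ τ t f)) (h : Equiv.Perm A) (hh : ∀ a, τ (h a) = τ a) (x n : ℕ) :
    CEq (nE (ext_perm y.1.1.2.ext h hh) univ) x (Pool.Agent.H623R2.VE.toI (f n).1) (f n).2 ↔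
      Rh f h (y.1.2 x).1 n := by
  rw [nE_perm, ceq_rl_iff]
  have h1 := YE_ceq y x
  exact ⟨fun h' => h1.symm.trans h', fun h' => h1.trans h'⟩

theorem meas_hq (hΦ : Gd Φ) (hal : (Al Φ).Countable) (h : Equiv.Perm A)
    (hh : ∀ a, τ (h a) = τ a) (q : Qy Φ A) :
    Measurable fun y : ↥(YE Φ τ t f) => hq f (ext_perm y.1.1.2.ext h hh) q := by
  have i1 := hal.to_subtype
  rcases q with ⟨a, b, d⟩ | ⟨n, m⟩
  · have h1 : MeasurableSet {p : Code L × (A → ℕ) | toI p.1 ∈ Md Φ ∧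
        D Φ (toI p.1) (p.2 (h a)) (p.2 (h b)) = d.1} :=
      meas_Q2 hΦ hal (fun d' => d' = d.1) (fun v => v (h a)) (fun v => v (h b))
        (measurable_pi_apply _) (measurable_pi_apply _)
    have h3 : Measurable fun y : ↥(YE Φ τ t f) => y.1.1.1 :=
      measurable_subtype_coe.comp (measurable_fst.comp measurable_subtype_coe)
    have h4 := measurableSet_setOfPred.1 (h3 h1)
    convert h4 using 2 with y
    exact ⟨fun h => ⟨y.1.1.2.hI, h⟩, fun h => h.2⟩
  · have e1 : (fun y : ↥(YE Φ τ t f) => hq f (ext_perm y.1.1.2.ext h hh) (.inr (n, m))) =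
        fun y : ↥(YE Φ τ t f) => ∃ v : Fin (m + 1) → ℕ,
          (∀ i j, Conn (Pool.Agent.H623R2.VE.toI (Nm y.1.1)) (v i) (v j) → i = j) ∧
            ∀ i, Rh f h (y.1.2 (v i)).1 n := by
      funext y
      apply propext
      show Many f (Pool.Agent.H623R2.VE.ofI (nE (ext_perm y.1.1.2.ext h hh) univ)) (n, m) ↔ _
      unfold Many
      refine exists_congr fun v => ?_
      rw [Pool.Agent.H623R2.VE.toI_ofI, toI_Nm]
      refine and_congr ?_ (forall_congr' fun i => Rh_iff y h hh (v i) n)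
      refine forall_congr' fun i => forall_congr' fun j => imp_congr_left ?_
      rw [nE_perm, conn_rl]
    rw [e1]
    have hN : Measurable fun y : ↥(YE Φ τ t f) => Nm y.1.1 :=
      (meas_Nm hΦ hal).comp (measurable_fst.comp measurable_subtype_coe)
    refine Measurable.exists fun v => Measurable.and ?_ ?_
    · refine Measurable.forall fun i => Measurable.forall fun j => Measurable.imp ?_
        measurable_const
      exact measurableSet_setOfPred.1
        (hN (Pool.Agent.H623R2.VE.measurableSet_conn (v i) (v j)))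
    · refine Measurable.forall fun i => ?_
      have hm : Measurable fun y : ↥(YE Φ τ t f) => (y.1.2 (v i)).1 :=
        measurable_fst.comp ((measurable_pi_apply (v i)).comp
          (measurable_snd.comp measurable_subtype_coe))
      exact (measurable_from_top (f := fun k : ℕ => Rh f h k n)).comp hm

theorem meas_Jv (hΦ : Gd Φ) (hal : (Al Φ).Countable) (hg : ∀ n, Gt Φ τ t (f n) (Sf n))
    (r : Finset (Qy Φ A × Bool)) :
    Measurable fun y : ↥(YE Φ τ t f) => Jv τ t f y.1.1.1.1 r := by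
  classical
  obtain ⟨H, hH1, hH2⟩ := exists_perms τ
  have e1 : (fun y : ↥(YE Φ τ t f) => Jv τ t f y.1.1.1.1 r) = fun y : ↥(YE Φ τ t f) =>
      ∃ i, ∀ p : r, (hq f (ext_perm y.1.1.2.ext (H i) (hH1 i)) p.1.1 ↔ p.1.2 = true) := by
    funext y
    apply propext
    constructor
    · rintro ⟨E, hE, hr⟩
      have hI : y.1.1.2.ext.I = E.I := hE.symm
      obtain ⟨h, h1, h2⟩ := exists_perm hI
      have hfin : (⋃ p ∈ r, sup Sf p.1).Finite :=
        r.finite_toSet.biUnion fun p _ => sup_fin hg p.1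
      obtain ⟨i, hi⟩ := hH2 h h1 hfin.toFinset
      refine ⟨i, fun p => ?_⟩
      rw [← hr p.1 p.2]
      refine hq_of_I hg (E := ext_perm y.1.1.2.ext (H i) (hH1 i)) (E' := E) hI p.1.1
        fun a ha => ?_
      show y.1.1.2.ext.ι (H i a) = E.ι a
      rw [h2 a, hi a (hfin.mem_toFinset.2 (mem_iUnion₂.2 ⟨p.1, p.2, ha⟩))]
    · rintro ⟨i, hi⟩
      exact ⟨_, rfl, fun p hp => hi ⟨p, hp⟩⟩
  rw [e1]
  have : Countable A := inferInstance
  refine Measurable.exists fun i => Measurable.forall fun p => ?_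
  exact (meas_hq hΦ hal (H i) (hH1 i) p.1.1).iff measurable_const

end

/-- countably many models of every theory -/
theorem dich_th [∀ n, Countable (L.Relations n)] (hΦ : Gd Φ)
    (hP : ¬ PerfK {c : Code L | toI c ∈ Md Φ}) (h2 : ∀ n, 2 < n → IsEmpty (L.Relations n))
    (I0 : Interp L ℕ) (hI0 : I0 ∈ Md Φ) :
    ∃ S : Set (Code L), S.Countable ∧ ∀ c : Code L, toI c ∈ Md Φ →
      (∀ θ ∈ fo, Set.encard {z | Rl I0 θ z z} = Set.encard {z | Rl (toI c) θ z z}) →
      ∃ c' ∈ S, Iso c c' := by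
  classical
  have hal := al_countable (L := L) (Φ := Φ) hP
  have i1 := hal.to_subtype
  obtain ⟨E0, -⟩ := exists_ext hΦ hI0 hI0 fun _ _ => rfl
  obtain ⟨f, Sf, hg, hf⟩ := full_list hΦ hP h2 E0
  have hYm : MeasurableSet (YE Φ (fun a : AA I0 => D Φ I0 a.1 a.1) (tt I0) f) := meas_YE hΦ hal
  have hXm := meas_Ev hΦ hal (fun a : AA I0 => D Φ I0 a.1 a.1) (tt I0)
  have hsb0 : StandardBorelSpace
      ↥{p : Code L × (AA I0 → ℕ) | Ev Φ (fun a : AA I0 => D Φ I0 a.1 a.1) (tt I0) p} :=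
    hXm.standardBorel
  have hsb : StandardBorelSpace ↥(YE Φ (fun a : AA I0 => D Φ I0 a.1 a.1) (tt I0) f) :=
    hYm.standardBorel
  let J : ↥(YE Φ (fun a : AA I0 => D Φ I0 a.1 a.1) (tt I0) f) →
      (Finset (Qy Φ (AA I0) × Bool) → Bool) := fun y r =>
    decide (Jv (fun a : AA I0 => D Φ I0 a.1 a.1) (tt I0) f y.1.1.1.1 r)
  have hJ : Measurable J := by
    refine measurable_pi_lambda _ fun r => measurable_to_bool ?_
    have e1 : (fun y => J y r) ⁻¹' {true} =
        {y | Jv (fun a : AA I0 => D Φ I0 a.1 a.1) (tt I0) f y.1.1.1.1 r} := by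
      ext y
      simp only [J, mem_preimage, mem_singleton_iff, decide_eq_true_eq, mem_ofPred_eq]
    rw [e1]
    exact measurableSet_setOfPred.2 (meas_Jv hΦ hal hg r)
  by_cases hJc : (range J).Countable
  · obtain ⟨S, hS, hS2⟩ := Pool.Agent.H623R2.VE.exists_reps J hJc
    refine ⟨(fun y : ↥(YE Φ (fun a : AA I0 => D Φ I0 a.1 a.1) (tt I0) f) => y.1.1.1.1) '' S,
      hS.image _, fun c hc hth => ?_⟩
    obtain ⟨E, hE⟩ := exists_ext hΦ hI0 hc hth
    obtain ⟨y, rfl⟩ := exists_YE hf hE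
    obtain ⟨y', hy', hyy⟩ := hS2 y
    refine ⟨y'.1.1.1.1, ⟨y', hy', rfl⟩, ?_⟩
    obtain ⟨ψ, hψ⟩ := data_of_Jv hΦ hP hg hf (c := y.1.1.1.1) (c' := y'.1.1.1.1)
      ⟨E, hE, fun p hp => absurd hp (by simp)⟩ fun r hr => by
        have h3 := congrFun hyy r
        simp only [J, decide_eq_decide] at h3
        exact h3.2 hr
    exact iso_of_data h2 ψ hψ
  · exfalso
    apply hP
    obtain ⟨h, h1, h3⟩ := perfect_of_uncountable
      (Y := ↥(YE Φ (fun a : AA I0 => D Φ I0 a.1 a.1) (tt I0) f))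
      (X := Code L) (fun y => y.1.1.1.1)
      (measurable_fst.comp (measurable_subtype_coe.comp
        (measurable_fst.comp measurable_subtype_coe)))
      (ι := Unit) (Z := Finset (Qy Φ (AA I0) × Bool) → Bool) (fun _ => J) (fun _ => hJ)
      (fun y y' => Iso y.1.1.1.1 y'.1.1.1.1) (fun y y' h _ => ⟨(), by
        funext r
        rw [Bool.eq_iff_iff]
        simp only [J, decide_eq_true_eq]
        exact ⟨Jv_iso hΦ h r, Jv_iso hΦ (iso_symm h) r⟩⟩) (by
        intro hc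
        apply hJc
        refine hc.mono ?_
        intro z hz
        exact mem_iUnion.2 ⟨(), hz⟩)
    refine ⟨fun x => (h x).1.1.1.1, h1, fun x => (h x).1.1.2.hI, fun x x' h4 => ?_⟩
    by_contra hne
    exact h3 x x' hne h4

/-- Countably many models or perfectly many models. -/
theorem dich_C2 [∀ n, Countable (L.Relations n)] (hΦ : Gd Φ)
    (h2 : ∀ n, 2 < n → IsEmpty (L.Relations n)) :
    (∃ S : Set (Code L), S.Countable ∧ ∀ c : Code L, toI c ∈ Md Φ → ∃ c' ∈ S, Iso c c') ∨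
      PerfK {c : Code L | toI c ∈ Md Φ} := by
  classical
  by_cases hP : PerfK {c : Code L | toI c ∈ Md Φ}
  · exact Or.inr hP
  · left
    have hal := al_countable (L := L) (Φ := Φ) hP
    have hex : ∀ d : Dat L, ∃ S : Set (Code L), S.Countable ∧ ∀ c : Code L, toI c ∈ Md Φ →
        D Φ (toI c) 0 0 = d → ∃ c' ∈ S, Iso c c' := by
      intro d
      by_cases hd : ∃ I0 ∈ Md Φ, D Φ I0 0 0 = d
      · obtain ⟨I0, hI0, h3⟩ := hd
        obtain ⟨S, hS, hS2⟩ := dich_th hΦ hP h2 I0 hI0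
        refine ⟨S, hS, fun c hc hcd => hS2 c hc fun θ hθ => ?_⟩
        rw [← lab_dg hΦ hθ I0 0 0 false, ← lab_dg hΦ hθ (toI c) 0 0 false, h3, hcd]
      · exact ⟨∅, countable_empty, fun c hc hcd => absurd ⟨toI c, hc, hcd⟩ hd⟩
    choose S hS hS2 using hex
    refine ⟨⋃ d ∈ Al Φ, S d, hal.biUnion fun d _ => hS d, fun c hc => ?_⟩
    obtain ⟨c', h3, h4⟩ := hS2 _ c hc rfl
    exact ⟨c', mem_iUnion₂.2 ⟨_, al_dat hc 0 0, h3⟩, h4⟩

end Pool.Agent.Y558.C2
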