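import Pool.Agent.Y558.C2.K2

set_option autoImplicit false
set_option linter.unusedVariables false

/-! Enumerations of the algebraic elements; decorations. -/

namespace Pool.Agent.Y558.C2

open FirstOrder Set Filter MeasureTheory
open Pool.Agent.H565R2.FO2 (pick pick_false pick_true pick_self pick_pick Interp Code toI ofI
  toI_ofI Iso bool_fun_cases perfect_of_uncountable)
open Pool.Agent.H565R2.CO (C2 Rl subs mem_subs subs_countable subs_trans Dat lab mkd dat ev ev_dat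
  Md dat_map dat_not map_not_not mkd_l mkI Coh mkI_iff mkd_mkI Rl_iso dat_f dat_t dat_iso Al al_dat
  KI code code_inj meas_code meas_Rl meas_Md)
open Pool.Agent.H565R2.LO2 (PerfK perfK_of_inv iso_symm)

variable {L : FirstOrder.Language.{0, 0}} {Φ : C2 L}
variable {A : Type} {τ : A → Dat L} {t : C2 L → ℕ∞}

/-! ### combinatorics -/

theorem fib {X Y Z : Type} (f : X → Z) (g : Y → Z) (R : X → Y → Prop)
    (h : ∀ z, ∃ e : {x // f x = z} ≃ {y // g y = z}, ∀ x, R x.1 (e x).1) :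
    ∃ e : X ≃ Y, (∀ x, g (e x) = f x) ∧ ∀ x, R x (e x) := by
  choose e he using h
  refine ⟨((Equiv.sigmaFiberEquiv f).symm.trans (Equiv.sigmaCongrRight e)).trans
    (Equiv.sigmaFiberEquiv g), fun x => ?_, fun x => ?_⟩
  · exact (e (f x) ⟨x, rfl⟩).2
  · exact he (f x) ⟨x, rfl⟩

/-- a finite conjunction -/
theorem fin_cj (F : ℕ → C2 L → Prop) (hcj : ∀ z φ ψ, F z (cj φ ψ) ↔ F z φ ∧ F z ψ)
    (hT : ∀ z, F z (.eq false false)) (z0 : ℕ) (X : Set ℕ) (hX : X.Finite)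
    (P : ℕ → Prop) (h : ∀ z ∈ X, P z → ∃ φ ∈ fo, F z0 φ ∧ ¬ F z φ) :
    ∃ φ ∈ fo, F z0 φ ∧ ∀ z ∈ X, P z → ¬ F z φ := by
  induction X, hX using Set.Finite.induction_on with
  | empty => exact ⟨.eq false false, fo_eq _ _, hT z0, fun z hz => absurd hz (notMem_empty z)⟩
  | insert _ _ ih =>
    rename_i a s _ _
    obtain ⟨φ, h1, h2, h3⟩ := ih fun z hz => h z (mem_insert_of_mem a hz)
    by_cases hp : P a
    · obtain ⟨ψ, h4, h5, h6⟩ := h a (mem_insert a s) hp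
      refine ⟨cj φ ψ, fo_cj h1 h4, (hcj _ _ _).2 ⟨h2, h5⟩, ?_⟩
      rintro z (rfl | hz) hpz hc
      · exact h6 ((hcj _ _ _).1 hc).2
      · exact h3 z hz hpz ((hcj _ _ _).1 hc).1
    · refine ⟨φ, h1, h2, ?_⟩
      rintro z (rfl | hz) hpz
      · exact absurd hpz hp
      · exact h3 z hz hpz

/-- matching of finite sets with the same numbers of solutions of all formulas -/
theorem mtch (F F' : ℕ → C2 L → Prop) (hcj : ∀ z φ ψ, F z (cj φ ψ) ↔ F z φ ∧ F z ψ)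
    (hcj' : ∀ z φ ψ, F' z (cj φ ψ) ↔ F' z φ ∧ F' z ψ)
    (hng : ∀ z φ, F z (.neg φ) ↔ ¬ F z φ) (hng' : ∀ z φ, F' z (.neg φ) ↔ ¬ F' z φ)
    (hT : ∀ z, F z (.eq false false)) (hT' : ∀ z, F' z (.eq false false))
    {X X' : Set ℕ} (hX : X.Finite) (hX' : X'.Finite)
    (hc : ∀ φ ∈ fo, {z | z ∈ X ∧ F z φ}.encard = {z | z ∈ X' ∧ F' z φ}.encard) :
    ∃ e : X ≃ X', ∀ z : X, ∀ φ ∈ fo, (F z.1 φ ↔ F' (e z).1 φ) := by
  classical
  let cl : X → Set (C2 L) := fun z => {φ | φ ∈ fo ∧ F z.1 φ}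
  let cl' : X' → Set (C2 L) := fun z => {φ | φ ∈ fo ∧ F' z.1 φ}
  -- the combined structure
  let G : ℕ → C2 L → Prop := fun z => if z % 2 = 0 then F (z / 2) else F' (z / 2)
  have hG0 : ∀ z, G (2 * z) = F z := fun z => by
    have h1 : 2 * z % 2 = 0 := by omega
    have h2 : 2 * z / 2 = z := by omega
    simp only [G, h1, if_true, h2]
  have hG1 : ∀ z, G (2 * z + 1) = F' z := fun z => by
    have h1 : ¬ (2 * z + 1) % 2 = 0 := by omega
    have h2 : (2 * z + 1) / 2 = z := by omega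
    simp only [G, if_neg h1, h2]
  have hGcj : ∀ z φ ψ, G z (cj φ ψ) ↔ G z φ ∧ G z ψ := by
    intro z φ ψ
    by_cases h : z % 2 = 0
    · simp only [G, if_pos h, hcj]
    · simp only [G, if_neg h, hcj']
  have hGT : ∀ z, G z (.eq false false) := by
    intro z
    by_cases h : z % 2 = 0
    · simp only [G, if_pos h, hT]
    · simp only [G, if_neg h, hT']
  have hGng : ∀ z φ, G z (.neg φ) ↔ ¬ G z φ := by
    intro z φ
    by_cases h : z % 2 = 0
    · simp only [G, if_pos h, hng]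
    · simp only [G, if_neg h, hng']
  let U : Set ℕ := ((fun z => 2 * z) '' X) ∪ ((fun z => 2 * z + 1) '' X')
  have hU : U.Finite := (hX.image _).union (hX'.image _)
  have sep : ∀ z0 : ℕ, ∃ χ ∈ fo, G z0 χ ∧ ∀ z ∈ U, G z χ → ∀ φ ∈ fo, (G z φ ↔ G z0 φ) := by
    intro z0
    obtain ⟨χ, h1, h2, h3⟩ := fin_cj G hGcj hGT z0 U hU
      (fun z => ¬ ∀ φ ∈ fo, (G z φ ↔ G z0 φ)) (by
        intro z _ hz
        push Not at hz
        obtain ⟨φ, hφ, h⟩ := hz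
        rcases h with ⟨h1, h2⟩ | ⟨h1, h2⟩
        · exact ⟨.neg φ, fo_neg hφ, (hGng _ _).2 h2, fun h => (hGng _ _).1 h h1⟩
        · exact ⟨φ, hφ, h2, h1⟩)
    refine ⟨χ, h1, h2, fun z hz hχ => ?_⟩
    by_contra hcon
    exact h3 z hz hcon hχ
  have hcard : ∀ c : Set (C2 L), Nonempty ({z : X // cl z = c} ≃ {z : X' // cl' z = c}) := by
    intro c
    have hfin1 : Finite X := hX.to_subtype
    have hfin2 : Finite X' := hX'.to_subtype
    have hft1 : Fintype {z : X // cl z = c} := Fintype.ofFinite _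
    have hft2 : Fintype {z : X' // cl' z = c} := Fintype.ofFinite _
    by_cases hne : (∃ z, cl z = c) ∨ ∃ z, cl' z = c
    · obtain ⟨z0, hz0⟩ : ∃ z0, {φ | φ ∈ fo ∧ G z0 φ} = c := by
        rcases hne with ⟨z, hz⟩ | ⟨z, hz⟩
        · refine ⟨2 * z.1, ?_⟩
          rw [← hz, hG0]
        · refine ⟨2 * z.1 + 1, ?_⟩
          rw [← hz, hG1]
      obtain ⟨χ, h1, h2, h3⟩ := sep z0
      have e1 : ∀ z : X, cl z = c ↔ F z.1 χ := by
        intro z
        constructor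
        · intro h
          have h4 : χ ∈ {φ | φ ∈ fo ∧ G z0 φ} := ⟨h1, h2⟩
          rw [hz0, ← h] at h4
          exact h4.2
        · intro h
          rw [← hz0]
          ext φ
          refine and_congr_right fun hφ => ?_
          have := h3 (2 * z.1) (Or.inl ⟨z.1, z.2, rfl⟩) (by rw [hG0]; exact h) φ hφ
          rw [hG0] at this
          exact this
      have e2 : ∀ z : X', cl' z = c ↔ F' z.1 χ := by
        intro z
        constructor
        · intro h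
          have h4 : χ ∈ {φ | φ ∈ fo ∧ G z0 φ} := ⟨h1, h2⟩
          rw [hz0, ← h] at h4
          exact h4.2
        · intro h
          rw [← hz0]
          ext φ
          refine and_congr_right fun hφ => ?_
          have := h3 (2 * z.1 + 1) (Or.inr ⟨z.1, z.2, rfl⟩) (by rw [hG1]; exact h) φ hφ
          rw [hG1] at this
          exact this
      have h4 := hc χ h1
      have e3 : {z : X // cl z = c} ≃ {z | z ∈ X ∧ F z χ} :=
        ⟨fun z => ⟨z.1.1, z.1.2, (e1 z.1).1 z.2⟩, fun z => ⟨⟨z.1, z.2.1⟩, (e1 _).2 z.2.2⟩,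
          fun z => rfl, fun z => rfl⟩
      have e4 : {z : X' // cl' z = c} ≃ {z | z ∈ X' ∧ F' z χ} :=
        ⟨fun z => ⟨z.1.1, z.1.2, (e2 z.1).1 z.2⟩, fun z => ⟨⟨z.1, z.2.1⟩, (e2 _).2 z.2.2⟩,
          fun z => rfl, fun z => rfl⟩
      have f1 : {z | z ∈ X ∧ F z χ}.Finite := hX.subset fun z hz => hz.1
      have f2 : {z | z ∈ X' ∧ F' z χ}.Finite := hX'.subset fun z hz => hz.1
      have := f1.to_subtype
      have := f2.to_subtype
      have h5 : Nat.card {z | z ∈ X ∧ F z χ} = Nat.card {z | z ∈ X' ∧ F' z χ} := by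
        rw [Nat.card_coe_set_eq, Nat.card_coe_set_eq, Set.ncard_def, Set.ncard_def, h4]
      have g1 : Fintype {z | z ∈ X ∧ F z χ} := Fintype.ofFinite _
      have g2 : Fintype {z | z ∈ X' ∧ F' z χ} := Fintype.ofFinite _
      rw [Nat.card_eq_fintype_card, Nat.card_eq_fintype_card] at h5
      exact ⟨(e3.trans (Fintype.equivOfCardEq h5)).trans e4.symm⟩
    · rw [not_or] at hne
      have i1 : IsEmpty {z : X // cl z = c} := ⟨fun z => hne.1 ⟨z.1, z.2⟩⟩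
      have i2 : IsEmpty {z : X' // cl' z = c} := ⟨fun z => hne.2 ⟨z.1, z.2⟩⟩
      exact ⟨Equiv.equivOfIsEmpty _ _⟩
  obtain ⟨e, he, -⟩ := fib cl cl' (fun _ _ => True) (fun c => ⟨(hcard c).some, fun _ => trivial⟩)
  refine ⟨e, fun z φ hφ => ?_⟩
  have h1 : φ ∈ cl z ↔ φ ∈ cl' (e z) := by rw [he z]
  constructor
  · intro h
    exact (h1.1 ⟨hφ, h⟩).2
  · intro h
    exact (h1.2 ⟨hφ, h⟩).2

/-! ### enumerations -/

theorem mtch_diag (hΦ : Gd Φ) {I I' : Interp L ℕ} (hI : I ∈ Md Φ) (hI' : I' ∈ Md Φ)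
    (hth : ∀ θ ∈ fo, Set.encard {z | Rl I θ z z} = Set.encard {z | Rl I' θ z z})
    {θ : C2 L} (hθ : θ ∈ fo) (hf : {z | Rl I θ z z}.Finite) :
    ∃ e : {z | Rl I θ z z} ≃ {z | Rl I' θ z z},
      ∀ z, D Φ I' (e z).1 (e z).1 = D Φ I z.1 z.1 := by
  have hf' : {z | Rl I' θ z z}.Finite := by
    rw [← Set.encard_ne_top_iff, ← hth θ hθ, Set.encard_ne_top_iff]
    exact hf
  obtain ⟨e, he⟩ := mtch (fun z φ => Rl I φ z z) (fun z φ => Rl I' φ z z)
    (fun _ _ _ => Rl_cj) (fun _ _ _ => Rl_cj) (fun _ _ => Iff.rfl) (fun _ _ => Iff.rfl)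
    (fun _ => rfl) (fun _ => rfl) hf hf' (by
      intro φ hφ
      have h1 : ∀ J : Interp L ℕ, {z | z ∈ {z | Rl J θ z z} ∧ Rl J φ z z} =
          {z | Rl J (cj θ φ) z z} := by
        intro J
        ext z
        exact Rl_cj.symm
      rw [h1, h1]
      exact hth _ (fo_cj hθ hφ))
  refine ⟨e, fun z => ?_⟩
  exact (D_ext hΦ hI hI' fun ψ hψ => he z ψ hψ).symm

/-- the index set for the algebraic elements -/
abbrev AA (I0 : Interp L ℕ) : Type := {x : ℕ // Alg I0 x}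

/-- the theory -/
noncomputable def tt (I0 : Interp L ℕ) (θ : C2 L) : ℕ∞ := Set.encard {z | Rl I0 θ z z}

theorem exists_ext (hΦ : Gd Φ) {I0 I : Interp L ℕ} (hI0 : I0 ∈ Md Φ) (hI : I ∈ Md Φ)
    (hth : ∀ θ ∈ fo, Set.encard {z | Rl I0 θ z z} = Set.encard {z | Rl I θ z z}) :
    ∃ E : Ext Φ (AA I0) (fun a => D Φ I0 a.1 a.1) (tt I0), E.I = I := by
  have key : ∀ p : Dat L, ∃ e : {x : AA I0 // D Φ I0 x.1 x.1 = p} ≃
      {x : AA I // D Φ I x.1 x.1 = p}, ∀ x : {x : AA I0 // D Φ I0 x.1 x.1 = p}, True := by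
    intro p
    by_cases hne : (∃ x : AA I0, D Φ I0 x.1 x.1 = p) ∨ ∃ x : AA I, D Φ I x.1 x.1 = p
    · obtain ⟨θ, hθ, hev, hfin⟩ : ∃ θ ∈ fo, ev θ p ∧ {z | Rl I0 θ z z}.Finite := by
        rcases hne with ⟨x, hx⟩ | ⟨x, hx⟩
        · obtain ⟨θ, hθ, h1, h2⟩ := x.2
          exact ⟨θ, hθ, hx ▸ (hΦ.ev hθ _ _ _).2 h1, h2⟩
        · obtain ⟨θ, hθ, h1, h2⟩ := x.2
          refine ⟨θ, hθ, hx ▸ (hΦ.ev hθ _ _ _).2 h1, ?_⟩
          rw [← Set.encard_ne_top_iff, hth θ hθ, Set.encard_ne_top_iff]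
          exact h2
      obtain ⟨e, he⟩ := mtch_diag hΦ hI0 hI hth hθ hfin
      have hfin' : {z | Rl I θ z z}.Finite := by
        rw [← Set.encard_ne_top_iff, ← hth θ hθ, Set.encard_ne_top_iff]
        exact hfin
      have f1 : ∀ x : {x : AA I0 // D Φ I0 x.1 x.1 = p}, Rl I0 θ x.1.1 x.1.1 := fun x =>
        (hΦ.ev hθ _ _ _).1 (by rw [x.2]; exact hev)
      have f2 : ∀ x : {x : AA I // D Φ I x.1 x.1 = p}, Rl I θ x.1.1 x.1.1 := fun x =>
        (hΦ.ev hθ _ _ _).1 (by rw [x.2]; exact hev)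
      refine ⟨⟨fun x => ⟨⟨(e ⟨x.1.1, f1 x⟩).1, ?_⟩, ?_⟩,
        fun y => ⟨⟨(e.symm ⟨y.1.1, f2 y⟩).1, ?_⟩, ?_⟩, fun x => ?_, fun y => ?_⟩,
        fun _ => trivial⟩
      · exact ⟨θ, hθ, (e ⟨x.1.1, f1 x⟩).2, hfin'⟩
      · show D Φ I (e ⟨x.1.1, f1 x⟩).1 (e ⟨x.1.1, f1 x⟩).1 = p
        rw [he]
        exact x.2
      · exact ⟨θ, hθ, (e.symm ⟨y.1.1, f2 y⟩).2, hfin⟩
      · show D Φ I0 (e.symm ⟨y.1.1, f2 y⟩).1 (e.symm ⟨y.1.1, f2 y⟩).1 = p
        rw [← he, Equiv.apply_symm_apply]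
        exact y.2
      · apply Subtype.ext
        apply Subtype.ext
        simp
      · apply Subtype.ext
        apply Subtype.ext
        simp
    · rw [not_or] at hne
      have i1 : IsEmpty {x : AA I0 // D Φ I0 x.1 x.1 = p} := ⟨fun z => hne.1 ⟨z.1, z.2⟩⟩
      have i2 : IsEmpty {x : AA I // D Φ I x.1 x.1 = p} := ⟨fun z => hne.2 ⟨z.1, z.2⟩⟩
      exact ⟨Equiv.equivOfIsEmpty _ _, fun _ => trivial⟩
  obtain ⟨e, he, -⟩ := fib (fun x : AA I0 => D Φ I0 x.1 x.1) (fun x : AA I => D Φ I x.1 x.1)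
    (fun _ _ => True) key
  refine ⟨⟨I, hI, fun a => (e a).1, fun a b h => e.injective (Subtype.ext h), fun x => ?_,
    fun a => he a, fun θ hθ => (hth θ hθ).symm⟩, rfl⟩
  constructor
  · intro hx
    exact ⟨e.symm ⟨x, hx⟩, by rw [Equiv.apply_symm_apply]⟩
  · rintro ⟨a, rfl⟩
    exact (e a).2

/-! ### finite fibres -/

/-- algebraic types are isolated -/
theorem isol (hΦ : Gd Φ) (E0 : Ext Φ A τ t) (a : A) : ∃ χ ∈ fo, ∀ E : Ext Φ A τ t,
    {z | Rl E.I χ z z} = E.ι '' {b | τ b = τ a} ∧ {b | τ b = τ a}.Finite := by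
  obtain ⟨θ, hθ, h1, h2⟩ := (E0.rng (E0.ι a)).2 ⟨a, rfl⟩
  obtain ⟨χ, h3, h4, h5⟩ := fin_cj (fun z φ => Rl E0.I φ z z) (fun _ _ _ => Rl_cj)
    (fun _ => rfl) (E0.ι a) {z | Rl E0.I θ z z} h2 (fun z => D Φ E0.I z z ≠ τ a) (by
      intro z _ hz
      by_contra hc
      push Not at hc
      apply hz
      rw [← E0.ty a]
      refine D_ext hΦ E0.hI E0.hI fun ψ hψ => ?_
      constructor
      · intro h
        by_contra h6
        exact hc (.neg ψ) (fo_neg hψ) h6 h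
      · exact hc ψ hψ)
  have hev : ∀ E : Ext Φ A τ t, ∀ b, τ b = τ a → Rl E.I (cj θ χ) (E.ι b) (E.ι b) := by
    intro E b hb
    rw [← hΦ.ev (fo_cj hθ h3), E.ty, hb, ← E0.ty a, hΦ.ev (fo_cj hθ h3), Rl_cj]
    exact ⟨h1, h4⟩
  have hE0 : {z | Rl E0.I (cj θ χ) z z} = E0.ι '' {b | τ b = τ a} := by
    ext z
    constructor
    · intro hz
      obtain ⟨hz1, hz2⟩ := Rl_cj.1 hz
      obtain ⟨b, rfl⟩ := (E0.rng z).1 ⟨θ, hθ, hz1, h2⟩
      refine ⟨b, ?_, rfl⟩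
      show τ b = τ a
      by_contra hne
      exact h5 _ hz1 (by rw [E0.ty]; exact hne) hz2
    · rintro ⟨b, hb, rfl⟩
      exact hev E0 b hb
  have hfin : {b | τ b = τ a}.Finite := by
    have h6 : (E0.ι '' {b | τ b = τ a}).Finite := by
      rw [← hE0]
      exact h2.subset fun z hz => (Rl_cj.1 hz).1
    exact h6.of_finite_image E0.inj.injOn
  refine ⟨cj θ χ, fo_cj hθ h3, fun E => ⟨?_, hfin⟩⟩
  have h6 : E.ι '' {b | τ b = τ a} ⊆ {z | Rl E.I (cj θ χ) z z} := by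
    rintro _ ⟨b, hb, rfl⟩
    exact hev E b hb
  have h7 : Set.encard {z | Rl E.I (cj θ χ) z z} = Set.encard (E.ι '' {b | τ b = τ a}) := by
    rw [E.th _ (fo_cj hθ h3), ← E0.th _ (fo_cj hθ h3), hE0, E0.inj.encard_image,
      E.inj.encard_image]
  symm
  exact Set.Finite.eq_of_subset_of_encard_le (hfin.image _) h6 h7.le

theorem fin_fib (hΦ : Gd Φ) (E0 : Ext Φ A τ t) (a : A) : {b | τ b = τ a}.Finite := by
  obtain ⟨χ, -, h⟩ := isol hΦ E0 a
  exact (h E0).2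

/-- decorations of elements of the same type -/
theorem deco (hΦ : Gd Φ) (E E' : Ext Φ A τ t) {x x' : ℕ} (h : D Φ E.I x x = D Φ E'.I x' x') :
    ∃ g : Equiv.Perm A, (∀ a, τ (g a) = τ a) ∧
      ∀ a, D Φ E.I x (E.ι (g a)) = D Φ E'.I x' (E'.ι a) := by
  obtain ⟨g, h1, h2⟩ := fib τ τ (fun a b => D Φ E.I x (E.ι b) = D Φ E'.I x' (E'.ι a)) (by
    intro q
    by_cases hq : ∃ a, τ a = q
    · obtain ⟨a, rfl⟩ := hq
      obtain ⟨χ, hχ, hχ2⟩ := isol hΦ E a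
      obtain ⟨e, he⟩ := mtch (fun z φ => Rl E'.I φ x' z) (fun z φ => Rl E.I φ x z)
        (fun _ _ _ => Rl_cj) (fun _ _ _ => Rl_cj) (fun _ _ => Iff.rfl) (fun _ _ => Iff.rfl)
        (fun _ => rfl) (fun _ => rfl) (X := E'.ι '' {b | τ b = τ a})
        (X' := E.ι '' {b | τ b = τ a}) ((hχ2 E).2.image _) ((hχ2 E).2.image _) (by
          intro φ hφ
          have h3 : ∀ (J : Ext Φ A τ t) (y : ℕ), {z | z ∈ J.ι '' {b | τ b = τ a} ∧ Rl J.I φ y z} =
              {z | Rl J.I (cj (dg χ) φ) y z} := by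
            intro J y
            rw [← (hχ2 J).1]
            ext z
            show Rl J.I χ z z ∧ _ ↔ Rl J.I (cj (dg χ) φ) y z
            rw [Rl_cj, Rl_dg]
          rw [h3, h3]
          have h4 : ∀ (J : Ext Φ A τ t) (y : ℕ), Set.encard {z | Rl J.I (cj (dg χ) φ) y z} =
              (D Φ J.I y y).l false true (cj (dg χ) φ) := by
            intro J y
            rw [hΦ.lab (fo_cj (fo_dg hχ) hφ)]
            rfl
          rw [h4, h4, h])
      let f : ∀ J : Ext Φ A τ t, {b // τ b = τ a} ≃ ↥(J.ι '' {b | τ b = τ a}) := fun J =>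
        Equiv.Set.imageOfInjOn J.ι {b | τ b = τ a} J.inj.injOn
      refine ⟨((f E').trans e).trans (f E).symm, fun b => ?_⟩
      have h5 := he (f E' b)
      have h6 : E.ι ((f E).symm (e (f E' b))).1 = (e (f E' b)).1 := by
        have := (f E).apply_symm_apply (e (f E' b))
        exact congrArg Subtype.val this
      show D Φ E.I x (E.ι ((f E).symm (e (f E' b))).1) = D Φ E'.I x' (E'.ι b.1)
      rw [h6]
      exact (D_ext hΦ E'.hI E.hI fun ψ hψ => h5 ψ hψ).symm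
    · have i1 : IsEmpty {a // τ a = q} := ⟨fun z => hq ⟨z.1, z.2⟩⟩
      exact ⟨Equiv.refl _, fun x => i1.elim x⟩)
  exact ⟨g, h1, h2⟩

/-- the number of algebraic solutions does not depend on the model -/
theorem alg_sol (hΦ : Gd Φ) (E E' : Ext Φ A τ t) (a b : A) (c : Bool) {ψ : C2 L} (hψ : ψ ∈ fo)
    (h : Rl E.I ψ (cond c (E.ι a) (E.ι b)) (cond c (E.ι b) (E.ι a))) :
    ∃ b', τ b' = τ b ∧ Rl E'.I ψ (cond c (E'.ι a) (E'.ι b')) (cond c (E'.ι b') (E'.ι a)) := by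
  obtain ⟨χ, hχ, hχ2⟩ := isol hΦ E b
  cases c
  · have h1 : (D Φ E.I (E.ι a) (E.ι a)).l false false (cj (dg0 χ) ψ) =
        (D Φ E'.I (E'.ι a) (E'.ι a)).l false false (cj (dg0 χ) ψ) := by
      rw [E.ty, E'.ty]
    rw [hΦ.lab (fo_cj (fo_dg0 hχ) hψ), hΦ.lab (fo_cj (fo_dg0 hχ) hψ)] at h1
    have h2 : {z | Rl E.I (cj (dg0 χ) ψ) z (E.ι a)}.Nonempty := by
      refine ⟨E.ι b, ?_⟩
      show Rl E.I (cj (dg0 χ) ψ) (E.ι b) (E.ι a)
      rw [Rl_cj, Rl_dg0]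
      refine ⟨?_, h⟩
      have : E.ι b ∈ E.ι '' {b' | τ b' = τ b} := ⟨b, rfl, rfl⟩
      rw [← (hχ2 E).1] at this
      exact this
    have h3 : {z | Rl E'.I (cj (dg0 χ) ψ) z (E'.ι a)}.Nonempty := by
      rw [← Set.one_le_encard_iff_nonempty] at h2 ⊢
      have h4 : Set.encard {z | Rl E.I (cj (dg0 χ) ψ) z (E.ι a)} =
        Set.encard {z | Rl E'.I (cj (dg0 χ) ψ) z (E'.ι a)} := h1
      rw [← h4]
      exact h2
    obtain ⟨z, hz⟩ := h3
    have hz' : Rl E'.I (cj (dg0 χ) ψ) z (E'.ι a) := hz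
    rw [Rl_cj, Rl_dg0] at hz'
    have hz2 : z ∈ E'.ι '' {b' | τ b' = τ b} := by
      rw [← (hχ2 E').1]
      exact hz'.1
    obtain ⟨b', hb', rfl⟩ := hz2
    exact ⟨b', hb', hz'.2⟩
  · have h1 : (D Φ E.I (E.ι a) (E.ι a)).l false true (cj (dg χ) ψ) =
        (D Φ E'.I (E'.ι a) (E'.ι a)).l false true (cj (dg χ) ψ) := by
      rw [E.ty, E'.ty]
    rw [hΦ.lab (fo_cj (fo_dg hχ) hψ), hΦ.lab (fo_cj (fo_dg hχ) hψ)] at h1
    have h2 : {z | Rl E.I (cj (dg χ) ψ) (E.ι a) z}.Nonempty := by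
      refine ⟨E.ι b, ?_⟩
      show Rl E.I (cj (dg χ) ψ) (E.ι a) (E.ι b)
      rw [Rl_cj, Rl_dg]
      refine ⟨?_, h⟩
      have : E.ι b ∈ E.ι '' {b' | τ b' = τ b} := ⟨b, rfl, rfl⟩
      rw [← (hχ2 E).1] at this
      exact this
    have h3 : {z | Rl E'.I (cj (dg χ) ψ) (E'.ι a) z}.Nonempty := by
      rw [← Set.one_le_encard_iff_nonempty] at h2 ⊢
      have h4 : Set.encard {z | Rl E.I (cj (dg χ) ψ) (E.ι a) z} =
        Set.encard {z | Rl E'.I (cj (dg χ) ψ) (E'.ι a) z} := h1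
      rw [← h4]
      exact h2
    obtain ⟨z, hz⟩ := h3
    have hz' : Rl E'.I (cj (dg χ) ψ) (E'.ι a) z := hz
    rw [Rl_cj, Rl_dg] at hz'
    have hz2 : z ∈ E'.ι '' {b' | τ b' = τ b} := by
      rw [← (hχ2 E').1]
      exact hz'.1
    obtain ⟨b', hb', rfl⟩ := hz2
    exact ⟨b', hb', hz'.2⟩

/-- infinitely many algebraic solutions in one model give infinitely many in another one -/
theorem alg_inf (hΦ : Gd Φ) (E E' : Ext Φ A τ t) (a : A) (c : Bool) {ψ : C2 L} (hψ : ψ ∈ fo)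
    (h : {b | Rl E.I ψ (cond c (E.ι a) (E.ι b)) (cond c (E.ι b) (E.ι a))}.Infinite) :
    {b | Rl E'.I ψ (cond c (E'.ι a) (E'.ι b)) (cond c (E'.ι b) (E'.ι a))}.Infinite := by
  intro hf
  apply h
  have h1 : {b | Rl E.I ψ (cond c (E.ι a) (E.ι b)) (cond c (E.ι b) (E.ι a))} ⊆
      ⋃ b' ∈ {b | Rl E'.I ψ (cond c (E'.ι a) (E'.ι b)) (cond c (E'.ι b) (E'.ι a))},
        {b | τ b = τ b'} := by
    intro b hb
    obtain ⟨b', h2, h3⟩ := alg_sol hΦ E E' a b c hψ hb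
    exact mem_iUnion₂.2 ⟨b', h3, h2.symm⟩
  exact (hf.biUnion fun b' _ => fin_fib hΦ E b').subset h1

/-! ### countably many data -/

theorem al_countable [∀ n, Countable (L.Relations n)] (hP : ¬ PerfK {c : Code L | toI c ∈ Md Φ}) :
    (Al Φ).Countable := by
  classical
  by_contra hc
  apply hP
  have hm : MeasurableSet {c : Code L | toI c ∈ Md Φ} := meas_Md Φ
  have hsb : StandardBorelSpace ↥{c : Code L | toI c ∈ Md Φ} := hm.standardBorel
  refine perfK_of_inv (Y := ↥{c : Code L | toI c ∈ Md Φ}) (Z := KI Φ → Bool) (ι := ℕ × ℕ)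
    (fun c => c.1) measurable_subtype_coe (fun c => c.2)
    (fun i c => fun k => decide (code Φ (dat (toI c.1) (subs Φ) i.1 i.2) k))
    (fun i => measurable_pi_lambda _ fun k => ?_) ?_ ?_
  · apply measurable_to_bool
    have e1 : (fun c : ↥{c : Code L | toI c ∈ Md Φ} =>
        decide (code Φ (dat (toI c.1) (subs Φ) i.1 i.2) k)) ⁻¹' {true} =
        {c | code Φ (dat (toI c.1) (subs Φ) i.1 i.2) k} := by
      ext c
      simp
    rw [e1]
    exact measurableSet_setOfPred.2 ((meas_code Φ i.1 i.2 k).comp measurable_subtype_coe)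
  · rintro y y' ⟨g, hg⟩ i
    refine ⟨(g i.1, g i.2), ?_⟩
    funext k
    rw [dat_iso g hg]
  · intro h
    apply hc
    let f : Dat L → (KI Φ → Bool) := fun d k => decide (code Φ d k)
    have hinj : Set.InjOn f (Al Φ) := by
      intro d hd d' hd' he
      refine code_inj hd hd' fun k => ?_
      have := congrFun he k
      simp only [f, decide_eq_decide] at this
      exact this
    refine Set.countable_of_injective_of_countable_image hinj (h.mono ?_)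
    rintro _ ⟨d, ⟨I, hI, x, y, rfl⟩, rfl⟩
    refine mem_iUnion.2 ⟨(x, y), ⟨⟨ofI I, ?_⟩, ?_⟩⟩
    · show toI (ofI I) ∈ Md Φ
      rw [toI_ofI]
      exact hI
    · simp only [toI_ofI]
      rfl

end Pool.Agent.Y558.C2
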