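import Pool.Agent.Y558.C2.Gen

set_option autoImplicit false
set_option linter.unusedVariables false

/-! Existence of free data. -/

namespace Pool.Agent.Y558.C2

open FirstOrder Set Filter
open Pool.Agent.H565R2.FO2 (pick pick_false pick_true pick_self pick_pick Interp Code toI ofI
  toI_ofI Iso)
open Pool.Agent.H565R2.CO (C2 Rl subs mem_subs subs_countable subs_trans Dat lab mkd dat ev ev_dat
  Md dat_map dat_not map_not_not bd_union)

variable {L : FirstOrder.Language.{0, 0}} {Φ : C2 L}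

/-- agreement with a type on the first formulas -/
def Agr (θ : ℕ → C2 L) (I : Interp L ℕ) (p : Dat L) (K x : ℕ) : Prop :=
  ∀ j < K, (Rl I (θ j) x x ↔ ev (θ j) p)

theorem Agr.mono {θ : ℕ → C2 L} {I : Interp L ℕ} {p : Dat L} {K K' x : ℕ} (h : Agr θ I p K' x)
    (hK : K ≤ K') : Agr θ I p K x := fun j hj => h j (by omega)

open Classical in
/-- the conjunction of the first formulas and negations -/
noncomputable def cK (θ : ℕ → C2 L) (p : Dat L) : ℕ → C2 L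
  | 0 => .eq false false
  | k + 1 => cj (cK θ p k) (if ev (θ k) p then θ k else .neg (θ k))

theorem cK_fo {θ : ℕ → C2 L} (hθ : ∀ j, θ j ∈ fo) (p : Dat L) (k : ℕ) : cK θ p k ∈ fo := by
  induction k with
  | zero => exact fo_eq _ _
  | succ k ih =>
    refine fo_cj ih ?_
    split_ifs
    · exact hθ k
    · exact fo_neg (hθ k)

theorem cK_ev {θ : ℕ → C2 L} (p : Dat L) (k : ℕ) : ev (cK θ p k) p := by
  induction k with
  | zero => exact Or.inl rfl
  | succ k ih =>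
    show ev (cj _ _) p
    rw [ev_cj]
    refine ⟨ih, ?_⟩
    split_ifs with h
    · exact h
    · exact h

theorem cK_Rl {θ : ℕ → C2 L} {I : Interp L ℕ} {p : Dat L} {x : ℕ} (k : ℕ) :
    Rl I (cK θ p k) x x ↔ Agr θ I p k x := by
  induction k with
  | zero => exact ⟨fun _ j hj => absurd hj (by omega), fun _ => rfl⟩
  | succ k ih =>
    show Rl I (cj _ _) x x ↔ _
    rw [Rl_cj, ih]
    constructor
    · rintro ⟨h1, h2⟩ j hj
      rcases Nat.lt_succ_iff_lt_or_eq.1 hj with h | rfl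
      · exact h1 j h
      · split_ifs at h2 with h3
        · exact ⟨fun _ => h3, fun _ => h2⟩
        · exact ⟨fun h4 => absurd h4 h2, fun h4 => absurd h4 h3⟩
    · intro h
      refine ⟨fun j hj => h j (by omega), ?_⟩
      have h1 := h k (by omega)
      split_ifs with h3
      · exact h1.2 h3
      · exact fun h4 => h3 (h1.1 h4)

theorem agr_inf (hΦ : Gd Φ) {θ : ℕ → C2 L} (hθ : ∀ j, θ j ∈ fo) {I : Interp L ℕ} {p : Dat L}
    (hpa : ¬ AlgT p) (hpI : SameTh p (D Φ I 0 0)) (K : ℕ) : {x | Agr θ I p K x}.Infinite := by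
  have h1 : {x | Agr θ I p K x} = {z | Rl I (cK θ p K) z z} := by
    ext x
    exact (cK_Rl K).symm
  rw [h1]
  have h2 := hpI _ (cK_fo hθ p K)
  rw [lab_dg hΦ (cK_fo hθ p K)] at h2
  intro hf
  refine hpa ⟨_, cK_fo hθ p K, cK_ev p K, ?_⟩
  rw [h2, Set.encard_ne_top_iff]
  exact hf

/-- the solutions of a formula over an element -/
def Sl (I : Interp L ℕ) (c : Bool) (ψ : C2 L) (x : ℕ) : Set ℕ :=
  {z | Rl I ψ (cond c x z) (cond c z x)}

theorem sl_bd {θ : ℕ → C2 L} (hθ : Set.range θ = fo) {I : Interp L ℕ} {p : Dat L}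
    (hp : Ty Φ p) {c : Bool} {ψ : C2 L} (hψ : ψ ∈ fo) (hne : p.l false c ψ ≠ ⊤) :
    ∃ K m : ℕ, ∀ x, Agr θ I p K x → (Sl I c ψ x).encard ≤ (m : ℕ∞) := by
  obtain ⟨m, hm⟩ := ENat.ne_top_iff_exists.1 hne
  have h1 : (.ex c (m + 1) ψ : C2 L) ∈ fo := fo_ex _ _ hψ
  rw [← hθ] at h1
  obtain ⟨j, hj⟩ := h1
  refine ⟨j + 1, m, fun x hx => ?_⟩
  have h2 := hx j (by omega)
  rw [hj] at h2
  have h3 : ¬ ev (.ex c (m + 1) ψ) p := by
    have h4 : ev (.ex c (m + 1) ψ) p ↔ ((m + 1 : ℕ) : ℕ∞) ≤ p.l false c ψ := by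
      cases c
      · show ((m + 1 : ℕ) : ℕ∞) ≤ p.l true false ψ ↔ _
        rw [hp.l true false]
      · exact Iff.rfl
    rw [h4, ← hm]
    intro h
    have : m + 1 ≤ m := by exact_mod_cast h
    omega
  have h5 : ¬ Rl I (.ex c (m + 1) ψ) x x := fun h => h3 (h2.1 h)
  have h6 : ¬ ((m + 1 : ℕ) : ℕ∞) ≤ (Sl I c ψ x).encard := by
    intro h
    refine h5 ?_
    cases c
    · exact h
    · exact h
  rw [not_le] at h6
  exact Order.le_of_lt_add_one (by exact_mod_cast h6)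

/-- uniform bounds for all bad solutions -/
theorem row_bd {θ : ℕ → C2 L} (hθ : Set.range θ = fo) {I : Interp L ℕ} {p : Dat L}
    (hp : Ty Φ p) (k : ℕ) : ∃ K m : ℕ, k ≤ K ∧ ∀ x, Agr θ I p K x →
      ({y | y = x ∨ ∃ j < k, ∃ c, p.l false c (θ j) ≠ ⊤ ∧ y ∈ Sl I c (θ j) x}).encard ≤
        (m : ℕ∞) := by
  induction k with
  | zero =>
    refine ⟨0, 1, le_rfl, fun x _ => ?_⟩
    have : {y | y = x ∨ ∃ j < 0, ∃ c, p.l false c (θ j) ≠ ⊤ ∧ y ∈ Sl I c (θ j) x} = {x} := by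
      ext y
      simp
    rw [this, Set.encard_singleton]
    exact le_rfl
  | succ k ih =>
    obtain ⟨K, m, hkK, h⟩ := ih
    have h1 : ∀ c : Bool, ∃ K' m' : ℕ, ∀ x, Agr θ I p K' x →
        {y | p.l false c (θ k) ≠ ⊤ ∧ y ∈ Sl I c (θ k) x}.encard ≤ (m' : ℕ∞) := by
      intro c
      by_cases hc : p.l false c (θ k) ≠ ⊤
      · obtain ⟨K', m', h'⟩ := sl_bd hθ hp (hθ ▸ ⟨k, rfl⟩) hc
        refine ⟨K', m', fun x hx => (Set.encard_le_encard ?_).trans (h' x hx)⟩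
        exact fun y hy => hy.2
      · refine ⟨0, 0, fun x _ => ?_⟩
        have : {y | p.l false c (θ k) ≠ ⊤ ∧ y ∈ Sl I c (θ k) x} = ∅ := by
          ext y
          exact ⟨fun hy => absurd hy.1 hc, fun hy => hy.elim⟩
        rw [this, Set.encard_empty]
        exact le_rfl
    obtain ⟨K1, m1, h1a⟩ := h1 false
    obtain ⟨K2, m2, h2a⟩ := h1 true
    refine ⟨max (max K K1) (max K2 (k + 1)), m + m1 + m2, by omega, fun x hx => ?_⟩
    have hsub : {y | y = x ∨ ∃ j < k + 1, ∃ c, p.l false c (θ j) ≠ ⊤ ∧ y ∈ Sl I c (θ j) x} ⊆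
        ({y | y = x ∨ ∃ j < k, ∃ c, p.l false c (θ j) ≠ ⊤ ∧ y ∈ Sl I c (θ j) x} ∪
          {y | p.l false false (θ k) ≠ ⊤ ∧ y ∈ Sl I false (θ k) x}) ∪
          {y | p.l false true (θ k) ≠ ⊤ ∧ y ∈ Sl I true (θ k) x} := by
      rintro y (hy | ⟨j, hj, c, hc, hy⟩)
      · exact Or.inl (Or.inl (Or.inl hy))
      · rcases Nat.lt_succ_iff_lt_or_eq.1 hj with h3 | rfl
        · exact Or.inl (Or.inl (Or.inr ⟨j, h3, c, hc, hy⟩))
        · cases c
          · exact Or.inl (Or.inr ⟨hc, hy⟩)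
          · exact Or.inr ⟨hc, hy⟩
    refine (Set.encard_le_encard hsub).trans ((Set.encard_union_le _ _).trans ?_)
    have e1 := h x (hx.mono (by omega))
    have e2 := h1a x (hx.mono (by omega))
    have e3 := h2a x (hx.mono (by omega))
    push_cast
    exact add_le_add ((Set.encard_union_le _ _).trans (add_le_add e1 e2)) e3

theorem good_pair (hΦ : Gd Φ) {θ : ℕ → C2 L} (hθ : Set.range θ = fo) {I : Interp L ℕ}
    {p q : Dat L} (hp : Ty Φ p) (hq : Ty Φ q) (hpa : ¬ AlgT p) (hqa : ¬ AlgT q)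
    (hpI : SameTh p (D Φ I 0 0)) (hqI : SameTh q (D Φ I 0 0)) (k : ℕ) :
    ∃ x y, x ≠ y ∧ Agr θ I p k x ∧ Agr θ I q k y ∧ ∀ j < k,
      (Rl I (θ j) x y → p.l false true (θ j) = ⊤ ∧ q.l false false (θ j) = ⊤) ∧
      (Rl I (θ j) y x → q.l false true (θ j) = ⊤ ∧ p.l false false (θ j) = ⊤) := by
  classical
  have hθ' : ∀ j, θ j ∈ fo := fun j => hθ ▸ ⟨j, rfl⟩
  obtain ⟨K1, m1, hk1, b1⟩ := row_bd (I := I) hθ hp k
  obtain ⟨K2, m2, hk2, b2⟩ := row_bd (I := I) hθ hq k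
  have hX := agr_inf hΦ hθ' hpa hpI K1
  have hY := agr_inf hΦ hθ' hqa hqI K2
  obtain ⟨Y, hY1, hY2⟩ := hY.exists_subset_card_eq (m1 + 1)
  by_contra hcon
  push Not at hcon
  apply hX
  have hsub : {x | Agr θ I p K1 x} ⊆ ⋃ y ∈ (Y : Set ℕ),
      {x | x = y ∨ ∃ j < k, ∃ c, q.l false c (θ j) ≠ ⊤ ∧ x ∈ Sl I c (θ j) y} := by
    intro x hx
    have h1 : ∃ y ∈ Y, y ∉ {y | y = x ∨ ∃ j < k, ∃ c, p.l false c (θ j) ≠ ⊤ ∧
        y ∈ Sl I c (θ j) x} := by
      by_contra hc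
      push Not at hc
      have h2 : ((Y : Set ℕ)).encard ≤ (m1 : ℕ∞) :=
        (Set.encard_le_encard fun y hy => hc y hy).trans (b1 x hx)
      rw [Set.encard_coe_eq_coe_finsetCard, hY2] at h2
      have : m1 + 1 ≤ m1 := by exact_mod_cast h2
      omega
    obtain ⟨y, hy, hny⟩ := h1
    refine mem_iUnion₂.2 ⟨y, hy, ?_⟩
    have hny' : y ≠ x ∧ ∀ j < k, ∀ c, p.l false c (θ j) ≠ ⊤ → y ∉ Sl I c (θ j) x := by
      refine ⟨fun h => hny (Or.inl h), fun j hj c hc h => hny (Or.inr ⟨j, hj, c, hc, h⟩)⟩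
    have hyY : Agr θ I q K2 y := hY1 hy
    obtain ⟨j, hj, h3⟩ := hcon x y hny'.1.symm (Agr.mono hx hk1) (hyY.mono hk2)
    right
    refine ⟨j, hj, ?_⟩
    by_cases h4 : Rl I (θ j) x y ∧ ¬ (p.l false true (θ j) = ⊤ ∧ q.l false false (θ j) = ⊤)
    · have h5 : p.l false true (θ j) = ⊤ := by
        by_contra h6
        exact hny'.2 j hj true h6 h4.1
      exact ⟨false, fun h6 => h4.2 ⟨h5, h6⟩, h4.1⟩
    · have h5 : Rl I (θ j) x y → p.l false true (θ j) = ⊤ ∧ q.l false false (θ j) = ⊤ := by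
        intro h6
        by_contra h7
        exact h4 ⟨h6, h7⟩
      obtain ⟨h6, h7⟩ := h3 h5
      have h8 : p.l false false (θ j) = ⊤ := by
        by_contra h9
        exact hny'.2 j hj false h9 h6
      exact ⟨true, fun h9 => h7 h9 h8, h6⟩
  refine ((Y.finite_toSet.biUnion fun y hy => ?_).subset hsub)
  have hyY : Agr θ I q K2 y := hY1 hy
  exact Set.finite_of_encard_le_coe (b2 y hyY)

/-- free data exist -/
theorem gen_exists [∀ n, Countable (L.Relations n)] (hΦ : Gd Φ) {I : Interp L ℕ} (hI : I ∈ Md Φ)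
    {p q : Dat L} (hp : Ty Φ p) (hq : Ty Φ q) (hpa : ¬ AlgT p) (hqa : ¬ AlgT q)
    (hpI : SameTh p (D Φ I 0 0)) (hqI : SameTh q (D Φ I 0 0)) : ∃ d, Gen Φ p q d := by
  obtain ⟨θ, hθ⟩ := (fo_countable (L := L)).exists_eq_range ⟨_, fo_eq false false⟩
  have hg := good_pair hΦ hθ.symm hp hq hpa hqa hpI hqI
  choose x y hxy hx hy hg using hg
  have hev : ∀ j : ℕ, ∀ᶠ k in (hyperfilter ℕ : Filter ℕ), j < k := fun j =>
    Nat.hyperfilter_le_atTop (eventually_gt_atTop j)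
  have hap : Ap I x p := by
    intro ψ hψ
    rw [hθ] at hψ
    obtain ⟨j, rfl⟩ := hψ
    filter_upwards [hev j] with k hk
    exact hx k j hk
  have haq : Ap I y q := by
    intro ψ hψ
    rw [hθ] at hψ
    obtain ⟨j, rfl⟩ := hψ
    filter_upwards [hev j] with k hk
    exact hy k j hk
  refine ⟨_, gen_lim hΦ hI hp hq hap haq hxy (fun ψ hψ h => ?_) (fun ψ hψ h => ?_)⟩
  · rw [hθ] at hψ
    obtain ⟨j, rfl⟩ := hψ
    obtain ⟨k, hk, hk'⟩ := ((hev j).and h).exists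
    exact (hg k j hk).1 hk'
  · rw [hθ] at hψ
    obtain ⟨j, rfl⟩ := hψ
    obtain ⟨k, hk, hk'⟩ := ((hev j).and h).exists
    exact (hg k j hk).2 hk'

end Pool.Agent.Y558.C2
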