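import Pool.Agent.Y558.C2.Dch

set_option autoImplicit false
set_option linter.unusedVariables false
set_option linter.unusedSectionVars false

/-! The dichotomy for theories in two-variable logic with counting. -/

namespace Pool.Agent.Y558.C2

open FirstOrder Set Topology MeasureTheory Matrix
open Pool.Agent.H565R2.FO2 (pick pick_false pick_true pick_self pick_pick Interp bool_fun_cases
  Code toI ofI toI_ofI Iso meas_toI cx cx_cont tri hd Sp In3 In3_iso In3_cx)
open Pool.Agent.H565R2.CO (C2 Rl Rl_congr subs Md)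
open Pool.Agent.H565R2.LO2 (iso_symm PerfK)

variable {L : FirstOrder.Language.{0, 0}}

theorem perf3 {Φ : C2 L} {n : ℕ} (hn : 2 < n) (R : L.Relations n)
    {c0 : Code L} (hc0 : toI c0 ∈ Md Φ) : PerfK {c : Code L | toI c ∈ Md Φ} := by
  classical
  refine ⟨cx c0, cx_cont c0, fun x => ?_, ?_⟩
  · intro a b
    rw [Rl_congr (I' := toI c0)]
    · exact hc0 a b
    · intro n R v x' y'
      unfold toI cx
      rw [if_pos ⟨x', y', v, rfl⟩]
  have key : ∀ x x' : ℕ → Bool, Iso (cx c0 x) (cx c0 x') → ∀ u, x u = true → x' u = true := by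
    rintro x x' ⟨g, hg⟩ u hu
    have h1 : In3 (cx c0 x) R (2 * u + 2) := by
      rw [In3_cx c0 x hn R]
      exact ⟨u, by rw [hu]; rfl⟩
    have h2 := In3_iso g hg R _ h1
    rw [In3_cx c0 x' hn R] at h2
    obtain ⟨u', hu'⟩ := h2
    cases hx : x' u'
    · rw [hx] at hu'
      simp only [Bool.toNat_false] at hu'
      omega
    · rw [hx] at hu'
      simp only [Bool.toNat_true] at hu'
      have : u = u' := by omega
      rw [this]; exact hx
  intro x x' h
  funext u
  rw [Bool.eq_iff_iff]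
  exact ⟨key x x' h u, key x' x (iso_symm h) u⟩

/-- The dichotomy. -/
theorem main [∀ n, Countable (L.Relations n)] {Φ : C2 L} (hΦ : Gd Φ) :
    (∃ g : ℕ → Code L, ∀ c ∈ {c : Code L | toI c ∈ Md Φ}, ∃ n, Iso c (g n)) ∨
      PerfK {c : Code L | toI c ∈ Md Φ} := by
  by_cases hP : PerfK {c : Code L | toI c ∈ Md Φ}
  · exact Or.inr hP
  left
  by_cases hne : ({c : Code L | toI c ∈ Md Φ}).Nonempty
  · have h3 : ∀ n, 2 < n → IsEmpty (L.Relations n) := by
      intro n hn
      refine ⟨fun R => ?_⟩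
      exact hP (perf3 hn R hne.some_mem)
    rcases dich_C2 hΦ h3 with ⟨S, hS, hS2⟩ | h
    · have hSn : S.Nonempty := by
        obtain ⟨c', h4, -⟩ := hS2 _ hne.some_mem
        exact ⟨c', h4⟩
      obtain ⟨g, hg⟩ := hS.exists_eq_range hSn
      refine ⟨g, fun c hc => ?_⟩
      obtain ⟨c', h4, h5⟩ := hS2 c hc
      rw [hg] at h4
      obtain ⟨n, rfl⟩ := h4
      exact ⟨n, h5⟩
    · exact absurd h hP
  · exact ⟨fun _ => fun _ => false, fun c hc => absurd ⟨c, hc⟩ hne⟩

end Pool.Agent.Y558.C2
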