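import Pool.Agent.Y558.C2.Syn

set_option autoImplicit false
set_option linter.unusedVariables false

/-! Algebraic elements, free data, limits of data, existence of free data. -/

namespace Pool.Agent.Y558.C2

open FirstOrder Set Filter
open Pool.Agent.H565R2.FO2 (pick pick_false pick_true pick_self pick_pick Interp Code toI ofI
  toI_ofI Iso)
open Pool.Agent.H565R2.CO (C2 Rl subs mem_subs subs_countable subs_trans Dat lab mkd dat ev ev_dat
  Md dat_map dat_not map_not_not)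

variable {L : FirstOrder.Language.{0, 0}} {Φ : C2 L}

/-- algebraic elements -/
def Alg (I : Interp L ℕ) (x : ℕ) : Prop := ∃ θ ∈ fo, Rl I θ x x ∧ {z | Rl I θ z z}.Finite

/-- algebraic types -/
def AlgT (p : Dat L) : Prop := ∃ θ ∈ fo, ev θ p ∧ p.l false true (dg θ) ≠ ⊤

theorem lab_dg (hΦ : Gd Φ) {θ : C2 L} (hθ : θ ∈ fo) (I : Interp L ℕ) (x y : ℕ) (b : Bool) :
    (D Φ I x y).l b true (dg θ) = Set.encard {z | Rl I θ z z} := by
  rw [hΦ.lab (fo_dg hθ)]
  congr 1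
  ext z
  exact Rl_dg (x := pick x y b) (y := z)

theorem alg_iff (hΦ : Gd Φ) {I : Interp L ℕ} {x : ℕ} : Alg I x ↔ AlgT (D Φ I x x) := by
  unfold Alg AlgT
  refine exists_congr fun θ => and_congr_right fun hθ => ?_
  rw [hΦ.ev hθ, lab_dg hΦ hθ, Set.encard_ne_top_iff]

/-- the types of elements of models -/
def Ty (Φ : C2 L) (p : Dat L) : Prop := ∃ I ∈ Md Φ, ∃ x, p = D Φ I x x

/-- types of the same theory -/
def SameTh (p q : Dat L) : Prop := ∀ θ ∈ fo, p.l false true (dg θ) = q.l false true (dg θ)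

theorem Ty.l {p : Dat L} (h : Ty Φ p) (b c : Bool) : p.l b = p.l c := by
  obtain ⟨I, -, x, rfl⟩ := h
  cases b <;> cases c <;> rfl

theorem Ty.e {p : Dat L} (h : Ty Φ p) : p.e := by
  obtain ⟨I, -, x, rfl⟩ := h
  exact rfl

theorem Ty.a {p : Dat L} (h : Ty Φ p) {n : ℕ} (R : L.Relations n) (v w : Fin n → Bool) :
    p.a n R v ↔ p.a n R w := by
  obtain ⟨I, -, x, rfl⟩ := h
  show I n R (fun k => pick x x (v k)) ↔ I n R (fun k => pick x x (w k))
  simp only [pick_self]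

theorem Ty.map {p : Dat L} (h : Ty Φ p) (σ : Bool → Bool) : p.map σ = p := by
  obtain ⟨I, -, x, rfl⟩ := h
  rw [dat_map, pick_self, pick_self]

/-- free data: the formulas satisfied by the pair have infinitely many solutions over both
elements -/
structure Fr (d : Dat L) : Prop where
  a : ∀ ψ ∈ fo, ev ψ d → d.l false true ψ = ⊤ ∧ d.l true false ψ = ⊤
  b : ∀ ψ ∈ fo, ev ψ (d.map not) → d.l true true ψ = ⊤ ∧ d.l false false ψ = ⊤

theorem Fr.not {d : Dat L} (h : Fr d) : Fr (d.map not) := by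
  refine ⟨fun ψ hψ h1 => ?_, fun ψ hψ h1 => ?_⟩
  · exact h.b ψ hψ h1
  · rw [map_not_not] at h1
    exact h.a ψ hψ h1

/-- free data with given types of the elements -/
structure Gen (Φ : C2 L) (p q d : Dat L) : Prop where
  h0 : d.map (fun _ => false) = p
  h1 : d.map (fun _ => true) = q
  ne : ¬ d.e
  e1 : ev Φ d
  e2 : ev Φ (d.map not)
  fr : Fr d

theorem ne_not {d : Dat L} (h : ¬ d.e) : ¬ (d.map not).e := by
  rintro (h1 | h1)
  · exact absurd h1 (by decide)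
  · exact h h1

theorem Gen.not {p q d : Dat L} (h : Gen Φ p q d) : Gen Φ q p (d.map not) := by
  refine ⟨?_, ?_, ne_not h.ne, h.e2, ?_, h.fr.not⟩
  · rw [Dat.map_map]
    exact h.h1
  · rw [Dat.map_map]
    exact h.h0
  · rw [map_not_not]
    exact h.e1

/-! ### limits -/

/-- the limit of a sequence of data -/
def lim (p q : Dat L) (e : ℕ → Dat L) : Dat L :=
  ⟨False, fun n R v => ∀ᶠ k in (hyperfilter ℕ : Filter ℕ), (e k).a n R v,
    fun b => cond b (q.l false) (p.l false)⟩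

/-- convergence of the labels -/
structure Cv (p q : Dat L) (e : ℕ → Dat L) : Prop where
  ne : ∀ k, ¬ (e k).e
  l0 : ∀ c, ∀ ψ ∈ fo, ∀ n : ℕ, ((n : ℕ∞) ≤ p.l false c ψ ↔
    ∀ᶠ k in (hyperfilter ℕ : Filter ℕ), (n : ℕ∞) ≤ (e k).l false c ψ)
  l1 : ∀ c, ∀ ψ ∈ fo, ∀ n : ℕ, ((n : ℕ∞) ≤ q.l false c ψ ↔
    ∀ᶠ k in (hyperfilter ℕ : Filter ℕ), (n : ℕ∞) ≤ (e k).l true c ψ)

theorem ev_lim {p q : Dat L} {e : ℕ → Dat L} (h : Cv p q e) : ∀ ψ : C2 L, ψ ∈ fo →
    (ev ψ (lim p q e) ↔ ∀ᶠ k in (hyperfilter ℕ : Filter ℕ), ev ψ (e k)) := by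
  refine fo_ind (fun i j => ?_) (fun R v => ?_) (fun φ hφ ih => ?_) (fun φ hφ ψ hψ h1 h2 => ?_)
    (fun b n φ hφ ih => ?_)
  · show (i = j ∨ False) ↔ ∀ᶠ k in (hyperfilter ℕ : Filter ℕ), (i = j ∨ (e k).e)
    have : ∀ k, (i = j ∨ (e k).e) ↔ i = j := fun k =>
      ⟨fun h1 => h1.resolve_right (h.ne k), Or.inl⟩
    simp only [this, or_false, eventually_const]
  · exact Iff.rfl
  · show ¬ _ ↔ ∀ᶠ k in (hyperfilter ℕ : Filter ℕ), ¬ _
    rw [ih, Ultrafilter.eventually_not]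
  · simp only [ev_cj]
    rw [h1, h2, eventually_and]
  · cases b
    · exact h.l1 false φ hφ n
    · exact h.l0 true φ hφ n

theorem lim_not {p q : Dat L} {e : ℕ → Dat L} :
    (lim p q e).map not = lim q p fun k => (e k).map not := by
  apply Dat.ext'
  · show (false.not = true.not ∨ False) ↔ False
    simp
  · intro n R v
    exact Iff.rfl
  · intro b c ψ
    cases b <;> rfl

theorem Cv.not {p q : Dat L} {e : ℕ → Dat L} (h : Cv p q e) :
    Cv q p fun k => (e k).map not :=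
  ⟨fun k => ne_not (h.ne k), h.l1, h.l0⟩

/-- approximation of a type by elements -/
def Ap (I : Interp L ℕ) (x : ℕ → ℕ) (p : Dat L) : Prop :=
  ∀ θ ∈ fo, ∀ᶠ k in (hyperfilter ℕ : Filter ℕ), (Rl I θ (x k) (x k) ↔ ev θ p)

theorem Ap.iff {I : Interp L ℕ} {x : ℕ → ℕ} {p : Dat L} (h : Ap I x p) {θ : C2 L} (hθ : θ ∈ fo) :
    ev θ p ↔ ∀ᶠ k in (hyperfilter ℕ : Filter ℕ), Rl I θ (x k) (x k) := by
  have h1 := h θ hθ
  constructor
  · intro h2
    filter_upwards [h1] with k hk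
    exact hk.2 h2
  · intro h2
    obtain ⟨k, hk, hk'⟩ := (h1.and h2).exists
    exact hk.1 hk'

theorem cv_of (hΦ : Gd Φ) {I : Interp L ℕ} {x y : ℕ → ℕ} {p q : Dat L} (hp : Ty Φ p)
    (hq : Ty Φ q) (hx : Ap I x p) (hy : Ap I y q) (hxy : ∀ k, x k ≠ y k) :
    Cv p q fun k => D Φ I (x k) (y k) := by
  refine ⟨fun k => hxy k, fun c ψ hψ n => ?_, fun c ψ hψ n => ?_⟩
  · have h1 : ((n : ℕ∞) ≤ p.l false c ψ) ↔ ev (.ex c n ψ) p := by
      cases c
      · show _ ↔ (n : ℕ∞) ≤ p.l true false ψ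
        rw [hp.l true false]
      · exact Iff.rfl
    rw [h1, hx.iff (fo_ex c n hψ)]
    refine eventually_congr (Eventually.of_forall fun k => ?_)
    rw [hΦ.lab hψ]
    cases c <;> exact Iff.rfl
  · have h1 : ((n : ℕ∞) ≤ q.l false c ψ) ↔ ev (.ex c n ψ) q := by
      cases c
      · show _ ↔ (n : ℕ∞) ≤ q.l true false ψ
        rw [hq.l true false]
      · exact Iff.rfl
    rw [h1, hy.iff (fo_ex c n hψ)]
    refine eventually_congr (Eventually.of_forall fun k => ?_)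
    rw [hΦ.lab hψ]
    cases c <;> exact Iff.rfl

theorem lim_end (hΦ : Gd Φ) {I : Interp L ℕ} {x y : ℕ → ℕ} {p q : Dat L} (hp : Ty Φ p)
    (hx : Ap I x p) :
    (lim p q fun k => D Φ I (x k) (y k)).map (fun _ => false) = p := by
  apply Dat.ext'
  · exact ⟨fun _ => hp.e, fun _ => Or.inl rfl⟩
  · intro n R v
    have h1 := hx.iff (fo_rel R (fun _ => false))
    have h2 : p.a n R v ↔ p.a n R (fun _ => false) := hp.a R _ _
    rw [h2]
    refine Iff.trans ?_ h1.symm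
    exact Iff.rfl
  · intro b c ψ
    show p.l false c ψ = _
    rw [hp.l false b]

/-- the limit of free-like data is free -/
theorem gen_lim (hΦ : Gd Φ) {I : Interp L ℕ} (hI : I ∈ Md Φ) {x y : ℕ → ℕ} {p q : Dat L}
    (hp : Ty Φ p) (hq : Ty Φ q) (hx : Ap I x p) (hy : Ap I y q) (hxy : ∀ k, x k ≠ y k)
    (h1 : ∀ ψ ∈ fo, (∀ᶠ k in (hyperfilter ℕ : Filter ℕ), Rl I ψ (x k) (y k)) →
      p.l false true ψ = ⊤ ∧ q.l false false ψ = ⊤)
    (h2 : ∀ ψ ∈ fo, (∀ᶠ k in (hyperfilter ℕ : Filter ℕ), Rl I ψ (y k) (x k)) →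
      q.l false true ψ = ⊤ ∧ p.l false false ψ = ⊤) :
    Gen Φ p q (lim p q fun k => D Φ I (x k) (y k)) := by
  have hc := cv_of hΦ hp hq hx hy hxy
  have hn : (lim p q fun k => D Φ I (x k) (y k)).map not = lim q p fun k => D Φ I (y k) (x k) := by
    rw [lim_not]
    congr 1
    funext k
    exact dat_not _ _ _ _
  have hc' : Cv q p fun k => D Φ I (y k) (x k) := by
    have := hc.not
    have h3 : (fun k => (D Φ I (x k) (y k)).map not) = fun k => D Φ I (y k) (x k) := by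
      funext k
      exact dat_not _ _ _ _
    rwa [h3] at this
  have hev : ∀ {p q : Dat L} {x y : ℕ → ℕ}, Cv p q (fun k => D Φ I (x k) (y k)) →
      ev Φ (lim p q fun k => D Φ I (x k) (y k)) := by
    intro p q x y hc
    obtain ⟨e, he, hf⟩ := hΦ.closed
    have key : ∀ n, ev (e n) (lim p q fun k => D Φ I (x k) (y k)) := by
      intro n
      rw [ev_lim hc _ (hf n)]
      refine Eventually.of_forall fun k => ?_
      rw [hΦ.ev (hf n)]
      have := hI (x k) (y k)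
      rw [he] at this
      exact this n
    have h0 : ∀ d : Dat L, (∀ n, ev (e n) d) → ev Φ d := by
      intro d hd
      rw [he]
      exact hd
    exact h0 _ key
  refine ⟨lim_end hΦ hp hx, ?_, fun h => h, hev hc, ?_, ⟨fun ψ hψ h3 => ?_, fun ψ hψ h3 => ?_⟩⟩
  · have h3 := lim_end (q := p) (y := x) hΦ hq hy
    rw [← hn, Dat.map_map] at h3
    exact h3
  · rw [hn]
    exact hev hc'
  · rw [ev_lim hc _ hψ] at h3
    refine h1 ψ hψ ?_
    filter_upwards [h3] with k hk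
    exact (hΦ.ev hψ _ _ _).1 hk
  · rw [hn, ev_lim hc' _ hψ] at h3
    refine h2 ψ hψ ?_
    filter_upwards [h3] with k hk
    exact (hΦ.ev hψ _ _ _).1 hk

end Pool.Agent.Y558.C2
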