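import Pool.Agent.Y558.C2.Lim

set_option autoImplicit false
set_option linter.unusedVariables false
set_option linter.unusedSectionVars false

/-! The dichotomy for the models of one theory. -/

namespace Pool.Agent.Y558.C2

open FirstOrder Set Filter MeasureTheory
open Pool.Agent.H565R2.FO2 (pick pick_false pick_true pick_self pick_pick Interp Code toI ofI
  toI_ofI Iso bool_fun_cases perfect_of_uncountable)
open Pool.Agent.H565R2.CO (C2 Rl subs mem_subs subs_countable subs_trans Dat lab mkd dat ev ev_dat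
  Md dat_map dat_not map_not_not mkd_l mkI Coh mkI_iff mkd_mkI Rl_iso dat_f dat_t dat_iso Al al_dat
  KI code code_inj meas_code meas_Rl meas_Md)
open Pool.Agent.H565R2.LO2 (PerfK perfK_of_inv iso_symm)
open Pool.Agent.H623R2.VE (Adj Conn CIso CEq pull pull_ciso GIso CovE Cov Pw Perf)
open Pool.Agent.H579R3.VP (Many glue_of_profile many_iso YY YY_meas)
open Relation (ReflTransGen)

variable {L : FirstOrder.Language.{0, 0}} {Φ : C2 L}
variable {A : Type} {τ : A → Dat L} {t : C2 L → ℕ∞}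

/-! ### relabelling the algebraic elements -/

/-- relabelling -/
def rl {V : Type} (h : Equiv.Perm A) (I : VI (ar (Φ := Φ) (A := A)) V) :
    VI (ar (Φ := Φ) (A := A)) V := fun i =>
  match i with
  | .inl d => fun s => I (.inl d) s
  | .inr (.inl p) => fun s => I (.inr (.inl (h p.1, p.2))) s
  | .inr (.inr d) => fun s => I (.inr (.inr d)) s

theorem rl_rl {V : Type} (h : Equiv.Perm A) (I : VI (ar (Φ := Φ) (A := A)) V) :
    rl h.symm (rl h I) = I := by
  funext i s
  rcases i with d | ⟨a, d⟩ | d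
  · rfl
  · show I (.inr (.inl (h (h.symm a), d))) s = _
    rw [Equiv.apply_symm_apply]
  · rfl

theorem adj_rl {V : Type} (h : Equiv.Perm A) (I : VI (ar (Φ := Φ) (A := A)) V) {x y : V}
    (hxy : Adj I x y) : Adj (rl h I) x y := by
  obtain ⟨i, s, hs, hx, hy⟩ := hxy
  rcases i with d | ⟨a, d⟩ | d
  · exact ⟨.inl d, s, hs, hx, hy⟩
  · refine ⟨.inr (.inl (h.symm a, d)), s, ?_, hx, hy⟩
    show I (.inr (.inl (h (h.symm a), d))) s
    rw [Equiv.apply_symm_apply]
    exact hs
  · exact ⟨.inr (.inr d), s, hs, hx, hy⟩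

theorem conn_rl {V : Type} (h : Equiv.Perm A) (I : VI (ar (Φ := Φ) (A := A)) V) {x y : V} :
    Conn (rl h I) x y ↔ Conn I x y := by
  constructor
  · intro hc
    induction hc with
    | refl => exact Conn.refl _ _
    | tail _ hbc ih =>
      refine ih.tail ?_
      have := adj_rl h.symm _ hbc
      rwa [rl_rl] at this
  · intro hc
    induction hc with
    | refl => exact Conn.refl _ _
    | tail _ hbc ih => exact ih.tail (adj_rl h _ hbc)

theorem ceq_rl {V V' : Type} (h : Equiv.Perm A) {I : VI (ar (Φ := Φ) (A := A)) V}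
    {I' : VI (ar (Φ := Φ) (A := A)) V'} {x : V} {x' : V'} (hc : CEq I x I' x') :
    CEq (rl h I) x (rl h I') x' := by
  obtain ⟨g, hg, hx⟩ := hc
  refine ⟨g, ⟨fun u v hu hv => hg.inj u v ((conn_rl h I).1 hu) ((conn_rl h I).1 hv),
    fun u hu => (conn_rl h I').2 (hg.map u ((conn_rl h I).1 hu)), fun y hy => ?_,
    fun i s hs => ?_⟩, (conn_rl h I').2 hx⟩
  · obtain ⟨u, hu, e⟩ := hg.surj y ((conn_rl h I').1 hy)
    exact ⟨u, (conn_rl h I).2 hu, e⟩
  · have hs' : ∀ k, Conn I x (s k) := fun k => (conn_rl h I).1 (hs k)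
    rcases i with d | ⟨a, d⟩ | d
    · exact hg.rel (.inl d) s hs'
    · exact hg.rel (.inr (.inl (h a, d))) s hs'
    · exact hg.rel (.inr (.inr d)) s hs'

theorem ceq_rl_iff {V V' : Type} (h : Equiv.Perm A) {I : VI (ar (Φ := Φ) (A := A)) V}
    {I' : VI (ar (Φ := Φ) (A := A)) V'} {x : V} {x' : V'} :
    CEq (rl h I) x I' x' ↔ CEq I x (rl h.symm I') x' := by
  constructor
  · intro hc
    have := ceq_rl h.symm hc
    rwa [rl_rl] at this
  · intro hc
    have := ceq_rl h hc
    have e : rl h (rl h.symm I') = I' := rl_rl h.symm I'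
    rwa [e] at this

/-- the reindexed enumeration -/
def ext_perm (E : Ext Φ A τ t) (h : Equiv.Perm A) (hh : ∀ a, τ (h a) = τ a) : Ext Φ A τ t where
  I := E.I
  hI := E.hI
  ι a := E.ι (h a)
  inj a b hab := h.injective (E.inj hab)
  rng x := by
    rw [E.rng]
    constructor
    · rintro ⟨a, ha⟩
      exact ⟨h.symm a, by rw [Equiv.apply_symm_apply]; exact ha⟩
    · rintro ⟨a, ha⟩
      exact ⟨h a, ha⟩
  ty a := by rw [E.ty, hh]
  th := E.th

theorem nE_perm (E : Ext Φ A τ t) (h : Equiv.Perm A) (hh : ∀ a, τ (h a) = τ a) :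
    nE (ext_perm E h hh) univ = rl h (nE E univ) := by
  funext i s
  rcases i with d | p | d <;> rfl

theorem exists_perm {E E' : Ext Φ A τ t} (hI : E.I = E'.I) :
    ∃ h : Equiv.Perm A, (∀ a, τ (h a) = τ a) ∧ ∀ a, E'.ι a = E.ι (h a) := by
  have h1 : ∀ a, ∃ b, E.ι b = E'.ι a := fun a => by
    rw [← E.rng, hI, E'.rng]
    exact ⟨a, rfl⟩
  have h2 : ∀ b, ∃ a, E.ι b = E'.ι a := fun b => by
    have h3 : ∃ a, E'.ι a = E.ι b := by
      rw [← E'.rng, ← hI, E.rng]
      exact ⟨b, rfl⟩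
    obtain ⟨a, ha⟩ := h3
    exact ⟨a, ha.symm⟩
  choose h hh using h1
  refine ⟨Equiv.ofBijective h ⟨fun a b hab => E'.inj ?_, fun b => ?_⟩, fun a => ?_, fun a =>
    (hh a).symm⟩
  · rw [← hh a, ← hh b, hab]
  · obtain ⟨a, ha⟩ := h2 b
    exact ⟨a, E.inj (by rw [hh a, ha])⟩
  · show τ (h a) = τ a
    rw [← E.ty, hh, hI, E'.ty]

/-- countably many permutations approximating all -/
theorem exists_perms [Countable A] (τ : A → Dat L) : ∃ H : (Σ F : Finset A, (F → A)) →
    Equiv.Perm A, (∀ i a, τ (H i a) = τ a) ∧ ∀ (h : Equiv.Perm A), (∀ a, τ (h a) = τ a) →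
      ∀ F : Finset A, ∃ i, ∀ a ∈ F, H i a = h a := by
  classical
  have hex : ∀ i : (Σ F : Finset A, (F → A)), ∃ h : Equiv.Perm A, (∀ a, τ (h a) = τ a) ∧
      ((∃ h' : Equiv.Perm A, (∀ a, τ (h' a) = τ a) ∧ ∀ a : i.1, h' a.1 = i.2 a) →
        ∀ a : i.1, h a.1 = i.2 a) := by
    intro i
    by_cases hx : ∃ h' : Equiv.Perm A, (∀ a, τ (h' a) = τ a) ∧ ∀ a : i.1, h' a.1 = i.2 a
    · obtain ⟨h', h1, h2⟩ := hx
      exact ⟨h', h1, fun _ => h2⟩
    · exact ⟨Equiv.refl A, fun _ => rfl, fun h => absurd h hx⟩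
  choose H hH1 hH2 using hex
  refine ⟨H, hH1, fun h hh F => ⟨⟨F, fun a => h a.1⟩, fun a ha => ?_⟩⟩
  exact hH2 ⟨F, fun a => h a.1⟩ ⟨h, hh, fun _ => rfl⟩ ⟨a, ha⟩

/-! ### the space of enumerated models -/

/-- enumerated models -/
structure Ev (Φ : C2 L) (τ : A → Dat L) (t : C2 L → ℕ∞) (p : Code L × (A → ℕ)) : Prop where
  hI : toI p.1 ∈ Md Φ
  inj : Function.Injective p.2
  rng : ∀ x, Alg (toI p.1) x ↔ ∃ a, p.2 a = x
  ty : ∀ a, D Φ (toI p.1) (p.2 a) (p.2 a) = τ a
  th : ∀ θ ∈ fo, Set.encard {z | Rl (toI p.1) θ z z} = t θ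

/-- the enumerated model of a point -/
def Ev.ext {p : Code L × (A → ℕ)} (h : Ev Φ τ t p) : Ext Φ A τ t where
  I := toI p.1
  hI := h.hI
  ι := p.2
  inj := h.inj
  rng := h.rng
  ty := h.ty
  th := h.th

theorem ev_of_ext {c : Code L} {E : Ext Φ A τ t} (h : E.I = toI c) : Ev Φ τ t (c, E.ι) := by
  obtain ⟨I, hI, ι, inj, rng, ty, th⟩ := E
  dsimp only at h
  subst h
  exact ⟨hI, inj, rng, ty, th⟩

section
variable [∀ n, Countable (L.Relations n)] [Countable A]

theorem meas_Q2 (hΦ : Gd Φ) (hal : (Al Φ).Countable) (Q : Dat L → Prop)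
    (u v : (A → ℕ) → ℕ) (hu : Measurable u) (hv : Measurable v) :
    MeasurableSet {p : Code L × (A → ℕ) | toI p.1 ∈ Md Φ ∧ Q (D Φ (toI p.1) (u p.2) (v p.2))} := by
  have e1 : {p : Code L × (A → ℕ) | toI p.1 ∈ Md Φ ∧ Q (D Φ (toI p.1) (u p.2) (v p.2))} =
      ⋃ (x : ℕ) (y : ℕ), ((fun p : Code L × (A → ℕ) => u p.2) ⁻¹' {x} ∩
        (fun p : Code L × (A → ℕ) => v p.2) ⁻¹' {y}) ∩
        Prod.fst ⁻¹' {c : Code L | toI c ∈ Md Φ ∧
          (fun d _ => Q d) (D Φ (toI c) x y) (D Φ (toI c) x y)} := by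
    ext p
    simp only [mem_iUnion, mem_inter_iff, mem_preimage, mem_singleton_iff, mem_ofPred_eq]
    constructor
    · intro h
      exact ⟨_, _, ⟨rfl, rfl⟩, h⟩
    · rintro ⟨x, y, ⟨rfl, rfl⟩, h⟩
      exact h
  rw [e1]
  refine MeasurableSet.iUnion fun x => MeasurableSet.iUnion fun y => MeasurableSet.inter
    (MeasurableSet.inter ?_ ?_) ?_
  · exact (hu.comp measurable_snd) (measurableSet_singleton x)
  · exact (hv.comp measurable_snd) (measurableSet_singleton y)
  · exact measurable_fst (meas_Q hΦ hal (fun d _ => Q d) x y x y)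

theorem meas_Ev (hΦ : Gd Φ) (hal : (Al Φ).Countable) (τ : A → Dat L) (t : C2 L → ℕ∞) :
    MeasurableSet {p : Code L × (A → ℕ) | Ev Φ τ t p} := by
  have i2' := (fo_countable (L := L)).to_subtype
  have e1 : {p : Code L × (A → ℕ) | Ev Φ τ t p} =
      (Prod.fst ⁻¹' {c : Code L | toI c ∈ Md Φ}) ∩
      ({p : Code L × (A → ℕ) | ∀ a b, p.2 a = p.2 b → a = b} ∩
      ((⋂ x : ℕ, (({p : Code L × (A → ℕ) | toI p.1 ∈ Md Φ ∧ AlgT (D Φ (toI p.1) x x)} ∩
          {p : Code L × (A → ℕ) | ∃ a, p.2 a = x}) ∪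
        ({p : Code L × (A → ℕ) | toI p.1 ∈ Md Φ ∧ ¬ AlgT (D Φ (toI p.1) x x)} ∩
          {p : Code L × (A → ℕ) | ¬ ∃ a, p.2 a = x}))) ∩
      ((⋂ a : A, {p : Code L × (A → ℕ) | toI p.1 ∈ Md Φ ∧
          D Φ (toI p.1) (p.2 a) (p.2 a) = τ a}) ∩
      (⋂ θ : ↥(fo : Set (C2 L)), {p : Code L × (A → ℕ) | toI p.1 ∈ Md Φ ∧
          (D Φ (toI p.1) 0 0).l false true (dg θ.1) = t θ.1})))) := by
    ext p
    simp only [mem_inter_iff, mem_iInter, mem_ofPred_eq, mem_preimage, mem_union]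
    constructor
    · intro h
      refine ⟨h.hI, fun a b hab => h.inj hab, fun x => ?_, fun a => ⟨h.hI, h.ty a⟩,
        fun θ => ⟨h.hI, ?_⟩⟩
      · by_cases hx : AlgT (D Φ (toI p.1) x x)
        · refine Or.inl ⟨⟨h.hI, hx⟩, ?_⟩
          rw [← h.rng, alg_iff hΦ]
          exact hx
        · refine Or.inr ⟨⟨h.hI, hx⟩, ?_⟩
          rw [← h.rng, alg_iff hΦ]
          exact hx
      · rw [lab_dg hΦ θ.2]
        exact h.th θ.1 θ.2
    · rintro ⟨h1, h2, h3, h4, h5⟩
      refine ⟨h1, fun a b hab => h2 a b hab, fun x => ?_, fun a => (h4 a).2, fun θ hθ => ?_⟩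
      · rw [alg_iff hΦ]
        rcases h3 x with h | h
        · exact ⟨fun _ => h.2, fun _ => h.1.2⟩
        · exact ⟨fun h' => absurd h' h.1.2, fun h' => absurd h' h.2⟩
      · rw [← lab_dg hΦ hθ (toI p.1) 0 0 false]
        exact (h5 ⟨θ, hθ⟩).2
  rw [e1]
  have hev : ∀ a : A, Measurable fun p : Code L × (A → ℕ) => p.2 a := fun a =>
    (measurable_pi_apply a).comp measurable_snd
  have hx : ∀ (x : ℕ), Measurable fun p : Code L × (A → ℕ) => ∃ a, p.2 a = x := fun x =>
    Measurable.exists fun a => measurableSet_setOfPred.1 ((hev a) (measurableSet_singleton x))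
  refine (measurable_fst (meas_Md Φ)).inter (MeasurableSet.inter ?_ (MeasurableSet.inter ?_
    (MeasurableSet.inter ?_ ?_)))
  · refine measurableSet_setOfPred.2 (Measurable.forall fun a => Measurable.forall fun b =>
      Measurable.imp ?_ measurable_const)
    exact measurableSet_setOfPred.1 (measurableSet_eq_fun (hev a) (hev b))
  · refine MeasurableSet.iInter fun x => MeasurableSet.union (MeasurableSet.inter ?_ ?_)
      (MeasurableSet.inter ?_ ?_)
    · exact meas_Q2 hΦ hal (fun d => AlgT d) (fun _ => x) (fun _ => x) measurable_const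
        measurable_const
    · exact measurableSet_setOfPred.2 (hx x)
    · exact meas_Q2 hΦ hal (fun d => ¬ AlgT d) (fun _ => x) (fun _ => x) measurable_const
        measurable_const
    · exact measurableSet_setOfPred.2 (hx x).not
  · exact MeasurableSet.iInter fun a => meas_Q2 hΦ hal (fun d => d = τ a) (fun v => v a)
      (fun v => v a) (measurable_pi_apply a) (measurable_pi_apply a)
  · exact MeasurableSet.iInter fun θ => meas_Q2 hΦ hal
      (fun d => d.l false true (dg θ.1) = t θ.1) (fun _ => 0) (fun _ => 0) measurable_const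
      measurable_const

/-- the code of the structure of an enumerated model -/
noncomputable def Nm (p : ↥{p : Code L × (A → ℕ) | Ev Φ τ t p}) :
    VC (ar (Φ := Φ) (A := A)) := Pool.Agent.H623R2.VE.ofI (nE p.2.ext univ)

theorem toI_Nm (p : ↥{p : Code L × (A → ℕ) | Ev Φ τ t p}) :
    Pool.Agent.H623R2.VE.toI (Nm p) = nE p.2.ext univ := Pool.Agent.H623R2.VE.toI_ofI _

theorem meas_Nm (hΦ : Gd Φ) (hal : (Al Φ).Countable) :
    Measurable (Nm (Φ := Φ) (A := A) (τ := τ) (t := t)) := by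
  refine measurable_pi_lambda _ fun i => measurable_pi_lambda _ fun s => measurable_to_bool ?_
  have e1 : (fun p => Nm (Φ := Φ) (A := A) (τ := τ) (t := t) p i s) ⁻¹' {true} =
      {p | nE p.2.ext univ i s} := by
    ext p
    have h : Pool.Agent.H623R2.VE.toI (Nm p) i s ↔ nE p.2.ext univ i s := by
      rw [toI_Nm]
    exact h
  rw [e1]
  have key : ∀ (Q : Dat L → Prop) (u v : (A → ℕ) → ℕ), Measurable u → Measurable v →
      Measurable fun p : ↥{p : Code L × (A → ℕ) | Ev Φ τ t p} =>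
        Q (D Φ (toI p.1.1) (u p.1.2) (v p.1.2)) := by
    intro Q u v hu hv
    refine measurableSet_setOfPred.1 ?_
    have h := measurable_subtype_coe (p := fun p : Code L × (A → ℕ) =>
      p ∈ {p : Code L × (A → ℕ) | Ev Φ τ t p}) (meas_Q2 hΦ hal Q u v hu hv)
    convert h using 1
    ext p
    exact ⟨fun h => ⟨p.2.hI, h⟩, fun h => h.2⟩
  have hA : ∀ x : ℕ, Measurable fun p : ↥{p : Code L × (A → ℕ) | Ev Φ τ t p} =>
      ¬ Alg (toI p.1.1) x := by
    intro x
    have h := key (fun d => ¬ AlgT d) (fun _ => x) (fun _ => x) measurable_const measurable_const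
    convert h using 3 with p
    exact alg_iff hΦ
  rcases i with d | p | d
  · refine measurableSet_setOfPred.2 (Measurable.and (hA (s (0 : Fin 1))) ?_)
    exact key (fun d1 => d1 = d.1) (fun _ => s (0 : Fin 1)) (fun _ => s (0 : Fin 1))
      measurable_const measurable_const
  · refine measurableSet_setOfPred.2 (Measurable.and (hA (s (0 : Fin 1)))
      (Measurable.and measurable_const ?_))
    exact key (fun d1 => d1 = p.2.1) (fun _ => s (0 : Fin 1)) (fun v => v p.1)
      measurable_const (measurable_pi_apply p.1)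
  · refine measurableSet_setOfPred.2 (Measurable.and (hA (s (0 : Fin 2)))
      (Measurable.and (hA (s (1 : Fin 2))) (Measurable.and measurable_const
        (Measurable.and measurable_const ?_))))
    exact key (fun d1 => d1 = d.1) (fun _ => s (0 : Fin 2)) (fun _ => s (1 : Fin 2))
      measurable_const measurable_const

end

end Pool.Agent.Y558.C2
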