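import Pool.Agent.Y558.C2.Unr

set_option autoImplicit false
set_option linter.unusedVariables false

/-! Perfectly many models from three free data. -/

namespace Pool.Agent.Y558.C2

open FirstOrder Set Filter MeasureTheory
open Pool.Agent.H565R2.FO2 (pick pick_false pick_true pick_self pick_pick Interp Code toI ofI
  toI_ofI Iso bool_fun_cases perfect_of_uncountable)
open Pool.Agent.H565R2.CO (C2 Rl subs mem_subs subs_countable subs_trans Dat lab mkd dat ev ev_dat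
  Md dat_map dat_not map_not_not mkd_l mkI Coh mkI_iff mkd_mkI Rl_iso dat_f dat_t dat_iso)
open Pool.Agent.H565R2.LO2 (PerfK perfK_of_inv iso_symm)

variable {L : FirstOrder.Language.{0, 0}} {Φ : C2 L}
variable {A : Type} {τ : A → Dat L} {t : C2 L → ℕ∞} {K : Type}

/-! ### generalities on built models -/

theorem Bp.algT {W : Type} (P : Bp Φ A τ t W) (hΦ : Gd Φ) (v : A ⊕ W) :
    AlgT (P.Δ v v) ↔ ∃ a, v = .inl a := by
  rcases v with a | u
  · refine ⟨fun _ => ⟨a, rfl⟩, fun _ => ?_⟩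
    show AlgT (D Φ P.B.I (P.B.ι a) (P.B.ι a))
    rw [← alg_iff hΦ, P.B.rng]
    exact ⟨a, rfl⟩
  · constructor
    · intro h
      have h1 : AlgT (P.δ u u) := h
      rw [P.d0, ← alg_iff hΦ] at h1
      exact absurd h1 (P.nx u)
    · rintro ⟨a, h⟩
      exact absurd h (by simp)

/-- the code of a built model -/
noncomputable def Bp.code {W : Type} (P : Bp Φ A τ t W) (e : ℕ ≃ A ⊕ W) : Code L :=
  cd fun i j => P.Δ (e i) (e j)

theorem Bp.code_mem {W : Type} (P : Bp Φ A τ t W) (hΦ : Gd Φ) (hR : P.Rich) (e : ℕ ≃ A ⊕ W) :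
    toI (P.code e) ∈ Md Φ := by
  unfold Bp.code
  rw [toI_cd]
  exact (P.model hΦ hR e).1

theorem Bp.code_D {W : Type} (P : Bp Φ A τ t W) (hΦ : Gd Φ) (hR : P.Rich) (e : ℕ ≃ A ⊕ W)
    (i j : ℕ) : D Φ (toI (P.code e)) i j = P.Δ (e i) (e j) := by
  unfold Bp.code
  rw [toI_cd]
  exact (P.model hΦ hR e).2 i j

theorem Bp.iso_data {W W' : Type} (P : Bp Φ A τ t W) (P' : Bp Φ A τ t W') (hΦ : Gd Φ)
    (hR : P.Rich) (hR' : P'.Rich) (e : ℕ ≃ A ⊕ W) (e' : ℕ ≃ A ⊕ W')
    (h : Iso (P.code e) (P'.code e')) :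
    ∃ σ : A ⊕ W ≃ A ⊕ W', ∀ v w, P'.Δ (σ v) (σ w) = P.Δ v w := by
  obtain ⟨g, hg⟩ := h
  refine ⟨(e.symm.trans g).trans e', fun v w => ?_⟩
  obtain ⟨i, rfl⟩ := e.surjective v
  obtain ⟨j, rfl⟩ := e.surjective w
  simp only [Equiv.trans_apply, Equiv.symm_apply_apply]
  rw [← P'.code_D hΦ hR' e', ← P.code_D hΦ hR e]
  exact (dat_iso g hg (subs Φ) i j).symm

theorem meas_fac (δ : (ℕ → Bool) → ℕ → ℕ → Dat L)
    (h : ∀ i j, ∃ (k : ℕ) (F : Bool → Dat L), ∀ S, δ S i j = F (S k)) :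
    Measurable fun S => cd (δ S) := by
  refine meas_cd δ fun i j n R v => ?_
  obtain ⟨k, F, hF⟩ := h i j
  simp only [hF]
  have h1 : Measurable fun b : Bool => (F b).a n R v := measurable_from_top
  exact h1.comp (measurable_pi_apply k)

theorem exists_code_equiv [Countable A] {W : Type} [Countable W] [Infinite W] :
    Nonempty (ℕ ≃ A ⊕ W) := nonempty_equiv_of_countable

/-! ### default orientation -/

section
variable {E : K → Ext Φ A τ t} {γ : Dat L → Dat L → Dat L}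

/-- the default orientation -/
def ori (num : UW E → ℕ) (u w : UW E) : Prop :=
  (num u < num w ∧ s(0, 0) ∈ w.1.2.1) ∨ (num w < num u ∧ s(0, 0) ∉ u.1.2.1)

theorem ori_not {num : UW E → ℕ} (hn : Function.Injective num) {u w : UW E} (h : u ≠ w) :
    ori num w u ↔ ¬ ori num u w := by
  unfold ori
  have h1 : num u ≠ num w := fun e => h (hn e)
  rcases Nat.lt_or_gt_of_ne h1 with h2 | h2
  · have h3 : ¬ num w < num u := by omega
    simp only [h2, h3, true_and, false_and, or_false, false_or]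
  · have h3 : ¬ num u < num w := by omega
    simp only [h2, h3, true_and, false_and, or_false, false_or, not_not]

open Classical in
/-- data given by an orientation -/
noncomputable def bo (γ : Dat L → Dat L → Dat L) (o : UW E → UW E → Prop) (u w : UW E) : Dat L :=
  if o u w then γ (tp u) (tp w) else (γ (tp w) (tp u)).map not

theorem bo_gen (hγ : IsB Φ τ t γ) (o : UW E → UW E → Prop) (u w : UW E) :
    Gen Φ (tp u) (tp w) (bo γ o u w) := by
  unfold bo
  split_ifs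
  · exact hγ _ _ (tp_nt u) (tp_nt w)
  · exact (hγ _ _ (tp_nt w) (tp_nt u)).not

theorem bo_not {o : UW E → UW E → Prop} {u w : UW E} (h : o w u ↔ ¬ o u w) :
    bo γ o w u = (bo γ o u w).map not := by
  unfold bo
  by_cases h1 : o u w
  · rw [if_pos h1, if_neg (fun h2 => h.1 h2 h1)]
  · rw [if_neg h1, if_pos (h.2 h1), map_not_not]

theorem bo_bs (o : UW E → UW E → Prop) (u w : UW E) : Bs γ (tp u) (tp w) (bo γ o u w) := by
  unfold bo
  split_ifs
  · exact Or.inl rfl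
  · exact Or.inr rfl

/-- two infinite families of finite sets -/
def gf (b : Bool) (n : ℕ) : Finset (Sym2 ℕ) :=
  cond b {s(0, 0), s(n + 1, n + 1)} {s(n + 1, n + 1)}

theorem gf_ne (b : Bool) (n : ℕ) : gf b n ≠ ∅ := by
  cases b <;> simp [gf]

theorem gf_mem (b : Bool) (n : ℕ) : s(0, 0) ∈ gf b n ↔ b = true := by
  cases b <;> simp [gf]

theorem gf_inj (b : Bool) : Function.Injective (gf b) := by
  intro n m h
  have h1 : s(n + 1, n + 1) ∈ gf b m := by
    rw [← h]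
    cases b <;> simp [gf]
  cases b
  · simp only [gf, cond_false, Finset.mem_singleton, Sym2.eq, Sym2.rel_iff'] at h1
    simp at h1
    exact h1
  · simp only [gf, cond_true, Finset.mem_insert, Finset.mem_singleton] at h1
    rcases h1 with h1 | h1
    · simp at h1
    · simp at h1
      exact h1

theorem inf_cp {num : UW E → ℕ} (hn : Function.Injective num) (u : UW E) {z : ℕ}
    (hz : ¬ Alg (E u.1.1).I z) (b : Bool) :
    {w : UW E | w.1.1 = u.1.1 ∧ w.1.2.2 = z ∧ w.1.2.1 ≠ ∅ ∧ num u < num w ∧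
      (s(0, 0) ∈ w.1.2.1 ↔ b = true)}.Infinite := by
  let f : ℕ → UW E := fun n => ⟨(u.1.1, gf b n, z), hz⟩
  have hf : Function.Injective f := by
    intro n m h
    exact gf_inj b (congrArg (fun u : UW E => u.1.2.1) h)
  have h1 := inf_par f hf num hn u
  refine (h1.image hf.injOn).mono ?_
  rintro _ ⟨n, hn, rfl⟩
  exact ⟨rfl, rfl, gf_ne b n, hn, gf_mem b n⟩

/-- the data between copies of the elements of a model -/
theorem cp_data {u w : UW E} {z : ℕ} (h1 : w.1.1 = u.1.1) (h2 : w.1.2.2 = z) :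
    tp w = D Φ (E u.1.1).I z z ∧ dd u w = D Φ (E u.1.1).I u.1.2.2 z := by
  unfold tp dd
  rw [h1, h2]
  exact ⟨rfl, rfl⟩

end

/-! ### four-cycles -/

theorem cyc {W K : Type} {Nb Sp : W → W → Prop} {Rt : W → Prop} {κ : W → K}
    (h1 : ∀ u w, Nb u w → κ u = κ w ∧ u ≠ w)
    (h2 : ∀ u w, Sp u w → Rt u ∧ Rt w ∧ κ u ≠ κ w)
    (h3 : ∀ u w, Rt u → Rt w → κ u = κ w → u = w)
    (h4 : ∀ a b c d, Nb a b → Nb b c → Nb c d → Nb d a → a ≠ c → b ≠ d → False)
    {a b c d : W} (hab : Nb a b ∨ Sp a b) (hbc : Nb b c ∨ Sp b c) (hcd : Nb c d ∨ Sp c d)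
    (hda : Nb d a ∨ Sp d a) (hac : a ≠ c) (hbd : b ≠ d) : Sp a b := by
  rcases hab with hab | hab
  swap
  · exact hab
  exfalso
  have e1 := (h1 _ _ hab).1
  rcases hbc with hbc | hbc
  · have e2 := (h1 _ _ hbc).1
    rcases hcd with hcd | hcd
    · have e3 := (h1 _ _ hcd).1
      rcases hda with hda | hda
      · exact h4 _ _ _ _ hab hbc hcd hda hac hbd
      · exact (h2 _ _ hda).2.2 ((e1.trans e2).trans e3).symm
    · rcases hda with hda | hda
      · exact (h2 _ _ hcd).2.2 (((h1 _ _ hda).1.trans e1).trans e2).symm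
      · exact hac (h3 _ _ (h2 _ _ hda).2.1 (h2 _ _ hcd).1 (e1.trans e2))
  · rcases hcd with hcd | hcd
    · have e3 := (h1 _ _ hcd).1
      rcases hda with hda | hda
      · exact (h2 _ _ hbc).2.2 ((e3.trans (h1 _ _ hda).1).trans e1).symm
      · exact (h1 _ _ hcd).2 (h3 _ _ (h2 _ _ hbc).2.1 (h2 _ _ hda).1 e3)
    · rcases hda with hda | hda
      · exact hbd (h3 _ _ (h2 _ _ hbc).1 (h2 _ _ hcd).2.1 ((h1 _ _ hda).1.trans e1).symm)
      · exact (h1 _ _ hab).2 (h3 _ _ (h2 _ _ hda).2.1 (h2 _ _ hbc).1 e1)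

theorem nb_cyc {E : K → Ext Φ A τ t} {γ : Dat L → Dat L → Dat L} {a b c d : UW E}
    (hab : Nb γ a b) (hbc : Nb γ b c) (hcd : Nb γ c d) (hda : Nb γ d a) (hac : a ≠ c)
    (hbd : b ≠ d) : False := by
  have key : ∀ {a b c : UW E}, Nb γ a b → Nb γ b c → a.1.2.2 = c.1.2.2 → a = c := by
    intro a b c h1 h2 h
    apply Subtype.ext
    refine Prod.ext (h1.k.trans h2.k) (Prod.ext ?_ h)
    rw [h1.symm.g, h2.g, h]
  have xac : a.1.2.2 ≠ c.1.2.2 := fun h => hac (key hab hbc h)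
  have xbd : b.1.2.2 ≠ d.1.2.2 := fun h => hbd (key hbc hcd h)
  have xab := hab.x
  have xbc := hbc.x
  have xcd := hcd.x
  have xda := hda.x
  have n1 : s(a.1.2.2, b.1.2.2) ≠ s(b.1.2.2, c.1.2.2) := by
    intro h
    rw [Sym2.eq_iff] at h
    rcases h with ⟨h, -⟩ | ⟨h, -⟩
    · exact xab h
    · exact xac h
  have n2 : s(a.1.2.2, b.1.2.2) ≠ s(c.1.2.2, d.1.2.2) := by
    intro h
    rw [Sym2.eq_iff] at h
    rcases h with ⟨h, -⟩ | ⟨h, -⟩
    · exact xac h
    · exact xda h.symm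
  have n3 : s(a.1.2.2, b.1.2.2) ≠ s(d.1.2.2, a.1.2.2) := by
    intro h
    rw [Sym2.eq_iff] at h
    rcases h with ⟨h, -⟩ | ⟨-, h⟩
    · exact xda h.symm
    · exact xbd h
  have m1 : s(a.1.2.2, b.1.2.2) ∈ b.1.2.1 ↔ ¬ s(a.1.2.2, b.1.2.2) ∈ a.1.2.1 := by
    rw [hab.g, Finset.mem_symmDiff, Finset.mem_singleton]
    simp
  have m2 : s(a.1.2.2, b.1.2.2) ∈ c.1.2.1 ↔ s(a.1.2.2, b.1.2.2) ∈ b.1.2.1 := by
    rw [hbc.g, Finset.mem_symmDiff, Finset.mem_singleton]
    simp only [n1, not_false_eq_true, and_true, false_and, or_false]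
  have m3 : s(a.1.2.2, b.1.2.2) ∈ d.1.2.1 ↔ s(a.1.2.2, b.1.2.2) ∈ c.1.2.1 := by
    rw [hcd.g, Finset.mem_symmDiff, Finset.mem_singleton]
    simp only [n2, not_false_eq_true, and_true, false_and, or_false]
  have m4 : s(a.1.2.2, b.1.2.2) ∈ a.1.2.1 ↔ s(a.1.2.2, b.1.2.2) ∈ d.1.2.1 := by
    conv_lhs => rw [hda.g]
    rw [Finset.mem_symmDiff, Finset.mem_singleton]
    simp only [n3, not_false_eq_true, and_true, false_and, or_false]
  tauto

/-! ### the first family -/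

section
variable (E1 E2 : Ext Φ A τ t) (x0 y0 : ℕ)

/-- the two models -/
def EK (k : ℕ × ℕ × Bool) : Ext Φ A τ t := cond k.2.2 E1 E2

variable (hx : ¬ Alg E1.I x0) (hy : ¬ Alg E2.I y0)

/-- the root of a copy -/
def rtK (k : ℕ × ℕ × Bool) : UW (EK E1 E2) :=
  ⟨(k, ∅, cond k.2.2 x0 y0), by
    obtain ⟨m, i, b⟩ := k
    cases b
    · exact hy
    · exact hx⟩

/-- pairs of roots in the same block -/
def Ck (u w : UW (EK E1 E2)) : Prop :=
  ∃ m i j b, i < m + 2 ∧ j < m + 2 ∧ u = rtK E1 E2 x0 y0 hx hy (m, i, b) ∧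
    w = rtK E1 E2 x0 y0 hx hy (m, j, !b)

variable {E1 E2 x0 y0 hx hy}

theorem rtK_inj {k k' : ℕ × ℕ × Bool} (h : rtK E1 E2 x0 y0 hx hy k = rtK E1 E2 x0 y0 hx hy k') :
    k = k' := congrArg (fun u : UW (EK E1 E2) => u.1.1) h

theorem Ck.symm {u w : UW (EK E1 E2)} (h : Ck E1 E2 x0 y0 hx hy u w) :
    Ck E1 E2 x0 y0 hx hy w u := by
  obtain ⟨m, i, j, b, h1, h2, rfl, rfl⟩ := h
  exact ⟨m, j, i, !b, h2, h1, rfl, by rw [Bool.not_not]⟩

theorem Ck.k {u w : UW (EK E1 E2)} (h : Ck E1 E2 x0 y0 hx hy u w) : u.1.1.1 = w.1.1.1 := by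
  obtain ⟨m, i, j, b, h1, h2, rfl, rfl⟩ := h
  rfl

theorem Ck.ne {u w : UW (EK E1 E2)} (h : Ck E1 E2 x0 y0 hx hy u w) : u.1.1 ≠ w.1.1 := by
  obtain ⟨m, i, j, b, h1, h2, rfl, rfl⟩ := h
  intro h
  have : b = !b := congrArg (fun k : ℕ × ℕ × Bool => k.2.2) h
  cases b <;> simp at this

variable (hx hy) (γ : Dat L → Dat L → Dat L) (num : UW (EK E1 E2) → ℕ) (d2 : Dat L)

open Classical in
/-- the remaining data, depending on a bit -/
noncomputable def xb (β : Bool) (u w : UW (EK E1 E2)) : Dat L :=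
  if β = true ∧ Ck E1 E2 x0 y0 hx hy u w then (if u.1.1.2.2 = true then d2 else d2.map not)
  else bo γ (ori num) u w

/-- the remaining data -/
noncomputable def xS (S : ℕ → Bool) (u w : UW (EK E1 E2)) : Dat L :=
  xb hx hy γ num d2 (S u.1.1.1) u w

variable {γ num d2}

theorem tp_rtK (m i : ℕ) : tp (rtK E1 E2 x0 y0 hx hy (m, i, true)) = D Φ E1.I x0 x0 := rfl
theorem tp_rtK' (m i : ℕ) : tp (rtK E1 E2 x0 y0 hx hy (m, i, false)) = D Φ E2.I y0 y0 := rfl

theorem xS_xi (hγ : IsB Φ τ t γ) (hn : Function.Injective num)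
    (hd2 : Gen Φ (D Φ E1.I x0 x0) (D Φ E2.I y0 y0) d2) (S : ℕ → Bool) :
    Xi (EK E1 E2) γ (xS hx hy γ num d2 S) := by
  refine ⟨fun u w hne => ?_, fun u w hne => ?_, fun u z hz hzx hb => ?_⟩
  · unfold xS xb
    split_ifs with h1 h2
    · obtain ⟨-, m, i, j, b, -, -, rfl, rfl⟩ := h1
      have hb : b = true := h2
      subst hb
      exact hd2
    · obtain ⟨-, m, i, j, b, -, -, rfl, rfl⟩ := h1
      have hb : b = false := by
        cases b
        · rfl
        · exact absurd rfl h2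
      subst hb
      exact hd2.not
    · exact bo_gen hγ _ _ _
  · unfold xS xb
    by_cases h1 : S u.1.1.1 = true ∧ Ck E1 E2 x0 y0 hx hy u w
    · have h2 : S w.1.1.1 = true ∧ Ck E1 E2 x0 y0 hx hy w u := ⟨h1.2.k ▸ h1.1, h1.2.symm⟩
      rw [if_pos h1, if_pos h2]
      obtain ⟨-, m, i, j, b, -, -, rfl, rfl⟩ := h1
      cases b
      · show (if (true : Bool) = true then d2 else d2.map not) =
          (if (false : Bool) = true then d2 else d2.map not).map not
        rw [if_pos rfl, if_neg (by simp), map_not_not]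
      · show (if (false : Bool) = true then d2 else d2.map not) =
          (if (true : Bool) = true then d2 else d2.map not).map not
        rw [if_pos rfl, if_neg (by simp)]
    · have h2 : ¬ (S w.1.1.1 = true ∧ Ck E1 E2 x0 y0 hx hy w u) := by
        intro h2
        exact h1 ⟨h2.2.k ▸ h2.1, h2.2.symm⟩
      rw [if_neg h1, if_neg h2]
      exact bo_not (ori_not hn hne)
  · obtain ⟨b, hbb⟩ : ∃ b : Bool, D Φ (EK E1 E2 u.1.1).I u.1.2.2 z =
        cond b (γ (tp u) (D Φ (EK E1 E2 u.1.1).I z z))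
          ((γ (D Φ (EK E1 E2 u.1.1).I z z) (tp u)).map not) := by
      rcases hb with h | h
      · exact ⟨true, h⟩
      · exact ⟨false, h⟩
    refine (inf_cp hn u hz b).mono ?_
    rintro w ⟨h1, h2, h3, h4, h5⟩
    obtain ⟨e1, e2⟩ := cp_data h1 h2
    refine ⟨fun h => ?_, fun h => hzx (by rw [h, h2]), ?_⟩
    · apply h.b
      rw [e1, e2]
      exact hb
    · unfold xS xb
      rw [if_neg]
      · unfold bo
        rw [e1, hbb]
        cases b
        · rw [if_neg]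
          · rfl
          · rintro (⟨-, h⟩ | ⟨h, -⟩)
            · exact absurd (h5.1 h) (by simp)
            · omega
        · rw [if_pos (show ori num u w from Or.inl ⟨h4, h5.2 rfl⟩)]
          rfl
      · rintro ⟨-, m, i, j, c, -, -, -, h⟩
        exact h3 (congrArg (fun u : UW (EK E1 E2) => u.1.2.1) h)

end

end Pool.Agent.Y558.C2
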