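import Pool.Agent.Y558.C2.K1

set_option autoImplicit false
set_option linter.unusedVariables false

/-! Perfectly many models from three free data: the invariant. -/

namespace Pool.Agent.Y558.C2

open FirstOrder Set Filter MeasureTheory
open Pool.Agent.H565R2.FO2 (pick pick_false pick_true pick_self pick_pick Interp Code toI ofI
  toI_ofI Iso bool_fun_cases perfect_of_uncountable)
open Pool.Agent.H565R2.CO (C2 Rl subs mem_subs subs_countable subs_trans Dat lab mkd dat ev ev_dat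
  Md dat_map dat_not map_not_not mkd_l mkI Coh mkI_iff mkd_mkI Rl_iso dat_f dat_t dat_iso)
open Pool.Agent.H565R2.LO2 (PerfK perfK_of_inv iso_symm)

variable {L : FirstOrder.Language.{0, 0}} {Φ : C2 L}
variable {A : Type} {τ : A → Dat L} {t : C2 L → ℕ∞} {K : Type}

/-! ### the invariant -/

/-- pairs of nonalgebraic elements with data which are not base data -/
def GV {V : Type} (γ : Dat L → Dat L → Dat L) (Δ : V → V → Dat L) (v w : V) : Prop :=
  v ≠ w ∧ ¬ AlgT (Δ v v) ∧ ¬ AlgT (Δ w w) ∧ ¬ Bs γ (Δ v v) (Δ w w) (Δ v w)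

/-- four-cycles -/
def QV {V : Type} (γ : Dat L → Dat L → Dat L) (Δ : V → V → Dat L) (a b c d : V) : Prop :=
  GV γ Δ a b ∧ GV γ Δ b c ∧ GV γ Δ c d ∧ GV γ Δ d a ∧ a ≠ c ∧ b ≠ d

/-- the invariant -/
def JV {V : Type} (γ : Dat L → Dat L → Dat L) (Δ : V → V → Dat L) : Set ℕ :=
  {n | ∃ v, (∃ a b c, QV γ Δ v a b c) ∧ {w | ∃ a b, QV γ Δ v w a b}.encard = n}

theorem GV_iso {V V' : Type} {γ : Dat L → Dat L → Dat L} {Δ : V → V → Dat L}
    {Δ' : V' → V' → Dat L} (σ : V ≃ V') (h : ∀ v w, Δ' (σ v) (σ w) = Δ v w) (v w : V) :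
    GV γ Δ' (σ v) (σ w) ↔ GV γ Δ v w := by
  unfold GV
  rw [h, h, h, σ.injective.ne_iff]

theorem QV_iso {V V' : Type} {γ : Dat L → Dat L → Dat L} {Δ : V → V → Dat L}
    {Δ' : V' → V' → Dat L} (σ : V ≃ V') (h : ∀ v w, Δ' (σ v) (σ w) = Δ v w) (a b c d : V) :
    QV γ Δ' (σ a) (σ b) (σ c) (σ d) ↔ QV γ Δ a b c d := by
  unfold QV
  rw [GV_iso σ h, GV_iso σ h, GV_iso σ h, GV_iso σ h, σ.injective.ne_iff, σ.injective.ne_iff]

theorem JV_iso {V V' : Type} {γ : Dat L → Dat L → Dat L} {Δ : V → V → Dat L}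
    {Δ' : V' → V' → Dat L} (σ : V ≃ V') (h : ∀ v w, Δ' (σ v) (σ w) = Δ v w) :
    JV γ Δ ⊆ JV γ Δ' := by
  rintro n ⟨v, ⟨a, b, c, hq⟩, hn⟩
  refine ⟨σ v, ⟨σ a, σ b, σ c, (QV_iso σ h _ _ _ _).2 hq⟩, ?_⟩
  have : {w | ∃ a b, QV γ Δ' (σ v) w a b} = σ '' {w | ∃ a b, QV γ Δ v w a b} := by
    ext w
    obtain ⟨w, rfl⟩ := σ.surjective w
    rw [σ.injective.mem_set_image]
    constructor
    · rintro ⟨a, b, hab⟩
      obtain ⟨a, rfl⟩ := σ.surjective a
      obtain ⟨b, rfl⟩ := σ.surjective b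
      exact ⟨a, b, (QV_iso σ h _ _ _ _).1 hab⟩
    · rintro ⟨a, b, hab⟩
      exact ⟨σ a, σ b, (QV_iso σ h _ _ _ _).2 hab⟩
  rw [this, σ.injective.encard_image, hn]

section
variable {E1 E2 : Ext Φ A τ t} {x0 y0 : ℕ} (hx : ¬ Alg E1.I x0) (hy : ¬ Alg E2.I y0)
  {γ : Dat L → Dat L → Dat L} {num : UW (EK E1 E2) → ℕ} {d2 : Dat L}

/-- the models of the first family -/
noncomputable def M1 (hγ : IsB Φ τ t γ) (hn : Function.Injective num)
    (hd2 : Gen Φ (D Φ E1.I x0 x0) (D Φ E2.I y0 y0) d2) (S : ℕ → Bool) :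
    Bp Φ A τ t (UW (EK E1 E2)) :=
  unr hγ (xS_xi hx hy hγ hn hd2 S) (0, 0, true)

variable (hΦ : Gd Φ) (hγ : IsB Φ τ t γ) (hn : Function.Injective num)
  (hd2 : Gen Φ (D Φ E1.I x0 x0) (D Φ E2.I y0 y0) d2)

include hΦ in
theorem GV_M1 (hnb : ¬ Bs γ (D Φ E1.I x0 x0) (D Φ E2.I y0 y0) d2) (S : ℕ → Bool)
    (v w : A ⊕ UW (EK E1 E2)) : GV γ (M1 hx hy hγ hn hd2 S).Δ v w ↔
      ∃ u u', v = .inr u ∧ w = .inr u' ∧ (Nb γ u u' ∨
        (S u.1.1.1 = true ∧ Ck E1 E2 x0 y0 hx hy u u')) := by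
  constructor
  · rintro ⟨hne, h1, h2, h3⟩
    rw [Bp.algT _ hΦ] at h1 h2
    rcases v with a | u
    · exact absurd ⟨a, rfl⟩ h1
    rcases w with a | w
    · exact absurd ⟨a, rfl⟩ h2
    refine ⟨u, w, rfl, rfl, ?_⟩
    by_contra hc
    rw [not_or] at hc
    apply h3
    have e1 : (M1 hx hy hγ hn hd2 S).Δ (.inr u) (.inr w) = ud γ (xS hx hy γ num d2 S) u w := rfl
    have e2 : (M1 hx hy hγ hn hd2 S).Δ (.inr u) (.inr u) = tp u := ud_self u
    have e3 : (M1 hx hy hγ hn hd2 S).Δ (.inr w) (.inr w) = tp w := ud_self w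
    rw [e1, e2, e3, ud_xi hc.1 (fun e => hne (by rw [e]))]
    unfold xS xb
    rw [if_neg hc.2]
    exact bo_bs _ _ _
  · rintro ⟨u, w, rfl, rfl, h⟩
    have hne : u ≠ w := by
      rintro rfl
      rcases h with h | h
      · exact h.x rfl
      · exact h.2.ne rfl
    have e1 : (M1 hx hy hγ hn hd2 S).Δ (.inr u) (.inr w) = ud γ (xS hx hy γ num d2 S) u w := rfl
    have e2 : (M1 hx hy hγ hn hd2 S).Δ (.inr u) (.inr u) = tp u := ud_self u
    have e3 : (M1 hx hy hγ hn hd2 S).Δ (.inr w) (.inr w) = tp w := ud_self w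
    refine ⟨fun e => hne (Sum.inr_injective e), ?_, ?_, ?_⟩
    · rw [Bp.algT _ hΦ]
      rintro ⟨a, h⟩
      exact absurd h (by simp)
    · rw [Bp.algT _ hΦ]
      rintro ⟨a, h⟩
      exact absurd h (by simp)
    · rw [e1, e2, e3]
      by_cases hb : Nb γ u w
      · rw [ud_nb hb]
        exact hb.b
      · rw [ud_xi hb hne]
        have h' := h.resolve_left hb
        unfold xS xb
        rw [if_pos h']
        obtain ⟨-, m, i, j, b, -, -, rfl, rfl⟩ := h'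
        cases b
        · rw [if_neg (by show ¬ (false : Bool) = true; simp)]
          show ¬ Bs γ (D Φ E2.I y0 y0) (D Φ E1.I x0 x0) (d2.map not)
          rw [Bs.not_iff]
          exact hnb
        · rw [if_pos (show (rtK E1 E2 x0 y0 hx hy (m, i, true)).1.1.2.2 = true from rfl)]
          exact hnb

include hΦ in
theorem QV_M1 (hnb : ¬ Bs γ (D Φ E1.I x0 x0) (D Φ E2.I y0 y0) d2) (S : ℕ → Bool)
    {a b c d : A ⊕ UW (EK E1 E2)} (h : QV γ (M1 hx hy hγ hn hd2 S).Δ a b c d) :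
    ∃ u w, a = .inr u ∧ b = .inr w ∧ S u.1.1.1 = true ∧ Ck E1 E2 x0 y0 hx hy u w := by
  obtain ⟨h1, h2, h3, h4, h5, h6⟩ := h
  rw [GV_M1 hx hy hΦ hγ hn hd2 hnb] at h1 h2 h3 h4
  obtain ⟨u, w, rfl, rfl, h1⟩ := h1
  obtain ⟨w', x, e, rfl, h2⟩ := h2
  obtain rfl := Sum.inr_injective e
  obtain ⟨x', y, e, rfl, h3⟩ := h3
  obtain rfl := Sum.inr_injective e
  obtain ⟨y', u', e, e', h4⟩ := h4
  obtain rfl := Sum.inr_injective e
  obtain rfl := Sum.inr_injective e'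
  have := cyc (Nb := Nb γ) (Sp := fun u w => S u.1.1.1 = true ∧ Ck E1 E2 x0 y0 hx hy u w)
    (Rt := fun u => ∃ k, u = rtK E1 E2 x0 y0 hx hy k) (κ := fun u => u.1.1)
    (fun u w h => ⟨h.k, fun e => h.x (by rw [e])⟩)
    (fun u w h => by
      obtain ⟨m, i, j, b, -, -, e1, e2⟩ := h.2
      exact ⟨⟨_, e1⟩, ⟨_, e2⟩, h.2.ne⟩)
    (by
      rintro _ _ ⟨k, rfl⟩ ⟨k', rfl⟩ h
      have h' : k = k' := h
      rw [h'])
    (fun a b c d h1 h2 h3 h4 h5 h6 => nb_cyc h1 h2 h3 h4 h5 h6) h1 h2 h3 h4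
    (fun e => h5 (by rw [e])) (fun e => h6 (by rw [e]))
  exact ⟨_, _, rfl, rfl, this⟩

include hΦ in
theorem JV_M1 (hnb : ¬ Bs γ (D Φ E1.I x0 x0) (D Φ E2.I y0 y0) d2) (S : ℕ → Bool) (m : ℕ) :
    m + 2 ∈ JV γ (M1 hx hy hγ hn hd2 S).Δ ↔ S m = true := by
  have hG : ∀ m i j b, S m = true → i < m + 2 → j < m + 2 →
      GV γ (M1 hx hy hγ hn hd2 S).Δ (.inr (rtK E1 E2 x0 y0 hx hy (m, i, b)))
        (.inr (rtK E1 E2 x0 y0 hx hy (m, j, !b))) := by
    intro m i j b hS hi hj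
    rw [GV_M1 hx hy hΦ hγ hn hd2 hnb]
    exact ⟨_, _, rfl, rfl, Or.inr ⟨hS, m, i, j, b, hi, hj, rfl, rfl⟩⟩
  have hQ : ∀ m i j b, S m = true → i < m + 2 → j < m + 2 →
      ∃ x y, QV γ (M1 hx hy hγ hn hd2 S).Δ (.inr (rtK E1 E2 x0 y0 hx hy (m, i, b)))
        (.inr (rtK E1 E2 x0 y0 hx hy (m, j, !b))) x y := by
    intro m i j b hS hi hj
    obtain ⟨i', hi', hii⟩ : ∃ i', i' < m + 2 ∧ i ≠ i' := by
      by_cases h : i = 0
      · exact ⟨1, by omega, by omega⟩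
      · exact ⟨0, by omega, h⟩
    obtain ⟨j', hj', hjj⟩ : ∃ j', j' < m + 2 ∧ j ≠ j' := by
      by_cases h : j = 0
      · exact ⟨1, by omega, by omega⟩
      · exact ⟨0, by omega, h⟩
    refine ⟨.inr (rtK E1 E2 x0 y0 hx hy (m, i', b)), .inr (rtK E1 E2 x0 y0 hx hy (m, j', !b)),
      hG m i j b hS hi hj, ?_, hG m i' j' b hS hi' hj', ?_, ?_, ?_⟩
    · have := hG m j i' (!b) hS hj hi'
      rwa [Bool.not_not] at this
    · have := hG m j' i (!b) hS hj' hi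
      rwa [Bool.not_not] at this
    · intro e
      have := rtK_inj (Sum.inr_injective e)
      exact hii (congrArg (fun k : ℕ × ℕ × Bool => k.2.1) this)
    · intro e
      have := rtK_inj (Sum.inr_injective e)
      exact hjj (congrArg (fun k : ℕ × ℕ × Bool => k.2.1) this)
  have hcount : ∀ m i b, S m = true → i < m + 2 →
      {w | ∃ x y, QV γ (M1 hx hy hγ hn hd2 S).Δ (.inr (rtK E1 E2 x0 y0 hx hy (m, i, b))) w x y} =
        (fun j => (.inr (rtK E1 E2 x0 y0 hx hy (m, j, !b)) : A ⊕ UW (EK E1 E2))) '' Iio (m + 2) := by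
    intro m i b hS hi
    ext w
    constructor
    · rintro ⟨x, y, hq⟩
      obtain ⟨u, w, e, rfl, -, m', i', j', b', -, hj', rfl, rfl⟩ :=
        QV_M1 hx hy hΦ hγ hn hd2 hnb S hq
      have h1 := rtK_inj (Sum.inr_injective e)
      have e1 : m = m' := congrArg (fun k : ℕ × ℕ × Bool => k.1) h1
      have e2 : b = b' := congrArg (fun k : ℕ × ℕ × Bool => k.2.2) h1
      subst e1 e2
      exact ⟨j', hj', rfl⟩
    · rintro ⟨j, hj, rfl⟩
      exact hQ m i j b hS hi hj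
  have hinj : ∀ m b, Function.Injective
      (fun j => (.inr (rtK E1 E2 x0 y0 hx hy (m, j, b)) : A ⊕ UW (EK E1 E2))) := by
    intro m b j j' e
    have := rtK_inj (Sum.inr_injective e)
    exact congrArg (fun k : ℕ × ℕ × Bool => k.2.1) this
  have hIio : ∀ n : ℕ, (Iio n : Set ℕ).encard = n := by
    intro n
    rw [← Finset.coe_Iio, Set.encard_coe_eq_coe_finsetCard, Nat.card_Iio]
  constructor
  · rintro ⟨v, ⟨a, b, c, hq⟩, hc⟩
    obtain ⟨u, w, rfl, rfl, hS, m', i, j, b', hi, -, rfl, rfl⟩ :=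
      QV_M1 hx hy hΦ hγ hn hd2 hnb S hq
    have hS' : S m' = true := hS
    rw [hcount m' i b' hS' hi, (hinj m' _).encard_image, hIio] at hc
    have h1 : m' + 2 = m + 2 := by exact_mod_cast hc
    have h2 : m' = m := by omega
    rw [← h2]
    exact hS'
  · intro hS
    refine ⟨.inr (rtK E1 E2 x0 y0 hx hy (m, 0, true)), ?_, ?_⟩
    · obtain ⟨x, y, h⟩ := hQ m 0 0 true hS (by omega) (by omega)
      exact ⟨_, x, y, h⟩
    · rw [hcount m 0 true hS (by omega), (hinj m _).encard_image, hIio]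

end

/-- Perfectly many models from free data which are not base data. -/
theorem perf_K1 [∀ n, Countable (L.Relations n)] [Countable A] (hΦ : Gd Φ)
    {γ : Dat L → Dat L → Dat L} (hγ : IsB Φ τ t γ) {E1 E2 : Ext Φ A τ t} {x0 y0 : ℕ}
    (hx : ¬ Alg E1.I x0) (hy : ¬ Alg E2.I y0) {d2 : Dat L}
    (hd2 : Gen Φ (D Φ E1.I x0 x0) (D Φ E2.I y0 y0) d2)
    (hnb : ¬ Bs γ (D Φ E1.I x0 x0) (D Φ E2.I y0 y0) d2) :
    PerfK {c : Code L | toI c ∈ Md Φ} := by
  obtain ⟨num, hn⟩ := exists_injective_nat (UW (EK E1 E2))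
  have : Infinite (UW (EK E1 E2)) := by
    have hinj : Function.Injective fun i => rtK E1 E2 x0 y0 hx hy (0, i, true) := by
      intro i j h
      exact congrArg (fun k : ℕ × ℕ × Bool => k.2.1) (rtK_inj h)
    exact Infinite.of_injective _ hinj
  obtain ⟨e⟩ := exists_code_equiv (A := A) (W := UW (EK E1 E2))
  have hR : ∀ S, (M1 hx hy hγ hn hd2 S).Rich := fun S => unr_rich hΦ hγ _ _
  refine perfK_of_countable (fun S => (M1 hx hy hγ hn hd2 S).code e) ?_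
    (fun S => (M1 hx hy hγ hn hd2 S).code_mem hΦ (hR S) e) fun S => ?_
  · refine meas_fac _ fun i j => ?_
    rcases hi : e i with a | u
    · refine ⟨0, fun _ => (M1 hx hy hγ hn hd2 (fun _ => true)).Δ (e i) (e j), fun S => ?_⟩
      rw [hi]
      cases e j <;> rfl
    · rcases hj : e j with b | w
      · refine ⟨0, fun _ => (M1 hx hy hγ hn hd2 (fun _ => true)).Δ (e i) (e j), fun S => ?_⟩
        rw [hi, hj]
        rfl
      · refine ⟨u.1.1.1, fun β => ud γ (fun u w => xb hx hy γ num d2 β u w) u w, fun S => ?_⟩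
        rfl
  · refine (countable_singleton S).mono ?_
    intro S' hS'
    obtain ⟨σ, hσ⟩ := Bp.iso_data _ _ hΦ (hR S) (hR S') e e hS'
    have h1 := JV_iso (γ := γ) σ hσ
    have h2 := JV_iso (γ := γ) σ.symm (Δ := (M1 hx hy hγ hn hd2 S').Δ)
      (Δ' := (M1 hx hy hγ hn hd2 S).Δ) (fun v w => by
        rw [← hσ, Equiv.apply_symm_apply, Equiv.apply_symm_apply])
    show S' = S
    funext m
    rw [Bool.eq_iff_iff, ← JV_M1 hx hy hΦ hγ hn hd2 hnb S' m, ← JV_M1 hx hy hΦ hγ hn hd2 hnb S m]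
    exact ⟨fun h => h2 h, fun h => h1 h⟩

end Pool.Agent.Y558.C2
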