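import Pool.Agent.Y558.C2.K1b

set_option autoImplicit false
set_option linter.unusedVariables false

/-! Perfectly many models from an asymmetric free datum; uniqueness of free data. -/

namespace Pool.Agent.Y558.C2

open FirstOrder Set Filter MeasureTheory
open Pool.Agent.H565R2.FO2 (pick pick_false pick_true pick_self pick_pick Interp Code toI ofI
  toI_ofI Iso bool_fun_cases perfect_of_uncountable)
open Pool.Agent.H565R2.CO (C2 Rl subs mem_subs subs_countable subs_trans Dat lab mkd dat ev ev_dat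
  Md dat_map dat_not map_not_not mkd_l mkI Coh mkI_iff mkd_mkI Rl_iso dat_f dat_t dat_iso)
open Pool.Agent.H565R2.LO2 (PerfK perfK_of_inv iso_symm)

variable {L : FirstOrder.Language.{0, 0}} {Φ : C2 L}
variable {A : Type} {τ : A → Dat L} {t : C2 L → ℕ∞}

/-- the tournament on the roots -/
def ordb (β : Bool) (k l : ℕ) : Prop :=
  (k = 1 ∧ l = 0) ∨ (k = 0 ∧ 2 ≤ l) ∨ (k = 1 ∧ 2 ≤ l ∧ (l % 2 = 1 ∨ β = true)) ∨
    (l = 1 ∧ 2 ≤ k ∧ ¬ (k % 2 = 1 ∨ β = true)) ∨ (2 ≤ k ∧ k < l)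

theorem ordb_not {β : Bool} {k l : ℕ} (h : k ≠ l) : ordb β l k ↔ ¬ ordb β k l := by
  unfold ordb
  cases β
  · simp only [Bool.false_eq_true, or_false]
    omega
  · simp only [or_true, and_true, not_true_eq_false, and_false, false_or]
    omega

section
variable (E1 : Ext Φ A τ t) {x0 : ℕ} (hx : ¬ Alg E1.I x0)

/-- the roots -/
def rt (k : ℕ) : UW (fun _ : ℕ => E1) := ⟨(k, ∅, x0), hx⟩

/-- being a root -/
def Rt (u : UW (fun _ : ℕ => E1)) : Prop := u = rt E1 hx u.1.1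

variable {E1} (γ : Dat L → Dat L → Dat L) (num : UW (fun _ : ℕ => E1) → ℕ)

open Classical in
/-- the orientation -/
def ob (β : Bool) (u w : UW (fun _ : ℕ => E1)) : Prop :=
  if (tp u = D Φ E1.I x0 x0 ∧ tp w = D Φ E1.I x0 x0) ∧ (Rt E1 hx u ∨ Rt E1 hx w) then
    (Rt E1 hx u ∧ Rt E1 hx w ∧ ordb β u.1.1 w.1.1) ∨ (¬ Rt E1 hx u ∧ Rt E1 hx w)
  else ori num u w

/-- the remaining data -/
noncomputable def yS (S : ℕ → Bool) (u w : UW (fun _ : ℕ => E1)) : Dat L :=
  bo γ (ob hx num (S ((u.1.1 + w.1.1 - 3) / 2))) u w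

variable {γ num}

theorem ob_not (hn : Function.Injective num) {β : Bool} {u w : UW (fun _ : ℕ => E1)}
    (h : u ≠ w) : ob hx num β w u ↔ ¬ ob hx num β u w := by
  unfold ob
  by_cases h1 : (tp u = D Φ E1.I x0 x0 ∧ tp w = D Φ E1.I x0 x0) ∧ (Rt E1 hx u ∨ Rt E1 hx w)
  · have h2 : (tp w = D Φ E1.I x0 x0 ∧ tp u = D Φ E1.I x0 x0) ∧ (Rt E1 hx w ∨ Rt E1 hx u) :=
      ⟨h1.1.symm, h1.2.symm⟩
    rw [if_pos h1, if_pos h2]
    by_cases hu : Rt E1 hx u
    · by_cases hw : Rt E1 hx w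
      · have h3 : u.1.1 ≠ w.1.1 := by
          intro e
          apply h
          rw [hu, hw, e]
        simp only [hu, hw, true_and, not_true_eq_false, false_and, or_false]
        exact ordb_not h3
      · simp only [hu, hw, true_and, not_true_eq_false, false_and, and_false, or_false,
          not_false_eq_true, and_self, or_true]
    · have hw : Rt E1 hx w := h1.2.resolve_left hu
      simp only [hu, hw, true_and, not_true_eq_false, false_and, and_false, or_false,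
        not_false_eq_true, and_self, or_true]
  · have h2 : ¬ ((tp w = D Φ E1.I x0 x0 ∧ tp u = D Φ E1.I x0 x0) ∧
        (Rt E1 hx w ∨ Rt E1 hx u)) := fun h => h1 ⟨h.1.symm, h.2.symm⟩
    rw [if_neg h1, if_neg h2]
    exact ori_not hn h

theorem tp_rt (k : ℕ) : tp (rt E1 hx k) = D Φ E1.I x0 x0 := rfl

theorem Rt_rt (k : ℕ) : Rt E1 hx (rt E1 hx k) := rfl

theorem yS_xi (hγ : IsB Φ τ t γ) (hn : Function.Injective num) (S : ℕ → Bool) :
    Xi (fun _ : ℕ => E1) γ (yS hx γ num S) := by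
  refine ⟨fun u w hne => bo_gen hγ _ _ _, fun u w hne => ?_, fun u z hz hzx hb => ?_⟩
  · unfold yS
    rw [Nat.add_comm w.1.1 u.1.1]
    exact bo_not (ob_not hx hn hne)
  · obtain ⟨b, hbb⟩ : ∃ b : Bool, D Φ E1.I u.1.2.2 z =
        cond b (γ (tp u) (D Φ E1.I z z)) ((γ (D Φ E1.I z z) (tp u)).map not) := by
      rcases hb with h | h
      · exact ⟨true, h⟩
      · exact ⟨false, h⟩
    by_cases hc : (tp u = D Φ E1.I x0 x0 ∧ D Φ E1.I z z = D Φ E1.I x0 x0) ∧ Rt E1 hx u ∧ b = true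
    · obtain ⟨⟨c1, c2⟩, c3, rfl⟩ := hc
      have hinj : Function.Injective fun n : ℕ => rt E1 hx (u.1.1 + 3 + (u.1.1 + 2 * n)) := by
        intro n m h
        have h1 : u.1.1 + 3 + (u.1.1 + 2 * n) = u.1.1 + 3 + (u.1.1 + 2 * m) :=
          congrArg (fun u : UW (fun _ : ℕ => E1) => u.1.1) h
        omega
      refine (infinite_range_of_injective hinj).mono ?_
      rintro _ ⟨n, rfl⟩
      have hne : u ≠ rt E1 hx (u.1.1 + 3 + (u.1.1 + 2 * n)) := by
        intro h
        have h1 : u.1.1 = u.1.1 + 3 + (u.1.1 + 2 * n) :=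
          congrArg (fun u : UW (fun _ : ℕ => E1) => u.1.1) h
        omega
      refine ⟨fun h => ?_, hne, ?_⟩
      · have h1 : u.1.1 = u.1.1 + 3 + (u.1.1 + 2 * n) := h.k
        omega
      · unfold yS bo
        rw [if_pos]
        · rw [tp_rt]
          show _ = D Φ E1.I u.1.2.2 z
          rw [hbb, c2]
          rfl
        · unfold ob
          rw [if_pos ⟨⟨c1, tp_rt hx _⟩, Or.inl c3⟩]
          left
          refine ⟨c3, Rt_rt hx _, ?_⟩
          show ordb _ u.1.1 (u.1.1 + 3 + (u.1.1 + 2 * n))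
          unfold ordb
          rcases Nat.lt_trichotomy u.1.1 1 with h | h | h
          · right; left; omega
          · right; right; left
            exact ⟨h, by omega, Or.inl (by omega)⟩
          · right; right; right; right; omega
    · refine (inf_cp hn u hz b).mono ?_
      rintro w ⟨h1, h2, h3, h4, h5⟩
      obtain ⟨e1, e2⟩ := cp_data h1 h2
      refine ⟨fun h => ?_, fun h => hzx (by rw [h, h2]), ?_⟩
      · apply h.b
        rw [e1, e2]
        exact hb
      · have hw : ¬ Rt E1 hx w := by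
          intro h
          exact h3 (congrArg (fun u : UW (fun _ : ℕ => E1) => u.1.2.1) h)
        have key : ∀ β, ob hx num β u w ↔ b = true := by
          intro β
          unfold ob
          split_ifs with hcc
          · obtain ⟨⟨c1, c2⟩, c3⟩ := hcc
            have c4 := c3.resolve_right hw
            rw [e1] at c2
            have hb' : b ≠ true := fun hb' => hc ⟨⟨c1, c2⟩, c4, hb'⟩
            simp only [hw, c4, not_true_eq_false, false_and, and_false, or_false, hb',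
              Bool.false_eq_true]
          · constructor
            · rintro (⟨-, h⟩ | ⟨h, -⟩)
              · exact h5.1 h
              · omega
            · intro h
              exact Or.inl ⟨h4, h5.2 h⟩
        unfold yS bo
        show _ = D Φ E1.I u.1.2.2 z
        have e1' : tp w = D Φ E1.I z z := e1
        rw [e1', hbb]
        cases b
        · rw [if_neg (fun h => absurd ((key _).1 h) (by simp))]
          rfl
        · rw [if_pos ((key _).2 rfl)]
          rfl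

/-- the models of the second family -/
noncomputable def M2 (hγ : IsB Φ τ t γ) (hn : Function.Injective num) (S : ℕ → Bool) :
    Bp Φ A τ t (UW (fun _ : ℕ => E1)) :=
  unr hγ (yS_xi hx hγ hn S) 0

end

/-- arrows -/
def TV {V : Type} (p d : Dat L) (Δ : V → V → Dat L) (v w : V) : Prop :=
  v ≠ w ∧ Δ v v = p ∧ Δ w w = p ∧ Δ v w = d

/-- the invariant of pairs -/
def IV {V : Type} (p d : Dat L) (Δ : V → V → Dat L) (v v' : V) : Set ℕ :=
  {n | ∃ w, TV p d Δ v w ∧ TV p d Δ v' w ∧ {z | TV p d Δ v z ∧ TV p d Δ z w}.encard = n}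

theorem TV_iso {V V' : Type} {p d : Dat L} {Δ : V → V → Dat L}
    {Δ' : V' → V' → Dat L} (σ : V ≃ V') (h : ∀ v w, Δ' (σ v) (σ w) = Δ v w) (v w : V) :
    TV p d Δ' (σ v) (σ w) ↔ TV p d Δ v w := by
  unfold TV
  rw [h, h, h, σ.injective.ne_iff]

theorem IV_iso {V V' : Type} {p d : Dat L} {Δ : V → V → Dat L}
    {Δ' : V' → V' → Dat L} (σ : V ≃ V') (h : ∀ v w, Δ' (σ v) (σ w) = Δ v w) (v v' : V) :
    IV p d Δ' (σ v) (σ v') = IV p d Δ v v' := by
  have h1 : ∀ w, {z | TV p d Δ' (σ v) z ∧ TV p d Δ' z (σ w)} =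
      σ '' {z | TV p d Δ v z ∧ TV p d Δ z w} := by
    intro w
    ext z
    obtain ⟨z, rfl⟩ := σ.surjective z
    rw [σ.injective.mem_set_image]
    simp only [mem_ofPred_eq, TV_iso σ h]
  ext n
  constructor
  · rintro ⟨w, hw1, hw2, hw3⟩
    obtain ⟨w, rfl⟩ := σ.surjective w
    rw [TV_iso σ h] at hw1 hw2
    rw [h1, σ.injective.encard_image] at hw3
    exact ⟨w, hw1, hw2, hw3⟩
  · rintro ⟨w, hw1, hw2, hw3⟩
    refine ⟨σ w, (TV_iso σ h _ _).2 hw1, (TV_iso σ h _ _).2 hw2, ?_⟩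
    rw [h1, σ.injective.encard_image]
    exact hw3

section
variable {E1 : Ext Φ A τ t} {x0 : ℕ} (hx : ¬ Alg E1.I x0) {γ : Dat L → Dat L → Dat L}
  {num : UW (fun _ : ℕ => E1) → ℕ} (hΦ : Gd Φ) (hγ : IsB Φ τ t γ) (hn : Function.Injective num)
  (hd : γ (D Φ E1.I x0 x0) (D Φ E1.I x0 x0) ≠ (γ (D Φ E1.I x0 x0) (D Φ E1.I x0 x0)).map not)

include hΦ hd in
theorem TV_M2 (S : ℕ → Bool) (v w : A ⊕ UW (fun _ : ℕ => E1)) :
    TV (D Φ E1.I x0 x0) (γ (D Φ E1.I x0 x0) (D Φ E1.I x0 x0)) (M2 hx hγ hn S).Δ v w ↔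
      ∃ u u', v = .inr u ∧ w = .inr u' ∧ u ≠ u' ∧ tp u = D Φ E1.I x0 x0 ∧
        tp u' = D Φ E1.I x0 x0 ∧ ¬ Nb γ u u' ∧
        ob hx num (S ((u.1.1 + u'.1.1 - 3) / 2)) u u' := by
  have hnt : NT Φ τ t (D Φ E1.I x0 x0) := ⟨E1, x0, hx, rfl⟩
  constructor
  · rintro ⟨hne, h1, h2, h3⟩
    rcases v with a | u
    · exfalso
      apply hnt.na hΦ
      rw [← h1, Bp.algT _ hΦ]
      exact ⟨a, rfl⟩
    rcases w with a | w
    · exfalso
      apply hnt.na hΦ
      rw [← h2, Bp.algT _ hΦ]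
      exact ⟨a, rfl⟩
    have e1 : (M2 hx hγ hn S).Δ (.inr u) (.inr w) = ud γ (yS hx γ num S) u w := rfl
    have e2 : (M2 hx hγ hn S).Δ (.inr u) (.inr u) = tp u := ud_self u
    have e3 : (M2 hx hγ hn S).Δ (.inr w) (.inr w) = tp w := ud_self w
    rw [e2] at h1
    rw [e3] at h2
    rw [e1] at h3
    have hne' : u ≠ w := fun e => hne (by rw [e])
    have hnb : ¬ Nb γ u w := by
      intro h
      rw [ud_nb h] at h3
      apply h.b
      rw [h3, h1, h2]
      exact Or.inl rfl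
    refine ⟨u, w, rfl, rfl, hne', h1, h2, hnb, ?_⟩
    rw [ud_xi hnb hne'] at h3
    by_contra hc
    unfold yS bo at h3
    rw [if_neg hc, h1, h2] at h3
    exact hd h3.symm
  · rintro ⟨u, w, rfl, rfl, hne, h1, h2, h3, h4⟩
    have e1 : (M2 hx hγ hn S).Δ (.inr u) (.inr w) = ud γ (yS hx γ num S) u w := rfl
    have e2 : (M2 hx hγ hn S).Δ (.inr u) (.inr u) = tp u := ud_self u
    have e3 : (M2 hx hγ hn S).Δ (.inr w) (.inr w) = tp w := ud_self w
    refine ⟨fun e => hne (Sum.inr_injective e), by rw [e2, h1], by rw [e3, h2], ?_⟩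
    rw [e1, ud_xi h3 hne]
    unfold yS bo
    rw [if_pos h4, h1, h2]

include hΦ hd in
theorem TV_rt (S : ℕ → Bool) (k : ℕ) (hk : k ≤ 1) (w : A ⊕ UW (fun _ : ℕ => E1)) :
    TV (D Φ E1.I x0 x0) (γ (D Φ E1.I x0 x0) (D Φ E1.I x0 x0)) (M2 hx hγ hn S).Δ
      (.inr (rt E1 hx k)) w ↔
      ∃ l, l ≠ k ∧ w = .inr (rt E1 hx l) ∧ ordb (S ((k + l - 3) / 2)) k l := by
  rw [TV_M2 hx hΦ hγ hn hd]
  constructor
  · rintro ⟨u, w, e, rfl, hne, h1, h2, h3, h4⟩
    obtain rfl := Sum.inr_injective e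
    unfold ob at h4
    rw [if_pos ⟨⟨h1, h2⟩, Or.inl (Rt_rt hx k)⟩] at h4
    rcases h4 with ⟨-, h5, h6⟩ | ⟨h5, -⟩
    · refine ⟨w.1.1, fun e => hne ?_, ?_, h6⟩
      · rw [h5, e]
      · rw [← h5]
    · exact absurd (Rt_rt hx k) h5
  · rintro ⟨l, hl, rfl, h⟩
    refine ⟨_, _, rfl, rfl, fun e => hl ?_, rfl, rfl, fun e => hl ?_, ?_⟩
    · exact (congrArg (fun u : UW (fun _ : ℕ => E1) => u.1.1) e).symm
    · exact e.k.symm
    · unfold ob
      rw [if_pos ⟨⟨tp_rt hx _, tp_rt hx _⟩, Or.inl (Rt_rt hx k)⟩]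
      exact Or.inl ⟨Rt_rt hx _, Rt_rt hx _, h⟩

include hΦ hd in
theorem TV_rt2 (S : ℕ → Bool) (k l : ℕ) (hk : 2 ≤ k) (hl : 2 ≤ l) :
    TV (D Φ E1.I x0 x0) (γ (D Φ E1.I x0 x0) (D Φ E1.I x0 x0)) (M2 hx hγ hn S).Δ
      (.inr (rt E1 hx k)) (.inr (rt E1 hx l)) ↔ k < l := by
  rw [TV_M2 hx hΦ hγ hn hd]
  constructor
  · rintro ⟨u, w, e, e', hne, h1, h2, h3, h4⟩
    obtain rfl := Sum.inr_injective e
    obtain rfl := Sum.inr_injective e'
    unfold ob at h4
    rw [if_pos ⟨⟨h1, h2⟩, Or.inl (Rt_rt hx k)⟩] at h4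
    rcases h4 with ⟨-, h5, h6⟩ | ⟨h5, -⟩
    · have h7 : ordb (S ((k + l - 3) / 2)) k l := h6
      unfold ordb at h7
      rcases h7 with h | h | h | h | h
      · omega
      · omega
      · omega
      · omega
      · exact h.2
    · exact absurd (Rt_rt hx k) h5
  · intro h
    refine ⟨_, _, rfl, rfl, fun e => ?_, rfl, rfl, fun e => ?_, ?_⟩
    · have : k = l := congrArg (fun u : UW (fun _ : ℕ => E1) => u.1.1) e
      omega
    · have : k = l := e.k
      omega
    · unfold ob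
      rw [if_pos ⟨⟨tp_rt hx _, tp_rt hx _⟩, Or.inl (Rt_rt hx k)⟩]
      refine Or.inl ⟨Rt_rt hx _, Rt_rt hx _, ?_⟩
      show ordb _ k l
      unfold ordb
      right; right; right; right
      exact ⟨hk, h⟩

include hΦ hd in
theorem IV_M2 (S : ℕ → Bool) (m : ℕ) :
    2 * m ∈ IV (D Φ E1.I x0 x0) (γ (D Φ E1.I x0 x0) (D Φ E1.I x0 x0)) (M2 hx hγ hn S).Δ
      (.inr (rt E1 hx 0)) (.inr (rt E1 hx 1)) ↔ S m = true := by
  have hset : ∀ l, 2 ≤ l → {z | TV (D Φ E1.I x0 x0) (γ (D Φ E1.I x0 x0) (D Φ E1.I x0 x0))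
      (M2 hx hγ hn S).Δ (.inr (rt E1 hx 0)) z ∧
      TV (D Φ E1.I x0 x0) (γ (D Φ E1.I x0 x0) (D Φ E1.I x0 x0))
      (M2 hx hγ hn S).Δ z (.inr (rt E1 hx l))} =
      (fun k => (.inr (rt E1 hx k) : A ⊕ UW (fun _ : ℕ => E1))) '' Ico 2 l := by
    intro l hl
    ext z
    constructor
    · rintro ⟨h1, h2⟩
      rw [TV_rt hx hΦ hγ hn hd S 0 (by omega)] at h1
      obtain ⟨k, hk, rfl, h3⟩ := h1
      have hk2 : 2 ≤ k := by
        unfold ordb at h3
        rcases h3 with h | h | h | h | h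
        · omega
        · exact h.2
        · omega
        · omega
        · omega
      rw [TV_rt2 hx hΦ hγ hn hd S k l hk2 hl] at h2
      exact ⟨k, ⟨hk2, h2⟩, rfl⟩
    · rintro ⟨k, ⟨h1, h2⟩, rfl⟩
      refine ⟨?_, ?_⟩
      · rw [TV_rt hx hΦ hγ hn hd S 0 (by omega)]
        refine ⟨k, by omega, rfl, ?_⟩
        unfold ordb
        right; left
        exact ⟨rfl, h1⟩
      · rw [TV_rt2 hx hΦ hγ hn hd S k l h1 hl]
        exact h2
  have hinj : Function.Injective
      (fun k => (.inr (rt E1 hx k) : A ⊕ UW (fun _ : ℕ => E1))) := by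
    intro k l h
    exact congrArg (fun u : UW (fun _ : ℕ => E1) => u.1.1) (Sum.inr_injective h)
  have hcard : ∀ l, 2 ≤ l → {z | TV (D Φ E1.I x0 x0) (γ (D Φ E1.I x0 x0) (D Φ E1.I x0 x0))
      (M2 hx hγ hn S).Δ (.inr (rt E1 hx 0)) z ∧
      TV (D Φ E1.I x0 x0) (γ (D Φ E1.I x0 x0) (D Φ E1.I x0 x0))
      (M2 hx hγ hn S).Δ z (.inr (rt E1 hx l))}.encard = ((l - 2 : ℕ) : ℕ∞) := by
    intro l hl
    rw [hset l hl, hinj.encard_image, ← Finset.coe_Ico, Set.encard_coe_eq_coe_finsetCard,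
      Nat.card_Ico]
  constructor
  · rintro ⟨w, h1, h2, h3⟩
    rw [TV_rt hx hΦ hγ hn hd S 0 (by omega)] at h1
    obtain ⟨l, hl, rfl, h4⟩ := h1
    have hl2 : 2 ≤ l := by
      unfold ordb at h4
      rcases h4 with h | h | h | h | h
      · omega
      · exact h.2
      · omega
      · omega
      · omega
    rw [hcard l hl2] at h3
    have h5 : l - 2 = 2 * m := by exact_mod_cast h3
    rw [TV_rt hx hΦ hγ hn hd S 1 (by omega)] at h2
    obtain ⟨l', -, e, h6⟩ := h2
    have e' : l = l' := congrArg (fun u : UW (fun _ : ℕ => E1) => u.1.1) (Sum.inr_injective e)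
    subst e'
    have e2 : (1 + l - 3) / 2 = m := by omega
    rw [e2] at h6
    unfold ordb at h6
    rcases h6 with h | h | h | h | h
    · omega
    · omega
    · rcases h.2.2 with h7 | h7
      · omega
      · exact h7
    · omega
    · omega
  · intro hS
    refine ⟨.inr (rt E1 hx (2 * m + 2)), ?_, ?_, ?_⟩
    · rw [TV_rt hx hΦ hγ hn hd S 0 (by omega)]
      refine ⟨_, by omega, rfl, ?_⟩
      unfold ordb
      right; left
      exact ⟨rfl, by omega⟩
    · rw [TV_rt hx hΦ hγ hn hd S 1 (by omega)]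
      refine ⟨_, by omega, rfl, ?_⟩
      have e2 : (1 + (2 * m + 2) - 3) / 2 = m := by omega
      rw [e2]
      unfold ordb
      right; right; left
      exact ⟨rfl, by omega, Or.inr hS⟩
    · rw [hcard _ (by omega)]
      have : 2 * m + 2 - 2 = 2 * m := by omega
      rw [this]

end

theorem perf_K2 [∀ n, Countable (L.Relations n)] [Countable A] (hΦ : Gd Φ)
    {γ : Dat L → Dat L → Dat L} (hγ : IsB Φ τ t γ) {E1 : Ext Φ A τ t} {x0 : ℕ}
    (hx : ¬ Alg E1.I x0)
    (hd : γ (D Φ E1.I x0 x0) (D Φ E1.I x0 x0) ≠ (γ (D Φ E1.I x0 x0) (D Φ E1.I x0 x0)).map not) :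
    PerfK {c : Code L | toI c ∈ Md Φ} := by
  classical
  obtain ⟨num, hn⟩ := exists_injective_nat (UW (fun _ : ℕ => E1))
  have : Infinite (UW (fun _ : ℕ => E1)) := by
    have hinj : Function.Injective fun i => rt E1 hx i := by
      intro i j h
      exact congrArg (fun u : UW (fun _ : ℕ => E1) => u.1.1) h
    exact Infinite.of_injective _ hinj
  obtain ⟨e⟩ := exists_code_equiv (A := A) (W := UW (fun _ : ℕ => E1))
  have hR : ∀ S, (M2 hx hγ hn S).Rich := fun S => unr_rich hΦ hγ _ _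
  refine perfK_of_countable (fun S => (M2 hx hγ hn S).code e) ?_
    (fun S => (M2 hx hγ hn S).code_mem hΦ (hR S) e) fun S => ?_
  · refine meas_fac _ fun i j => ?_
    rcases hi : e i with a | u
    · refine ⟨0, fun _ => (M2 hx hγ hn (fun _ => true)).Δ (e i) (e j), fun S => ?_⟩
      rw [hi]
      cases e j <;> rfl
    · rcases hj : e j with b | w
      · refine ⟨0, fun _ => (M2 hx hγ hn (fun _ => true)).Δ (e i) (e j), fun S => ?_⟩
        rw [hi, hj]
        rfl
      · refine ⟨(u.1.1 + w.1.1 - 3) / 2,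
          fun β => ud γ (fun u w => bo γ (ob hx num β) u w) u w, fun S => ?_⟩
        rfl
  · refine (countable_range fun v : (A ⊕ UW (fun _ : ℕ => E1)) × (A ⊕ UW (fun _ : ℕ => E1)) =>
      fun m : ℕ => decide (2 * m ∈ IV (D Φ E1.I x0 x0)
        (γ (D Φ E1.I x0 x0) (D Φ E1.I x0 x0)) (M2 hx hγ hn S).Δ v.1 v.2)).mono ?_
    intro S' hS'
    obtain ⟨σ, hσ⟩ := Bp.iso_data _ _ hΦ (hR S) (hR S') e e hS'
    refine ⟨(σ.symm (.inr (rt E1 hx 0)), σ.symm (.inr (rt E1 hx 1))), ?_⟩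
    funext m
    rw [Bool.eq_iff_iff, decide_eq_true_eq, ← IV_M2 hx hΦ hγ hn hd S' m]
    simp only
    rw [← IV_iso σ hσ, Equiv.apply_symm_apply, Equiv.apply_symm_apply]

/-- Free data are unique unless there are perfectly many models. -/
theorem gen_unique [∀ n, Countable (L.Relations n)] [Countable A] (hΦ : Gd Φ)
    (hP : ¬ PerfK {c : Code L | toI c ∈ Md Φ}) {p q d d' : Dat L} (hp : NT Φ τ t p)
    (hq : NT Φ τ t q) (h : Gen Φ p q d) (h' : Gen Φ p q d') : d = d' := by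
  classical
  by_contra hne
  have hγ0 : ∀ p q, ∃ d, NT Φ τ t p → NT Φ τ t q → Gen Φ p q d := by
    intro p q
    by_cases h : NT Φ τ t p ∧ NT Φ τ t q
    · obtain ⟨d, hd⟩ := nt_gen hΦ h.1 h.2
      exact ⟨d, fun _ _ => hd⟩
    · exact ⟨p, fun h1 h2 => absurd ⟨h1, h2⟩ h⟩
  choose γ0 hγ0 using hγ0
  obtain ⟨E1, x0, hx, e1⟩ := id hp
  obtain ⟨E2, y0, hy, e2⟩ := id hq
  by_cases hpq : p = q
  · let γ : Dat L → Dat L → Dat L := fun a b => if a = p ∧ b = p then d else γ0 a b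
    have hγ : IsB Φ τ t γ := by
      intro a b ha hb
      by_cases hc : a = p ∧ b = p
      · obtain ⟨rfl, rfl⟩ := hc
        simp only [γ, and_self, if_true]
        rw [← hpq] at h
        exact h
      · simp only [γ, if_neg hc]
        exact hγ0 a b ha hb
    have hγp : γ p p = d := by simp only [γ, and_self, if_true]
    by_cases hdd : d' = d.map not
    · refine hP (perf_K2 hΦ hγ hx ?_)
      rw [← e1, hγp]
      intro hcon
      exact hne (hcon.trans hdd.symm)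
    · refine hP (perf_K1 hΦ hγ hx hy (d2 := d') ?_ ?_)
      · rw [← e1, ← e2]
        exact h'
      · rw [← e1, ← e2, ← hpq]
        rintro (hc | hc)
        · rw [hγp] at hc
          exact hne hc.symm
        · rw [hγp] at hc
          exact hdd hc
  · let γ : Dat L → Dat L → Dat L := fun a b =>
      if a = p ∧ b = q then d else if a = q ∧ b = p then d.map not else γ0 a b
    have hγ : IsB Φ τ t γ := by
      intro a b ha hb
      by_cases hc : a = p ∧ b = q
      · obtain ⟨rfl, rfl⟩ := hc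
        simp only [γ, and_self, if_true]
        exact h
      · by_cases hc' : a = q ∧ b = p
        · simp only [γ, if_neg hc, if_pos hc']
          obtain ⟨rfl, rfl⟩ := hc'
          exact h.not
        · simp only [γ, if_neg hc, if_neg hc']
          exact hγ0 a b ha hb
    have hγp : γ p q = d := by simp only [γ, and_self, if_true]
    have hγq : γ q p = d.map not := by
      show (if q = p ∧ p = q then d else if q = q ∧ p = p then d.map not else γ0 q p) = _
      rw [if_neg (fun hc => hpq hc.2), if_pos ⟨rfl, rfl⟩]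
    refine hP (perf_K1 hΦ hγ hx hy (d2 := d') ?_ ?_)
    · rw [← e1, ← e2]
      exact h'
    · rw [← e1, ← e2]
      rintro (hc | hc)
      · rw [hγp] at hc
        exact hne hc.symm
      · rw [hγq, map_not_not] at hc
        exact hne hc.symm

end Pool.Agent.Y558.C2
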