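import Pool.Agent.Y558.C2.Prf

set_option autoImplicit false
set_option linter.unusedVariables false
set_option linter.unusedSectionVars false

/-! Compactness of the enumerations of the algebraic elements. -/

namespace Pool.Agent.Y558.C2

open FirstOrder Set Filter MeasureTheory
open Pool.Agent.H565R2.FO2 (pick pick_false pick_true pick_self pick_pick Interp Code toI ofI
  toI_ofI Iso bool_fun_cases perfect_of_uncountable)
open Pool.Agent.H565R2.CO (C2 Rl subs mem_subs subs_countable subs_trans Dat lab mkd dat ev ev_dat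
  Md dat_map dat_not map_not_not mkd_l mkI Coh mkI_iff mkd_mkI Rl_iso dat_f dat_t dat_iso Al al_dat
  KI code code_inj meas_code meas_Rl meas_Md)
open Pool.Agent.H565R2.LO2 (PerfK perfK_of_inv iso_symm)
open Pool.Agent.H623R2.VE (Adj Conn CIso CEq pull pull_ciso GIso CovE Cov Pw Perf)
open Pool.Agent.H579R3.VP (Many glue_of_profile many_iso)
open Relation (ReflTransGen)

variable {L : FirstOrder.Language.{0, 0}} {Φ : C2 L}
variable {A : Type} {τ : A → Dat L} {t : C2 L → ℕ∞}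

/-- queries about an enumerated model -/
abbrev Qy (Φ : C2 L) (A : Type) : Type := (A × A × ↥(Al Φ)) ⊕ (ℕ × ℕ)

/-- the answers to the queries -/
def hq (f : ℕ → VC (ar (Φ := Φ) (A := A)) × ℕ) (E : Ext Φ A τ t) : Qy Φ A → Prop
  | .inl p => D Φ E.I (E.ι p.1) (E.ι p.2.1) = p.2.2.1
  | .inr q => Many f (Pool.Agent.H623R2.VE.ofI (nE E univ)) q

/-- the supports of the queries -/
def sup (Sf : ℕ → Set A) : Qy Φ A → Set A
  | .inl p => {p.1, p.2.1}
  | .inr q => Sf q.1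

variable {f : ℕ → VC (ar (Φ := Φ) (A := A)) × ℕ} {Sf : ℕ → Set A}

theorem sup_fin (hg : ∀ n, Gt Φ τ t (f n) (Sf n)) (q : Qy Φ A) : (sup Sf q).Finite := by
  rcases q with p | q
  · show ({p.1, p.2.1} : Set A).Finite
    exact Set.toFinite _
  · exact (hg q.1).1

theorem hq_of_I (hg : ∀ n, Gt Φ τ t (f n) (Sf n)) {E E' : Ext Φ A τ t} (hI : E.I = E'.I)
    (q : Qy Φ A) (hs : ∀ a ∈ sup Sf q, E.ι a = E'.ι a) : hq f E q ↔ hq f E' q := by
  rcases q with ⟨a, b, d⟩ | ⟨n, m⟩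
  · show D Φ E.I (E.ι a) (E.ι b) = d.1 ↔ D Φ E'.I (E'.ι a) (E'.ι b) = d.1
    rw [hI, hs a (Or.inl rfl), hs b (Or.inr rfl)]
  · exact ⟨many_of_I (hg n) E E' hI hs, many_of_I (hg n) E' E hI.symm fun a ha => (hs a ha).symm⟩

/-- compactness -/
theorem lim_ext (hΦ : Gd Φ) (hg : ∀ n, Gt Φ τ t (f n) (Sf n)) (E E' : Ext Φ A τ t)
    (h : ∀ F : Finset (Qy Φ A), ∃ E1 : Ext Φ A τ t, E1.I = E'.I ∧
      ∀ q ∈ F, (hq f E1 q ↔ hq f E q)) :
    ∃ E1 : Ext Φ A τ t, E1.I = E'.I ∧ ∀ q, (hq f E1 q ↔ hq f E q) := by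
  classical
  choose G hG1 hG2 using h
  let U : Ultrafilter (Finset (Qy Φ A)) := Ultrafilter.of atTop
  have hU : ∀ q : Qy Φ A, ∀ᶠ F in (U : Filter (Finset (Qy Φ A))), q ∈ F := by
    intro q
    have h1 : ∀ᶠ F in (atTop : Filter (Finset (Qy Φ A))), q ∈ F := by
      filter_upwards [eventually_ge_atTop ({q} : Finset (Qy Φ A))] with F hF
      exact hF (Finset.mem_singleton_self q)
    exact (Ultrafilter.of_le atTop) h1
  have hfin : ∀ a, {x | D Φ E'.I x x = τ a}.Finite := by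
    intro a
    have h1 : {x | D Φ E'.I x x = τ a} ⊆ E'.ι '' {b | τ b = τ a} := by
      intro x hx
      have hx' : D Φ E'.I x x = τ a := hx
      have h2 : Alg E'.I x := by
        rw [alg_iff hΦ, hx', ← E'.ty a, ← alg_iff hΦ]
        exact (E'.rng _).2 ⟨a, rfl⟩
      obtain ⟨b, hb⟩ := (E'.rng x).1 h2
      refine ⟨b, ?_, hb⟩
      show τ b = τ a
      rw [← E'.ty b, hb, hx']
    exact ((fin_fib hΦ E a).image _).subset h1
  have hlim : ∀ a, ∃ x, ∀ᶠ F in (U : Filter (Finset (Qy Φ A))), (G F).ι a = x := by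
    intro a
    have h1 : ∀ᶠ F in (U : Filter (Finset (Qy Φ A))),
        ∃ x ∈ {x | D Φ E'.I x x = τ a}, (G F).ι a = x :=
      Eventually.of_forall fun F => ⟨(G F).ι a, by
        have := (G F).ty a
        rw [hG1] at this
        exact this, rfl⟩
    obtain ⟨x, -, hx⟩ := (Ultrafilter.eventually_exists_mem_iff (hfin a)).1 h1
    exact ⟨x, hx⟩
  choose ι hι using hlim
  have hS : ∀ S : Set A, S.Finite → ∀ᶠ F in (U : Filter (Finset (Qy Φ A))),
      ∀ a ∈ S, (G F).ι a = ι a := fun S hS =>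
    (Filter.eventually_all_finite hS).2 fun a _ => hι a
  let E1 : Ext Φ A τ t :=
    { I := E'.I
      hI := E'.hI
      ι := ι
      inj := by
        intro a b hab
        obtain ⟨F, h1, h3⟩ := ((hι a).and (hι b)).exists
        exact (G F).inj (by rw [h1, h3, hab])
      rng := by
        intro x
        constructor
        · intro hx
          have h1 : ∀ᶠ F in (U : Filter (Finset (Qy Φ A))),
              ∃ a ∈ {a | τ a = D Φ E'.I x x}, (G F).ι a = x := by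
            refine Eventually.of_forall fun F => ?_
            have h3 := (G F).rng x
            rw [hG1] at h3
            obtain ⟨a, ha⟩ := h3.1 hx
            refine ⟨a, ?_, ha⟩
            have h4 := (G F).ty a
            rw [ha, hG1] at h4
            exact h4.symm
          obtain ⟨a0, ha0⟩ := (E'.rng x).1 hx
          have h5 : {a | τ a = D Φ E'.I x x}.Finite := by
            rw [← ha0, E'.ty]
            exact fin_fib hΦ E a0
          obtain ⟨a, -, ha⟩ := (Ultrafilter.eventually_exists_mem_iff h5).1 h1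
          obtain ⟨F, h6, h7⟩ := (ha.and (hι a)).exists
          exact ⟨a, by rw [← h7, h6]⟩
        · rintro ⟨a, rfl⟩
          obtain ⟨F, h1⟩ := (hι a).exists
          have h3 := (G F).rng (ι a)
          rw [hG1] at h3
          exact h3.2 ⟨a, h1⟩
      ty := by
        intro a
        obtain ⟨F, h1⟩ := (hι a).exists
        have h3 := (G F).ty a
        rw [hG1, h1] at h3
        exact h3
      th := E'.th }
  refine ⟨E1, rfl, fun q => ?_⟩
  obtain ⟨F, h1, h3⟩ := ((hS _ (sup_fin hg q)).and (hU q)).exists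
  have h4 : hq f E1 q ↔ hq f (G F) q :=
    hq_of_I hg (E := E1) (E' := G F) (hG1 F).symm q fun a ha => (h1 a ha).symm
  exact h4.trans (hG2 F q h3)

/-- the invariant -/
def Jv (τ : A → Dat L) (t : C2 L → ℕ∞) (f : ℕ → VC (ar (Φ := Φ) (A := A)) × ℕ) (c : Code L)
    (r : Finset (Qy Φ A × Bool)) : Prop :=
  ∃ E : Ext Φ A τ t, E.I = toI c ∧ ∀ p ∈ r, (hq f E p.1 ↔ p.2 = true)

theorem data_of_Jv [∀ n, Countable (L.Relations n)] [Countable A] (hΦ : Gd Φ)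
    (hP : ¬ PerfK {c : Code L | toI c ∈ Md Φ}) (hg : ∀ n, Gt Φ τ t (f n) (Sf n))
    (hf : ∀ (E : Ext Φ A τ t) (x : ℕ), ∃ n, CEq (nE E univ) x
        (Pool.Agent.H623R2.VE.toI (f n).1) (f n).2)
    {c c' : Code L} (hc : Jv τ t f c ∅) (h : ∀ r, Jv τ t f c r → Jv τ t f c' r) :
    ∃ ψ : ℕ ≃ ℕ, ∀ i j, D Φ (toI c) i j = D Φ (toI c') (ψ i) (ψ j) := by
  classical
  have hal := al_countable (L := L) (Φ := Φ) hP
  have := hal.to_subtype
  obtain ⟨E, hE, -⟩ := hc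
  obtain ⟨E', hE', -⟩ := h ∅ ⟨E, hE, fun p hp => absurd hp (by simp)⟩
  obtain ⟨E1, h1, h3⟩ := lim_ext hΦ hg E E' fun F => by
    obtain ⟨E2, h4, h5⟩ := h (F.image fun q => (q, decide (hq f E q))) ⟨E, hE, by
      intro p hp
      obtain ⟨q, -, rfl⟩ := Finset.mem_image.1 hp
      simp only [decide_eq_true_eq]⟩
    refine ⟨E2, by rw [h4, hE'], fun q hq' => ?_⟩
    have h6 := h5 (q, decide (hq f E q)) (Finset.mem_image_of_mem _ hq')
    simpa only [decide_eq_true_eq] using h6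
  have hG := glue_of_profile f (c := Pool.Agent.H623R2.VE.ofI (nE E univ))
    (c' := Pool.Agent.H623R2.VE.ofI (nE E1 univ)) (fun b => by
      rw [Pool.Agent.H623R2.VE.toI_ofI]
      exact hf E b) (fun b => by
      rw [Pool.Agent.H623R2.VE.toI_ofI]
      exact hf E1 b) fun q => (h3 (.inr q)).symm
  rw [Pool.Agent.H623R2.VE.toI_ofI, Pool.Agent.H623R2.VE.toI_ofI] at hG
  obtain ⟨ψ, hψ⟩ := glue_data hΦ hP E E1 (fun a b => by
    have h7 := (h3 (.inl (a, b, ⟨_, al_dat E.hI (E.ι a) (E.ι b)⟩))).2 rfl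
    exact h7.symm) hG
  refine ⟨ψ, fun i j => ?_⟩
  rw [← hE, ← hE', ← h1]
  exact hψ i j

/-- transport of enumerations along isomorphisms -/
theorem ext_iso {c c' : Code L} (φ : ℕ ≃ ℕ)
    (hφ : ∀ n (R : L.Relations n) (s : Fin n → ℕ), c ⟨n, R, s⟩ = c' ⟨n, R, fun k => φ (s k)⟩)
    (hΦ : Gd Φ) (E : Ext Φ A τ t) (hE : E.I = toI c) :
    ∃ E' : Ext Φ A τ t, E'.I = toI c' ∧ (∀ a, E'.ι a = φ (E.ι a)) := by
  obtain ⟨I, hI, ι, inj, rng, ty, th⟩ := E
  dsimp only at hE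
  subst hE
  have hD : ∀ x y, D Φ (toI c) x y = D Φ (toI c') (φ x) (φ y) := fun x y =>
    dat_iso φ hφ (subs Φ) x y
  refine ⟨⟨toI c', fun x y => ?_, fun a => φ (ι a), fun a b h => inj (φ.injective h),
    fun x => ?_, fun a => ?_, fun θ hθ => ?_⟩, rfl, fun _ => rfl⟩
  · obtain ⟨x, rfl⟩ := φ.surjective x
    obtain ⟨y, rfl⟩ := φ.surjective y
    exact (Rl_iso φ hφ Φ x y).1 (hI x y)
  · obtain ⟨x, rfl⟩ := φ.surjective x
    rw [alg_iff hΦ, ← hD, ← alg_iff hΦ, rng]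
    exact exists_congr fun a => φ.injective.eq_iff.symm
  · rw [← hD, ty]
  · rw [← lab_dg hΦ hθ (toI c') (φ 0) (φ 0) false, ← hD, lab_dg hΦ hθ]
    exact th θ hθ

theorem giso_nE {c c' : Code L} (φ : ℕ ≃ ℕ)
    (hφ : ∀ n (R : L.Relations n) (s : Fin n → ℕ), c ⟨n, R, s⟩ = c' ⟨n, R, fun k => φ (s k)⟩)
    (hΦ : Gd Φ) {E E' : Ext Φ A τ t} (hE : E.I = toI c) (hE' : E'.I = toI c')
    (hι : ∀ a, E'.ι a = φ (E.ι a)) : GIso (nE E univ) (nE E' univ) := by
  have hD : ∀ x y, D Φ E.I x y = D Φ E'.I (φ x) (φ y) := fun x y => by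
    rw [hE, hE']
    exact dat_iso φ hφ (subs Φ) x y
  have hA : ∀ x, Alg E'.I (φ x) ↔ Alg E.I x := fun x => by
    rw [alg_iff hΦ, ← hD, ← alg_iff hΦ]
  refine ⟨φ, fun i s => ?_⟩
  rcases i with d | p | d
  · show (¬ Alg E.I _ ∧ D Φ E.I _ _ = _) ↔ (¬ Alg E'.I (φ _) ∧ D Φ E'.I (φ _) (φ _) = _)
    rw [hA, hD]
  · show (¬ Alg E.I _ ∧ _ ∧ D Φ E.I _ _ = _) ↔
      (¬ Alg E'.I (φ _) ∧ _ ∧ D Φ E'.I (φ _) (E'.ι p.1) = _)
    rw [hA, hD, hι]
  · show (¬ Alg E.I _ ∧ ¬ Alg E.I _ ∧ s (0 : Fin 2) ≠ s (1 : Fin 2) ∧ _ ∧ D Φ E.I _ _ = _) ↔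
      (¬ Alg E'.I (φ _) ∧ ¬ Alg E'.I (φ _) ∧ φ (s (0 : Fin 2)) ≠ φ (s (1 : Fin 2)) ∧ _ ∧
        D Φ E'.I (φ _) (φ _) = _)
    rw [hA, hA, hD, φ.injective.ne_iff]

theorem Jv_iso (hΦ : Gd Φ) {c c' : Code L} (h : Iso c c') (r : Finset (Qy Φ A × Bool))
    (hJ : Jv τ t f c r) : Jv τ t f c' r := by
  obtain ⟨φ, hφ⟩ := h
  obtain ⟨E, hE, hr⟩ := hJ
  obtain ⟨E', hE', hι⟩ := ext_iso φ hφ hΦ E hE
  refine ⟨E', hE', fun p hp => ?_⟩
  rw [← hr p hp]
  have hD : ∀ x y, D Φ E.I x y = D Φ E'.I (φ x) (φ y) := fun x y => by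
    rw [hE, hE']
    exact dat_iso φ hφ (subs Φ) x y
  have hG := giso_nE φ hφ hΦ hE hE' hι
  obtain ⟨q, b⟩ := p
  rcases q with ⟨a, b', d⟩ | q
  · show D Φ E'.I (E'.ι a) (E'.ι b') = d.1 ↔ D Φ E.I (E.ι a) (E.ι b') = d.1
    rw [hι, hι, ← hD]
  · have hG' : GIso (Pool.Agent.H623R2.VE.toI (Pool.Agent.H623R2.VE.ofI (nE E univ)))
        (Pool.Agent.H623R2.VE.toI (Pool.Agent.H623R2.VE.ofI (nE E' univ))) := by
      rw [Pool.Agent.H623R2.VE.toI_ofI, Pool.Agent.H623R2.VE.toI_ofI]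
      exact hG
    exact ⟨many_iso f hG'.symm q, many_iso f hG' q⟩

end Pool.Agent.Y558.C2
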