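import Pool.Agent.Y558.C2.Cor

set_option autoImplicit false
set_option linter.unusedVariables false
set_option linter.unusedSectionVars false

/-! Countably many component types. -/

namespace Pool.Agent.Y558.C2

open FirstOrder Set Filter MeasureTheory
open Pool.Agent.H565R2.FO2 (pick pick_false pick_true pick_self pick_pick Interp Code toI ofI
  toI_ofI Iso bool_fun_cases perfect_of_uncountable)
open Pool.Agent.H565R2.CO (C2 Rl subs mem_subs subs_countable subs_trans Dat lab mkd dat ev ev_dat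
  Md dat_map dat_not map_not_not mkd_l mkI Coh mkI_iff mkd_mkI Rl_iso dat_f dat_t dat_iso Al al_dat
  KI code code_inj meas_code meas_Rl meas_Md)
open Pool.Agent.H565R2.LO2 (PerfK perfK_of_inv iso_symm)
open Pool.Agent.H623R2.VE (Adj Conn CIso CEq pull pull_ciso GIso CovE Cov Pw Perf)

variable {L : FirstOrder.Language.{0, 0}} {Φ : C2 L}
variable {A : Type} {τ : A → Dat L} {t : C2 L → ℕ∞}

/-- Bijections preserving the data and the elements named by `S` preserve component types. -/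
theorem ceq_of_map (E E' : Ext Φ A τ t) (S : Set A) (f : ℕ ≃ ℕ)
    (hD : ∀ i j, D Φ E.I i j = D Φ E'.I (f i) (f j)) (hA : ∀ x, Alg E.I x ↔ Alg E'.I (f x))
    (hS : ∀ a ∈ S, f (E.ι a) = E'.ι a) (z : NA E) (z' : NA E') (hz : f z.1 = z'.1) :
    CEq (nN E S) z (nN E' S) z' := by
  let F : NA E → NA E' := fun z => ⟨f z.1, fun h => z.2 ((hA z.1).2 h)⟩
  have hF : Function.Injective F := fun z z' h => Subtype.ext (f.injective (congrArg Subtype.val h))
  have h := pull_ciso (nN E' S) F hF (fun u x _ => by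
    obtain ⟨y, hy⟩ := f.surjective x.1
    refine ⟨⟨y, fun h => x.2 (hy ▸ (hA y).1 h)⟩, Subtype.ext hy⟩) z
  have e1 : pull (nN E' S) F = nN E S := by
    unfold nN
    rw [pull_nst F hF]
    funext i s
    apply propext
    rcases i with d | p | d
    · show (True ∧ D Φ E'.I (f _) (f _) = _) ↔ (True ∧ D Φ E.I _ _ = _)
      rw [hD]
    · show (True ∧ p.1 ∈ S ∧ D Φ E'.I (f _) (E'.ι p.1) = _) ↔ (True ∧ p.1 ∈ S ∧ D Φ E.I _ _ = _)
      refine and_congr_right fun _ => and_congr_right fun hp => ?_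
      rw [hD, hS _ hp]
    · show (True ∧ True ∧ _ ∧ _ ∧ D Φ E'.I (f _) (f _) = _) ↔
        (True ∧ True ∧ _ ∧ _ ∧ D Φ E.I _ _ = _)
      rw [hD]
  rw [e1] at h
  have h3 := CEq.of_ciso h
  have e2 : F z = z' := Subtype.ext hz
  rwa [e2] at h3

section
variable [∀ n, Countable (L.Relations n)] [Countable A] (hΦ : Gd Φ)
  (hP : ¬ PerfK {c : Code L | toI c ∈ Md Φ}) {E0 : Ext Φ A τ t} {S : Set A} (hS : Sat τ S)
  {g : ℕ → Equiv.Perm A} (hg : ∀ k a, τ (g k a) = τ a)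
  (hgi : ∀ a b, τ b = τ a → {k | g k a = b}.Infinite) {e : ℕ ≃ A ⊕ (ℕ × ℕ)}

include hΦ in
/-- an isomorphism of canonical codes permutes the algebraic elements -/
theorem iso_alg {c c' : Code L} (hc : Cn E0 S g e c) (hc' : Cn E0 S g e c') (f : ℕ ≃ ℕ)
    (hD : ∀ i j, D Φ (toI c) i j = D Φ (toI c') (f i) (f j)) :
    ∃ h : Equiv.Perm A, (∀ a, τ (h a) = τ a) ∧ ∀ a, f (e.symm (.inl a)) = e.symm (.inl (h a)) := by
  have hA : ∀ x, Alg (toI c) x ↔ Alg (toI c') (f x) := by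
    intro x
    rw [alg_iff hΦ, alg_iff hΦ, hD]
  have h1 : ∀ a, ∃ b, f (e.symm (.inl a)) = e.symm (.inl b) := by
    intro a
    have h2 := (hA (e.symm (.inl a))).1 (((extc hΦ hc).rng _).2 ⟨a, rfl⟩)
    obtain ⟨b, hb⟩ := ((extc hΦ hc').rng _).1 h2
    exact ⟨b, hb.symm⟩
  have h1' : ∀ b, ∃ a, f (e.symm (.inl a)) = e.symm (.inl b) := by
    intro b
    obtain ⟨x, hx⟩ := f.surjective (e.symm (.inl b))
    have h2 := (hA x).2 (hx ▸ ((extc hΦ hc').rng _).2 ⟨b, rfl⟩)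
    obtain ⟨a, ha⟩ := ((extc hΦ hc).rng _).1 h2
    have ha' : e.symm (.inl a) = x := ha
    exact ⟨a, by rw [ha', hx]⟩
  choose h hh using h1
  have hinj : Function.Injective h := by
    intro a b hab
    have := hh a
    rw [hab, ← hh b] at this
    exact Sum.inl_injective (e.symm.injective (f.injective this))
  have hsurj : Function.Surjective h := by
    intro b
    obtain ⟨a, ha⟩ := h1' b
    refine ⟨a, ?_⟩
    rw [hh a] at ha
    exact Sum.inl_injective (e.symm.injective ha)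
  refine ⟨Equiv.ofBijective h ⟨hinj, hsurj⟩, fun a => ?_, hh⟩
  have h3 := (extc hΦ hc').ty (h a)
  have h4 := (extc hΦ hc).ty a
  have h5 : D Φ (toI c') (e.symm (.inl (h a))) (e.symm (.inl (h a))) = τ (h a) := h3
  have h6 : D Φ (toI c) (e.symm (.inl a)) (e.symm (.inl a)) = τ a := h4
  show τ (h a) = τ a
  rw [← h5, ← h6, ← hh a, ← hD]

include hΦ in
theorem cov_of_iso {c c' : Code L} (hc : Cn E0 S g e c) (hc' : Cn E0 S g e c') (f : ℕ ≃ ℕ)
    (hD : ∀ i j, D Φ (toI c) i j = D Φ (toI c') (f i) (f j))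
    (hf : ∀ a ∈ S, f (e.symm (.inl a)) = e.symm (.inl a)) :
    Cov (n0 Φ e S c) (n0 Φ e S c') := by
  intro m
  have hA : ∀ x, Alg (toI c) x ↔ Alg (toI c') (f x) := by
    intro x
    rw [alg_iff hΦ, alg_iff hΦ, hD]
  have h1 := ceq_el hΦ hc 0 m
  let z' : NA (extc hΦ hc') := ⟨f (el hΦ hc 0 m).1, fun h => (el hΦ hc 0 m).2 ((hA _).2 h)⟩
  have h2 := ceq_of_map (extc hΦ hc) (extc hΦ hc') S f hD hA hf (el hΦ hc 0 m) z' rfl
  obtain ⟨k, n, hz⟩ := el_surj hΦ hc' z'
  have h3 := ceq_el hΦ hc' k n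
  rw [← hz] at h3
  exact ⟨n, (h1.trans h2).trans h3.symm⟩

include hΦ hP hS hg hgi in
theorem core_list (hal : (Al Φ).Countable) (h2 : ∀ n, 2 < n → IsEmpty (L.Relations n))
    (hfin : S.Finite) (E0 : Ext Φ A τ t) (e : ℕ ≃ A ⊕ (ℕ × ℕ)) :
    ∃ f : ℕ → VC (ar (Φ := Φ) (A := A)) × ℕ, ∀ c, Cn E0 S g e c → ∀ b,
      ∃ n, CEq (n0 Φ e S c) b (Pool.Agent.H623R2.VE.toI (f n).1) (f n).2 := by
  have := hal.to_subtype
  have hemb := emb_nmap (E0 := E0) (S := S) (g := g) (e := e) hΦ hP hal h2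
  have hK : MeasurableSet (Set.range (nmap Φ E0 S g e)) := hemb.measurableSet_range
  have hinv : ∀ N N' : VC (ar (Φ := Φ) (A := A)),
      GIso (Pool.Agent.H623R2.VE.toI N) (Pool.Agent.H623R2.VE.toI N') →
      N ∈ Set.range (nmap Φ E0 S g e) → N' ∈ Set.range (nmap Φ E0 S g e) := by
    rintro _ N' ⟨σ, hσ⟩ ⟨c, rfl⟩
    rw [toI_nmap] at hσ
    obtain ⟨c', h1, h3⟩ := nmap_inv hΦ c.2 N' σ hσ
    refine ⟨⟨c', h1⟩, ?_⟩
    unfold nmap
    rw [h3]
    exact Pool.Agent.H623R2.VE.ofI_toI _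
  have hpw : ∀ N ∈ Set.range (nmap Φ E0 S g e),
      Pool.Agent.H623R2.VE.ofI (Pw (Pool.Agent.H623R2.VE.toI N)) ∈
        Set.range (nmap Φ E0 S g e) := by
    rintro _ ⟨c, rfl⟩
    obtain ⟨c', h1, h3⟩ := nmap_pw hΦ hP hS hg hgi c.2
    refine ⟨⟨c', h1⟩, ?_⟩
    unfold nmap
    rw [h3, Pool.Agent.H623R2.VE.toI_ofI]
  by_cases hPf : Perf CovE (Set.range (nmap Φ E0 S g e))
  · exfalso
    apply hP
    obtain ⟨f, hf1, hf2, hf3⟩ := hPf
    let F : (ℕ → Bool) → ↥{c : Code L | Cn E0 S g e c} := fun x =>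
      Set.rangeSplitting (nmap Φ E0 S g e) ⟨f x, hf2 x⟩
    have hFm : Measurable F :=
      hemb.measurable_rangeSplitting.comp (hf1.measurable.subtype_mk)
    have hF : ∀ x, nmap Φ E0 S g e (F x) = f x := fun x =>
      Set.apply_rangeSplitting (nmap Φ E0 S g e) ⟨f x, hf2 x⟩
    refine perfK_of_countable (fun x => (F x).1) (measurable_subtype_coe.comp hFm)
      (fun x => (F x).2.m) fun x => ?_
    have hex : ∀ y : {y | Iso (F x).1 (F y).1}, ∃ (φ : ℕ ≃ ℕ) (h : Equiv.Perm A),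
        (∀ i j, D Φ (toI (F x).1) i j = D Φ (toI (F y).1) (φ i) (φ j)) ∧
        (∀ a, τ (h a) = τ a) ∧ ∀ a, φ (e.symm (.inl a)) = e.symm (.inl (h a)) := by
      rintro ⟨y, φ, hφ⟩
      have hD : ∀ i j, D Φ (toI (F x).1) i j = D Φ (toI (F y).1) (φ i) (φ j) := fun i j =>
        dat_iso φ hφ (subs Φ) i j
      obtain ⟨h, h1, h3⟩ := iso_alg hΦ (F x).2 (F y).2 φ hD
      exact ⟨φ, h, hD, h1, h3⟩
    choose φ h hD h1 h3 using hex
    have hfinS : Finite S := hfin.to_subtype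
    have hinj : Function.Injective
        (fun (y : {y | Iso (F x).1 (F y).1}) (a : S) => h y a.1) := by
      intro y y' hyy
      apply Subtype.ext
      apply hf3
      have key : ∀ y y' : {y | Iso (F x).1 (F y).1}, (∀ a : S, h y a.1 = h y' a.1) →
          Cov (Pool.Agent.H623R2.VE.toI (f y.1)) (Pool.Agent.H623R2.VE.toI (f y'.1)) := by
        intro y y' hyy
        rw [← hF, ← hF, toI_nmap, toI_nmap]
        refine cov_of_iso hΦ (F y.1).2 (F y'.1).2 ((φ y).symm.trans (φ y')) (fun i j => ?_)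
          (fun b hb => ?_)
        · have e1 := hD y ((φ y).symm i) ((φ y).symm j)
          have e2 := hD y' ((φ y).symm i) ((φ y).symm j)
          simp only [Equiv.apply_symm_apply] at e1
          rw [← e1, e2]
          rfl
        · have hb' : (h y).symm b ∈ S := by
            have e1 := h1 y ((h y).symm b)
            rw [Equiv.apply_symm_apply] at e1
            exact (hS _ _ e1).1 hb
          have e3 : (φ y).symm (e.symm (.inl b)) = e.symm (.inl ((h y).symm b)) := by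
            rw [Equiv.symm_apply_eq, h3, Equiv.apply_symm_apply]
          show (φ y') ((φ y).symm (e.symm (.inl b))) = _
          rw [e3, h3, ← hyy ⟨_, hb'⟩]
          simp only [Equiv.apply_symm_apply]
      have h5 : ∀ a : S, h y a.1 = h y' a.1 := fun a => congrFun hyy a
      exact ⟨key y y' h5, key y' y fun a => (h5 a).symm⟩
    have : Countable (S → A) := inferInstance
    exact hinj.countable
  · obtain ⟨f, hf⟩ := Pool.Agent.H623R2.VE.core hK hinv hpw hPf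
    refine ⟨f, fun c hc b => ?_⟩
    obtain ⟨n, hn⟩ := hf _ ⟨⟨c, hc⟩, rfl⟩ b
    rw [toI_nmap] at hn
    exact ⟨n, hn⟩

end

/-- There are only countably many types of components, with decorations over a finite set of
algebraic elements. -/
theorem comp_list [∀ n, Countable (L.Relations n)] [Countable A] (hΦ : Gd Φ)
    (hP : ¬ PerfK {c : Code L | toI c ∈ Md Φ}) {S : Set A} (hS : Sat τ S)
    (h2 : ∀ n, 2 < n → IsEmpty (L.Relations n)) (hfin : S.Finite) :
    ∃ f : ℕ → VC (ar (Φ := Φ) (A := A)) × ℕ, ∀ (E : Ext Φ A τ t) (z : NA E),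
      ∃ n, CEq (nN E S) z (Pool.Agent.H623R2.VE.toI (f n).1) (f n).2 := by
  have hal := al_countable (L := L) (Φ := Φ) hP
  rcases isEmpty_or_nonempty (Ext Φ A τ t) with hE | ⟨⟨E0⟩⟩
  · exact ⟨fun _ => (fun _ _ => false, 0), fun E => hE.elim E⟩
  · obtain ⟨g, hg, hgi⟩ := exists_gk τ
    obtain ⟨e⟩ := exists_code_equiv (A := A) (W := ℕ × ℕ)
    obtain ⟨f, hf⟩ := core_list hΦ hP hS hg hgi hal h2 hfin E0 e
    refine ⟨f, fun E z => ?_⟩
    have : Nonempty (NA E) := ⟨z⟩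
    obtain ⟨ν⟩ : Nonempty (ℕ ≃ ℕ × NA E) := nonempty_equiv_of_countable
    have h1 := ceq_can (e := e) hΦ hP (E0 := E0) hS hg hgi E ν 0 z
    obtain ⟨n, hn⟩ := hf _ (can_cn hΦ hP E0 hS hg hgi e E ν) (ν.symm (0, z))
    exact ⟨n, h1.trans hn⟩

end Pool.Agent.Y558.C2
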