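import Pool.Agent.Y558.C2.Bld
import Pool.Agent.H566W.Ana

set_option autoImplicit false
set_option linter.unusedVariables false

/-! Models from blueprints; perfect sets from families with countable classes. -/

namespace Pool.Agent.Y558.C2

open FirstOrder Set Filter MeasureTheory
open Pool.Agent.H565R2.FO2 (pick pick_false pick_true pick_self pick_pick Interp Code toI ofI
  toI_ofI Iso bool_fun_cases perfect_of_uncountable)
open Pool.Agent.H565R2.CO (C2 Rl subs mem_subs subs_countable subs_trans Dat lab mkd dat ev ev_dat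
  Md dat_map dat_not map_not_not mkd_l mkI Coh mkI_iff mkd_mkI Rl_iso)
open Pool.Agent.H565R2.LO2 (PerfK perfK_of_inv iso_symm)

variable {L : FirstOrder.Language.{0, 0}} {Φ : C2 L}

theorem ev_Φ {I : Interp L ℕ} (hI : I ∈ Md Φ) (x y : ℕ) : ev Φ (D Φ I x y) :=
  (ev_dat I (subs Φ) Φ subset_rfl x y).2 (hI x y)

theorem lab_Φ {I : Interp L ℕ} (hI : I ∈ Md Φ) (x y : ℕ) (b c : Bool) :
    (D Φ I x y).l b c Φ = ⊤ := by
  show Pool.Agent.H565R2.CO.lab I (subs Φ) (pick x y b) c Φ = _
  unfold Pool.Agent.H565R2.CO.lab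
  rw [if_pos (mem_subs Φ)]
  cases c
  · show Set.encard {z | Rl I Φ z _} = _
    have : {z | Rl I Φ z (pick x y b)} = univ := eq_univ_of_forall fun z => hI _ _
    rw [this, Set.encard_eq_top_iff]
    exact infinite_univ
  · show Set.encard {z | Rl I Φ _ z} = _
    have : {z | Rl I Φ (pick x y b) z} = univ := eq_univ_of_forall fun z => hI _ _
    rw [this, Set.encard_eq_top_iff]
    exact infinite_univ

theorem lab_zero {I : Interp L ℕ} {ψ : C2 L} (hψ : ψ ∉ subs Φ) (x y : ℕ) (b c : Bool) :
    (D Φ I x y).l b c ψ = 0 := by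
  show Pool.Agent.H565R2.CO.lab I (subs Φ) (pick x y b) c ψ = _
  unfold Pool.Agent.H565R2.CO.lab
  rw [if_neg hψ]

/-- two data of pairs of models agree if the same formulas hold -/
theorem D_ext (hΦ : Gd Φ) {I I' : Interp L ℕ} (hI : I ∈ Md Φ) (hI' : I' ∈ Md Φ) {x y x' y' : ℕ}
    (h : ∀ ψ ∈ fo, (Rl I ψ x y ↔ Rl I' ψ x' y')) : D Φ I x y = D Φ I' x' y' := by
  have h1 : ∀ ψ ∈ fo, ∀ b c : Bool, (D Φ I x y).l b c ψ = (D Φ I' x' y').l b c ψ := by
    intro ψ hψ b c
    apply Pool.Agent.H565R2.CO.enat_ext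
    intro n
    have hq : ∃ χ ∈ fo, ∀ (I : Interp L ℕ) (x y : ℕ), (Rl I χ x y ↔
        (n : ℕ∞) ≤ Set.encard {z | Rl I ψ (cond c (pick x y b) z) (cond c z (pick x y b))}) := by
      cases b <;> cases c
      · -- first element, solutions on the left: `ψ(z, x)`
        refine ⟨dg0 (.ex false n ψ), fo_dg0 (fo_ex _ _ hψ), fun I x y => ?_⟩
        rw [Rl_dg0]
        exact Iff.rfl
      · exact ⟨.ex true n ψ, fo_ex _ _ hψ, fun I x y => Iff.rfl⟩
      · exact ⟨.ex false n ψ, fo_ex _ _ hψ, fun I x y => Iff.rfl⟩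
      · refine ⟨dg (.ex true n ψ), fo_dg (fo_ex _ _ hψ), fun I x y => ?_⟩
        rw [Rl_dg]
        exact Iff.rfl
    obtain ⟨χ, hχ, hχ2⟩ := hq
    rw [hΦ.lab hψ, hΦ.lab hψ, ← hχ2, ← hχ2]
    exact h χ hχ
  apply Dat.ext'
  · have h2 := h _ (fo_eq false true)
    exact h2
  · intro n R v
    exact h _ (fo_rel R v)
  · intro b c ψ
    by_cases hψ : ψ ∈ subs Φ
    · rcases hΦ.sub_fo hψ with rfl | hf
      · rw [lab_Φ hI, lab_Φ hI']
      · exact h1 ψ hf b c
    · rw [lab_zero hψ, lab_zero hψ]

namespace Bp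

variable {A : Type} {τ : A → Dat L} {t : C2 L → ℕ∞} {W : Type} (P : Bp Φ A τ t W)

theorem diag (v : A ⊕ W) : ∃ I ∈ Md Φ, ∃ x, P.Δ v v = D Φ I x x := by
  rcases v with a | u
  · exact ⟨_, P.B.hI, _, rfl⟩
  · exact ⟨_, (P.E u).hI, _, P.d0 u⟩

theorem ev_Δ (v w : A ⊕ W) : ev Φ (P.Δ v w) := by
  rcases v with a | u <;> rcases w with b | w
  · exact ev_Φ P.B.hI _ _
  · exact ev_Φ (P.E w).hI _ _
  · exact ev_Φ (P.E u).hI _ _
  · exact P.dΦ u w

theorem model (hΦ : Gd Φ) (hR : P.Rich) (e : ℕ ≃ A ⊕ W) :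
    (mkI fun i j => P.Δ (e i) (e j)) ∈ Md Φ ∧
      ∀ i j, D Φ (mkI fun i j => P.Δ (e i) (e j)) i j = P.Δ (e i) (e j) := by
  have hc : Coh fun i j => P.Δ (e i) (e j) := by
    refine ⟨fun u w σ => ?_, fun u w => ?_⟩
    · have := P.coh.map (e u) (e w) σ
      rw [← this]
      cases σ false <;> cases σ true <;> rfl
    · rw [P.coh.e]
      exact e.injective.eq_iff
  have key := crit (Φ := Φ) hc (fun u c ψ hψ => by
      obtain ⟨I, -, x, h⟩ := P.diag (e u)
      show (P.Δ (e u) (e u)).l false c ψ = 0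
      rw [h]
      exact lab_zero hψ _ _ _ _) (fun u w => P.ev_Δ _ _) (fun u c ψ hψ => by
      show (P.Δ (e u) (e u)).l false c ψ =
        Set.encard {w | ev ψ (cond c (P.Δ (e u) (e w)) (P.Δ (e w) (e u)))}
      have h1 : Set.encard {w | ev ψ (cond c (P.Δ (e u) (e w)) (P.Δ (e w) (e u)))} =
          Set.encard {v | ev ψ (cond c (P.Δ (e u) v) (P.Δ v (e u)))} := by
        have : {v | ev ψ (cond c (P.Δ (e u) v) (P.Δ v (e u)))} =
            e '' {w | ev ψ (cond c (P.Δ (e u) (e w)) (P.Δ (e w) (e u)))} := by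
          ext v
          obtain ⟨w, rfl⟩ := e.surjective v
          rw [e.injective.mem_set_image]
          exact Iff.rfl
        rw [this, e.injective.encard_image]
      rw [h1]
      rcases hΦ.sub_fo hψ with rfl | hf
      · obtain ⟨I, hI, x, h⟩ := P.diag (e u)
        rw [h, lab_Φ hI]
        symm
        rw [Set.encard_eq_top_iff]
        have h2 : {v | ev ψ (cond c (P.Δ (e u) v) (P.Δ v (e u)))} = univ := by
          refine eq_univ_of_forall fun v => ?_
          cases c
          · exact P.ev_Δ _ _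
          · exact P.ev_Δ _ _
        rw [h2]
        have : Infinite (A ⊕ W) := Infinite.of_injective e e.injective
        exact infinite_univ
      · rcases hv : e u with a | w
        · by_cases ht : (τ a).l false c ψ = ⊤
          · have h2 := hR.a a c ψ hf ht
            have h3 : P.Δ (.inl a) (.inl a) = τ a := P.B.ty a
            rw [h3, ht]
            exact (Set.encard_eq_top_iff.2 h2).symm
          · have h2 := P.finA hΦ a c hf ht
            have h3 : P.Δ (.inl a) (.inl a) = τ a := P.B.ty a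
            rw [h3]
            exact h2
        · by_cases ht : (P.δ w w).l false c ψ = ⊤
          · have h2 := hR.w w c ψ hf ht
            show (P.δ w w).l false c ψ = _
            rw [ht]
            exact (Set.encard_eq_top_iff.2 h2).symm
          · exact P.finW hΦ w c hf ht)
  exact ⟨fun x y => (key x y).1, fun i j => (key i j).2⟩

/-- Sufficient conditions for richness. -/
theorem rich (hΦ : Gd Φ)
    (h1 : ∀ u z, z ∉ P.N u → ¬ Alg (P.E u).I z → z ≠ P.x u →
      {w | P.δ u w = D Φ (P.E u).I (P.x u) z}.Infinite)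
    (h2 : ∀ z, ¬ Alg P.B.I z → ∀ a, {u | P.Δ (.inl a) (.inr u) = D Φ P.B.I (P.B.ι a) z}.Infinite) :
    P.Rich := by
  constructor
  · intro u c ψ hψ ht
    have h3 : (Sl (P.E u).I c ψ (P.x u)).Infinite := by
      rw [P.d0, hΦ.lab hψ] at ht
      rw [← Set.encard_eq_top_iff]
      exact ht
    by_cases h4 : Sl (P.E u).I c ψ (P.x u) ⊆ P.Dm u
    · have h5 : (P.G u '' Sl (P.E u).I c ψ (P.x u)).Infinite :=
        h3.image ((P.G_inj u).mono h4)
      refine h5.mono ?_
      rintro _ ⟨z, hz, rfl⟩
      cases c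
      · show ev ψ (P.Δ (P.G u z) (.inr u))
        rw [P.Δ_G' u (h4 hz)]
        exact (hΦ.ev hψ _ _ _).2 hz
      · show ev ψ (P.Δ (.inr u) (P.G u z))
        rw [P.Δ_G u (h4 hz)]
        exact (hΦ.ev hψ _ _ _).2 hz
    · rw [not_subset] at h4
      obtain ⟨z, hz, hzd⟩ := h4
      have h5 := h1 u z (fun h => hzd (Or.inr (Or.inr h))) (fun h => hzd (Or.inl h))
        (fun h => hzd (Or.inr (Or.inl h)))
      refine (h5.image (Sum.inr_injective (α := A)).injOn).mono ?_
      rintro _ ⟨w, hw, rfl⟩
      have hw' : P.δ u w = D Φ (P.E u).I (P.x u) z := hw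
      cases c
      · show ev ψ (P.δ w u)
        rw [P.dn u w, hw']
        show ev ψ ((dat _ _ _ _).map not)
        rw [dat_not]
        exact (hΦ.ev hψ _ _ _).2 hz
      · show ev ψ (P.δ u w)
        rw [hw']
        exact (hΦ.ev hψ _ _ _).2 hz
  · intro a c ψ hψ ht
    have h3 : (Sl P.B.I c ψ (P.B.ι a)).Infinite := by
      rw [← P.B.ty a, hΦ.lab hψ] at ht
      rw [← Set.encard_eq_top_iff]
      exact ht
    by_cases h4 : ∀ z ∈ Sl P.B.I c ψ (P.B.ι a), Alg P.B.I z
    · choose f hf using fun z : Sl P.B.I c ψ (P.B.ι a) => (P.B.rng z.1).1 (h4 z.1 z.2)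
      have hinj : Function.Injective f := by
        intro z z' h
        apply Subtype.ext
        rw [← hf z, ← hf z', h]
      have := h3.to_subtype
      have h5 : (range fun z => (Sum.inl (f z) : A ⊕ W)).Infinite :=
        infinite_range_of_injective (Sum.inl_injective.comp hinj)
      refine h5.mono ?_
      rintro _ ⟨z, rfl⟩
      have hz := z.2
      rw [← hf z] at hz
      cases c
      · exact (hΦ.ev hψ _ _ _).2 hz
      · exact (hΦ.ev hψ _ _ _).2 hz
    · push Not at h4
      obtain ⟨z, hz, hzd⟩ := h4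
      refine ((h2 z hzd a).image (Sum.inr_injective (α := A)).injOn).mono ?_
      rintro _ ⟨w, hw, rfl⟩
      have hw' : P.Δ (.inl a) (.inr w) = D Φ P.B.I (P.B.ι a) z := hw
      cases c
      · show ev ψ (P.Δ (.inr w) (.inl a))
        rw [P.Δ_not (.inl a) (.inr w), hw']
        show ev ψ ((dat _ _ _ _).map not)
        rw [dat_not]
        exact (hΦ.ev hψ _ _ _).2 hz
      · show ev ψ (P.Δ (.inl a) (.inr w))
        rw [hw']
        exact (hΦ.ev hψ _ _ _).2 hz

end Bp

/-! ### perfect sets -/

theorem analytic_iso [∀ n, Countable (L.Relations n)] {F : (ℕ → Bool) → Code L}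
    (hF : Continuous F) :
    AnalyticSet {p : (ℕ → Bool) × (ℕ → Bool) | Iso (F p.1) (F p.2)} := by
  let S : Set (((ℕ → Bool) × (ℕ → Bool)) × ((ℕ → ℕ) × (ℕ → ℕ))) :=
    {p | (∀ y, p.2.2 (p.2.1 y) = y) ∧ (∀ y, p.2.1 (p.2.2 y) = y) ∧
      ∀ (k : Σ n, L.Relations n × (Fin n → ℕ)), (F p.1.1 k = true ↔ ∃ w : Fin k.1 → ℕ,
        (∀ j, p.2.1 (k.2.2 j) = w j) ∧ F p.1.2 ⟨k.1, k.2.1, w⟩ = true)}
  have hev : ∀ y, Measurable fun p : ((ℕ → Bool) × (ℕ → Bool)) × ((ℕ → ℕ) × (ℕ → ℕ)) =>
      p.2.1 y := fun y =>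
    (measurable_pi_apply y).comp (measurable_fst.comp measurable_snd)
  have hev2 : ∀ y, Measurable fun p : ((ℕ → Bool) × (ℕ → Bool)) × ((ℕ → ℕ) × (ℕ → ℕ)) =>
      p.2.2 y := fun y =>
    (measurable_pi_apply y).comp (measurable_snd.comp measurable_snd)
  have hcoord : ∀ k, Measurable fun x : ℕ → Bool => F x k := fun k =>
    ((continuous_apply k).comp hF).measurable
  have hS : MeasurableSet S := by
    refine measurableSet_setOfPred.2 (Measurable.and ?_ (Measurable.and ?_ ?_))
    · refine Measurable.forall fun y => ?_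
      have e : (fun p : ((ℕ → Bool) × (ℕ → Bool)) × ((ℕ → ℕ) × (ℕ → ℕ)) =>
          p.2.2 (p.2.1 y) = y) = fun p => ∃ z : ℕ, p.2.1 y = z ∧ p.2.2 z = y := by
        funext p
        apply propext
        constructor
        · intro h
          exact ⟨_, rfl, h⟩
        · rintro ⟨z, rfl, h⟩
          exact h
      rw [e]
      refine Measurable.exists fun z => Measurable.and ?_ ?_
      · exact measurableSet_setOfPred.1 (hev y (measurableSet_singleton z))
      · exact measurableSet_setOfPred.1 (hev2 z (measurableSet_singleton y))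
    · refine Measurable.forall fun y => ?_
      have e : (fun p : ((ℕ → Bool) × (ℕ → Bool)) × ((ℕ → ℕ) × (ℕ → ℕ)) =>
          p.2.1 (p.2.2 y) = y) = fun p => ∃ z : ℕ, p.2.2 y = z ∧ p.2.1 z = y := by
        funext p
        apply propext
        constructor
        · intro h
          exact ⟨_, rfl, h⟩
        · rintro ⟨z, rfl, h⟩
          exact h
      rw [e]
      refine Measurable.exists fun z => Measurable.and ?_ ?_
      · exact measurableSet_setOfPred.1 (hev2 y (measurableSet_singleton z))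
      · exact measurableSet_setOfPred.1 (hev z (measurableSet_singleton y))
    · refine Measurable.forall fun k => Measurable.iff ?_ ?_
      · exact measurableSet_setOfPred.1 (((hcoord k).comp (measurable_fst.comp measurable_fst))
          (measurableSet_singleton true))
      · refine Measurable.exists fun w => Measurable.and ?_ ?_
        · refine Measurable.forall fun j => ?_
          exact measurableSet_setOfPred.1 (hev (k.2.2 j) (measurableSet_singleton (w j)))
        · exact measurableSet_setOfPred.1 (((hcoord _).comp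
            (measurable_snd.comp measurable_fst)) (measurableSet_singleton true))
  have h := hS.analyticSet_image (f := Prod.fst) measurable_fst
  have e1 : Prod.fst '' S = {p : (ℕ → Bool) × (ℕ → Bool) | Iso (F p.1) (F p.2)} := by
    ext p
    constructor
    · rintro ⟨⟨p', g, g'⟩, ⟨h1, h2, h3⟩, rfl⟩
      refine ⟨⟨g, g', h1, h2⟩, fun n R t => ?_⟩
      rw [Bool.eq_iff_iff]
      refine (h3 ⟨n, R, t⟩).trans ?_
      constructor
      · rintro ⟨w, hw, h⟩
        have : w = fun k => g (t k) := funext fun k => (hw k).symm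
        rw [this] at h
        exact h
      · intro h
        exact ⟨fun k => g (t k), fun k => rfl, h⟩
    · rintro ⟨g, hg⟩
      refine ⟨(p, g, g.symm), ⟨fun y => g.symm_apply_apply y, fun y => g.apply_symm_apply y,
        fun k => ?_⟩, rfl⟩
      obtain ⟨n, R, t⟩ := k
      have h0 := hg n R t
      rw [Bool.eq_iff_iff] at h0
      refine h0.trans ?_
      constructor
      · intro h
        exact ⟨fun k => g (t k), fun k => rfl, h⟩
      · rintro ⟨w, hw, h⟩
        have : w = fun k => g (t k) := funext fun k => (hw k).symm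
        rw [this] at h
        exact h
  rwa [e1] at h

theorem not_ct : ¬ (univ : Set (ℕ → Bool)).Countable := by
  intro h
  obtain ⟨f, hf⟩ := h.exists_eq_range ⟨fun _ => true, trivial⟩
  have h1 : (fun n => !(f n n)) ∈ range f := hf ▸ mem_univ _
  obtain ⟨n, hn⟩ := h1
  have h2 := congrFun hn n
  simp at h2

/-- A measurable family over the Cantor space in which every structure is isomorphic to countably
many others gives a perfect set. -/
theorem perfK_of_countable [∀ n, Countable (L.Relations n)] {K : Set (Code L)}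
    (F : (ℕ → Bool) → Code L) (hF : Measurable F) (hK : ∀ S, F S ∈ K)
    (hc : ∀ S, {S' | Iso (F S) (F S')}.Countable) : PerfK K := by
  obtain ⟨h, h1, h2⟩ := perfect_of_uncountable (Y := ℕ → Bool) F hF (ι := Unit)
    (Z := ℕ → Bool) (fun _ x => x) (fun _ => measurable_id) (fun y y' => y = y')
    (fun y y' h _ => ⟨(), h⟩) (by
      intro hcon
      have h3 : (⋃ _ : Unit, range fun x : ℕ → Bool => x) = univ := by
        ext x
        simp
      rw [h3] at hcon
      exact not_ct hcon)
  obtain ⟨g, hg1, hg2⟩ := Pool.Agent.H566W.perfect_independent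
    (fun x y => Iso (F (h x)) (F (h y))) (analytic_iso h1) (by
      intro x
      have hinj : Function.Injective h := by
        intro a b hab
        by_contra hne
        exact h2 a b hne hab
      exact (hc (h x)).preimage_of_injOn hinj.injOn)
  refine ⟨fun b => F (h (g b)), h1.comp hg1, fun x => hK _, fun x x' hi => ?_⟩
  by_contra hne
  exact hg2 x x' hne hi

end Pool.Agent.Y558.C2
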