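import Pool.Agent.Y558.C2.Sup

set_option autoImplicit false
set_option linter.unusedVariables false
set_option linter.unusedSectionVars false

/-! Fully decorated component types and gluing. -/

namespace Pool.Agent.Y558.C2

open FirstOrder Set Filter MeasureTheory
open Pool.Agent.H565R2.FO2 (pick pick_false pick_true pick_self pick_pick Interp Code toI ofI
  toI_ofI Iso bool_fun_cases perfect_of_uncountable)
open Pool.Agent.H565R2.CO (C2 Rl subs mem_subs subs_countable subs_trans Dat lab mkd dat ev ev_dat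
  Md dat_map dat_not map_not_not mkd_l mkI Coh mkI_iff mkd_mkI Rl_iso dat_f dat_t dat_iso Al al_dat
  KI code code_inj meas_code meas_Rl meas_Md)
open Pool.Agent.H565R2.LO2 (PerfK perfK_of_inv iso_symm)
open Pool.Agent.H623R2.VE (Adj Conn CIso CEq pull pull_ciso GIso CovE Cov Pw Perf)
open Pool.Agent.H579R3.VP (Many glue_of_profile)
open Relation (ReflTransGen)

variable {L : FirstOrder.Language.{0, 0}} {Φ : C2 L}
variable {A : Type} {τ : A → Dat L} {t : C2 L → ℕ∞}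

theorem conn_nN (E : Ext Φ A τ t) (S S' : Set A) {x y : NA E} (h : Conn (nN E S) x y) :
    Conn (nN E S') x y := (conn_iff E S' x y).2 ((conn_iff E S x y).1 h)

theorem not_sp {E : Ext Φ A τ t} {z y : NA E} {a : A} (ha : a ∉ Sp E z)
    (hy : ReflTransGen (nf E) z y) {b : A} (hb : τ b = τ a) :
    D Φ E.I y.1 (E.ι b) = D Φ E.I y.1 (E.ι a) := by
  by_contra h
  exact ha ⟨y, hy, b, hb, h⟩

theorem ciso_diag {E E' : Ext Φ A τ t} {S : Set A} {f : NA E → NA E'} {z y : NA E}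
    (hf : CIso (nN E S) (nN E' S) f z) (hy : Conn (nN E S) z y) :
    D Φ E.I y.1 y.1 = D Φ E'.I (f y).1 (f y).1 := by
  have h1 := (hf.rel (.inl ⟨_, al_dat E.hI y.1 y.1⟩) (fun _ => y) (fun _ => hy)).1
    ⟨trivial, rfl⟩
  exact h1.2.symm

theorem ciso_dec {E E' : Ext Φ A τ t} {S : Set A} {f : NA E → NA E'} {z y : NA E}
    (hf : CIso (nN E S) (nN E' S) f z) (hy : Conn (nN E S) z y) {a : A} (ha : a ∈ S) :
    D Φ E.I y.1 (E.ι a) = D Φ E'.I (f y).1 (E'.ι a) := by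
  have h1 := (hf.rel (.inr (.inl (a, ⟨_, al_dat E.hI y.1 (E.ι a)⟩))) (fun _ => y)
    (fun _ => hy)).1 ⟨trivial, ha, rfl⟩
  exact h1.2.2.symm

/-- the decorations over the support determine all decorations -/
theorem ceq_univ (hΦ : Gd Φ) {E E' : Ext Φ A τ t} {z : NA E} {z' : NA E'} {S : Set A}
    (h1 : Sp E z = S) (h2 : Sp E' z' = S) (h : CEq (nN E S) z (nN E' S) z') :
    CEq (nN E univ) z (nN E' univ) z' := by
  obtain ⟨f, hf, hc⟩ := h
  refine ⟨f, ⟨fun x y hx hy => hf.inj x y (conn_nN E _ _ hx) (conn_nN E _ _ hy),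
    fun x hx => conn_nN E' _ _ (hf.map x (conn_nN E _ _ hx)), fun y hy => ?_,
    fun i s hs => ?_⟩, conn_nN E' _ _ hc⟩
  · obtain ⟨x, hx, e⟩ := hf.surj y (conn_nN E' _ _ hy)
    exact ⟨x, conn_nN E _ _ hx, e⟩
  · have hs' : ∀ k, Conn (nN E S) z (s k) := fun k => conn_nN E _ _ (hs k)
    rcases i with d | ⟨a, d⟩ | d
    · exact hf.rel (.inl d) s hs'
    · have key : D Φ E.I (s (0 : Fin 1)).1 (E.ι a) = D Φ E'.I (f (s (0 : Fin 1))).1 (E'.ι a) := by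
        have hy := hs' (0 : Fin 1)
        by_cases ha : a ∈ S
        · exact ciso_dec hf hy ha
        · obtain ⟨g, hg1, hg2⟩ := deco hΦ E E' (ciso_diag hf hy)
          rw [← hg2 a]
          exact (not_sp (z := z) (by rw [h1]; exact ha) ((conn_iff E S _ _).1 hy) (hg1 a)).symm
      show (True ∧ a ∈ univ ∧ D Φ E.I (s (0 : Fin 1)).1 (E.ι a) = d.1) ↔
        (True ∧ a ∈ univ ∧ D Φ E'.I (f (s (0 : Fin 1))).1 (E'.ι a) = d.1)
      rw [key]
    · exact hf.rel (.inr (.inr d)) s hs'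

theorem Sp_ceq {E E' : Ext Φ A τ t} {z : NA E} {z' : NA E'}
    (h : CEq (nN E univ) z (nN E' univ) z') : Sp E z ⊆ Sp E' z' := by
  obtain ⟨f, hf, hc⟩ := h
  rintro a ⟨y, hy, b, hb, hne⟩
  have hy' := (conn_iff E univ _ _).2 hy
  refine ⟨f y, (conn_iff E' univ _ _).1 (hc.symm.trans (hf.map y hy')), b, hb, ?_⟩
  rw [← ciso_dec hf hy' (mem_univ a), ← ciso_dec hf hy' (mem_univ b)]
  exact hne

theorem Sp_eq_of_I {E E' : Ext Φ A τ t} (h : E.I = E'.I) {z : NA E} {z' : NA E'}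
    (hz : z.1 = z'.1) : Sp E z ⊆ Sp E' z' := by
  obtain ⟨I, hI, ι, inj, rng, ty, th⟩ := E
  obtain ⟨I', hI', ι', inj', rng', ty', th'⟩ := E'
  dsimp only at h
  subst h
  obtain rfl : z = z' := Subtype.ext hz
  rintro a ⟨y, hy, b, hb, hne⟩
  by_contra ha
  have hy' : ReflTransGen (nf (⟨I, hI', ι', inj', rng', ty', th'⟩ : Ext Φ A τ t)) z y := hy
  obtain ⟨b', hb'⟩ := (rng' (ι b)).1 ((rng (ι b)).2 ⟨b, rfl⟩)
  obtain ⟨a', ha'⟩ := (rng' (ι a)).1 ((rng (ι a)).2 ⟨a, rfl⟩)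
  have h1 : τ b' = τ a := by
    rw [← hb, ← ty', ← ty, hb']
  have h2 : τ a' = τ a := by
    rw [← ty', ← ty, ha']
  have h3 := not_sp ha hy' h1
  have h4 := not_sp ha hy' h2
  apply hne
  show D Φ I y.1 (ι b) = D Φ I y.1 (ι a)
  rw [← hb', ← ha']
  exact h3.trans h4.symm

/-- nonfree pairs of natural numbers -/
def nfe (I : Interp L ℕ) (Φ : C2 L) (x y : ℕ) : Prop :=
  ¬ Alg I x ∧ ¬ Alg I y ∧ x ≠ y ∧ ¬ Fr (D Φ I x y)

theorem conn_nE (E : Ext Φ A τ t) (S : Set A) (x y : ℕ) :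
    Conn (nE E S) x y ↔ ReflTransGen (nfe E.I Φ) x y := by
  constructor
  · intro h
    induction h with
    | refl => exact ReflTransGen.refl
    | @tail b c _ h ih =>
      rcases adj_nst h with h1 | h1
      · rw [← h1]
        exact ih
      · refine ih.tail ⟨h1.1, h1.2.1, h1.2.2.1, ?_⟩
        rcases h1.2.2.2 with h2 | h2
        · exact h2
        · exact fun h3 => h2 (fr_swap.2 h3)
  · intro h
    induction h with
    | refl => exact Conn.refl _ _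
    | @tail b c _ h ih =>
      refine ih.trans (ReflTransGen.single ?_)
      exact ⟨.inr (.inr ⟨_, al_dat E.hI b c⟩), (![b, c] : Fin 2 → ℕ),
        ⟨h.1, h.2.1, h.2.2.1, h.2.2.2, rfl⟩, ⟨(0 : Fin 2), rfl⟩, ⟨(1 : Fin 2), rfl⟩⟩

theorem conn_real {E : Ext Φ A τ t} {S : Set A} {x y : ℕ} (h : Conn (nE E S) x y)
    (hx : ¬ Alg E.I x) : ¬ Alg E.I y := by
  rw [conn_nE] at h
  rcases Relation.ReflTransGen.cases_tail h with h1 | ⟨c, -, h1⟩
  · rw [h1]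
    exact hx
  · exact h1.2.1

theorem conn_alg {E : Ext Φ A τ t} {S : Set A} {x y : ℕ} (h : Conn (nE E S) x y)
    (hx : Alg E.I x) : y = x := by
  rw [conn_nE] at h
  rcases Relation.ReflTransGen.cases_head h with h1 | ⟨c, h1, -⟩
  · exact h1.symm
  · exact absurd hx h1.1

theorem ceq_junk (E : Ext Φ A τ t) {x : ℕ} (hx : Alg E.I x) (N : VI (ar (Φ := Φ) (A := A)) ℕ)
    (hN : N = fun _ _ => False) : CEq (nE E univ) x N 0 := by
  subst hN
  refine ⟨fun _ => 0, ⟨fun u v hu hv _ => ?_, fun _ _ => Conn.refl _ _, fun y hy => ?_,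
    fun i s hs => ?_⟩, Conn.refl _ _⟩
  · rw [conn_alg hu hx, conn_alg hv hx]
  · refine ⟨x, Conn.refl _ _, ?_⟩
    rcases Relation.ReflTransGen.cases_head hy with h1 | ⟨c, ⟨i, s, h, -⟩, -⟩
    · exact h1
    · exact h.elim
  · refine ⟨fun h => ?_, fun h => h.elim⟩
    rcases i with d | p | d
    · exact h.1 (by rw [conn_alg (hs (0 : Fin 1)) hx]; exact hx)
    · exact h.1 (by rw [conn_alg (hs (0 : Fin 1)) hx]; exact hx)
    · exact h.1 (by rw [conn_alg (hs (0 : Fin 2)) hx]; exact hx)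

theorem alg_of_junk {E : Ext Φ A τ t} {x : ℕ} {N : VI (ar (Φ := Φ) (A := A)) ℕ}
    (hN : N = fun _ _ => False) (h : CEq (nE E univ) x N 0) : Alg E.I x := by
  subst hN
  obtain ⟨g, hg, -⟩ := h
  by_contra hx
  exact (hg.rel (.inl ⟨_, al_dat E.hI x x⟩) (fun _ => x) fun _ => Conn.refl _ _).1 ⟨hx, rfl⟩

/-- `S` is a support of the type `p` -/
def Gt (Φ : C2 L) (τ : A → Dat L) (t : C2 L → ℕ∞) (p : VC (ar (Φ := Φ) (A := A)) × ℕ)
    (S : Set A) : Prop :=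
  S.Finite ∧ ∀ (E E' : Ext Φ A τ t) (x : ℕ), E.I = E'.I → (∀ a ∈ S, E.ι a = E'.ι a) →
    CEq (nE E univ) x (Pool.Agent.H623R2.VE.toI p.1) p.2 →
    CEq (nE E' univ) x (Pool.Agent.H623R2.VE.toI p.1) p.2

theorem gt_junk : Gt Φ τ t (Pool.Agent.H623R2.VE.ofI (fun _ _ => False), 0) ∅ := by
  refine ⟨finite_empty, fun E E' x hI _ h => ?_⟩
  refine ceq_junk E' ?_ _ (Pool.Agent.H623R2.VE.toI_ofI _)
  rw [← hI]
  exact alg_of_junk (Pool.Agent.H623R2.VE.toI_ofI _) h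

theorem gt_rep [∀ n, Countable (L.Relations n)] [Countable A] (hΦ : Gd Φ)
    (hP : ¬ PerfK {c : Code L | toI c ∈ Md Φ}) (E1 : Ext Φ A τ t) (z1 : NA E1) :
    Gt Φ τ t (Pool.Agent.H623R2.VE.ofI (nE E1 univ), z1.1) (Sp E1 z1) := by
  refine ⟨Sp_finite hΦ hP E1 z1, fun E E' x hI hS h => ?_⟩
  simp only [Pool.Agent.H623R2.VE.toI_ofI] at h ⊢
  have hx : ¬ Alg E.I x := by
    obtain ⟨g, hg, hc⟩ := h.symm
    have h1 := (hg.rel (.inl ⟨_, al_dat E1.hI z1.1 z1.1⟩) (fun _ => z1.1)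
      fun _ => Conn.refl _ _).1 ⟨z1.2, rfl⟩
    exact conn_real hc h1.1
  let z : NA E := ⟨x, hx⟩
  let z' : NA E' := ⟨x, by rw [← hI]; exact hx⟩
  have h1 : CEq (nN E univ) z (nN E1 univ) z1 :=
    (ceq_nN E univ z).trans (h.trans (ceq_nN E1 univ z1).symm)
  have h2 : Sp E z = Sp E1 z1 := Subset.antisymm (Sp_ceq h1) (Sp_ceq h1.symm)
  have h3 : Sp E' z' = Sp E z :=
    Subset.antisymm (Sp_eq_of_I hI.symm rfl) (Sp_eq_of_I hI rfl)
  have h4 : CEq (nN E (Sp E1 z1)) z (nN E' (Sp E1 z1)) z' := by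
    refine ceq_of_map E E' _ (Equiv.refl ℕ) (fun i j => ?_) (fun x => ?_) (fun a ha => hS a ha)
      z z' rfl
    · rw [hI]
      rfl
    · rw [hI]
      rfl
  have h5 := ceq_univ hΦ h2 (h3.trans h2) h4
  exact ((ceq_nN E' univ z').symm.trans h5.symm).trans (h1.trans (ceq_nN E1 univ z1))

/-- saturations of finite sets -/
def sat (τ : A → Dat L) (F : Finset A) : Set A := {a | ∃ b ∈ F, τ a = τ b}

theorem sat_sat (F : Finset A) : Sat τ (sat τ F) := by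
  intro a b hab
  constructor
  · rintro ⟨c, hc, h⟩
    exact ⟨c, hc, hab ▸ h⟩
  · rintro ⟨c, hc, h⟩
    exact ⟨c, hc, hab ▸ h⟩

theorem sat_fin (hΦ : Gd Φ) (E0 : Ext Φ A τ t) (F : Finset A) : (sat τ F).Finite := by
  have h : sat τ F = ⋃ b ∈ F, {a | τ a = τ b} := by
    ext a
    simp only [sat, mem_ofPred_eq, mem_iUnion, exists_prop]
  rw [h]
  exact F.finite_toSet.biUnion fun b _ => fin_fib hΦ E0 b

theorem sat_of {S : Set A} (hS : Sat τ S) (hf : S.Finite) : sat τ hf.toFinset = S := by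
  ext a
  constructor
  · rintro ⟨b, hb, h⟩
    exact (hS a b h).2 (hf.mem_toFinset.1 hb)
  · intro ha
    exact ⟨a, hf.mem_toFinset.2 ha, rfl⟩

/-- the list of all types of components -/
theorem full_list [∀ n, Countable (L.Relations n)] [Countable A] (hΦ : Gd Φ)
    (hP : ¬ PerfK {c : Code L | toI c ∈ Md Φ}) (h2 : ∀ n, 2 < n → IsEmpty (L.Relations n))
    (E0 : Ext Φ A τ t) :
    ∃ (f : ℕ → VC (ar (Φ := Φ) (A := A)) × ℕ) (Sf : ℕ → Set A), (∀ n, Gt Φ τ t (f n) (Sf n)) ∧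
      ∀ (E : Ext Φ A τ t) (x : ℕ), ∃ n, CEq (nE E univ) x
        (Pool.Agent.H623R2.VE.toI (f n).1) (f n).2 := by
  classical
  have hc : ∀ F : Finset A, ∃ f : ℕ → VC (ar (Φ := Φ) (A := A)) × ℕ,
      ∀ (E : Ext Φ A τ t) (z : NA E),
      ∃ n, CEq (nN E (sat τ F)) z (Pool.Agent.H623R2.VE.toI (f n).1) (f n).2 := fun F =>
    comp_list hΦ hP (sat_sat F) h2 (sat_fin hΦ E0 F)
  choose f hf using hc
  have hex : ∀ i : Option (Finset A × ℕ), ∃ (p : VC (ar (Φ := Φ) (A := A)) × ℕ) (S : Set A),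
      Gt Φ τ t p S ∧ (i = none → p = (Pool.Agent.H623R2.VE.ofI (fun _ _ => False), 0)) ∧
      ∀ F n, i = some (F, n) → (∃ (E : Ext Φ A τ t) (z : NA E), Sp E z = sat τ F ∧
        CEq (nN E (sat τ F)) z (Pool.Agent.H623R2.VE.toI (f F n).1) (f F n).2) →
      ∃ (E : Ext Φ A τ t) (z : NA E), Sp E z = sat τ F ∧
        CEq (nN E (sat τ F)) z (Pool.Agent.H623R2.VE.toI (f F n).1) (f F n).2 ∧
        p = (Pool.Agent.H623R2.VE.ofI (nE E univ), z.1) := by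
    intro i
    rcases i with _ | ⟨F, n⟩
    · exact ⟨_, _, gt_junk, fun _ => rfl, fun F n h => absurd h (by simp)⟩
    · by_cases hx : ∃ (E : Ext Φ A τ t) (z : NA E), Sp E z = sat τ F ∧
        CEq (nN E (sat τ F)) z (Pool.Agent.H623R2.VE.toI (f F n).1) (f F n).2
      · obtain ⟨E, z, h1, h3⟩ := hx
        refine ⟨_, _, gt_rep hΦ hP E z, fun h => absurd h (by simp), fun F' n' h _ => ?_⟩
        simp only [Option.some.injEq, Prod.mk.injEq] at h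
        obtain ⟨rfl, rfl⟩ := h
        exact ⟨E, z, h1, h3, rfl⟩
      · refine ⟨_, _, gt_junk, fun _ => rfl, fun F' n' h h' => ?_⟩
        simp only [Option.some.injEq, Prod.mk.injEq] at h
        obtain ⟨rfl, rfl⟩ := h
        exact absurd h' hx
  choose p S h3 h4 h5 using hex
  obtain ⟨e, he⟩ := exists_surjective_nat (Option (Finset A × ℕ))
  refine ⟨fun n => p (e n), fun n => S (e n), fun n => h3 _, fun E x => ?_⟩
  by_cases hx : Alg E.I x
  · obtain ⟨n, hn⟩ := he none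
    refine ⟨n, ?_⟩
    simp only [hn, h4 none rfl]
    exact ceq_junk E hx _ (Pool.Agent.H623R2.VE.toI_ofI _)
  · let z : NA E := ⟨x, hx⟩
    have hfin := Sp_finite hΦ hP E z
    have hsat := sat_of (Sp_sat E z) hfin
    obtain ⟨n, hn⟩ := hf hfin.toFinset E z
    obtain ⟨E1, z1, h6, h7, h8⟩ := h5 (some (hfin.toFinset, n)) hfin.toFinset n rfl
      ⟨E, z, hsat.symm, hn⟩
    obtain ⟨m, hm⟩ := he (some (hfin.toFinset, n))
    refine ⟨m, ?_⟩
    simp only [hm, h8, Pool.Agent.H623R2.VE.toI_ofI]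
    have h9 := ceq_univ hΦ hsat.symm h6 (hn.trans h7.symm)
    exact ((ceq_nN E univ z).symm.trans h9).trans (ceq_nN E1 univ z1)

theorem many_of_I {f : ℕ → VC (ar (Φ := Φ) (A := A)) × ℕ} {n m : ℕ} {S : Set A}
    (h : Gt Φ τ t (f n) S) (E E' : Ext Φ A τ t) (hI : E.I = E'.I)
    (hS : ∀ a ∈ S, E.ι a = E'.ι a)
    (hm : Many f (Pool.Agent.H623R2.VE.ofI (nE E univ)) (n, m)) :
    Many f (Pool.Agent.H623R2.VE.ofI (nE E' univ)) (n, m) := by
  obtain ⟨v, h1, h2⟩ := hm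
  refine ⟨v, fun i j hij => h1 i j ?_, fun i => ?_⟩
  · rw [Pool.Agent.H623R2.VE.toI_ofI] at hij ⊢
    rw [conn_nE] at hij ⊢
    rw [hI]
    exact hij
  · have h3 := h2 i
    rw [Pool.Agent.H623R2.VE.toI_ofI] at h3 ⊢
    exact h.2 E E' _ hI hS h3

/-! ### gluing -/

/-- the elements of a model -/
noncomputable def spl (E : Ext Φ A τ t) : A ⊕ NA E ≃ ℕ :=
  Equiv.ofBijective (Sum.elim E.ι Subtype.val) ⟨by
    rintro (a | z) (b | z') h
    · exact congrArg Sum.inl (E.inj h)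
    · exact absurd ((E.rng _).2 ⟨a, rfl⟩) (by
        have h' : E.ι a = z'.1 := h
        rw [h']
        exact z'.2)
    · exact absurd ((E.rng _).2 ⟨b, rfl⟩) (by
        have h' : z.1 = E.ι b := h
        rw [← h']
        exact z.2)
    · exact congrArg Sum.inr (Subtype.ext h), by
    intro x
    by_cases hx : Alg E.I x
    · obtain ⟨a, ha⟩ := (E.rng x).1 hx
      exact ⟨.inl a, ha⟩
    · exact ⟨.inr ⟨x, hx⟩, rfl⟩⟩

theorem spl_inl (E : Ext Φ A τ t) (a : A) : spl E (.inl a) = E.ι a := rfl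

theorem spl_inr (E : Ext Φ A τ t) (z : NA E) : spl E (.inr z) = z.1 := rfl

theorem glue_data [∀ n, Countable (L.Relations n)] [Countable A] (hΦ : Gd Φ)
    (hP : ¬ PerfK {c : Code L | toI c ∈ Md Φ}) (E E' : Ext Φ A τ t)
    (h1 : ∀ a b, D Φ E.I (E.ι a) (E.ι b) = D Φ E'.I (E'.ι a) (E'.ι b))
    (h : GIso (nE E univ) (nE E' univ)) :
    ∃ ψ : ℕ ≃ ℕ, ∀ i j, D Φ E.I i j = D Φ E'.I (ψ i) (ψ j) := by
  obtain ⟨σ, hσ⟩ := h
  have hd : ∀ x, ¬ Alg E.I x → ¬ Alg E'.I (σ x) ∧ D Φ E'.I (σ x) (σ x) = D Φ E.I x x :=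
    fun x hx => (hσ (.inl ⟨_, al_dat E.hI x x⟩) (fun _ => x)).1 ⟨hx, rfl⟩
  have hd' : ∀ x, ¬ Alg E'.I (σ x) → ¬ Alg E.I x := fun x hx =>
    ((hσ (.inl ⟨_, al_dat E'.hI (σ x) (σ x)⟩) (fun _ => x)).2 ⟨hx, rfl⟩).1
  have hdec : ∀ x, ¬ Alg E.I x → ∀ a, D Φ E'.I (σ x) (E'.ι a) = D Φ E.I x (E.ι a) :=
    fun x hx a => ((hσ (.inr (.inl (a, ⟨_, al_dat E.hI x (E.ι a)⟩))) (fun _ => x)).1
      ⟨hx, trivial, rfl⟩).2.2
  have hnf : ∀ x y, ¬ Alg E.I x → ¬ Alg E.I y → x ≠ y → ¬ Fr (D Φ E.I x y) →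
      D Φ E'.I (σ x) (σ y) = D Φ E.I x y := fun x y hx hy hxy hf =>
    ((hσ (.inr (.inr ⟨_, al_dat E.hI x y⟩)) (![x, y] : Fin 2 → ℕ)).1
      ⟨hx, hy, hxy, hf, rfl⟩).2.2.2.2
  have hnf' : ∀ x y, ¬ Alg E.I x → ¬ Alg E.I y → x ≠ y → ¬ Fr (D Φ E'.I (σ x) (σ y)) →
      D Φ E'.I (σ x) (σ y) = D Φ E.I x y := fun x y hx hy hxy hf =>
    ((hσ (.inr (.inr ⟨_, al_dat E'.hI (σ x) (σ y)⟩)) (![x, y] : Fin 2 → ℕ)).2
      ⟨(hd x hx).1, (hd y hy).1, fun h => hxy (σ.injective h), hf, rfl⟩).2.2.2.2.symm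
  have hall : ∀ x y, ¬ Alg E.I x → ¬ Alg E.I y → D Φ E'.I (σ x) (σ y) = D Φ E.I x y := by
    intro x y hx hy
    by_cases hxy : x = y
    · subst hxy
      exact (hd x hx).2
    · by_cases hf : Fr (D Φ E.I x y)
      · by_cases hf' : Fr (D Φ E'.I (σ x) (σ y))
        · have g1 := gen_of_fr E.hI hxy hf
          have g2 := gen_of_fr E'.hI (fun h => hxy (σ.injective h)) hf'
          rw [(hd x hx).2, (hd y hy).2] at g2
          exact gen_unique hΦ hP (τ := τ) (t := t) ⟨E, x, hx, rfl⟩ ⟨E, y, hy, rfl⟩ g2 g1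
        · exact hnf' x y hx hy hxy hf'
      · exact hnf x y hx hy hxy hf
  let σN : NA E ≃ NA E' := σ.subtypeEquiv fun x => ⟨fun h => (hd x h).1, hd' x⟩
  let ψ : ℕ ≃ ℕ := ((spl E).symm.trans (Equiv.sumCongr (Equiv.refl A) σN)).trans (spl E')
  refine ⟨ψ, fun i j => ?_⟩
  obtain ⟨v, rfl⟩ := (spl E).surjective i
  obtain ⟨w, rfl⟩ := (spl E).surjective j
  have hψ : ∀ v, ψ (spl E v) = spl E' (Equiv.sumCongr (Equiv.refl A) σN v) := by
    intro v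
    simp only [ψ, Equiv.trans_apply, Equiv.symm_apply_apply]
  rw [hψ, hψ]
  rcases v with a | z <;> rcases w with b | z'
  · exact h1 a b
  · show D Φ E.I (E.ι a) z'.1 = D Φ E'.I (E'.ι a) (σ z'.1)
    have e1 : D Φ E.I (E.ι a) z'.1 = (D Φ E.I z'.1 (E.ι a)).map not := (dat_not _ _ _ _).symm
    have e2 : D Φ E'.I (E'.ι a) (σ z'.1) = (D Φ E'.I (σ z'.1) (E'.ι a)).map not :=
      (dat_not _ _ _ _).symm
    rw [e1, e2, hdec z'.1 z'.2 a]
  · exact (hdec z.1 z.2 b).symm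
  · exact (hall z.1 z'.1 z.2 z'.2).symm

end Pool.Agent.Y558.C2
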