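import Pool.Agent.Y558.C2.Lst

set_option autoImplicit false
set_option linter.unusedVariables false
set_option linter.unusedSectionVars false

/-! Supports of components are finite. -/

namespace Pool.Agent.Y558.C2

open FirstOrder Set Filter MeasureTheory
open Pool.Agent.H565R2.FO2 (pick pick_false pick_true pick_self pick_pick Interp Code toI ofI
  toI_ofI Iso bool_fun_cases perfect_of_uncountable)
open Pool.Agent.H565R2.CO (C2 Rl subs mem_subs subs_countable subs_trans Dat lab mkd dat ev ev_dat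
  Md dat_map dat_not map_not_not mkd_l mkI Coh mkI_iff mkd_mkI Rl_iso dat_f dat_t dat_iso Al al_dat
  KI code code_inj meas_code meas_Rl meas_Md)
open Pool.Agent.H565R2.LO2 (PerfK perfK_of_inv iso_symm)
open Pool.Agent.H623R2.VE (Adj Conn CIso CEq pull pull_ciso GIso CovE Cov Pw Perf)
open Relation (ReflTransGen)

variable {L : FirstOrder.Language.{0, 0}} {Φ : C2 L}
variable {A : Type} {τ : A → Dat L} {t : C2 L → ℕ∞}

/-- nonfree pairs of elements of a model -/
def nf (E : Ext Φ A τ t) (x y : NA E) : Prop := x ≠ y ∧ ¬ Fr (D Φ E.I x.1 y.1)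

theorem fr_not_iff {d : Dat L} : Fr (d.map not) ↔ Fr d := by
  refine ⟨fun h => ?_, fun h => h.not⟩
  have := h.not
  rwa [map_not_not] at this

theorem fr_swap {I : Interp L ℕ} {x y : ℕ} : Fr (D Φ I y x) ↔ Fr (D Φ I x y) := by
  have h : D Φ I y x = (D Φ I x y).map not := (dat_not _ _ _ _).symm
  rw [h, fr_not_iff]

theorem nf_symm {E : Ext Φ A τ t} {x y : NA E} (h : nf E x y) : nf E y x :=
  ⟨Ne.symm h.1, fun h' => h.2 (fr_swap.1 h')⟩

theorem conn_iff (E : Ext Φ A τ t) (S : Set A) (x y : NA E) :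
    Conn (nN E S) x y ↔ ReflTransGen (nf E) x y := by
  constructor
  · intro h
    induction h with
    | refl => exact ReflTransGen.refl
    | @tail b c _ h ih =>
      rcases adj_nst h with h1 | h1
      · rw [← h1]
        exact ih
      · refine ih.tail ⟨h1.2.2.1, ?_⟩
        rcases h1.2.2.2 with h2 | h2
        · exact h2
        · exact fun h3 => h2 (fr_swap.2 h3)
  · intro h
    induction h with
    | refl => exact Conn.refl _ _
    | @tail b c _ h ih =>
      refine ih.trans (ReflTransGen.single ?_)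
      refine ⟨.inr (.inr ⟨_, al_dat E.hI b.1 c.1⟩), (![b, c] : Fin 2 → NA E),
        ⟨trivial, trivial, h.1, h.2, rfl⟩, ⟨(0 : Fin 2), rfl⟩, ⟨(1 : Fin 2), rfl⟩⟩

/-- the support of a component: the algebraic elements whose fibre is split by the component -/
def Sp (E : Ext Φ A τ t) (z : NA E) : Set A :=
  {a | ∃ y : NA E, ReflTransGen (nf E) z y ∧ ∃ b, τ b = τ a ∧
    D Φ E.I y.1 (E.ι b) ≠ D Φ E.I y.1 (E.ι a)}

theorem Sp_sat (E : Ext Φ A τ t) (z : NA E) : Sat τ (Sp E z) := by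
  have key : ∀ a b, τ a = τ b → a ∈ Sp E z → b ∈ Sp E z := by
    rintro a b hab ⟨y, h1, a', h2, h3⟩
    by_cases h4 : D Φ E.I y.1 (E.ι b) = D Φ E.I y.1 (E.ι a)
    · exact ⟨y, h1, a', h2.trans hab, by rw [h4]; exact h3⟩
    · exact ⟨y, h1, a, hab, fun h => h4 h.symm⟩
  exact fun a b h => ⟨key a b h, key b a h.symm⟩

/-! ### copies of a model with twisted decorations -/

section
variable [∀ n, Countable (L.Relations n)] [Countable A] (hΦ : Gd Φ)
  (hP : ¬ PerfK {c : Code L | toI c ∈ Md Φ}) (E : Ext Φ A τ t)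
  (s : ℕ → NA E → Equiv.Perm A) (hs : ∀ k x a, τ (s k x a) = τ a)

open Classical in
/-- copies of a model with twisted decorations -/
noncomputable def cop : Bp Φ A τ t (ℕ × NA E) where
  B := E
  E _ := E
  x u := u.2.1
  nx u := u.2.2
  s u := s u.1 u.2
  hs u a := hs _ _ a
  δ u w := if u.1 = w.1 then D Φ E.I u.2.1 w.2.1
    else gn Φ (D Φ E.I u.2.1 u.2.1) (D Φ E.I w.2.1 w.2.1)
  d0 u := if_pos rfl
  de u w hne := by
    by_cases h : u.1 = w.1
    · rw [if_pos h]
      intro hc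
      exact hne (Prod.ext h (Subtype.ext hc))
    · rw [if_neg h]
      exact (gn_gen hΦ (t := t) (τ := τ) ⟨E, _, u.2.2, rfl⟩ ⟨E, _, w.2.2, rfl⟩).ne
  dn u w := by
    by_cases h : u.1 = w.1
    · rw [if_pos h, if_pos h.symm]
      exact (dat_not _ _ _ _).symm
    · rw [if_neg h, if_neg (Ne.symm h)]
      exact gn_not hΦ hP (t := t) (τ := τ) ⟨E, _, u.2.2, rfl⟩ ⟨E, _, w.2.2, rfl⟩
  da u w hne := by
    by_cases h : u.1 = w.1
    · rw [if_pos h]
      exact dat_f _ _ _ _
    · rw [if_neg h]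
      exact (gn_gen hΦ (t := t) (τ := τ) ⟨E, _, u.2.2, rfl⟩ ⟨E, _, w.2.2, rfl⟩).h0
  dΦ u w := by
    by_cases h : u.1 = w.1
    · rw [if_pos h]
      exact ev_Φ E.hI _ _
    · rw [if_neg h]
      exact (gn_gen hΦ (t := t) (τ := τ) ⟨E, _, u.2.2, rfl⟩ ⟨E, _, w.2.2, rfl⟩).e1
  N u := {z | ¬ Alg E.I z ∧ z ≠ u.2.1}
  e u z := if h : ¬ Alg E.I z then (u.1, ⟨z, h⟩) else u
  Na u z hz := hz
  ei u z hz z' hz' h := by
    simp only [dif_pos hz.1, dif_pos hz'.1, Prod.mk.injEq, true_and] at h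
    exact congrArg (fun p : NA E => p.1) h
  eu u z hz h := by
    simp only [dif_pos hz.1] at h
    exact hz.2 (congrArg (fun p : ℕ × NA E => p.2.1) h)
  ed u z hz := by
    simp only [dif_pos hz.1, if_true]
  fr u z hz h1 h2 := absurd ⟨h1, h2⟩ hz
  fr' u w hne hw := by
    have h : ¬ (u.1 = w.1) := by
      intro h1
      refine hw ⟨w.2.1, ⟨w.2.2, fun h3 => hne ?_⟩, ?_⟩
      · exact Prod.ext h1.symm (Subtype.ext h3)
      · simp only [dif_pos w.2.2]
        exact Prod.ext h1 rfl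
    rw [if_neg h]
    exact (gn_gen hΦ (t := t) (τ := τ) ⟨E, _, u.2.2, rfl⟩ ⟨E, _, w.2.2, rfl⟩).fr

theorem cop_rich (h2 : ∀ k x, 2 ≤ k → s k x = Equiv.refl A) : (cop hΦ hP E s hs).Rich := by
  refine Bp.rich _ hΦ (fun u z h1 h3 h4 => absurd (show z ∈ (cop hΦ hP E s hs).N u from
    ⟨h3, h4⟩) h1) (fun z hz a => ?_)
  have hinj : Function.Injective fun k : ℕ => ((k + 2, ⟨z, hz⟩) : ℕ × NA E) := by
    intro k k' h
    have : k + 2 = k' + 2 := congrArg Prod.fst h
    omega
  refine (infinite_range_of_injective hinj).mono ?_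
  rintro _ ⟨k, rfl⟩
  show D Φ E.I (E.ι (s (k + 2) ⟨z, hz⟩ a)) z = D Φ E.I (E.ι a) z
  rw [h2 _ _ (by omega)]
  rfl

theorem cop_same (k : ℕ) (x y : NA E) :
    (cop hΦ hP E s hs).Δ (.inr (k, x)) (.inr (k, y)) = D Φ E.I x.1 y.1 := if_pos rfl

theorem cop_diff (u w : ℕ × NA E) (h : u.1 ≠ w.1) :
    Fr ((cop hΦ hP E s hs).Δ (.inr u) (.inr w)) := by
  have e1 : (cop hΦ hP E s hs).Δ (.inr u) (.inr w) =
    gn Φ (D Φ E.I u.2.1 u.2.1) (D Φ E.I w.2.1 w.2.1) := if_neg h
  rw [e1]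
  exact (gn_gen hΦ (t := t) (τ := τ) ⟨E, _, u.2.2, rfl⟩ ⟨E, _, w.2.2, rfl⟩).fr

theorem cop_dec (k : ℕ) (x : NA E) (a : A) :
    (cop hΦ hP E s hs).Δ (.inr (k, x)) (.inl a) = D Φ E.I x.1 (E.ι (s k x a)) := rfl

end

/-! ### the invariant of a pair -/

/-- nonfree pairs of nonalgebraic elements -/
def NFV {V : Type} (Δ : V → V → Dat L) (v w : V) : Prop :=
  v ≠ w ∧ ¬ AlgT (Δ v v) ∧ ¬ AlgT (Δ w w) ∧ ¬ Fr (Δ v w)

/-- the invariant of a pair -/
def DV {V : Type} (p q : ℕ → Dat L) (Δ : V → V → Dat L) (v v' : V) : Set ℕ :=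
  {k | ∃ x x' a, ReflTransGen (NFV Δ) v x ∧ ReflTransGen (NFV Δ) v' x' ∧ Δ x x = p k ∧
    Δ x' x' = p k ∧ Δ a a = q k ∧ Δ x a ≠ Δ x' a}

theorem NFV_iso {V V' : Type} {Δ : V → V → Dat L} {Δ' : V' → V' → Dat L} (σ : V ≃ V')
    (h : ∀ v w, Δ' (σ v) (σ w) = Δ v w) (v w : V) (hc : ReflTransGen (NFV Δ) v w) :
    ReflTransGen (NFV Δ') (σ v) (σ w) := by
  induction hc with
  | refl => exact ReflTransGen.refl
  | @tail b c _ hbc ih =>
    refine ih.tail ?_
    unfold NFV
    rw [h, h, h, σ.injective.ne_iff]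
    exact hbc

theorem DV_iso {V V' : Type} {p q : ℕ → Dat L} {Δ : V → V → Dat L} {Δ' : V' → V' → Dat L}
    (σ : V ≃ V') (h : ∀ v w, Δ' (σ v) (σ w) = Δ v w) (v v' : V) :
    DV p q Δ v v' ⊆ DV p q Δ' (σ v) (σ v') := by
  rintro k ⟨x, x', a, h1, h2, h3, h4, h5, h6⟩
  exact ⟨σ x, σ x', σ a, NFV_iso σ h _ _ h1, NFV_iso σ h _ _ h2, by rw [h, h3], by rw [h, h4],
    by rw [h, h5], by rw [h, h]; exact h6⟩

/-! ### the twist -/

section
variable (τ) (as bs : ℕ → A)

open Classical in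
/-- the index of a fibre -/
noncomputable def kap (a : A) : ℕ := if h : ∃ k, τ a = τ (as k) then h.choose else 0

open Classical in
/-- the twist, depending on a bit -/
noncomputable def swb (β : Bool) (a : A) : A :=
  if (∃ k, τ a = τ (as k)) ∧ β = true then
    Equiv.swap (as (kap τ as a)) (bs (kap τ as a)) a else a

variable {τ as bs}

theorem kap_spec {a : A} (h : ∃ k, τ a = τ (as k)) : τ a = τ (as (kap τ as a)) := by
  unfold kap
  rw [dif_pos h]
  exact h.choose_spec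

theorem kap_eq (hd : ∀ k l, τ (as k) = τ (as l) → k = l) {a : A} {k : ℕ} (h : τ a = τ (as k)) :
    kap τ as a = k := hd _ _ ((kap_spec ⟨k, h⟩).symm.trans h)

theorem kap_congr {a b : A} (h : τ a = τ b) : kap τ as a = kap τ as b := by
  have key : ∀ (P Q : ℕ → Prop) (hPQ : P = Q) (i : Decidable (∃ k, P k))
      (j : Decidable (∃ k, Q k)),
      (@dite ℕ (∃ k, P k) i (fun h => h.choose) fun _ => 0) =
        @dite ℕ (∃ k, Q k) j (fun h => h.choose) fun _ => 0 := by
    intro P Q hPQ i j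
    subst hPQ
    have : i = j := Subsingleton.elim _ _
    subst this
    rfl
  exact key _ _ (by funext k; rw [h]) _ _

open Classical in
theorem swb_ty (hab : ∀ k, τ (bs k) = τ (as k)) (β : Bool) (a : A) :
    τ (swb τ as bs β a) = τ a := by
  unfold swb
  split_ifs with h
  · have h1 := kap_spec h.1
    by_cases h2 : a = as (kap τ as a)
    · conv_lhs => rw [h2]
      have e : kap τ as (as (kap τ as a)) = kap τ as a := kap_congr h1.symm
      rw [e, Equiv.swap_apply_left, hab, ← h1]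
    · by_cases h3 : a = bs (kap τ as a)
      · have h4 : Equiv.swap (as (kap τ as a)) (bs (kap τ as a)) a = as (kap τ as a) := by
          conv_lhs => rw [h3]
          have e : kap τ as (bs (kap τ as a)) = kap τ as a :=
            kap_congr ((hab _).trans h1.symm)
          rw [e, Equiv.swap_apply_right]
        rw [h4, ← h1]
      · rw [Equiv.swap_apply_of_ne_of_ne h2 h3]
  · rfl

open Classical in
theorem swb_invol (hab : ∀ k, τ (bs k) = τ (as k)) (β : Bool) (a : A) :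
    swb τ as bs β (swb τ as bs β a) = a := by
  have h1 := swb_ty (as := as) hab β a
  have h2 : kap τ as (swb τ as bs β a) = kap τ as a := kap_congr h1
  by_cases h : (∃ k, τ a = τ (as k)) ∧ β = true
  · have h' : (∃ k, τ (swb τ as bs β a) = τ (as k)) ∧ β = true := by
      rw [h1]
      exact h
    have e1 : swb τ as bs β a = Equiv.swap (as (kap τ as a)) (bs (kap τ as a)) a := by
      unfold swb
      rw [if_pos h]
    have e2 : swb τ as bs β (swb τ as bs β a) =
        Equiv.swap (as (kap τ as (swb τ as bs β a))) (bs (kap τ as (swb τ as bs β a)))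
          (swb τ as bs β a) := if_pos h'
    rw [e2, h2, e1, Equiv.swap_apply_self]
  · have e1 : swb τ as bs β a = a := by
      unfold swb
      rw [if_neg h]
    rw [e1, e1]

/-- the twist -/
noncomputable def swS (hab : ∀ k, τ (bs k) = τ (as k)) (S : ℕ → Bool) : Equiv.Perm A where
  toFun a := swb τ as bs (S (kap τ as a)) a
  invFun a := swb τ as bs (S (kap τ as a)) a
  left_inv a := by
    have h : kap τ as (swb τ as bs (S (kap τ as a)) a) = kap τ as a :=
      kap_congr (swb_ty hab _ a)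
    simp only [h]
    exact swb_invol hab _ a
  right_inv a := by
    have h : kap τ as (swb τ as bs (S (kap τ as a)) a) = kap τ as a :=
      kap_congr (swb_ty hab _ a)
    simp only [h]
    exact swb_invol hab _ a

theorem swS_ty (hab : ∀ k, τ (bs k) = τ (as k)) (S : ℕ → Bool) (a : A) :
    τ (swS hab S a) = τ a := swb_ty hab _ a

open Classical in
theorem swS_as (hd : ∀ k l, τ (as k) = τ (as l) → k = l) (hab : ∀ k, τ (bs k) = τ (as k))
    {S : ℕ → Bool} {k : ℕ} (h : S k = true) : swS hab S (as k) = bs k := by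
  have e : kap τ as (as k) = k := kap_eq hd rfl
  show swb τ as bs (S (kap τ as (as k))) (as k) = bs k
  rw [e]
  unfold swb
  rw [if_pos ⟨⟨k, rfl⟩, h⟩, e, Equiv.swap_apply_left]

theorem swS_ne (hd : ∀ k l, τ (as k) = τ (as l) → k = l) (hab : ∀ k, τ (bs k) = τ (as k))
    {S : ℕ → Bool} {a : A} {k : ℕ} (h1 : τ a = τ (as k)) (h : swS hab S a ≠ a) :
    S k = true := by
  by_contra hc
  apply h
  have e : kap τ as a = k := kap_eq hd h1
  show swb τ as bs (S (kap τ as a)) a = a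
  rw [e]
  unfold swb
  rw [if_neg (fun h => hc h.2)]

end

section
variable [∀ n, Countable (L.Relations n)] [Countable A] (hΦ : Gd Φ)
  (hP : ¬ PerfK {c : Code L | toI c ∈ Md Φ}) (E : Ext Φ A τ t)
  {as bs : ℕ → A} (hab : ∀ k, τ (bs k) = τ (as k))

/-- the twists of the copies -/
noncomputable def sT (S : ℕ → Bool) (k : ℕ) (x : NA E) : Equiv.Perm A :=
  if k = 0 then hperm hΦ E x else if k = 1 then (swS hab S).trans (hperm hΦ E x) else Equiv.refl A

theorem sT_ty (S : ℕ → Bool) (k : ℕ) (x : NA E) (a : A) : τ (sT hΦ E hab S k x a) = τ a := by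
  unfold sT
  split_ifs
  · exact hperm_ty hΦ E x a
  · exact (hperm_ty hΦ E x _).trans (swS_ty hab S a)
  · rfl

/-- the family -/
noncomputable def M3 (S : ℕ → Bool) : Bp Φ A τ t (ℕ × NA E) :=
  cop hΦ hP E (sT hΦ E hab S) (sT_ty hΦ E hab S)

theorem M3_rich (S : ℕ → Bool) : (M3 hΦ hP E hab S).Rich :=
  cop_rich hΦ hP E _ _ fun k x hk => by
    unfold sT
    rw [if_neg (by omega), if_neg (by omega)]

theorem M3_conn (S : ℕ → Bool) (k : ℕ) (z : NA E) (v : A ⊕ (ℕ × NA E)) :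
    ReflTransGen (NFV (M3 hΦ hP E hab S).Δ) (.inr (k, z)) v ↔
      ∃ y, ReflTransGen (nf E) z y ∧ v = .inr (k, y) := by
  constructor
  · intro h
    induction h with
    | refl => exact ⟨z, ReflTransGen.refl, rfl⟩
    | @tail b c _ hbc ih =>
      obtain ⟨y, h1, rfl⟩ := ih
      rcases c with a | ⟨l, y'⟩
      · exact absurd ((Bp.algT _ hΦ _).2 ⟨a, rfl⟩) hbc.2.2.1
      · by_cases hkl : k = l
        · subst hkl
          refine ⟨y', h1.tail ⟨fun h => hbc.1 (by rw [h]), fun hf => hbc.2.2.2 ?_⟩, rfl⟩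
          show Fr ((cop hΦ hP E _ _).Δ (.inr (k, y)) (.inr (k, y')))
          rw [cop_same]
          exact hf
        · exact absurd (cop_diff hΦ hP E _ _ (k, y) (l, y') hkl) hbc.2.2.2
  · rintro ⟨y, h, rfl⟩
    induction h with
    | refl => exact ReflTransGen.refl
    | @tail b c _ hbc ih =>
      refine ih.tail ⟨fun h => hbc.1 ?_, ?_, ?_, ?_⟩
      · exact congrArg Prod.snd (Sum.inr_injective h)
      · rw [Bp.algT _ hΦ]
        rintro ⟨a, h⟩
        exact absurd h (by simp)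
      · rw [Bp.algT _ hΦ]
        rintro ⟨a, h⟩
        exact absurd h (by simp)
      · show ¬ Fr ((cop hΦ hP E _ _).Δ (.inr (k, b)) (.inr (k, c)))
        rw [cop_same]
        exact hbc.2

theorem M3_dec0 (S : ℕ → Bool) (x : NA E) (a : A) :
    (M3 hΦ hP E hab S).Δ (.inr (0, x)) (.inl a) = ls Φ τ t (D Φ E.I x.1 x.1) a := by
  show D Φ E.I x.1 (E.ι (sT hΦ E hab S 0 x a)) = _
  have : sT hΦ E hab S 0 x = hperm hΦ E x := if_pos rfl
  rw [this]
  exact hperm_ls hΦ E x a

theorem M3_dec1 (S : ℕ → Bool) (x : NA E) (a : A) :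
    (M3 hΦ hP E hab S).Δ (.inr (1, x)) (.inl a) =
      ls Φ τ t (D Φ E.I x.1 x.1) (swS hab S a) := by
  show D Φ E.I x.1 (E.ι (sT hΦ E hab S 1 x a)) = _
  have : sT hΦ E hab S 1 x = (swS hab S).trans (hperm hΦ E x) := by
    unfold sT
    rw [if_neg (by omega), if_pos rfl]
  rw [this]
  exact hperm_ls hΦ E x _

theorem M3_self (S : ℕ → Bool) (k : ℕ) (x : NA E) :
    (M3 hΦ hP E hab S).Δ (.inr (k, x)) (.inr (k, x)) = D Φ E.I x.1 x.1 :=
  cop_same hΦ hP E _ _ k x x

theorem DV_M3 (hd : ∀ k l, τ (as k) = τ (as l) → k = l) (z : NA E) (y : ℕ → NA E)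
    (hy : ∀ k, ReflTransGen (nf E) z (y k))
    (hne : ∀ k, ls Φ τ t (D Φ E.I (y k).1 (y k).1) (as k) ≠
      ls Φ τ t (D Φ E.I (y k).1 (y k).1) (bs k)) (S : ℕ → Bool) (k : ℕ) :
    k ∈ DV (fun k => D Φ E.I (y k).1 (y k).1) (fun k => τ (as k)) (M3 hΦ hP E hab S).Δ
      (.inr (0, z)) (.inr (1, z)) ↔ S k = true := by
  constructor
  · rintro ⟨x, x', a, h1, h2, h3, h4, h5, h6⟩
    rw [M3_conn] at h1 h2
    obtain ⟨u, -, rfl⟩ := h1
    obtain ⟨u', -, rfl⟩ := h2
    rcases a with a | w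
    · have h5' : τ a = τ (as k) := by
        rw [← E.ty a]
        exact h5
      rw [M3_dec0, M3_dec1] at h6
      rw [M3_self] at h3 h4
      rw [h3, h4] at h6
      refine swS_ne hd hab h5' fun h7 => h6 ?_
      rw [h7]
    · exfalso
      have h5' : (M3 hΦ hP E hab S).Δ (.inr w) (.inr w) = τ (as k) := h5
      have h7 : AlgT ((M3 hΦ hP E hab S).Δ (.inr w) (.inr w)) := by
        rw [h5', ← E.ty, ← alg_iff hΦ, E.rng]
        exact ⟨_, rfl⟩
      rw [Bp.algT _ hΦ] at h7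
      obtain ⟨a, ha⟩ := h7
      exact absurd ha (by simp)
  · intro hS
    refine ⟨.inr (0, y k), .inr (1, y k), .inl (as k), (M3_conn hΦ hP E hab S 0 z _).2
      ⟨_, hy k, rfl⟩, (M3_conn hΦ hP E hab S 1 z _).2 ⟨_, hy k, rfl⟩, M3_self hΦ hP E hab S 0 _,
      M3_self hΦ hP E hab S 1 _, E.ty _, ?_⟩
    rw [M3_dec0, M3_dec1, swS_as hd hab hS]
    exact hne k

include hΦ hP in
/-- the supports of components are finite -/
theorem Sp_finite (z : NA E) : (Sp E z).Finite := by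
  classical
  by_contra hinf
  have hinf' : (Sp E z).Infinite := hinf
  -- infinitely many fibres
  have himg : (τ '' Sp E z).Infinite := by
    intro hf
    apply hinf'
    have h1 : Sp E z ⊆ ⋃ p ∈ τ '' Sp E z, {a | τ a = p} := fun a ha =>
      mem_iUnion₂.2 ⟨τ a, ⟨a, ha, rfl⟩, rfl⟩
    refine (hf.biUnion fun p hp => ?_).subset h1
    obtain ⟨a, -, rfl⟩ := hp
    exact fin_fib hΦ E a
  let nat := himg.natEmbedding
  have hch : ∀ k : ℕ, ∃ (a b : A) (y : NA E), τ a = (nat k).1 ∧ τ b = τ a ∧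
      ReflTransGen (nf E) z y ∧
      ls Φ τ t (D Φ E.I y.1 y.1) a ≠ ls Φ τ t (D Φ E.I y.1 y.1) b := by
    intro k
    obtain ⟨a, ⟨y, h1, b, h2, h3⟩, h4⟩ := (nat k).2
    refine ⟨(hperm hΦ E y).symm a, (hperm hΦ E y).symm b, y, ?_, ?_, h1, ?_⟩
    · rw [← h4]
      have := hperm_ty hΦ E y ((hperm hΦ E y).symm a)
      rw [Equiv.apply_symm_apply] at this
      exact this.symm
    · have e1 := hperm_ty hΦ E y ((hperm hΦ E y).symm a)
      have e2 := hperm_ty hΦ E y ((hperm hΦ E y).symm b)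
      rw [Equiv.apply_symm_apply] at e1 e2
      rw [← e1, ← e2, h2]
    · rw [← hperm_ls hΦ E y, ← hperm_ls hΦ E y, Equiv.apply_symm_apply, Equiv.apply_symm_apply]
      exact fun h => h3 h.symm
  choose as bs y h1 hab hy hne using hch
  have hd : ∀ k l, τ (as k) = τ (as l) → k = l := by
    intro k l h
    rw [h1, h1] at h
    exact nat.injective (Subtype.ext h)
  have : Nonempty (NA E) := ⟨z⟩
  obtain ⟨e⟩ := exists_code_equiv (A := A) (W := ℕ × NA E)
  have hR : ∀ S, (M3 hΦ hP E hab S).Rich := fun S => M3_rich hΦ hP E hab S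
  refine hP (perfK_of_countable (fun S => (M3 hΦ hP E hab S).code e) ?_
    (fun S => (M3 hΦ hP E hab S).code_mem hΦ (hR S) e) fun S => ?_)
  · refine meas_fac _ fun i j => ?_
    have key : ∀ (u : ℕ × NA E) (a : A), ∃ (k : ℕ) (F : Bool → Dat L),
        ∀ S, (M3 hΦ hP E hab S).Δ (.inr u) (.inl a) = F (S k) := by
      intro u a
      refine ⟨kap τ as a, fun β => D Φ E.I u.2.1 (E.ι (if u.1 = 0 then hperm hΦ E u.2 a
        else if u.1 = 1 then hperm hΦ E u.2 (swb τ as bs β a) else a)), fun S => ?_⟩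
      show D Φ E.I u.2.1 (E.ι (sT hΦ E hab S u.1 u.2 a)) = _
      unfold sT
      by_cases h0 : u.1 = 0
      · simp only [if_pos h0]
      · by_cases h1 : u.1 = 1
        · simp only [if_neg h0, if_pos h1]
          rfl
        · simp only [if_neg h0, if_neg h1]
          rfl
    rcases hi : e i with a | u
    · rcases hj : e j with b | w
      · refine ⟨0, fun _ => (M3 hΦ hP E hab (fun _ => true)).Δ (e i) (e j), fun S => ?_⟩
        rw [hi, hj]
        rfl
      · obtain ⟨k, F, hF⟩ := key w a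
        refine ⟨k, fun β => (F β).map not, fun S => ?_⟩
        show (M3 hΦ hP E hab S).Δ (.inl a) (.inr w) = _
        rw [Bp.Δ_not _ (.inr w) (.inl a), hF]
    · rcases hj : e j with b | w
      · exact key u b
      · refine ⟨0, fun _ => (M3 hΦ hP E hab (fun _ => true)).Δ (e i) (e j), fun S => ?_⟩
        rw [hi, hj]
        rfl
  · refine (countable_range fun v : (A ⊕ (ℕ × NA E)) × (A ⊕ (ℕ × NA E)) =>
      fun m : ℕ => decide (m ∈ DV (fun k => D Φ E.I (y k).1 (y k).1) (fun k => τ (as k))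
        (M3 hΦ hP E hab S).Δ v.1 v.2)).mono ?_
    intro S' hS'
    obtain ⟨σ, hσ⟩ := Bp.iso_data _ _ hΦ (hR S) (hR S') e e hS'
    refine ⟨(σ.symm (.inr (0, z)), σ.symm (.inr (1, z))), ?_⟩
    funext m
    rw [Bool.eq_iff_iff, decide_eq_true_eq, ← DV_M3 hΦ hP E hab hd z y hy hne S' m]
    simp only
    have hσ' : ∀ v w, (M3 hΦ hP E hab S).Δ (σ.symm v) (σ.symm w) =
        (M3 hΦ hP E hab S').Δ v w := fun v w => by
      rw [← hσ, Equiv.apply_symm_apply, Equiv.apply_symm_apply]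
    constructor
    · intro h
      have := DV_iso σ hσ _ _ h
      rwa [Equiv.apply_symm_apply, Equiv.apply_symm_apply] at this
    · intro h
      exact DV_iso σ.symm hσ' _ _ h

end

end Pool.Agent.Y558.C2
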