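import Pool.Agent.H565R2.CO.Fin

set_option autoImplicit false
set_option linter.unusedVariables false

/-! First-order two-variable formulas with counting. -/

namespace Pool.Agent.Y558.C2

open FirstOrder Set
open Pool.Agent.H565R2.FO2 (pick pick_false pick_true pick_self pick_pick Interp Code toI ofI
  toI_ofI Iso)
open Pool.Agent.H565R2.CO (C2 Rl subs mem_subs subs_countable subs_trans Dat lab mkd dat ev ev_dat
  Md)

variable {L : FirstOrder.Language.{0, 0}}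

/-- First-order two-variable formulas with counting quantifiers: the two variables are named
`false` and `true`; `ex b n φ` says that at least `n` values of the variable `b` satisfy `φ`. -/
inductive FC (L : FirstOrder.Language.{0, 0}) : Type
  | eq : Bool → Bool → FC L
  | rel : {n : ℕ} → L.Relations n → (Fin n → Bool) → FC L
  | neg : FC L → FC L
  | and : FC L → FC L → FC L
  | ex : Bool → ℕ → FC L → FC L

/-- conjunction -/
def cj (φ ψ : C2 L) : C2 L := .inf (fun n => if n = 0 then φ else ψ)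

/-- translation into the infinitary logic -/
def tr : FC L → C2 L
  | .eq i j => .eq i j
  | .rel R v => .rel R v
  | .neg φ => .neg (tr φ)
  | .and φ ψ => cj (tr φ) (tr ψ)
  | .ex b n φ => .ex b n (tr φ)

/-- the first-order formulas -/
def fo : Set (C2 L) := Set.range tr

theorem fo_eq (i j : Bool) : (.eq i j : C2 L) ∈ fo := ⟨.eq i j, rfl⟩

theorem fo_rel {n : ℕ} (R : L.Relations n) (v : Fin n → Bool) : (.rel R v : C2 L) ∈ fo :=
  ⟨.rel R v, rfl⟩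

theorem fo_neg {φ : C2 L} (h : φ ∈ fo) : (.neg φ : C2 L) ∈ fo := by
  obtain ⟨φ, rfl⟩ := h
  exact ⟨.neg φ, rfl⟩

theorem fo_cj {φ ψ : C2 L} (h : φ ∈ fo) (h' : ψ ∈ fo) : cj φ ψ ∈ fo := by
  obtain ⟨φ, rfl⟩ := h
  obtain ⟨ψ, rfl⟩ := h'
  exact ⟨.and φ ψ, rfl⟩

theorem fo_ex {φ : C2 L} (b : Bool) (n : ℕ) (h : φ ∈ fo) : (.ex b n φ : C2 L) ∈ fo := by
  obtain ⟨φ, rfl⟩ := h
  exact ⟨.ex b n φ, rfl⟩

theorem fo_ind {P : C2 L → Prop} (heq : ∀ i j, P (.eq i j))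
    (hrel : ∀ {n : ℕ} (R : L.Relations n) (v : Fin n → Bool), P (.rel R v))
    (hneg : ∀ φ ∈ fo, P φ → P (.neg φ)) (hcj : ∀ φ ∈ fo, ∀ ψ ∈ fo, P φ → P ψ → P (cj φ ψ))
    (hex : ∀ b n, ∀ φ ∈ fo, P φ → P (.ex b n φ)) : ∀ ψ ∈ fo, P ψ := by
  rintro _ ⟨φ, rfl⟩
  induction φ with
  | eq i j => exact heq i j
  | rel R v => exact hrel R v
  | neg φ ih => exact hneg _ ⟨φ, rfl⟩ ih
  | and φ ψ ih ih' => exact hcj _ ⟨φ, rfl⟩ _ ⟨ψ, rfl⟩ ih ih'
  | ex b n φ ih => exact hex b n _ ⟨φ, rfl⟩ ih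

theorem subs_fo : ∀ ψ : C2 L, ψ ∈ fo → subs ψ ⊆ fo := by
  refine fo_ind (fun i j => ?_) (fun R v => ?_) (fun φ hφ ih => ?_) (fun φ hφ ψ hψ h1 h2 => ?_)
    (fun b n φ hφ ih => ?_)
  · rintro _ rfl
    exact fo_eq i j
  · rintro _ rfl
    exact fo_rel R v
  · rintro χ (rfl | h)
    · exact fo_neg hφ
    · exact ih h
  · rintro χ (rfl | h)
    · exact fo_cj hφ hψ
    · obtain ⟨n, hn⟩ := mem_iUnion.1 h
      have hn' : χ ∈ subs (if n = 0 then φ else ψ) := hn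
      by_cases h0 : n = 0
      · rw [if_pos h0] at hn'
        exact h1 hn'
      · rw [if_neg h0] at hn'
        exact h2 hn'
  · rintro χ (rfl | h)
    · exact fo_ex b n hφ
    · exact ih h

theorem ev_cj {φ ψ : C2 L} {d : Dat L} : ev (cj φ ψ) d ↔ ev φ d ∧ ev ψ d := by
  show (∀ n : ℕ, ev (if n = 0 then φ else ψ) d) ↔ _
  constructor
  · intro h
    have h0 := h 0
    have h1 := h 1
    rw [if_pos rfl] at h0
    rw [if_neg Nat.one_ne_zero] at h1
    exact ⟨h0, h1⟩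
  · rintro ⟨h0, h1⟩ n
    split_ifs
    · exact h0
    · exact h1

theorem Rl_cj {M : Type} {I : Interp L M} {φ ψ : C2 L} {x y : M} :
    Rl I (cj φ ψ) x y ↔ Rl I φ x y ∧ Rl I ψ x y := by
  show (∀ n : ℕ, Rl I (if n = 0 then φ else ψ) x y) ↔ _
  constructor
  · intro h
    have h0 := h 0
    have h1 := h 1
    rw [if_pos rfl] at h0
    rw [if_neg Nat.one_ne_zero] at h1
    exact ⟨h0, h1⟩
  · rintro ⟨h0, h1⟩ n
    split_ifs
    · exact h0
    · exact h1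

/-- levels of formulas -/
def lv : ℕ → Set (C2 L)
  | 0 => (Set.range fun p : Bool × Bool => .eq p.1 p.2) ∪
      Set.range fun p : (Σ n, L.Relations n × (Fin n → Bool)) => .rel p.2.1 p.2.2
  | k + 1 => lv k ∪ ((fun φ => .neg φ) '' lv k) ∪
      ((fun p : C2 L × C2 L => cj p.1 p.2) '' (lv k ×ˢ lv k)) ∪
      ⋃ b : Bool, ⋃ n : ℕ, (fun φ => .ex b n φ) '' lv k

theorem lv_mono {k l : ℕ} (h : k ≤ l) : (lv k : Set (C2 L)) ⊆ lv l := by
  induction l, h using Nat.le_induction with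
  | base => exact subset_rfl
  | succ l _ ih => exact fun φ hφ => Or.inl (Or.inl (Or.inl (ih hφ)))

theorem lv_countable [∀ n, Countable (L.Relations n)] (k : ℕ) : (lv k : Set (C2 L)).Countable := by
  induction k with
  | zero => exact (countable_range _).union (countable_range _)
  | succ k ih =>
    refine (((ih.union (ih.image _)).union ((ih.prod ih).image _))).union ?_
    exact countable_iUnion fun b => countable_iUnion fun n => ih.image _

theorem fo_lv : ∀ ψ : C2 L, ψ ∈ fo → ∃ k, ψ ∈ lv k := by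
  refine fo_ind (fun i j => ?_) (fun R v => ?_) (fun φ hφ ih => ?_) (fun φ hφ ψ hψ h1 h2 => ?_)
    (fun b n φ hφ ih => ?_)
  · exact ⟨0, Or.inl ⟨(i, j), rfl⟩⟩
  · exact ⟨0, Or.inr ⟨⟨_, R, v⟩, rfl⟩⟩
  · obtain ⟨k, hk⟩ := ih
    exact ⟨k + 1, Or.inl (Or.inl (Or.inr ⟨φ, hk, rfl⟩))⟩
  · obtain ⟨k, hk⟩ := h1
    obtain ⟨l, hl⟩ := h2
    refine ⟨max k l + 1, Or.inl (Or.inr ⟨(φ, ψ), ⟨lv_mono (le_max_left _ _) hk,
      lv_mono (le_max_right _ _) hl⟩, rfl⟩)⟩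
  · obtain ⟨k, hk⟩ := ih
    exact ⟨k + 1, Or.inr (mem_iUnion.2 ⟨b, mem_iUnion.2 ⟨n, φ, hk, rfl⟩⟩)⟩

theorem fo_countable [∀ n, Countable (L.Relations n)] : (fo : Set (C2 L)).Countable :=
  (countable_iUnion fun k => lv_countable k).mono fun ψ hψ => mem_iUnion.2 (fo_lv ψ hψ)

/-- conjunctions of first-order formulas whose subformulas are all first-order formulas -/
structure Gd (Φ : C2 L) : Prop where
  fo_sub : fo ⊆ subs Φ
  sub_fo : subs Φ ⊆ insert Φ fo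
  closed : ∃ e : ℕ → C2 L, Φ = .inf e ∧ ∀ n, e n ∈ fo

theorem exists_gd [∀ n, Countable (L.Relations n)] (Ψ : Set (C2 L)) (hΨ : Ψ ⊆ fo) :
    ∃ Φ : C2 L, Gd Φ ∧ ∀ {M : Type} (I : Interp L M) (x y : M),
      Rl I Φ x y ↔ ∀ ψ ∈ Ψ, Rl I ψ x y := by
  let A : Set (C2 L) := Ψ ∪ (fun χ => .neg (cj χ (.neg χ))) '' fo
  have hA : A.Countable := (fo_countable.mono hΨ).union (fo_countable.image _)
  have hAf : A ⊆ fo := by
    rintro _ (h | ⟨χ, h, rfl⟩)
    · exact hΨ h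
    · exact fo_neg (fo_cj h (fo_neg h))
  have hne : A.Nonempty := ⟨_, Or.inr ⟨.eq false false, fo_eq _ _, rfl⟩⟩
  obtain ⟨e, he⟩ := hA.exists_eq_range hne
  refine ⟨.inf e, ⟨fun χ hχ => ?_, ?_, e, rfl, fun n => hAf (he ▸ ⟨n, rfl⟩)⟩, fun I x y => ?_⟩
  · have h1 : (.neg (cj χ (.neg χ)) : C2 L) ∈ A := Or.inr ⟨χ, hχ, rfl⟩
    rw [he] at h1
    obtain ⟨n, hn⟩ := h1
    refine mem_insert_of_mem _ (mem_iUnion.2 ⟨n, ?_⟩)
    rw [hn]
    refine mem_insert_of_mem _ (mem_insert_of_mem _ (mem_iUnion.2 ⟨0, ?_⟩))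
    exact mem_subs χ
  · rintro χ (rfl | h)
    · exact mem_insert _ _
    · obtain ⟨n, hn⟩ := mem_iUnion.1 h
      exact mem_insert_of_mem _ (subs_fo _ (hAf (he ▸ ⟨n, rfl⟩)) hn)
  · constructor
    · intro h ψ hψ
      have h1 : ψ ∈ A := Or.inl hψ
      rw [he] at h1
      obtain ⟨n, hn⟩ := h1
      rw [← hn]
      exact h n
    · intro h n
      have h1 : e n ∈ A := he ▸ ⟨n, rfl⟩
      rcases h1 with h1 | ⟨χ, _, h1⟩
      · exact h _ h1
      · show Rl I (e n) x y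
        rw [← h1]
        show ¬ Rl I (cj χ (.neg χ)) x y
        rw [Rl_cj]
        rintro ⟨h2, h3⟩
        exact h3 h2

variable {Φ : C2 L}

/-- the data of a pair -/
noncomputable abbrev D (Φ : C2 L) {M : Type} (I : Interp L M) (x y : M) : Dat L :=
  dat I (subs Φ) x y

theorem Gd.ev (h : Gd Φ) {ψ : C2 L} (hψ : ψ ∈ fo) {M : Type} (I : Interp L M) (x y : M) :
    Pool.Agent.H565R2.CO.ev ψ (D Φ I x y) ↔ Rl I ψ x y :=
  ev_dat I (subs Φ) ψ (subs_trans (h.fo_sub hψ)) x y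

theorem Gd.lab (h : Gd Φ) {ψ : C2 L} (hψ : ψ ∈ fo) {M : Type} (I : Interp L M) (x y : M)
    (b c : Bool) : (D Φ I x y).l b c ψ = Set.encard {z | Rl I ψ (cond c (pick x y b) z)
      (cond c z (pick x y b))} := by
  show Pool.Agent.H565R2.CO.lab I (subs Φ) (pick x y b) c ψ = _
  unfold Pool.Agent.H565R2.CO.lab
  rw [if_pos (h.fo_sub hψ)]
  cases c <;> rfl

/-- the formula `θ(y, y)` -/
def dg (θ : C2 L) : C2 L := .ex false 1 (cj (.eq false true) θ)

theorem fo_dg {θ : C2 L} (h : θ ∈ fo) : dg θ ∈ fo := fo_ex _ _ (fo_cj (fo_eq _ _) h)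

theorem Rl_dg {M : Type} {I : Interp L M} {θ : C2 L} {x y : M} :
    Rl I (dg θ) x y ↔ Rl I θ y y := by
  have h1 : {z | Rl I (cj (.eq false true) θ) z y} = {z | z = y ∧ Rl I θ y y} := by
    ext z
    show Rl I (cj (.eq false true) θ) z y ↔ _
    rw [Rl_cj]
    show z = y ∧ Rl I θ z y ↔ _
    constructor
    · rintro ⟨rfl, h⟩
      exact ⟨rfl, h⟩
    · rintro ⟨rfl, h⟩
      exact ⟨rfl, h⟩
  show ((1 : ℕ) : ℕ∞) ≤ Set.encard {z | Rl I (cj (.eq false true) θ) z y} ↔ _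
  rw [h1]
  constructor
  · intro h
    rw [Nat.cast_one, Set.one_le_encard_iff_nonempty] at h
    obtain ⟨z, -, hz⟩ := h
    exact hz
  · intro h
    rw [Nat.cast_one, Set.one_le_encard_iff_nonempty]
    exact ⟨y, rfl, h⟩

end Pool.Agent.Y558.C2
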