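import Pool.Agent.Y558.C2.Mod

set_option autoImplicit false
set_option linter.unusedVariables false

/-! Unravelled models. -/

namespace Pool.Agent.Y558.C2

open FirstOrder Set Filter MeasureTheory
open Pool.Agent.H565R2.FO2 (pick pick_false pick_true pick_self pick_pick Interp Code toI ofI
  toI_ofI Iso bool_fun_cases perfect_of_uncountable)
open Pool.Agent.H565R2.CO (C2 Rl subs mem_subs subs_countable subs_trans Dat lab mkd dat ev ev_dat
  Md dat_map dat_not map_not_not mkd_l mkI Coh mkI_iff mkd_mkI Rl_iso dat_f dat_t dat_iso)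
open Pool.Agent.H565R2.LO2 (PerfK perfK_of_inv iso_symm)

variable {L : FirstOrder.Language.{0, 0}} {Φ : C2 L}
variable {A : Type} {τ : A → Dat L} {t : C2 L → ℕ∞} {K : Type}

/-- the types of nonalgebraic elements -/
def NT (Φ : C2 L) (τ : A → Dat L) (t : C2 L → ℕ∞) (p : Dat L) : Prop :=
  ∃ E : Ext Φ A τ t, ∃ x, ¬ Alg E.I x ∧ p = D Φ E.I x x

theorem NT.th (hΦ : Gd Φ) {p : Dat L} (h : NT Φ τ t p) (E : Ext Φ A τ t) :
    SameTh p (D Φ E.I 0 0) := by
  obtain ⟨E', x, -, rfl⟩ := h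
  intro θ hθ
  rw [lab_dg hΦ hθ, lab_dg hΦ hθ, E'.th θ hθ, E.th θ hθ]

theorem NT.ty {p : Dat L} (h : NT Φ τ t p) : Ty Φ p := by
  obtain ⟨E, x, -, rfl⟩ := h
  exact ⟨E.I, E.hI, x, rfl⟩

theorem NT.na (hΦ : Gd Φ) {p : Dat L} (h : NT Φ τ t p) : ¬ AlgT p := by
  obtain ⟨E, x, hx, rfl⟩ := h
  rwa [← alg_iff hΦ]

theorem nt_gen [∀ n, Countable (L.Relations n)] (hΦ : Gd Φ) {p q : Dat L} (hp : NT Φ τ t p)
    (hq : NT Φ τ t q) : ∃ d, Gen Φ p q d := by
  obtain ⟨E, -⟩ := id hp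
  exact gen_exists hΦ E.hI hp.ty hq.ty (hp.na hΦ) (hq.na hΦ) (hp.th hΦ E) (hq.th hΦ E)

/-- choice of free data -/
def IsB (Φ : C2 L) (τ : A → Dat L) (t : C2 L → ℕ∞) (γ : Dat L → Dat L → Dat L) : Prop :=
  ∀ p q, NT Φ τ t p → NT Φ τ t q → Gen Φ p q (γ p q)

/-- the base data -/
def Bs (γ : Dat L → Dat L → Dat L) (p q d : Dat L) : Prop := d = γ p q ∨ d = (γ q p).map not

theorem Bs.flip {γ : Dat L → Dat L → Dat L} {p q d : Dat L} (h : Bs γ p q d) :
    Bs γ q p (d.map not) := by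
  rcases h with rfl | rfl
  · exact Or.inr rfl
  · exact Or.inl (map_not_not _)

theorem Bs.not_iff {γ : Dat L → Dat L → Dat L} {p q d : Dat L} :
    Bs γ q p (d.map not) ↔ Bs γ p q d := by
  refine ⟨fun h => ?_, fun h => h.flip⟩
  have := h.flip
  rwa [map_not_not] at this

theorem Bs.fr {γ : Dat L → Dat L → Dat L} (hγ : IsB Φ τ t γ) {p q d : Dat L} (h : Bs γ p q d)
    (hp : NT Φ τ t p) (hq : NT Φ τ t q) : Fr d := by
  rcases h with rfl | rfl
  · exact (hγ p q hp hq).fr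
  · exact (hγ q p hq hp).fr.not

/-- the nonalgebraic elements of the unravelled models -/
abbrev UW (E : K → Ext Φ A τ t) : Type :=
  {u : K × Finset (Sym2 ℕ) × ℕ // ¬ Alg (E u.1).I u.2.2}

/-- the type of an element -/
noncomputable def tp {E : K → Ext Φ A τ t} (u : UW E) : Dat L :=
  D Φ (E u.1.1).I u.1.2.2 u.1.2.2

/-- the data of a pair in the model -/
noncomputable def dd {E : K → Ext Φ A τ t} (u w : UW E) : Dat L :=
  D Φ (E u.1.1).I u.1.2.2 w.1.2.2

theorem tp_nt {E : K → Ext Φ A τ t} (u : UW E) : NT Φ τ t (tp u) := ⟨_, _, u.2, rfl⟩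

/-- neighbours in the unravelled models -/
structure Nb {E : K → Ext Φ A τ t} (γ : Dat L → Dat L → Dat L) (u w : UW E) : Prop where
  k : u.1.1 = w.1.1
  x : u.1.2.2 ≠ w.1.2.2
  b : ¬ Bs γ (tp u) (tp w) (dd u w)
  g : w.1.2.1 = symmDiff u.1.2.1 {s(u.1.2.2, w.1.2.2)}

theorem dd_not {E : K → Ext Φ A τ t} {u w : UW E} (h : u.1.1 = w.1.1) :
    dd w u = (dd u w).map not := by
  unfold dd
  rw [← h]
  exact (dat_not _ _ _ _).symm

theorem Nb.symm {E : K → Ext Φ A τ t} {γ : Dat L → Dat L → Dat L} {u w : UW E} (h : Nb γ u w) :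
    Nb γ w u := by
  refine ⟨h.k.symm, h.x.symm, ?_, ?_⟩
  · rw [dd_not h.k, Bs.not_iff]
    exact h.b
  · rw [h.g, Sym2.eq_swap, symmDiff_symmDiff_cancel_right]

/-- the data of the remaining pairs -/
structure Xi (E : K → Ext Φ A τ t) (γ : Dat L → Dat L → Dat L) (ξ : UW E → UW E → Dat L) :
    Prop where
  gen : ∀ u w, u ≠ w → Gen Φ (tp u) (tp w) (ξ u w)
  not : ∀ u w, u ≠ w → ξ w u = (ξ u w).map not
  r1 : ∀ (u : UW E) (z : ℕ), ¬ Alg (E u.1.1).I z → z ≠ u.1.2.2 →
    Bs γ (tp u) (D Φ (E u.1.1).I z z) (D Φ (E u.1.1).I u.1.2.2 z) →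
    {w | ¬ Nb γ u w ∧ u ≠ w ∧ ξ u w = D Φ (E u.1.1).I u.1.2.2 z}.Infinite

open Classical in
/-- the data of the unravelled models -/
noncomputable def ud {E : K → Ext Φ A τ t} (γ : Dat L → Dat L → Dat L) (ξ : UW E → UW E → Dat L)
    (u w : UW E) : Dat L :=
  if u = w then tp u else if Nb γ u w then dd u w else ξ u w

section
variable {E : K → Ext Φ A τ t} {γ : Dat L → Dat L → Dat L} {ξ : UW E → UW E → Dat L}

theorem ud_self (u : UW E) : ud γ ξ u u = tp u := if_pos rfl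

theorem ud_nb {u w : UW E} (h : Nb γ u w) : ud γ ξ u w = dd u w := by
  unfold ud
  rw [if_neg (fun e => h.x (by rw [e])), if_pos h]

theorem ud_xi {u w : UW E} (h : ¬ Nb γ u w) (hne : u ≠ w) : ud γ ξ u w = ξ u w := by
  unfold ud
  rw [if_neg hne, if_neg h]

open Classical in
/-- the unravelled models -/
noncomputable def unr (hγ : IsB Φ τ t γ) (hξ : Xi E γ ξ) (k0 : K) : Bp Φ A τ t (UW E) where
  B := E k0
  E u := E u.1.1
  x u := u.1.2.2
  nx u := u.2
  s _ := Equiv.refl A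
  hs _ _ := rfl
  δ := ud γ ξ
  d0 u := ud_self u
  de u w hne := by
    by_cases h : Nb γ u w
    · rw [ud_nb h]
      exact h.x
    · rw [ud_xi h hne]
      exact (hξ.gen u w hne).ne
  dn u w := by
    by_cases hne : u = w
    · subst hne
      rw [ud_self]
      exact (dat_not _ _ _ _).symm
    · by_cases h : Nb γ u w
      · rw [ud_nb h, ud_nb h.symm, dd_not h.k]
      · rw [ud_xi h hne, ud_xi (fun h' => h h'.symm) (Ne.symm hne), hξ.not u w hne]
  da u w hne := by
    by_cases h : Nb γ u w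
    · rw [ud_nb h]
      exact dat_f _ _ _ _
    · rw [ud_xi h hne]
      exact (hξ.gen u w hne).h0
  dΦ u w := by
    by_cases hne : u = w
    · subst hne
      rw [ud_self]
      exact ev_Φ (E u.1.1).hI _ _
    · by_cases h : Nb γ u w
      · rw [ud_nb h]
        exact ev_Φ (E u.1.1).hI _ _
      · rw [ud_xi h hne]
        exact (hξ.gen u w hne).e1
  N u := {z | ¬ Alg (E u.1.1).I z ∧ z ≠ u.1.2.2 ∧
    ¬ Bs γ (tp u) (D Φ (E u.1.1).I z z) (D Φ (E u.1.1).I u.1.2.2 z)}
  e u z := if h : ¬ Alg (E u.1.1).I z then ⟨(u.1.1, symmDiff u.1.2.1 {s(u.1.2.2, z)}, z), h⟩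
    else u
  Na u z hz := ⟨hz.1, hz.2.1⟩
  ei u z hz z' hz' h := by
    simp only [dif_pos hz.1, dif_pos hz'.1, Subtype.mk.injEq, Prod.mk.injEq] at h
    exact h.2.2
  eu u z hz := by
    intro h
    simp only [dif_pos hz.1] at h
    have := congrArg (fun u : UW E => u.1.2.2) h
    exact hz.2.1 this
  ed u z hz := by
    simp only [dif_pos hz.1]
    rw [ud_nb]
    · rfl
    · exact ⟨rfl, fun h => hz.2.1 h.symm, hz.2.2, rfl⟩
  fr u z hz h1 h2 := by
    have h3 : Bs γ (tp u) (D Φ (E u.1.1).I z z) (D Φ (E u.1.1).I u.1.2.2 z) := by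
      by_contra h
      exact hz ⟨h1, h2, h⟩
    exact h3.fr hγ (tp_nt u) ⟨_, _, h1, rfl⟩
  fr' u w hne hw := by
    have h : ¬ Nb γ u w := by
      intro h
      have hz : ¬ Alg (E u.1.1).I w.1.2.2 := by
        rw [h.k]
        exact w.2
      refine hw ⟨w.1.2.2, ⟨hz, h.x.symm, ?_⟩, ?_⟩
      · have := h.b
        unfold tp dd at this
        rw [← h.k] at this
        exact this
      · simp only [dif_pos hz]
        apply Subtype.ext
        refine Prod.ext h.k (Prod.ext h.g.symm rfl)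
    rw [ud_xi h (Ne.symm hne)]
    exact (hξ.gen u w (Ne.symm hne)).fr

theorem unr_rich (hΦ : Gd Φ) (hγ : IsB Φ τ t γ) (hξ : Xi E γ ξ) (k0 : K) :
    (unr hγ hξ k0).Rich := by
  refine Bp.rich _ hΦ (fun u z h1 h2 h3 => ?_) (fun z hz a => ?_)
  · have h4 : Bs γ (tp u) (D Φ (E u.1.1).I z z) (D Φ (E u.1.1).I u.1.2.2 z) := by
      by_contra h
      exact h1 ⟨h2, h3, h⟩
    refine (hξ.r1 u z h2 h3 h4).mono ?_
    rintro w ⟨hw1, hw2, hw3⟩
    show ud γ ξ u w = _
    rw [ud_xi hw1 hw2, hw3]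
    rfl
  · have hinj : Function.Injective fun g : Finset (Sym2 ℕ) => (⟨(k0, g, z), hz⟩ : UW E) := by
      intro g g' h
      exact congrArg (fun u : UW E => u.1.2.1) h
    refine (infinite_range_of_injective hinj).mono ?_
    rintro _ ⟨g, rfl⟩
    rfl

end

/-- codes of the structures given by data -/
noncomputable def cd (δ : ℕ → ℕ → Dat L) : Code L := ofI (mkI δ)

theorem toI_cd (δ : ℕ → ℕ → Dat L) : toI (cd δ) = mkI δ := toI_ofI _

theorem meas_cd {Y : Type} [MeasurableSpace Y] (δ : Y → ℕ → ℕ → Dat L)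
    (h : ∀ i j n (R : L.Relations n) (v : Fin n → Bool),
      Measurable fun S => (δ S i j).a n R v) : Measurable fun S => cd (δ S) := by
  refine measurable_pi_lambda _ fun k => ?_
  obtain ⟨n, R, s⟩ := k
  apply measurable_to_bool
  have e1 : (fun S => cd (δ S) ⟨n, R, s⟩) ⁻¹' {true} =
      {S | ∃ u w : ℕ, ∃ v : Fin n → Bool, s = (fun k => pick u w (v k)) ∧ (δ S u w).a n R v} := by
    ext S
    simp only [mem_preimage, mem_singleton_iff, mem_ofPred_eq]
    have h1 : toI (cd (δ S)) n R s ↔ mkI (δ S) n R s := by rw [toI_cd]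
    exact h1
  rw [e1]
  refine measurableSet_setOfPred.2 ?_
  exact Measurable.exists fun u => Measurable.exists fun w => Measurable.exists fun v =>
    measurable_const.and (h u w n R v)

/-- the default orientation -/
theorem inf_par {X : Type} [Infinite X] {W : Type} (f : X → W) (hf : Function.Injective f)
    (num : W → ℕ) (hn : Function.Injective num) (u : W) : {g | num u < num (f g)}.Infinite := by
  have h1 : ({g | num u < num (f g)}ᶜ : Set X).Finite := by
    have : ({g | num u < num (f g)}ᶜ : Set X) ⊆ (fun g => num (f g)) ⁻¹' (Iic (num u)) := by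
      intro g hg
      simp only [mem_compl_iff, mem_ofPred_eq, not_lt] at hg
      exact hg
    exact ((finite_Iic _).preimage ((hn.comp hf).injOn)).subset this
  intro h2
  have h3 := h1.union h2
  rw [compl_union_self] at h3
  exact infinite_univ h3

end Pool.Agent.Y558.C2
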